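import Pool.Agent.Work.MP_80e05d_ag.XP.A0

/-!
A3 (S-M).  B(y) sigma(y) = 0 and its polarisation.
Proof.  Bilinear expansions: BB_apply, sg_apply, sgf_zero, sgf_one, sgf_two, DD_apply, mv_zero, mv_one, mv_two, hsA, hsB (all in Defs).
Ext over the index in Fin 3 (fin_cases), simp with these, ring.  If this is heavy, first prove it for the cross product part with dd_comm
(A1, may be imported) and the part with c separately: D_(m_1)(hsA y) + D_(m_2)(hsB y) = 0, three components:
y0(-4y1)+y1(6y0) + y1(-2y0)+0 = 0; y0(2y2)+y1(-4y1) + y1(4y1)+y2(-2y0) = 0; 0+y1(2y2) + y1(-6y2)+y2(4y1) = 0.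
The polarisation follows by expanding BB (y+v) (sg (y+v) b) = 0 with bilinearity.
-/

namespace Pool.Agent.XP
open MvPolynomial Module

theorem bb_sg (y : V5) (b : Bsp) : BB y (sg y b) = 0 := by
  funext i
  rw [BB_apply, sg_apply, sgf_zero, sgf_one, sgf_two, mv_zero, mv_one, mv_two]
  simp only [Pi.add_apply, DD_apply, Pi.sub_apply, Pi.smul_apply, Pi.zero_apply, smul_eq_mul]
  fin_cases i <;> simp [hsA, hsB, Fin.castSucc, Fin.succ] <;> ring

theorem bb_sg_polar (y v : V5) (b : Bsp) : BB y (sg v b) + BB v (sg y b) = 0 := by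
  have h := bb_sg (y + v) b
  simp only [map_add, LinearMap.add_apply] at h
  have h1 := bb_sg y b
  have h2 := bb_sg v b
  rw [h1, h2] at h
  rw [zero_add, add_zero] at h
  rw [← h]
  first | rfl | exact add_comm _ _

theorem bb_sg_of_ker {y : V5} {b : Bsp} (h : sg y b = 0) (v : V5) : BB y (sg v b) = 0 := by
  have h1 := bb_sg_polar y v b
  rwa [h, map_zero, add_zero] at h1

end Pool.Agent.XP
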