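import Pool.Agent.Work.MP_80e05d_ag.XP.A1

/-!
A4 (S).  B(y) is onto for y nonzero, and ker B(y) has dimension 9.
Proof.  y nonzero implies mv y i nonzero for some i (its entries are y0,y1,y1,y2,y3,y4).  Given g take h = Pi.single i f with D_(mv y i) f = g (dd_surj).
finrank Hsp = 12, finrank (Fin 3 -> C) = 3, rank-nullity.
-/

namespace Pool.Agent.XP
open MvPolynomial Module

theorem mv_ne_zero {y : V5} (hy : y ≠ 0) : ∃ i, mv y i ≠ 0 := by
  by_contra hno
  push Not at hno
  apply hy
  have h0 := hno 0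
  have h1 := hno 1
  have h2 := hno 2
  rw [mv_zero] at h0
  rw [mv_one] at h1
  rw [mv_two] at h2
  have a0 : y 0 = 0 := congrFun h0 0
  have a1 : y 1 = 0 := congrFun h0 1
  have a2 : y 2 = 0 := congrFun h1 1
  have a3 : y 3 = 0 := congrFun h2 0
  have a4 : y 4 = 0 := congrFun h2 1
  funext i
  fin_cases i
  · exact a0
  · exact a1
  · exact a2
  · exact a3
  · exact a4

theorem bb_surj {y : V5} (hy : y ≠ 0) : Function.Surjective (BB y) := by
  intro g
  obtain ⟨i, hi⟩ := mv_ne_zero hy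
  obtain ⟨f, hf⟩ := dd_surj 3 hi g
  refine ⟨Pi.single i f, ?_⟩
  have h1 : BB y (Pi.single i f) = ∑ j, DD 3 (mv y j) ((Pi.single i f : Hsp) j) := rfl
  rw [h1, Finset.sum_eq_single i]
  · rw [Pi.single_eq_same, hf]
  · intro j _ hj
    rw [Pi.single_eq_of_ne hj, map_zero]
  · intro h
    exact absurd (Finset.mem_univ i) h

theorem bb_ker {y : V5} (hy : y ≠ 0) : finrank ℂ (LinearMap.ker (BB y)) = 9 := by
  have h1 := LinearMap.finrank_range_add_finrank_ker (BB y)
  rw [LinearMap.range_eq_top.2 (bb_surj hy), finrank_top] at h1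
  have h2 : finrank ℂ (Fin 3 → ℂ) = 3 := Module.finrank_fin_fun ℂ
  have h3 : finrank ℂ Hsp = 12 := by
    rw [Module.finrank_pi_fintype]
    simp only [Module.finrank_fin_fun, Finset.sum_const, Finset.card_univ, Fintype.card_fin,
      smul_eq_mul]
  omega

end Pool.Agent.XP
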