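import Pool.Agent.Work.MP_80e05d_ag.XP.C8
import Pool.Agent.Work.MP_80e05d_ag.XP.A4
import Pool.Agent.Work.MP_80e05d_ag.XP.A3

/-!
C9 (M).  A point where the derivative is not onto, outside the line, gives an element of one of the sets E2set.

Proof.  (1) y i0 nonzero for some i0; replace y by y/(y i0): NN L (c y) = c NN L y, W, Valid are unchanged (Valid: BB (cy) h = c BB y h).
(2) b = bb L u is nonzero (ub b = u nonzero), so cB j b is nonzero for some j (the coordinates determine b); replace u by a multiple: cB j b = 1; ub b nonzero, ap L (ub b) = cs b (ub_bb, cs_bb), sg y b = NN L y u = 0.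
(3) z = finrank (ZB b): y is in ZB b and nonzero, so z >= 1; if z = 5 then sg v b = 0 for all v, b = 0 by eq_zero_of_sg (A15), contradiction; z <= 5 = finrank V5.
(4) BB y is onto C^3 (bb_surj), so among its 12 columns (the values at the basis vectors of Hsp) there are three independent ones, at positions R (injective): PivB y R.
(5) xi' h = <xi0, h> for a unique xi0 in Hsp.  Choose rho in C^3 such that xi(h) = xi'(h) - rho . BB y h vanishes at the three basis vectors at R (the 3 x 3 matrix is invertible).  Since BB y kills NN L y u'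
(bb_sg) and sg v b (bb_sg_of_ker), xi kills them as well; xi is not zero because xi' is nonzero on some h in ker (BB y) (Valid).  So some coordinate l of xi is nonzero; scale: xi l = 1.
-/

namespace Pool.Agent.XP
open MvPolynomial Module

/-- the unit vectors of `Hsp` -/
private def eH (p : Fin 3 × Fin 4) : Hsp := Pi.single p.1 (Pi.single p.2 1)

private theorem eH_apply (p : Fin 3 × Fin 4) (i : Fin 3) (k : Fin 4) :
    eH p i k = if p = (i, k) then 1 else 0 := by
  obtain ⟨a, c⟩ := p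
  by_cases h1 : a = i
  · subst h1
    by_cases h2 : c = k
    · subst h2
      simp [eH]
    · rw [if_neg (fun h => h2 (congrArg Prod.snd h))]
      simp only [eH, Pi.single_eq_same]
      exact Pi.single_eq_of_ne (Ne.symm h2) _
  · rw [if_neg (fun h => h1 (congrArg Prod.fst h))]
    simp only [eH]
    rw [Pi.single_eq_of_ne (Ne.symm h1)]
    rfl

private theorem sum_eH (h : Hsp) : h = ∑ p : Fin 3 × Fin 4, h p.1 p.2 • eH p := by
  funext i k
  rw [Finset.sum_apply, Finset.sum_apply, Finset.sum_eq_single (i, k)]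
  · simp [eH_apply]
  · intro p _ hp
    rw [Pi.smul_apply, Pi.smul_apply, eH_apply, if_neg hp, smul_zero]
  · intro hp
    exact absurd (Finset.mem_univ _) hp

private theorem dp_of (x : Hsp →ₗ[ℂ] ℂ) (h : Hsp) : dp (fun i k => x (eH (i, k))) h = x h := by
  conv_rhs => rw [sum_eH h, map_sum]
  rw [dp_apply, ← Finset.univ_product_univ, Finset.sum_product]
  refine Finset.sum_congr rfl fun i _ => Finset.sum_congr rfl fun k _ => ?_
  rw [map_smul, smul_eq_mul, mul_comm]

private theorem exists_piv {y : V5} (hy : y ≠ 0) :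
    ∃ R : Fin 3 → Fin 3 × Fin 4, Function.Injective R ∧
      LinearIndependent ℂ (fun n => BB y (eH (R n))) := by
  obtain ⟨κ, a, ha, hspan, hli⟩ := exists_linearIndependent' ℂ (fun p => BB y (eH p))
  have htop : Submodule.span ℂ (Set.range fun p => BB y (eH p)) = ⊤ := by
    rw [eq_top_iff]
    rintro v -
    obtain ⟨h, rfl⟩ := bb_surj hy v
    rw [sum_eH h, map_sum]
    refine Submodule.sum_mem _ fun p _ => ?_
    rw [map_smul]
    exact Submodule.smul_mem _ _ (Submodule.subset_span ⟨p, rfl⟩)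
  haveI : Finite κ := Finite.of_injective a ha
  haveI : Fintype κ := Fintype.ofFinite κ
  rw [htop] at hspan
  have hcard : Fintype.card κ = 3 := by
    have h1 := Module.finrank_eq_card_basis (Module.Basis.mk hli hspan.ge)
    rw [← h1]
    simp
  let e : Fin 3 ≃ κ := (finCongr hcard.symm).trans (Fintype.equivFin κ).symm
  refine ⟨a ∘ e, ha.comp e.injective, ?_⟩
  exact hli.comp e e.injective

private theorem pivB_of {y : V5} {R : Fin 3 → Fin 3 × Fin 4} (hR : Function.Injective R)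
    (hli : LinearIndependent ℂ (fun n => BB y (eH (R n)))) : PivB y R := by
  refine ⟨hR, fun h hsup hB => ?_⟩
  have h1 : h = ∑ n, h (R n).1 (R n).2 • eH (R n) := by
    funext i k
    rw [Finset.sum_apply, Finset.sum_apply]
    by_cases hx : ∃ n, R n = (i, k)
    · obtain ⟨n, hn⟩ := hx
      rw [Finset.sum_eq_single n]
      · rw [Pi.smul_apply, Pi.smul_apply, eH_apply, if_pos hn, hn, smul_eq_mul, mul_one]
      · intro m _ hm
        rw [Pi.smul_apply, Pi.smul_apply, eH_apply, if_neg, smul_zero]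
        intro h2
        exact hm (hR (h2.trans hn.symm))
      · intro h2
        exact absurd (Finset.mem_univ _) h2
    · push Not at hx
      rw [hsup i k hx]
      symm
      refine Finset.sum_eq_zero fun n _ => ?_
      rw [Pi.smul_apply, Pi.smul_apply, eH_apply, if_neg (hx n), smul_zero]
  have h2 : ∑ n, h (R n).1 (R n).2 • BB y (eH (R n)) = 0 := by
    rw [← hB]
    conv_rhs => rw [h1, map_sum]
    refine Finset.sum_congr rfl fun n _ => ?_
    rw [map_smul]
  have h3 := Fintype.linearIndependent_iff.1 hli _ h2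
  rw [h1]
  refine Finset.sum_eq_zero fun n _ => ?_
  rw [h3 n, zero_smul]

private theorem exists_cB {b : Bsp} (hb : b ≠ 0) : ∃ j, cB j b ≠ 0 := by
  by_contra hcon
  push Not at hcon
  apply hb
  obtain ⟨p, c⟩ := b
  refine Prod.ext ?_ (hcon none)
  funext i k
  exact hcon (some (i, k))

private theorem core {L : Par} {y : V5} (hw : W y) (hy0 : y ≠ 0) {i0 : Fin 5} (hy1 : y i0 = 1)
    {u : Usp} (hu : u ≠ 0) (hN : NN L y u = 0)
    {xi : Hsp →ₗ[ℂ] ℂ} (hv : Valid L y xi) (h : ∀ v, xi (sg v (bb L u)) = 0)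
    {j : Option (Fin 3 × Fin 5)} (hj : cB j (bb L u) = 1) :
    ∃ R l z, 1 ≤ z ∧ z ≤ 4 ∧ L ∈ E2set i0 j R l z := by
  have hsy : sg y (bb L u) = 0 := hN
  have hb0 : bb L u ≠ 0 := by
    intro h0
    rw [h0, map_zero] at hj
    exact zero_ne_one hj
  have hz1 : 1 ≤ finrank ℂ (ZB (bb L u)) := by
    rw [Nat.one_le_iff_ne_zero]
    intro h0
    rw [Submodule.finrank_eq_zero] at h0
    have h1 : y ∈ ZB (bb L u) := mem_ZB.2 hsy
    rw [h0, Submodule.mem_bot] at h1
    exact hy0 h1
  have hz4 : finrank ℂ (ZB (bb L u)) ≤ 4 := by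
    by_contra hcon
    have h5 : finrank ℂ V5 = 5 := by simp
    have h6 := Submodule.finrank_le (ZB (bb L u))
    have h7 : ZB (bb L u) = ⊤ := Submodule.eq_top_of_finrank_eq (by omega)
    refine hb0 (eq_zero_of_sg fun v => ?_)
    have h8 : v ∈ ZB (bb L u) := by
      rw [h7]
      exact Submodule.mem_top
    exact mem_ZB.1 h8
  obtain ⟨R, hR, hli⟩ := exists_piv hy0
  have hcard : Fintype.card (Fin 3) = finrank ℂ (Fin 3 → ℂ) := by simp
  let bas := basisOfLinearIndependentOfCardEqFinrank hli hcard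
  have hbas : ∀ n, bas n = BB y (eH (R n)) := fun n => by
    simp [bas]
  let rho : (Fin 3 → ℂ) →ₗ[ℂ] ℂ := bas.constr ℂ (fun n => xi (eH (R n)))
  have hrho : ∀ n, rho (BB y (eH (R n))) = xi (eH (R n)) := fun n => by
    rw [← hbas n]
    exact bas.constr_basis ℂ _ n
  let x2 : Hsp →ₗ[ℂ] ℂ := xi - rho ∘ₗ BB y
  have hx2 : ∀ q, x2 q = xi q - rho (BB y q) := fun q => rfl
  obtain ⟨hv1, q0, hq0, hq1⟩ := hv
  have hl : ∃ l : Fin 3 × Fin 4, x2 (eH l) ≠ 0 := by
    by_contra hcon
    push Not at hcon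
    apply hq1
    have h1 : x2 q0 = 0 := by
      rw [sum_eH q0, map_sum]
      refine Finset.sum_eq_zero fun p _ => ?_
      rw [map_smul, hcon, smul_zero]
    rw [hx2, hq0, map_zero, sub_zero] at h1
    exact h1
  obtain ⟨l, hl⟩ := hl
  let x3 : Hsp →ₗ[ℂ] ℂ := (x2 (eH l))⁻¹ • x2
  have hx3 : ∀ q, x3 q = (x2 (eH l))⁻¹ * x2 q := fun q => rfl
  refine ⟨R, l, finrank ℂ (ZB (bb L u)), hz1, hz4, y, bb L u, fun i k => x3 (eH (i, k)), hy1, hw,
    hsy, hj, rfl, pivB_of hR hli, ?_, ?_, ?_, ?_, ?_, ?_⟩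
  · intro k
    change x3 (eH (R k)) = 0
    rw [hx3, hx2 (eH (R k)), hrho, sub_self, mul_zero]
  · intro v
    rw [dp_of, hx3, hx2 (sg v (bb L u)), h v, bb_sg_of_ker hsy v, map_zero, sub_zero, mul_zero]
  · change x3 (eH l) = 1
    rw [hx3, inv_mul_cancel₀ hl]
  · rw [ub_bb]
    exact hu
  · rw [ub_bb, cs_bb]
  · intro u'
    have h1 : BB y (NN L y u') = 0 := by
      rw [NN_apply]
      exact bb_sg y _
    rw [dp_of, hx3, hx2 (NN L y u'), hv1 u', h1, map_zero, sub_zero, mul_zero]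

theorem mem_E2set {L : Par} {y : V5} (hw : W y) {u : Usp} (hu : u ≠ 0) (hN : NN L y u = 0)
    {xi : Hsp →ₗ[ℂ] ℂ} (hv : Valid L y xi) (h : ∀ v, xi (sg v (bb L u)) = 0) :
    ∃ i0 j R l z, 1 ≤ z ∧ z ≤ 4 ∧ L ∈ E2set i0 j R l z := by
  have hi : ∃ i0 : Fin 5, y i0 ≠ 0 := by
    rcases hw with h1 | h1 | h1
    · exact ⟨0, h1⟩
    · exact ⟨1, h1⟩
    · exact ⟨2, h1⟩
  obtain ⟨i0, hi0⟩ := hi
  have hb : bb L u ≠ 0 := by
    intro h0
    apply hu
    rw [← ub_bb L u, h0, map_zero]
  obtain ⟨j, hj⟩ := exists_cB hb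
  have hc : (y i0)⁻¹ ≠ 0 := inv_ne_zero hi0
  have ht : (cB j (bb L u))⁻¹ ≠ 0 := inv_ne_zero hj
  have hNs : ∀ u', NN L ((y i0)⁻¹ • y) u' = (y i0)⁻¹ • NN L y u' := by
    intro u'
    rw [NN_apply, NN_apply, map_smul, LinearMap.smul_apply]
  have h1 := core (L := L) (y := (y i0)⁻¹ • y) (u := (cB j (bb L u))⁻¹ • u) (xi := xi)
    (i0 := i0) (j := j) ?_ ?_ ?_ ?_ ?_ ?_ ?_ ?_
  · obtain ⟨R, l, z, h2, h3, h4⟩ := h1
    exact ⟨i0, j, R, l, z, h2, h3, h4⟩
  · rcases hw with h1 | h1 | h1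
    · exact Or.inl (mul_ne_zero hc h1)
    · exact Or.inr (Or.inl (mul_ne_zero hc h1))
    · exact Or.inr (Or.inr (mul_ne_zero hc h1))
  · intro h0
    have h2 := congrFun h0 i0
    rw [Pi.smul_apply, smul_eq_mul, inv_mul_cancel₀ hi0] at h2
    exact one_ne_zero h2
  · rw [Pi.smul_apply, smul_eq_mul, inv_mul_cancel₀ hi0]
  · exact smul_ne_zero ht hu
  · rw [hNs, map_smul, hN, smul_zero, smul_zero]
  · refine ⟨fun u' => ?_, ?_⟩
    · rw [hNs, map_smul, hv.1 u', smul_zero]
    · obtain ⟨q, hq, hq'⟩ := hv.2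
      refine ⟨q, ?_, hq'⟩
      rw [map_smul, LinearMap.smul_apply, hq, smul_zero]
  · intro v
    rw [map_smul, map_smul, map_smul, h v, smul_zero]
  · rw [map_smul, map_smul, smul_eq_mul, inv_mul_cancel₀ hj]

end Pool.Agent.XP
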