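import Pool.Agent.Work.MP_80e05d_ag.XP.TA

/-!
TC (M).  A k-thin subset of E with k < dim E is contained in a null set, so it contains no nonempty open set.

Proof.  N = dim E.  Let e : C^N -> C^k be the projection to the first k coordinates and Z the subspace of C^N of
vectors whose coordinates with index >= k vanish (a proper subspace since k < N, so a null set:
`MeasureTheory.Measure.addHaar_submodule`).  Compose the charts with a linear isomorphism E = C^N (continuous):
the map f_i o e : C^N -> E = C^N is (real) differentiable on the open set e^(-1)(s_i), and f_i(s_i) = (f_i o e)(Z cap e^(-1)(s_i)).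
The image of a null set under a map differentiable on it between spaces of the same dimension is null:
`MeasureTheory.addHaar_image_eq_zero_of_differentiableOn_of_addHaar_eq_zero` (real scalars: DifferentiableOn.restrictScalars).
Countable unions of null sets are null; a nonempty open set has positive measure
(`IsOpen.measure_pos`); transport back to E by the isomorphism (or use addHaar on E directly).
-/

namespace Pool.Agent.XP

variable {E : Type*} [NormedAddCommGroup E] [NormedSpace ℂ E]

theorem Thin.exists_notMem [FiniteDimensional ℂ E] {k : ℕ} {A : Set E} (h : Thin k A)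
    (hk : k < Module.finrank ℂ E) {W : Set E} (hW : IsOpen W) (hne : W.Nonempty) :
    ∃ x ∈ W, x ∉ A := by
  obtain ⟨f, s, hfs, hA⟩ := h
  let _ : MeasurableSpace E := borel E
  have : BorelSpace E := ⟨rfl⟩
  obtain ⟨μ, hμ⟩ : ∃ μ : MeasureTheory.Measure E, μ.IsAddHaarMeasure :=
    ⟨MeasureTheory.Measure.addHaar, inferInstance⟩
  have := hμ
  let b := Module.finBasis ℂ E
  let L : E →L[ℂ] (Fin k → ℂ) := LinearMap.toContinuousLinearMap
    (LinearMap.pi fun i => b.coord (Fin.castLE hk.le i))
  let S : (Fin k → ℂ) →ₗ[ℂ] E := Fintype.linearCombination ℂ fun i => b (Fin.castLE hk.le i)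
  have hLS : ∀ t, L (S t) = t := by
    intro t
    funext i
    change b.coord (Fin.castLE hk.le i) (S t) = t i
    have h1 : S t = ∑ j, t j • b (Fin.castLE hk.le j) := rfl
    rw [h1, map_sum, Finset.sum_eq_single i]
    · simp
    · intro j _ hj
      have h2 : Fin.castLE hk.le j ≠ Fin.castLE hk.le i := fun h3 =>
        hj (Fin.castLE_injective hk.le h3)
      rw [map_smul, Module.Basis.coord_apply, Module.Basis.repr_self,
        Finsupp.single_eq_of_ne h2.symm, smul_zero]
    · intro hi
      exact absurd (Finset.mem_univ i) hi
  have hZ : (LinearMap.range S).restrictScalars ℝ ≠ ⊤ := by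
    intro hZ
    have h1 : LinearMap.range S = ⊤ := by
      rw [eq_top_iff]
      intro x _
      have h2 : x ∈ (LinearMap.range S).restrictScalars ℝ := by
        rw [hZ]
        trivial
      exact h2
    have h2 : Module.finrank ℂ (LinearMap.range S) ≤ k := by
      have h3 := LinearMap.finrank_range_le S
      rwa [Module.finrank_fin_fun] at h3
    rw [h1, finrank_top] at h2
    omega
  have hZ0 : μ ((LinearMap.range S : Submodule ℂ E) : Set E) = 0 :=
    MeasureTheory.Measure.addHaar_submodule μ _ hZ
  have hi : ∀ i, μ (f i '' s i) = 0 := by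
    intro i
    have h1 : DifferentiableOn ℂ (fun x => f i (L x)) (L ⁻¹' s i) :=
      (hfs i).2.comp L.differentiable.differentiableOn (Set.mapsTo_preimage _ _)
    have h2 : DifferentiableOn ℝ (fun x => f i (L x))
        (((LinearMap.range S : Submodule ℂ E) : Set E) ∩ L ⁻¹' s i) :=
      (h1.restrictScalars ℝ).mono Set.inter_subset_right
    have h3 := MeasureTheory.addHaar_image_eq_zero_of_differentiableOn_of_addHaar_eq_zero μ h2
      (MeasureTheory.measure_mono_null Set.inter_subset_left hZ0)
    refine MeasureTheory.measure_mono_null ?_ h3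
    rintro y ⟨t, ht, rfl⟩
    refine ⟨S t, ⟨⟨t, rfl⟩, ?_⟩, ?_⟩
    · change L (S t) ∈ s i
      rw [hLS]
      exact ht
    · change f i (L (S t)) = f i t
      rw [hLS]
  by_contra hcon
  push Not at hcon
  have h0 : μ W = 0 := by
    refine MeasureTheory.measure_mono_null (fun x hx => hA (hcon x hx)) ?_
    exact MeasureTheory.measure_iUnion_null hi
  exact (hW.measure_pos μ hne).ne' h0

end Pool.Agent.XP
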