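import Pool.Agent.Work.MP_80e05d_ag.XP.C3
import Pool.Agent.Work.MP_80e05d_ag.XP.C9
import Pool.Agent.Work.MP_80e05d_ag.XP.TC

/-!
Cmain (S-M).  Generic parameters are good outside the line.
Proof.  The set bad = {L : some y with W y and 3 <= dim ker (NN L y)} union all E2set i0 j R l z (1 <= z <= 4) is 59-thin (thin_E1 with Thin.le, thin_E2, Thin.iUnion over the countable index sets; the union of the two as an
iUnion over Bool), finrank Par = 60 (Par = Fin 2 -> Fin 5 -> ((Fin 5 -> C) x C)), so by Thin.exists_notMem there is L in the open set outside bad.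
For W y: GoodAt: the kernel has dimension < 3; the second clause by contradiction with mem_E2set (push_neg).
-/

namespace Pool.Agent.XP
open MvPolynomial Module

/-- the bad sets -/
private def cmBad : Option (Fin 5 × Option (Fin 3 × Fin 5) × (Fin 3 → Fin 3 × Fin 4) ×
    (Fin 3 × Fin 4) × Fin 4) → Set Par
  | none => {L : Par | ∃ y : V5, W y ∧ 3 ≤ finrank ℂ (LinearMap.ker (NN L y))}
  | some (i0, j, R, l, z) => E2set i0 j R l (z.val + 1)

theorem dense_good (W' : Set Par) (hW : IsOpen W') (hne : W'.Nonempty) :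
    ∃ L ∈ W', ∀ y : V5, (y 0 ≠ 0 ∨ y 1 ≠ 0 ∨ y 2 ≠ 0) → GoodAt L y := by
  have hA : Thin 59 (⋃ o, cmBad o) := by
    apply Thin.iUnion
    intro o
    rcases o with _ | ⟨i0, j, R, l, z⟩
    · exact Thin.le (by norm_num) thin_E1
    · exact thin_E2 i0 j R l (by omega) (by omega)
  have hfin : 59 < finrank ℂ Par := by
    have h1 : finrank ℂ Par = 60 := by
      simp [Par, Csp, Module.finrank_pi_fintype, Module.finrank_prod]
    omega
  obtain ⟨L, hL, hLn⟩ := Thin.exists_notMem hA hfin hW hne
  refine ⟨L, hL, fun y hy => ⟨?_, ?_⟩⟩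
  · by_contra h
    apply hLn
    exact Set.mem_iUnion.2 ⟨none, y, hy, by omega⟩
  · intro u hN hu xi hv
    by_contra hcon
    push Not at hcon
    obtain ⟨i0, j, R, l, z, h1, h4, hmem⟩ := mem_E2set hy hu hN hv hcon
    apply hLn
    refine Set.mem_iUnion.2 ⟨some (i0, j, R, l, ⟨z - 1, by omega⟩), ?_⟩
    show L ∈ E2set i0 j R l (z - 1 + 1)
    rw [Nat.sub_add_cancel h1]
    exact hmem

end Pool.Agent.XP
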