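import Pool.Agent.Work.MP_80e05d_ag.XP.Defs

/-!
ConeX (S-M).  XX L is the zero set of homogeneous polynomials (the 9 x 9 minors).

Proof.  The entries of NM L y are LINEAR in y: NM L y r c = sum_k y_k * NM L (e_k) r c with e_k = Pi.single k 1
(sg is linear in y: y = sum_k y_k e_k).  So with the matrix of polynomials
P r c = sum_k C (NM L (Pi.single k 1) r c) * X k (homogeneous of degree 1) we have eval y (P r c) = NM L y r c, hence
eval y (det (P.submatrix r c)) = det ((NM L y).submatrix r c) (RingHom.map_det), and the determinant of a 9 x 9 matrix with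
homogeneous entries of degree 1 is homogeneous of degree 9 (det_apply, IsHomogeneous.sum, .prod, smul by a sign).
S = the set of all these determinants.
Please also prove the two auxiliary lemmas `NMp_eval` and `NMp_hom` stated below (used by other modules).
-/

namespace Pool.Agent.XP
open MvPolynomial

/-- the matrix of polynomials -/
noncomputable def NMp (L : Par) : Matrix (Fin 3 × Fin 4) (Fin 2 × Fin 5) (MvPolynomial (Fin 5) ℂ) :=
  fun r c => ∑ k, C (NM L (Pi.single k 1) r c) * X k

theorem NMp_eval (L : Par) (y : V5) (r : Fin 3 × Fin 4) (c : Fin 2 × Fin 5) :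
    eval y (NMp L r c) = NM L y r c := by
  have hlin : ∀ z : V5, NM L z r c =
      ((LinearMap.proj r.2 ∘ₗ LinearMap.proj (R := ℂ) (φ := fun _ : Fin 3 => Fin 4 → ℂ) r.1) ∘ₗ
        (sg.flip (bb L (eU c)))) z := fun z => rfl
  have hy : y = ∑ k, y k • (Pi.single k (1 : ℂ) : V5) := by
    ext i
    simp [Finset.sum_apply, Pi.single_apply]
  conv_rhs => rw [hlin, hy, map_sum]
  unfold NMp
  rw [map_sum]
  refine Finset.sum_congr rfl fun k _ => ?_
  rw [map_mul, eval_C, eval_X, map_smul, hlin, smul_eq_mul, mul_comm]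

theorem NMp_hom (L : Par) (r : Fin 3 × Fin 4) (c : Fin 2 × Fin 5) :
    (NMp L r c).IsHomogeneous 1 := by
  unfold NMp
  refine IsHomogeneous.sum _ _ _ fun k _ => ?_
  have := (isHomogeneous_C (Fin 5) (NM L (Pi.single k 1) r c)).mul (isHomogeneous_X ℂ k)
  rwa [zero_add] at this

theorem cone_XX (L : Par) : IsCone (XX L) := by
  refine ⟨Set.range fun x : (Fin 9 → Fin 3 × Fin 4) × (Fin 9 → Fin 2 × Fin 5) =>
    ((NMp L).submatrix x.1 x.2).det, ?_, ?_⟩
  · rintro F ⟨x, rfl⟩
    refine ⟨9, ?_⟩
    simp only [Matrix.det_apply]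
    refine IsHomogeneous.sum _ _ _ fun σ _ => ?_
    have h1 : (∏ i : Fin 9, ((NMp L).submatrix x.1 x.2) (σ i) i).IsHomogeneous
        (∑ _i : Fin 9, 1) :=
      IsHomogeneous.prod _ _ _ fun i _ => NMp_hom L _ _
    have h2 : (∑ _i : Fin 9, 1) = 9 := by simp
    rw [h2] at h1
    rcases Int.units_eq_one_or (Equiv.Perm.sign σ) with h | h
    · rw [h, one_smul]
      exact h1
    · rw [h, Units.neg_smul, one_smul]
      exact h1.neg
  · ext y
    constructor
    · rintro h F ⟨x, rfl⟩
      have := h x.1 x.2
      simp only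
      rw [RingHom.map_det]
      convert this using 2
      ext i j
      simp [NMp_eval]
    · intro h r c
      have := h _ ⟨(r, c), rfl⟩
      simp only at this
      rw [RingHom.map_det] at this
      convert this using 2
      ext i j
      simp [NMp_eval]

end Pool.Agent.XP
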