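import Pool.Agent.Work.MP_80e05d_ag.XP.Defs

/-!
D6 (S-M).  The derivative of a polynomial function.
Proof: induction on the polynomial (MvPolynomial.induction_on): constants, sums, products with a variable; grad of C, of a sum and of p * X_i from pderiv_C, map_add, pderiv_mul (Leibniz), pderiv_X.
The derivative as a continuous linear map: sum_i (grad F y i) • proj i (ContinuousLinearMap.proj).
-/

namespace Pool.Agent.XP
open MvPolynomial Module

private theorem sum_grad_apply (g : Fin 5 → ℂ) (v : V5) :
    (∑ i, g i • (ContinuousLinearMap.proj i : V5 →L[ℂ] ℂ)) v = ∑ i, g i * v i := by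
  rw [ContinuousLinearMap.sum_apply]
  rfl

theorem hasStrictFDerivAt_eval (F : MvPolynomial (Fin 5) ℂ) (y : V5) :
    HasStrictFDerivAt (fun z : V5 => eval z F)
      (∑ i, grad F y i • (ContinuousLinearMap.proj i : V5 →L[ℂ] ℂ)) y := by
  induction F using MvPolynomial.induction_on with
  | C a =>
    have h1 : (fun z : V5 => eval z (C a : MvPolynomial (Fin 5) ℂ)) = fun _ => a := by
      funext z; simp
    have h0 : (∑ i, grad (C a) y i • (ContinuousLinearMap.proj i : V5 →L[ℂ] ℂ)) = 0 := by
      refine ContinuousLinearMap.ext fun v => ?_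
      rw [sum_grad_apply]
      simp [grad]
    rw [h1, h0]
    exact hasStrictFDerivAt_const a y
  | add p q hp hq =>
    have h := hp.add hq
    have h1 : (fun z : V5 => eval z (p + q)) =
        (fun z : V5 => eval z p) + (fun z : V5 => eval z q) := by
      funext z; simp
    have h0 : (∑ i, grad (p + q) y i • (ContinuousLinearMap.proj i : V5 →L[ℂ] ℂ)) =
        (∑ i, grad p y i • (ContinuousLinearMap.proj i : V5 →L[ℂ] ℂ)) +
          ∑ i, grad q y i • (ContinuousLinearMap.proj i : V5 →L[ℂ] ℂ) := by
      refine ContinuousLinearMap.ext fun v => ?_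
      rw [ContinuousLinearMap.add_apply, sum_grad_apply, sum_grad_apply, sum_grad_apply]
      simp only [grad, map_add, add_mul, Finset.sum_add_distrib]
    rw [h1, h0]
    exact h
  | mul_X p j hp =>
    have hX : HasStrictFDerivAt (fun z : V5 => z j)
        (ContinuousLinearMap.proj j : V5 →L[ℂ] ℂ) y :=
      (ContinuousLinearMap.proj j : V5 →L[ℂ] ℂ).hasStrictFDerivAt
    have h := hp.mul hX
    have h1 : (fun z : V5 => eval z (p * X j)) = fun z : V5 => eval z p * z j := by
      funext z; simp
    have h0 : (∑ i, grad (p * X j) y i • (ContinuousLinearMap.proj i : V5 →L[ℂ] ℂ)) =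
        eval y p • (ContinuousLinearMap.proj j : V5 →L[ℂ] ℂ) +
          y j • ∑ i, grad p y i • (ContinuousLinearMap.proj i : V5 →L[ℂ] ℂ) := by
      refine ContinuousLinearMap.ext fun v => ?_
      have h4 : (eval y p • (ContinuousLinearMap.proj j : V5 →L[ℂ] ℂ) +
          y j • ∑ i, grad p y i • (ContinuousLinearMap.proj i : V5 →L[ℂ] ℂ)) v =
          eval y p * v j + y j * ∑ i, grad p y i * v i := by
        rw [← sum_grad_apply]
        rfl
      rw [sum_grad_apply, h4]
      have h3 : ∀ i, grad (p * X j) y i * v i =
          (if i = j then eval y p * v j else 0) + y j * (grad p y i * v i) := by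
        intro i
        simp only [grad, pderiv_mul, map_add, map_mul, eval_X]
        rw [pderiv_X]
        by_cases hij : i = j
        · subst hij
          simp
          ring
        · simp [hij, Pi.single_apply, Ne.symm hij]
          ring
      rw [Finset.sum_congr rfl fun i _ => h3 i, Finset.sum_add_distrib, ← Finset.mul_sum]
      simp
    rw [h1, h0]
    exact h

end Pool.Agent.XP
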