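import Pool.Agent.Work.MP_80e05d_ag.XP.A0

/-!
D0 (M).  Rank and minors: y in XX L (all 9 x 9 minors of the 12 x 10 matrix vanish) iff dim ker N(y) >= 2.

Proof.  NM_mulVec: the matrix NM L y (12 x 10) represents NN L y in the standard bases: NN L y u = sum_c u c.1 c.2 • NN L y (eU c).
If dim ker >= 2 then the rank is <= 8; a nonzero 9 x 9 minor would give 9 independent columns.  Conversely if the rank is >= 9 choose 9 independent columns, then 9 independent rows of the
12 x 9 submatrix: a nonzero minor.  (Matrix.rank, Matrix.rank_submatrix_le, rank of transpose; row rank = column rank; for choosing independent columns: exists_linearIndependent or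
Submodule / Basis extraction from a spanning family.)
Please state the choice lemma exists_minor as below (general matrices).
-/

namespace Pool.Agent.XP
open MvPolynomial Module

private theorem d0_cols {I J : Type*} [Fintype I] [Fintype J]
    (M : Matrix I J ℂ) {k : ℕ} (hk : k ≤ M.rank) :
    ∃ c : Fin k → J, LinearIndependent ℂ (fun i => M.col (c i)) := by
  obtain ⟨f, hf, -, hli⟩ := Submodule.exists_fun_fin_finrank_span_eq ℂ (Set.range M.col)
  rw [Matrix.rank_eq_finrank_span_cols] at hk
  choose c hc using hf
  refine ⟨fun i => c (Fin.castLE hk i), ?_⟩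
  have h1 : (fun i => M.col (c (Fin.castLE hk i))) = f ∘ Fin.castLE hk := by
    funext i
    exact hc _
  rw [h1]
  exact hli.comp _ (Fin.castLE_injective hk)

theorem exists_minor {I J : Type*} [Fintype I] [Fintype J] [DecidableEq I] [DecidableEq J]
    (M : Matrix I J ℂ) {k : ℕ} (hk : k ≤ M.rank) :
    ∃ (r : Fin k → I) (c : Fin k → J), Function.Injective r ∧ Function.Injective c ∧
      (M.submatrix r c).det ≠ 0 := by
  obtain ⟨c, hc⟩ := d0_cols M hk
  set A : Matrix (Fin k) I ℂ := (M.submatrix id c).transpose with hA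
  have hrow : LinearIndependent ℂ A.row := hc
  have hrank : A.rank = k := by
    have := hrow.rank_matrix
    rwa [Fintype.card_fin] at this
  obtain ⟨r, hr⟩ := d0_cols A hrank.ge
  have hci : Function.Injective c := by
    intro i j hij
    exact hc.injective (by simp only [hij])
  have hri : Function.Injective r := by
    intro i j hij
    exact hr.injective (by simp only [hij])
  refine ⟨r, c, hri, hci, ?_⟩
  have h2 : LinearIndependent ℂ (M.submatrix r c).row := hr
  rw [Matrix.linearIndependent_rows_iff_isUnit, Matrix.isUnit_iff_isUnit_det] at h2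
  exact h2.ne_zero

theorem NN_sum (L : Par) (y : V5) (u : Usp) :
    NN L y u = ∑ c : Fin 2 × Fin 5, u c.1 c.2 • NN L y (eU c) := by
  have h1 : u = ∑ c : Fin 2 × Fin 5, u c.1 c.2 • eU c := by
    funext a i
    rw [Finset.sum_apply, Finset.sum_apply, Finset.sum_eq_single (a, i)]
    · simp [eU]
    · rintro ⟨b, j⟩ - hb
      simp only [eU, Pi.smul_apply, smul_eq_mul]
      by_cases h : a = b
      · subst h
        have hij : i ≠ j := by
          rintro rfl
          exact hb rfl
        simp [hij]
      · simp [h]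
    · intro h
      exact absurd (Finset.mem_univ _) h
  conv_lhs => rw [h1]
  rw [map_sum]
  exact Finset.sum_congr rfl fun c _ => map_smul _ _ _

theorem rank_NM (L : Par) (y : V5) :
    (NM L y).rank + finrank ℂ (LinearMap.ker (NN L y)) = 10 := by
  set φ : (Fin 2 × Fin 5 → ℂ) ≃ₗ[ℂ] Usp := LinearEquiv.curry ℂ ℂ (Fin 2) (Fin 5) with hφ
  set ψ : Hsp ≃ₗ[ℂ] (Fin 3 × Fin 4 → ℂ) := (LinearEquiv.curry ℂ ℂ (Fin 3) (Fin 4)).symm with hψ
  have h1 : (NM L y).mulVecLin = ψ.toLinearMap ∘ₗ (NN L y ∘ₗ φ.toLinearMap) := by
    apply LinearMap.ext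
    intro v
    funext r
    rw [Matrix.mulVecLin_apply]
    change ∑ c, NM L y r c * v c = NN L y (φ v) r.1 r.2
    rw [NN_sum, Finset.sum_apply, Finset.sum_apply]
    refine Finset.sum_congr rfl fun c _ => ?_
    change NN L y (eU c) r.1 r.2 * v c = v (c.1, c.2) * NN L y (eU c) r.1 r.2
    rw [mul_comm]
  have h2 : (NM L y).rank = finrank ℂ (LinearMap.range (NN L y)) := by
    rw [Matrix.rank, h1, LinearMap.range_comp, LinearEquiv.finrank_map_eq, LinearMap.range_comp,
      LinearEquiv.range, Submodule.map_top]
  rw [h2, LinearMap.finrank_range_add_finrank_ker]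
  rw [← LinearEquiv.finrank_eq φ]
  simp

theorem mem_XX_iff (L : Par) (y : V5) : y ∈ XX L ↔ 2 ≤ finrank ℂ (LinearMap.ker (NN L y)) := by
  have h0 := rank_NM L y
  constructor
  · intro hy
    by_contra h
    obtain ⟨r, c, -, -, hdet⟩ := exists_minor (NM L y) (k := 9) (by omega)
    exact hdet (hy r c)
  · intro h r c
    by_contra hdet
    have h1 := Matrix.rank_submatrix_le (NM L y) r c
    have h2 : ((NM L y).submatrix r c).rank = 9 := by
      rw [Matrix.rank_of_isUnit _ ((Matrix.isUnit_iff_isUnit_det _).mpr (isUnit_iff_ne_zero.mpr hdet)),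
        Fintype.card_fin]
    omega

end Pool.Agent.XP
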