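import Pool.Agent.Work.MP_80e05d_ag.XP.C0
import Pool.Agent.Work.MP_80e05d_ag.XP.D0
import Pool.Agent.Work.MP_80e05d_ag.XP.A3
import Pool.Agent.Work.MP_80e05d_ag.XP.A4

/-!
D1 (M).  Choice of rows and columns at a point y nonzero with a two dimensional kernel.
Data: R (3 pivot rows for B(y)), r : Fin 9 -> rows injective and disjoint from R, c : Fin 10 -> columns injective, such that the 8 x 8 minor with rows r 0..7 and columns c 0..7 is nonzero.

Proof.  BB y is onto C^3 (bb_surj): the 3 x 12 matrix of BB y has three independent columns, positions R: PivB y R (an h supported on R with BB y h = 0 is 0).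
The remaining 9 rows: the 9 x 10 submatrix N' of NM L y has the same kernel as NM L y: if N' u = 0 then h = NN L y u is supported on R and BB y h = 0 (bb_sg), so h = 0.  So rank N' = rank NM L y = 8 (rank_NM).
exists_minor for N' and k = 8: rows r8 (8 of the 9) and columns c8; extend r8 by the missing row to r : Fin 9 (castSucc part = r8) and c8 by the two missing columns to c : Fin 10.
minor8 L y r c = the 8 x 8 minor, cA = the first nine columns, cB = the first eight and the last one.
-/

namespace Pool.Agent.XP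
open MvPolynomial Module

/-- the columns c 0, ..., c 7, c 8 -/
def cA (c : Fin 10 → Fin 2 × Fin 5) : Fin 9 → Fin 2 × Fin 5 := fun k => c k.castSucc

/-- the columns c 0, ..., c 7, c 9 -/
def cBB (c : Fin 10 → Fin 2 × Fin 5) : Fin 9 → Fin 2 × Fin 5 :=
  fun k => if k = 8 then c 9 else c k.castSucc

/-- the first eight rows -/
def r8 (r : Fin 9 → Fin 3 × Fin 4) : Fin 8 → Fin 3 × Fin 4 := fun k => r k.castSucc

/-- the first eight columns -/
def c8 (c : Fin 10 → Fin 2 × Fin 5) : Fin 8 → Fin 2 × Fin 5 := fun k => c k.castSucc.castSucc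

/-- admissible data at (L, y) -/
def Adm (R : Fin 3 → Fin 3 × Fin 4) (r : Fin 9 → Fin 3 × Fin 4) (c : Fin 10 → Fin 2 × Fin 5)
    (L : Par) (y : V5) : Prop :=
  PivB y R ∧ ((NM L y).submatrix (r8 r) (c8 c)).det ≠ 0

private theorem exists_snoc {α : Type*} [Fintype α] {n : ℕ} (f : Fin n → α)
    (hf : Function.Injective f) (hc : n < Fintype.card α) :
    ∃ g : Fin (n + 1) → α, Function.Injective g ∧ ∀ k : Fin n, g k.castSucc = f k := by
  have h1 : ∃ a, a ∉ Set.range f := by
    by_contra hno
    push Not at hno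
    have h2 : Function.Surjective f := fun a => hno a
    have h3 := Fintype.card_le_of_surjective f h2
    rw [Fintype.card_fin] at h3
    omega
  obtain ⟨a, ha⟩ := h1
  refine ⟨Fin.snoc f a, ?_, fun k => ?_⟩
  · intro i j
    refine Fin.lastCases ?_ (fun i => ?_) i
    · refine Fin.lastCases ?_ (fun j => ?_) j
      · intro _
        rfl
      · intro h
        rw [Fin.snoc_last, Fin.snoc_castSucc] at h
        exact absurd ⟨j, h.symm⟩ ha
    · refine Fin.lastCases ?_ (fun j => ?_) j
      · intro h
        rw [Fin.snoc_last, Fin.snoc_castSucc] at h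
        exact absurd ⟨i, h⟩ ha
      · intro h
        rw [Fin.snoc_castSucc, Fin.snoc_castSucc] at h
        rw [hf h]
  · exact Fin.snoc_castSucc _ _ _

/-- the basis vectors of Hsp -/
private def eH (p : Fin 3 × Fin 4) : Hsp := Pi.single p.1 (Pi.single p.2 1)

private theorem sum_eH (h : Hsp) : h = ∑ p : Fin 3 × Fin 4, h p.1 p.2 • eH p := by
  funext i k
  rw [Finset.sum_apply, Finset.sum_apply, Finset.sum_eq_single (i, k)]
  · simp [eH]
  · rintro ⟨a, b⟩ _ hne
    by_cases ha : a = i
    · subst ha
      have hb : b ≠ k := fun hb => hne (by rw [hb])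
      simp [eH, hb.symm]
    · have ha' : i ≠ a := fun h' => ha h'.symm
      simp [eH, Pi.single_eq_of_ne ha']
  · intro hno
    exact absurd (Finset.mem_univ _) hno

/-- the matrix of BB y -/
private def M3 (y : V5) : Matrix (Fin 3) (Fin 3 × Fin 4) ℂ := fun j p => BB y (eH p) j

private theorem BB_eq (y : V5) (h : Hsp) :
    BB y h = (M3 y).mulVec (fun p => h p.1 p.2) := by
  conv_lhs => rw [sum_eH h]
  rw [map_sum]
  funext j
  rw [Finset.sum_apply, Matrix.mulVec, dotProduct]
  refine Finset.sum_congr rfl fun p _ => ?_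
  rw [map_smul, Pi.smul_apply, smul_eq_mul, mul_comm]
  rfl

private theorem rank_M3 {y : V5} (hy : y ≠ 0) : 3 ≤ (M3 y).rank := by
  have h1 : Function.Surjective (M3 y).mulVecLin := by
    intro g
    obtain ⟨h, hh⟩ := bb_surj hy g
    refine ⟨fun p => h p.1 p.2, ?_⟩
    rw [Matrix.mulVecLin_apply, ← BB_eq, hh]
  rw [Matrix.rank, LinearMap.range_eq_top.2 h1, finrank_top, Module.finrank_fin_fun]

private theorem exists_pivB {y : V5} (hy : y ≠ 0) : ∃ R, PivB y R := by
  obtain ⟨r3, R, _, hR, hdet⟩ := exists_minor (M3 y) (rank_M3 hy)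
  refine ⟨R, hR, fun h hsupp hB => ?_⟩
  have h1 : ((M3 y).submatrix r3 R).mulVec (fun n => h (R n).1 (R n).2) = 0 := by
    rw [BB_eq] at hB
    funext j
    have h2 := congrFun hB (r3 j)
    rw [Matrix.mulVec, dotProduct] at h2 ⊢
    rw [Pi.zero_apply] at h2 ⊢
    rw [← h2]
    have h3 : ∀ p : Fin 3 × Fin 4, p ∉ Finset.univ.image R → M3 y (r3 j) p * h p.1 p.2 = 0 := by
      intro p hp
      rw [hsupp p.1 p.2 (fun n hn => hp (Finset.mem_image.2 ⟨n, Finset.mem_univ _, hn⟩)), mul_zero]
    rw [← Finset.sum_subset (Finset.subset_univ (Finset.univ.image R)) (fun p _ hp => h3 p hp),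
      Finset.sum_image (fun a _ b _ hab => hR hab)]
    rfl
  have h4 := Matrix.eq_zero_of_mulVec_eq_zero hdet h1
  funext i k
  by_cases hik : ∃ n, R n = (i, k)
  · obtain ⟨n, hn⟩ := hik
    have h5 := congrFun h4 n
    simp only [hn, Pi.zero_apply] at h5
    exact h5
  · push Not at hik
    exact hsupp i k hik

private theorem mulVec_NM (L : Par) (y : V5) (u : Usp) (r : Fin 3 × Fin 4) :
    (NM L y).mulVec (fun p => u p.1 p.2) r = NN L y u r.1 r.2 := by
  rw [NN_sum, Finset.sum_apply, Finset.sum_apply, Matrix.mulVec, dotProduct]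
  refine Finset.sum_congr rfl fun c _ => ?_
  rw [Pi.smul_apply, Pi.smul_apply, smul_eq_mul, mul_comm]
  rfl

theorem exists_adm {L : Par} {y : V5} (hy : y ≠ 0) (hk : finrank ℂ (LinearMap.ker (NN L y)) = 2) :
    ∃ R r c, Function.Injective R ∧ Function.Injective r ∧ (∀ n k, R n ≠ r k) ∧
      Function.Injective c ∧ Adm R r c L y := by
  classical
  obtain ⟨R, hR⟩ := exists_pivB hy
  -- the remaining rows
  let P := {p : Fin 3 × Fin 4 // ∀ n, R n ≠ p}
  have hcard : Fintype.card P = 9 := by
    have h1 : Fintype.card P + Fintype.card {p : Fin 3 × Fin 4 // ¬ ∀ n, R n ≠ p} = 12 := by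
      have := Fintype.card_subtype_compl (fun p : Fin 3 × Fin 4 => ∀ n, R n ≠ p)
      have h2 := Fintype.card_subtype_le (fun p : Fin 3 × Fin 4 => ∀ n, R n ≠ p)
      have h3 : Fintype.card (Fin 3 × Fin 4) = 12 := by simp
      change Fintype.card P ≤ _ at h2
      change _ = _ - Fintype.card P at this
      omega
    have h2 : Fintype.card {p : Fin 3 × Fin 4 // ¬ ∀ n, R n ≠ p} = 3 := by
      have h3 : Fintype.card (Fin 3) = Fintype.card {p : Fin 3 × Fin 4 // ¬ ∀ n, R n ≠ p} := by
        refine Fintype.card_of_bijective (f := fun n => ⟨R n, fun hno => hno n rfl⟩) ⟨?_, ?_⟩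
        · intro a b hab
          exact hR.1 (congrArg Subtype.val hab)
        · rintro ⟨p, hp⟩
          push Not at hp
          obtain ⟨n, hn⟩ := hp
          exact ⟨n, Subtype.ext hn⟩
      rw [← h3, Fintype.card_fin]
    omega
  let N' : Matrix P (Fin 2 × Fin 5) ℂ := (NM L y).submatrix Subtype.val id
  have hrank : 8 ≤ N'.rank := by
    have h1 := LinearMap.finrank_range_add_finrank_ker N'.mulVecLin
    have h2 : finrank ℂ (Fin 2 × Fin 5 → ℂ) = 10 := by
      rw [Module.finrank_fintype_fun_eq_card]
      simp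
    rw [h2] at h1
    have h3 : finrank ℂ (LinearMap.ker N'.mulVecLin) ≤ 2 := by
      refine le_trans ?_ hk.le
      -- the injection of the kernel
      let Φ : (Fin 2 × Fin 5 → ℂ) →ₗ[ℂ] Usp :=
        { toFun := fun u a i => u (a, i)
          map_add' := fun _ _ => rfl
          map_smul' := fun _ _ => rfl }
      have hΦ : Function.Injective Φ := by
        intro u v huv
        funext p
        exact congrFun (congrFun huv p.1) p.2
      have hmem : ∀ u ∈ LinearMap.ker N'.mulVecLin, Φ u ∈ LinearMap.ker (NN L y) := by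
        intro u hu
        rw [LinearMap.mem_ker, Matrix.mulVecLin_apply] at hu
        rw [LinearMap.mem_ker]
        have hB : BB y (NN L y (Φ u)) = 0 := by
          rw [NN_apply]
          exact bb_sg y _
        refine hR.2 _ (fun i k hik => ?_) hB
        have h4 := congrFun hu ⟨(i, k), hik⟩
        rw [Pi.zero_apply] at h4
        have h5 := mulVec_NM L y (Φ u) (i, k)
        rw [← h5, ← h4]
        rfl
      exact LinearMap.finrank_le_finrank_of_injective
        (f := (Φ.restrict hmem)) (fun a b hab => by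
          apply Subtype.ext
          apply hΦ
          exact congrArg Subtype.val hab)
    have h4 : N'.rank = finrank ℂ (LinearMap.range N'.mulVecLin) := rfl
    omega
  obtain ⟨r', c', hr', hc', hdet⟩ := exists_minor N' hrank
  obtain ⟨r, hr, hrr⟩ := exists_snoc r' hr' (by rw [hcard]; norm_num)
  obtain ⟨c1, hc1, hcc1⟩ := exists_snoc c' hc' (by simp)
  obtain ⟨c, hc, hcc⟩ := exists_snoc c1 hc1 (by simp)
  refine ⟨R, fun k => (r k).1, c, hR.1, ?_, ?_, hc, hR, ?_⟩
  · intro a b hab
    exact hr (Subtype.ext hab)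
  · intro n k
    exact (r k).2 n
  · have h1 : (NM L y).submatrix (r8 fun k => (r k).1) (c8 c) = N'.submatrix r' c' := by
      ext i j
      simp only [Matrix.submatrix_apply, r8, c8, N', id]
      rw [hrr, hcc, hcc1]
    rw [h1]
    exact hdet

end Pool.Agent.XP
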