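import Pool.Agent.Work.MP_80e05d_ag.XP.C0
import Pool.Agent.Work.MP_80e05d_ag.XP.D1
import Pool.Agent.Work.MP_80e05d_ag.XP.ConeX

/-!
D7 (S-M).  The set of admissible (L, z) is open; PivB in terms of a 3 x 3 determinant which is a polynomial in z; the 8 x 8 minor is a polynomial in z.

Proof.  pivM z R n k = (BB z (eH (R k))) n, a 3 x 3 matrix with entries linear in z.  pivB_iff: h supported on R is a combination sum_k h(R k) eH (R k) (R injective), BB z h = pivM z R *ᵥ (h o R); so PivB z R iff det (pivM z R) nonzero (R injective).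
isOpen_adm: {(L,z) : Adm R r c L z} is the set where two continuous functions (determinants of matrices whose entries are continuous in (L,z)) do not vanish.  (NM L z entries: NN L z (eU c) = sg z (bb L (eU c)), continuous in (L, z).)
exists_poly_adm: for fixed L there is a polynomial h with (eval z h nonzero iff Adm R r c L z) for all z: product of the determinants of the matrices of linear polynomials (ConeX: NMp, NMp_eval may be imported for the 8 x 8 minor;
the same construction for pivM: entries sum_i C (pivM (Pi.single i 1) R n k) * X i).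
-/

namespace Pool.Agent.XP
open MvPolynomial Module

/-- basis vectors of Hsp -/
def eH (r : Fin 3 × Fin 4) : Hsp := Pi.single r.1 (Pi.single r.2 1)

/-- the pivot matrix -/
noncomputable def pivM (z : V5) (R : Fin 3 → Fin 3 × Fin 4) : Matrix (Fin 3) (Fin 3) ℂ :=
  fun n k => BB z (eH (R k)) n

private theorem pivM_mulVec (z : V5) (R : Fin 3 → Fin 3 × Fin 4) (v : Fin 3 → ℂ) :
    (pivM z R).mulVec v = BB z (∑ k, v k • eH (R k)) := by
  rw [map_sum]
  funext n
  simp only [Matrix.mulVec, dotProduct, pivM, map_smul, Finset.sum_apply, Pi.smul_apply,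
    smul_eq_mul]
  exact Finset.sum_congr rfl fun k _ => mul_comm _ _

private theorem eH_apply (r : Fin 3 × Fin 4) (i : Fin 3) (k : Fin 4) :
    eH r i k = if r = (i, k) then 1 else 0 := by
  obtain ⟨a, b⟩ := r
  unfold eH
  by_cases h1 : a = i
  · subst h1
    simp only [Pi.single_eq_same]
    by_cases h2 : b = k
    · subst h2
      simp
    · rw [Pi.single_eq_of_ne (Ne.symm h2), if_neg]
      intro h
      exact h2 (congrArg Prod.snd h)
  · rw [if_neg (fun h => h1 (congrArg Prod.fst h))]
    simp only
    rw [Pi.single_eq_of_ne (Ne.symm h1)]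
    rfl

theorem pivB_iff {z : V5} {R : Fin 3 → Fin 3 × Fin 4} (hR : Function.Injective R) :
    PivB z R ↔ (pivM z R).det ≠ 0 := by
  have hval : ∀ (v : Fin 3 → ℂ) (i : Fin 3) (k : Fin 4),
      (∑ n, v n • eH (R n)) i k = ∑ n, if R n = (i, k) then v n else 0 := by
    intro v i k
    rw [Finset.sum_apply, Finset.sum_apply]
    refine Finset.sum_congr rfl fun n _ => ?_
    rw [Pi.smul_apply, Pi.smul_apply, eH_apply, smul_eq_mul, mul_ite, mul_one, mul_zero]
  have hvalR : ∀ (v : Fin 3 → ℂ) (m : Fin 3),
      (∑ n, v n • eH (R n)) (R m).1 (R m).2 = v m := by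
    intro v m
    rw [hval, Finset.sum_eq_single m]
    · exact if_pos rfl
    · intro n _ hn
      exact if_neg fun h => hn (hR h)
    · intro h
      exact absurd (Finset.mem_univ m) h
  constructor
  · rintro ⟨_, hp⟩ hdet
    obtain ⟨v, hv, hv0⟩ := Matrix.exists_mulVec_eq_zero_iff.mpr hdet
    rw [pivM_mulVec] at hv0
    have h0 := hp (∑ n, v n • eH (R n)) (by
      intro i k hik
      rw [hval]
      exact Finset.sum_eq_zero fun n _ => if_neg (hik n)) hv0
    apply hv
    funext m
    rw [← hvalR v m, h0]
    rfl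
  · intro hdet
    refine ⟨hR, fun h hs hB => ?_⟩
    have e : h = ∑ n, (h (R n).1 (R n).2) • eH (R n) := by
      funext i k
      by_cases hik : ∃ m, R m = (i, k)
      · obtain ⟨m, hm⟩ := hik
        have h3 := hvalR (fun n => h (R n).1 (R n).2) m
        rw [hm] at h3
        simp only at h3
        rw [h3]
      · push Not at hik
        rw [hs i k hik, hval]
        exact (Finset.sum_eq_zero fun n _ => if_neg (hik n)).symm
    have h1 : (pivM z R).mulVec (fun n => h (R n).1 (R n).2) = 0 := by
      rw [pivM_mulVec, ← e]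
      exact hB
    have h2 : (fun n => h (R n).1 (R n).2) = 0 := by
      by_contra hne
      exact hdet (Matrix.exists_mulVec_eq_zero_iff.mp ⟨_, hne, h1⟩)
    rw [e]
    refine Finset.sum_eq_zero fun n _ => ?_
    have h3 : h (R n).1 (R n).2 = 0 := congrFun h2 n
    rw [h3, zero_smul]

theorem isOpen_adm {R : Fin 3 → Fin 3 × Fin 4} (hR : Function.Injective R)
    (r : Fin 9 → Fin 3 × Fin 4) (c : Fin 10 → Fin 2 × Fin 5) :
    IsOpen {p : V5 × Par | Adm R r c p.2 p.1} := by
  have e : {p : V5 × Par | Adm R r c p.2 p.1} = {p : V5 × Par | (pivM p.1 R).det ≠ 0} ∩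
      {p : V5 × Par | ((NM p.2 p.1).submatrix (r8 r) (c8 c)).det ≠ 0} := by
    ext p
    change (PivB p.1 R ∧ _) ↔ ((pivM p.1 R).det ≠ 0 ∧ _)
    rw [pivB_iff hR]
    rfl
  rw [e]
  have c1 : Continuous fun p : V5 × Par => (pivM p.1 R).det := by
    refine Continuous.matrix_det (continuous_matrix fun n k => ?_)
    have h := (BB.flip (eH (R k))).continuous_of_finiteDimensional
    exact (continuous_apply n).comp (h.comp continuous_fst)
  have c2 : Continuous fun p : V5 × Par => ((NM p.2 p.1).submatrix (r8 r) (c8 c)).det := by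
    refine Continuous.matrix_det (continuous_matrix fun n k => ?_)
    have h1 : Continuous fun p : V5 × Bsp => sg p.1 p.2 := sg.toContinuousBilinearMap.continuous₂
    have h2 : Continuous fun L : Par => bb L (eU (c8 c k)) := by
      have h3 : Continuous fun L : Par => ap L (eU (c8 c k)) :=
        (ap.flip (eU (c8 c k))).continuous_of_finiteDimensional
      have h4 : Continuous emb := emb.continuous_of_finiteDimensional
      exact h4.comp (continuous_const.prodMk h3)
    have h5 := h1.comp (continuous_fst.prodMk (h2.comp (continuous_snd (X := V5) (Y := Par))))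
    have h6 : Continuous fun p : V5 × Par => sg p.1 (bb p.2 (eU (c8 c k))) := h5
    have h7 : Continuous fun h : Hsp => h (r8 r n).1 (r8 r n).2 :=
      (continuous_apply (r8 r n).2).comp (continuous_apply (r8 r n).1)
    exact h7.comp h6
  exact (isOpen_ne_fun c1 continuous_const).inter (isOpen_ne_fun c2 continuous_const)

theorem exists_poly_adm {R : Fin 3 → Fin 3 × Fin 4} (hR : Function.Injective R)
    (r : Fin 9 → Fin 3 × Fin 4) (c : Fin 10 → Fin 2 × Fin 5) (L : Par) :
    ∃ h : MvPolynomial (Fin 5) ℂ, ∀ z, eval z h ≠ 0 ↔ Adm R r c L z := by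
  refine ⟨(Matrix.of fun n k => ∑ i, C (pivM (Pi.single i 1) R n k) * X i).det *
    ((NMp L).submatrix (r8 r) (c8 c)).det, fun z => ?_⟩
  have e1 : eval z (Matrix.of fun n k => ∑ i, C (pivM (Pi.single i 1) R n k) *
      (X i : MvPolynomial (Fin 5) ℂ)).det = (pivM z R).det := by
    rw [RingHom.map_det]
    congr 1
    ext n k
    have hlin : ∀ w : V5, pivM w R n k =
        (LinearMap.proj (R := ℂ) (φ := fun _ : Fin 3 => ℂ) n ∘ₗ (BB.flip (eH (R k)))) w :=
      fun w => rfl
    have hz : z = ∑ i, z i • (Pi.single i (1 : ℂ) : V5) := by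
      ext i
      simp [Finset.sum_apply, Pi.single_apply]
    conv_rhs => rw [hlin, hz, map_sum]
    change eval z (∑ i, C (pivM (Pi.single i 1) R n k) * X i) = _
    rw [map_sum]
    refine Finset.sum_congr rfl fun i _ => ?_
    rw [map_mul, eval_C, eval_X, map_smul, ← hlin, smul_eq_mul, mul_comm]
  have e2 : eval z ((NMp L).submatrix (r8 r) (c8 c)).det =
      ((NM L z).submatrix (r8 r) (c8 c)).det := by
    rw [RingHom.map_det]
    congr 1
    ext i j
    exact NMp_eval L z _ _
  rw [map_mul, e1, e2, mul_ne_zero_iff]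
  change _ ↔ (PivB z R ∧ _)
  rw [pivB_iff hR]

end Pool.Agent.XP
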