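import Pool.Agent.Work.MP_80e05d_ag.XP.D4
import Pool.Agent.Work.MP_80e05d_ag.XP.D6
import Pool.Agent.Work.MP_80e05d_ag.XP.D7
import Pool.Agent.Work.MP_80e05d_ag.XP.ConeX

/-!
Dmain (M).  A good point of XX L is a smooth point, with the description of the tangent directions.

Proof.  y in XX L and GoodAt give dim ker = 2 (mem_XX_iff).  exists_adm (D1) gives R, r, c; minors_deriv (D4) gives xi, uA, uB.  F = det ((NMp L).submatrix r (cA c)), G with cBB, eval z F = ((NM L z).submatrix r (cA c)).det (RingHom.map_det,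
NMp_eval), h from exists_poly_adm (D7).  F, G vanish on XX L (minors_zero_of_mem); where h is nonzero and F = G = 0 we are in XX L (mem_XX_of_minors).
sum_i grad F y i * v i = DA (v, 0) (uniqueness of the derivative of z -> ((NM L z).submatrix r (cA c)).det at y: D6 and composition of DA with z -> (z, L)).
Independence of the gradients: if a grad F + b grad G = 0 then for all v: <xi, sg v (bb L (a kA uA + b kB uB))> = 0 (bb L and sg v are linear); u = a kA uA + b kB uB is in ker NN L y; GoodAt with the valid functional dp xi forces u = 0,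
so a = b = 0 by independence of uA, uB.
Last clause: v with xi'(sg v (bb L u)) = 0 for all kernel vectors and valid functionals: apply to uA, uB and dp xi: DA (v,0) = DB (v,0) = 0.
-/

namespace Pool.Agent.XP
open MvPolynomial Module

private theorem eval_det (L : Par) (r : Fin 9 → Fin 3 × Fin 4) (d : Fin 9 → Fin 2 × Fin 5)
    (z : V5) : eval z ((NMp L).submatrix r d).det = ((NM L z).submatrix r d).det := by
  rw [RingHom.map_det]
  refine congrArg Matrix.det ?_
  ext i j
  exact NMp_eval L z (r i) (d j)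

private theorem grad_eq (L : Par) (y : V5) (r : Fin 9 → Fin 3 × Fin 4)
    (d : Fin 9 → Fin 2 × Fin 5) (D : V5 × Par →L[ℂ] ℂ)
    (hD : HasStrictFDerivAt (fun p : V5 × Par => ((NM p.2 p.1).submatrix r d).det) D (y, L))
    (v : V5) : ∑ i, grad ((NMp L).submatrix r d).det y i * v i = D (v, 0) := by
  have h1 := (hasStrictFDerivAt_eval ((NMp L).submatrix r d).det y).hasFDerivAt
  have h2 : HasFDerivAt (fun z : V5 => (z, L))
      ((ContinuousLinearMap.id ℂ V5).prod (0 : V5 →L[ℂ] Par)) y :=
    (hasFDerivAt_id y).prodMk (hasFDerivAt_const L y)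
  obtain ⟨g, hg⟩ : ∃ g : V5 × Par → ℂ, g = fun p : V5 × Par => ((NM p.2 p.1).submatrix r d).det :=
    ⟨_, rfl⟩
  rw [← hg] at hD
  have hD0 : HasFDerivAt g D ((fun z : V5 => (z, L)) y) := hD.hasFDerivAt
  have h3 : HasFDerivAt (fun z : V5 => ((NM L z).submatrix r d).det)
      (D.comp ((ContinuousLinearMap.id ℂ V5).prod (0 : V5 →L[ℂ] Par))) y :=
    by
    have h := hD0.comp y h2
    have hgz : (g ∘ fun z : V5 => (z, L)) = fun z : V5 => ((NM L z).submatrix r d).det := by
      funext z
      rw [Function.comp_apply, hg]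
    rw [hgz] at h
    exact h
  have h4 : (fun z : V5 => eval z ((NMp L).submatrix r d).det) =
      fun z : V5 => ((NM L z).submatrix r d).det := funext fun z => eval_det L r d z
  rw [h4] at h1
  have h5 := h1.unique h3
  have h6 := congrArg (fun T : V5 →L[ℂ] ℂ => T v) h5
  simpa using h6

theorem smooth_of_good (L : Par) (y : V5) (hy : y ≠ 0) (hX : y ∈ XX L) (hg : GoodAt L y) :
    ∃ F G h : MvPolynomial (Fin 5) ℂ, (∀ z ∈ XX L, eval z F = 0 ∧ eval z G = 0) ∧
      LinearIndependent ℂ ![grad F y, grad G y] ∧ eval y h ≠ 0 ∧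
      (∀ z, eval z h ≠ 0 → eval z F = 0 → eval z G = 0 → z ∈ XX L) ∧
      ∀ v : V5, (∀ u, NN L y u = 0 → ∀ xi, Valid L y xi → xi (sg v (bb L u)) = 0) →
        ∑ i, grad F y i * v i = 0 ∧ ∑ i, grad G y i * v i = 0 := by
  have hk2 : finrank ℂ (LinearMap.ker (NN L y)) = 2 :=
    le_antisymm hg.1 ((mem_XX_iff L y).1 hX)
  obtain ⟨R, r, c, hR, hr, hRr, hc, ha⟩ := exists_adm hy hk2
  obtain ⟨xi, uA, uB, kA, kB, DA, DB, hV, hLI, hA0, hB0, hkA, hkB, hDA, hDB, hvA, hvB⟩ :=
    minors_deriv hr hRr hc hy hk2 ha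
  obtain ⟨h, hh⟩ := exists_poly_adm hR r c L
  have gA := grad_eq L y r (cA c) DA hDA
  have gB := grad_eq L y r (cBB c) DB hDB
  refine ⟨((NMp L).submatrix r (cA c)).det, ((NMp L).submatrix r (cBB c)).det, h, ?_, ?_, ?_, ?_,
    ?_⟩
  · intro z hz
    rw [eval_det, eval_det]
    exact minors_zero_of_mem r c hz
  · rw [LinearIndependent.pair_iff]
    intro s t hst
    have h1 : ∀ v : V5, s * DA (v, 0) + t * DB (v, 0) = 0 := by
      intro v
      rw [← gA, ← gB, Finset.mul_sum, Finset.mul_sum, ← Finset.sum_add_distrib]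
      refine Finset.sum_eq_zero fun i _ => ?_
      have h2 := congrFun hst i
      rw [Pi.add_apply, Pi.smul_apply, Pi.smul_apply, smul_eq_mul, smul_eq_mul,
        Pi.zero_apply] at h2
      linear_combination v i * h2
    have hu0 : NN L y ((s * kA) • uA + (t * kB) • uB) = 0 := by
      rw [map_add, map_smul, map_smul, hA0, hB0, smul_zero, smul_zero, add_zero]
    have hu : (s * kA) • uA + (t * kB) • uB = 0 := by
      by_contra hne
      obtain ⟨v, hv⟩ := hg.2 _ hu0 hne (dp xi) hV
      apply hv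
      rw [map_add, map_smul, map_smul, map_add, map_smul, map_smul, map_add, map_smul, map_smul]
      have h2 := h1 v
      rw [hvA, hvB] at h2
      rw [smul_eq_mul, smul_eq_mul]
      linear_combination h2
    rw [LinearIndependent.pair_iff] at hLI
    obtain ⟨h3, h4⟩ := hLI _ _ hu
    exact ⟨(mul_eq_zero.1 h3).resolve_right hkA, (mul_eq_zero.1 h4).resolve_right hkB⟩
  · exact (hh y).2 ha
  · intro z hz hF hG
    rw [eval_det] at hF hG
    exact mem_XX_of_minors hr hRr hc ((hh z).1 hz) hF hG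
  · intro v hv
    rw [gA, gB, hvA, hvB, hv uA hA0 (dp xi) hV, hv uB hB0 (dp xi) hV, mul_zero, mul_zero]
    exact ⟨rfl, rfl⟩

end Pool.Agent.XP
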