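import Pool.Agent.Work.MP_80e05d_ag.XP.A2

/-!
A5 (M).  For a triple m which spans C^2 every h with sum_i D_(m_i) h_i = 0 is a cross product m x D phi.

Proof.  First the case det2 (m 0) (m 1) nonzero.  Write m 2 = al m 0 + be m 1 (Cramer).  With D linear in m,
D_(m 0)(h 0 + al h 2) + D_(m 1)(h 1 + be h 2) = 0, so by koszul2 (d = 3) there is P in S^4 with
h 0 + al h 2 = D_(m 1) P and h 1 + be h 2 = - D_(m 0) P.  Take phi 0 = 0, phi 1 with D_(m 0)(phi 1) = h 2 (dd_surj), phi 2 = P + be phi 1. Check: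
component 2: D_(m 0)(phi 1) - D_(m 1)(phi 0) = h 2.
component 0: D_(m 1)(phi 2) - D_(m 2)(phi 1) = D_(m 1) P + be D_(m 1) phi 1 - al D_(m 0) phi 1 - be D_(m 1) phi 1 = D_(m 1) P - al h 2 = h 0.
component 1: D_(m 2)(phi 0) - D_(m 0)(phi 2) = - D_(m 0) P - be D_(m 0) phi 1 = h 1 + be h 2 - be h 2 = h 1.
The other two cases: apply the first case to the rotated triples (m 1, m 2, m 0), (h 1, h 2, h 0) and
(m 2, m 0, m 1), (h 2, h 0, h 1); crs commutes with cyclic rotations.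
-/

namespace Pool.Agent.XP
open MvPolynomial Module

private theorem crs_surj1 {m : Fin 3 → Fin 2 → ℂ} (hm : det2 (m 0) (m 1) ≠ 0)
    {h : Fin 3 → Fin 4 → ℂ}
    (hh : DD 3 (m 0) (h 0) + DD 3 (m 1) (h 1) + DD 3 (m 2) (h 2) = 0) :
    ∃ p : Fin 3 → Fin 5 → ℂ, crs 4 m p = h := by
  obtain ⟨al, be, h2⟩ : ∃ al be : ℂ, m 2 = al • m 0 + be • m 1 := by
    refine ⟨det2 (m 2) (m 1) / det2 (m 0) (m 1), det2 (m 0) (m 2) / det2 (m 0) (m 1), ?_⟩
    funext i
    simp only [Pi.add_apply, Pi.smul_apply, smul_eq_mul]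
    rw [div_mul_eq_mul_div, div_mul_eq_mul_div, ← add_div, eq_div_iff hm]
    fin_cases i
    · simp only [det2, Fin.zero_eta]
      ring
    · simp only [det2, Fin.mk_one]
      ring
  have h3 : DD 3 (m 0) (h 0 + al • h 2) + DD 3 (m 1) (h 1 + be • h 2) = 0 := by
    rw [h2] at hh
    simp only [map_add, map_smul, LinearMap.add_apply, LinearMap.smul_apply] at hh ⊢
    rw [← hh]
    abel
  obtain ⟨P, hP0, hP1⟩ := koszul2 3 hm h3
  have hm0 : m 0 ≠ 0 := by
    intro h0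
    apply hm
    simp [det2, h0]
  obtain ⟨q, hq⟩ := dd_surj 4 hm0 (h 2)
  refine ⟨![0, q, P + be • q], ?_⟩
  funext i
  fin_cases i
  · change DD 4 (m 1) (P + be • q) - DD 4 (m 2) q = h 0
    rw [h2]
    simp only [map_add, map_smul, LinearMap.add_apply, LinearMap.smul_apply, hq]
    rw [← hP0]
    abel
  · change DD 4 (m 2) 0 - DD 4 (m 0) (P + be • q) = h 1
    simp only [map_add, map_smul, map_zero, hq]
    have e : DD 4 (m 0) P = -(h 1 + be • h 2) := by rw [hP1, neg_neg]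
    rw [e]
    abel
  · change DD 4 (m 0) q - DD 4 (m 1) 0 = h 2
    rw [map_zero, sub_zero, hq]

theorem crs_surj {m : Fin 3 → Fin 2 → ℂ} (hm : Span2 m) {h : Fin 3 → Fin 4 → ℂ}
    (hh : DD 3 (m 0) (h 0) + DD 3 (m 1) (h 1) + DD 3 (m 2) (h 2) = 0) :
    ∃ p : Fin 3 → Fin 5 → ℂ, crs 4 m p = h := by
  rcases hm with h1 | h1 | h1
  · exact crs_surj1 h1 hh
  · obtain ⟨p, hp⟩ := crs_surj1 (m := ![m 1, m 2, m 0]) (h := ![h 1, h 2, h 0]) h1 (by
      change DD 3 (m 1) (h 1) + DD 3 (m 2) (h 2) + DD 3 (m 0) (h 0) = 0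
      rw [← hh]
      abel)
    refine ⟨![p 2, p 0, p 1], ?_⟩
    funext i
    fin_cases i
    · exact congrFun hp 2
    · exact congrFun hp 0
    · exact congrFun hp 1
  · obtain ⟨p, hp⟩ := crs_surj1 (m := ![m 2, m 0, m 1]) (h := ![h 2, h 0, h 1]) h1 (by
      change DD 3 (m 2) (h 2) + DD 3 (m 0) (h 0) + DD 3 (m 1) (h 1) = 0
      rw [← hh]
      abel)
    refine ⟨![p 1, p 2, p 0], ?_⟩
    funext i
    fin_cases i
    · exact congrFun hp 1
    · exact congrFun hp 2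
    · exact congrFun hp 0

end Pool.Agent.XP
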