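import Pool.Agent.Work.MP_80e05d_ag.XP.A1

/-!
A6 (M).  Points of the cubic scroll outside the line L.

scroll_param: y with all det2 (mv y i) (mv y j) = 0 and (y0,y1,y2) nonzero is y = (a^2, ab, b^2, ga, gb), (a,b) nonzero.
Proof: det2 (mv y 0)(mv y 1) = y0 y2 - y1^2 = 0.  Complex square roots a^2 = y0, b^2 = y2, then (ab)^2 = y1^2, so ab = y1 or -y1; change the sign of b
if necessary.  (a,b) is nonzero because (y0,y1,y2) is.  mv y 0 = a (a,b), mv y 1 = b (a,b); det2 (mv y 1)(mv y 2) = b (a y4 - b y3) = 0 and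
det2 (mv y 2)(mv y 0) = a (y3 b - y4 a) = 0 give a y4 = b y3, so (y3,y4) = g (a,b).

scroll_surj: for y = (a^2,ab,b^2,ga,gb), m = (a,b), lam = (a,b,g): mv y i = lam_i m, and BB y h = D_m(sum lam_i h_i).
ker of D_m on S^3 is spanned by k = (a^3, -a^2 b, a b^2, -b^3) (dimension <= 1 by dd_ker_le, k is nonzero, D_m k = 0), and
a hsA y + b hsB y = (6a^3, -6a^2 b, 6ab^2, -6b^3) = 6 k.  So there is c with sum lam_i h_i = c (a hsA y + b hsB y); put
h0' = h0 - c hsA y, h1' = h1 - c hsB y, h2' = h2: a h0' + b h1' + g h2' = 0.  Then there are g_0,g_1,g_2 in S^3 with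
h0' = b g_2 - g g_1, h1' = g g_0 - a g_2, h2' = a g_1 - b g_0 (if a is nonzero: g_0 = 0, g_2 = - h1'/a, g_1 = h2'/a; then b g_2 - g g_1 = (-b h1' - g h2')/a = h0'.
If b is nonzero: g_1 = 0, g_2 = h0'/b, g_0 = - h2'/b, then g g_0 - a g_2 = (-g h2' - a h0')/b = h1').  Choose phi_i with D_m phi_i = g_i (dd_surj); b = (phi; c).
-/

namespace Pool.Agent.XP
open MvPolynomial Module

theorem scroll_param {y : V5} (hs : ¬ Span2 (mv y)) (hw : y 0 ≠ 0 ∨ y 1 ≠ 0 ∨ y 2 ≠ 0) :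
    ∃ a b g : ℂ, (a ≠ 0 ∨ b ≠ 0) ∧ y = ![a ^ 2, a * b, b ^ 2, g * a, g * b] := by
  unfold Span2 at hs
  push Not at hs
  obtain ⟨h1, h2, h3⟩ := hs
  rw [mv_zero, mv_one] at h1
  rw [mv_one, mv_two] at h2
  rw [mv_two, mv_zero] at h3
  simp only [det2, Matrix.cons_val_zero, Matrix.cons_val_one] at h1 h2 h3
  obtain ⟨a, b, ha, hb, hab⟩ : ∃ a b : ℂ, a ^ 2 = y 0 ∧ b ^ 2 = y 2 ∧ a * b = y 1 := by
    obtain ⟨a, ha⟩ := IsAlgClosed.exists_pow_nat_eq (y 0) (n := 2) (by norm_num)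
    obtain ⟨b, hb⟩ := IsAlgClosed.exists_pow_nat_eq (y 2) (n := 2) (by norm_num)
    have h4 : (a * b - y 1) * (a * b + y 1) = 0 := by
      linear_combination b ^ 2 * ha + y 0 * hb + h1
    rcases mul_eq_zero.1 h4 with h5 | h5
    · exact ⟨a, b, ha, hb, by linear_combination h5⟩
    · exact ⟨a, -b, ha, by rw [neg_sq, hb], by linear_combination -h5⟩
  have hne : a ≠ 0 ∨ b ≠ 0 := by
    by_contra hcon
    push Not at hcon
    obtain ⟨ha0, hb0⟩ := hcon
    rw [ha0, zero_pow two_ne_zero] at ha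
    rw [hb0, zero_pow two_ne_zero] at hb
    rw [ha0, zero_mul] at hab
    rcases hw with h | h | h
    · exact h ha.symm
    · exact h hab.symm
    · exact h hb.symm
  have hb4 : b * (a * y 4 - b * y 3) = 0 := by
    linear_combination h2 + y 4 * hab - y 3 * hb
  have ha4 : a * (a * y 4 - b * y 3) = 0 := by
    linear_combination -h3 + y 4 * ha - y 3 * hab
  have h34 : a * y 4 - b * y 3 = 0 := by
    rcases hne with h | h
    · exact (mul_eq_zero.1 ha4).resolve_left h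
    · exact (mul_eq_zero.1 hb4).resolve_left h
  obtain ⟨g, hg1, hg2⟩ : ∃ g : ℂ, g * a = y 3 ∧ g * b = y 4 := by
    rcases hne with h | h
    · refine ⟨y 3 / a, by field_simp, ?_⟩
      field_simp
      linear_combination -h34
    · refine ⟨y 4 / b, ?_, by field_simp⟩
      field_simp
      linear_combination h34
  refine ⟨a, b, g, hne, ?_⟩
  rw [ha, hb, hab, hg1, hg2]
  funext i
  fin_cases i <;> rfl

private theorem sc_smul0 (a b g : ℂ) :
    mv ![a ^ 2, a * b, b ^ 2, g * a, g * b] 0 = a • ![a, b] := by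
  rw [mv_zero]
  funext i
  fin_cases i <;> simp [sq]

private theorem sc_smul1 (a b g : ℂ) :
    mv ![a ^ 2, a * b, b ^ 2, g * a, g * b] 1 = b • ![a, b] := by
  rw [mv_one]
  funext i
  fin_cases i <;> simp [sq, mul_comm]

private theorem sc_smul2 (a b g : ℂ) :
    mv ![a ^ 2, a * b, b ^ 2, g * a, g * b] 2 = g • ![a, b] := by
  rw [mv_two]
  funext i
  fin_cases i <;> simp

private theorem sc_hs (a b g : ℂ) :
    a • hsA ![a ^ 2, a * b, b ^ 2, g * a, g * b] + b • hsB ![a ^ 2, a * b, b ^ 2, g * a, g * b] =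
      ![6 * a ^ 3, -6 * a ^ 2 * b, 6 * a * b ^ 2, -6 * b ^ 3] := by
  funext i
  fin_cases i <;> simp [hsA, hsB] <;> ring

/-- the kernel of `D_m` on `S^3` -/
private theorem sc_ker (a b : ℂ) (hab : a ≠ 0 ∨ b ≠ 0) (f : Fin 4 → ℂ)
    (hf : DD 3 ![a, b] f = 0) :
    ∃ c : ℂ, f = c • ![6 * a ^ 3, -6 * a ^ 2 * b, 6 * a * b ^ 2, -6 * b ^ 3] := by
  have e0 : a * f 1 + b * f 0 = 0 := congrFun hf 0
  have e1 : a * f 2 + b * f 1 = 0 := congrFun hf 1
  have e2 : a * f 3 + b * f 2 = 0 := congrFun hf 2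
  rcases hab with h | h
  · have f1 : f 1 = -(b / a) * f 0 := by
      field_simp
      linear_combination e0
    have f2 : f 2 = (b / a) ^ 2 * f 0 := by
      rw [f1] at e1
      field_simp
      field_simp at e1
      linear_combination e1
    have f3 : f 3 = -(b / a) ^ 3 * f 0 := by
      rw [f2] at e2
      field_simp
      field_simp at e2
      linear_combination e2
    refine ⟨f 0 / (6 * a ^ 3), ?_⟩
    funext i
    fin_cases i
    · show f 0 = f 0 / (6 * a ^ 3) * (6 * a ^ 3)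
      field_simp
    · show f 1 = f 0 / (6 * a ^ 3) * (-6 * a ^ 2 * b)
      rw [f1]
      field_simp
    · show f 2 = f 0 / (6 * a ^ 3) * (6 * a * b ^ 2)
      rw [f2]
      field_simp
    · show f 3 = f 0 / (6 * a ^ 3) * (-6 * b ^ 3)
      rw [f3]
      field_simp
  · have f2 : f 2 = -(a / b) * f 3 := by
      field_simp
      linear_combination e2
    have f1 : f 1 = (a / b) ^ 2 * f 3 := by
      rw [f2] at e1
      field_simp
      field_simp at e1
      linear_combination e1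
    have f0 : f 0 = -(a / b) ^ 3 * f 3 := by
      rw [f1] at e0
      field_simp
      field_simp at e0
      linear_combination e0
    refine ⟨-f 3 / (6 * b ^ 3), ?_⟩
    funext i
    fin_cases i
    · show f 0 = -f 3 / (6 * b ^ 3) * (6 * a ^ 3)
      rw [f0]
      field_simp
    · show f 1 = -f 3 / (6 * b ^ 3) * (-6 * a ^ 2 * b)
      rw [f1]
      field_simp
    · show f 2 = -f 3 / (6 * b ^ 3) * (6 * a * b ^ 2)
      rw [f2]
      field_simp
    · show f 3 = -f 3 / (6 * b ^ 3) * (-6 * b ^ 3)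
      field_simp

private theorem sc_cross (a b g : ℂ) (hab : a ≠ 0 ∨ b ≠ 0) (x0 x1 x2 : Fin 4 → ℂ)
    (h : a • x0 + b • x1 + g • x2 = 0) :
    ∃ g0 g1 g2 : Fin 4 → ℂ, b • g2 - g • g1 = x0 ∧ g • g0 - a • g2 = x1 ∧
      a • g1 - b • g0 = x2 := by
  have hk : ∀ k, a * x0 k + b * x1 k + g * x2 k = 0 := fun k => congrFun h k
  rcases hab with h' | h'
  · refine ⟨0, a⁻¹ • x2, -(a⁻¹ • x1), ?_, ?_, ?_⟩
    · funext k
      show b * -(a⁻¹ * x1 k) - g * (a⁻¹ * x2 k) = x0 k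
      field_simp
      linear_combination -hk k
    · funext k
      show g * 0 - a * -(a⁻¹ * x1 k) = x1 k
      field_simp
      ring
    · funext k
      show a * (a⁻¹ * x2 k) - b * 0 = x2 k
      field_simp
      ring
  · refine ⟨-(b⁻¹ • x2), 0, b⁻¹ • x0, ?_, ?_, ?_⟩
    · funext k
      show b * (b⁻¹ * x0 k) - g * 0 = x0 k
      field_simp
      ring
    · funext k
      show g * -(b⁻¹ * x2 k) - a * (b⁻¹ * x0 k) = x1 k
      field_simp
      linear_combination -hk k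
    · funext k
      show a * 0 - b * -(b⁻¹ * x2 k) = x2 k
      field_simp
      ring

theorem scroll_surj {a b g : ℂ} (hab : a ≠ 0 ∨ b ≠ 0) {h : Hsp}
    (hh : BB ![a ^ 2, a * b, b ^ 2, g * a, g * b] h = 0) :
    ∃ p : Bsp, sg ![a ^ 2, a * b, b ^ 2, g * a, g * b] p = h := by
  have hm : (![a, b] : Fin 2 → ℂ) ≠ 0 := by
    intro h0
    rcases hab with h1 | h1
    · exact h1 (congrFun h0 0)
    · exact h1 (congrFun h0 1)
  have h1 : DD 3 ![a, b] (a • h 0 + b • h 1 + g • h 2) = 0 := by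
    rw [BB_apply, sc_smul0, sc_smul1, sc_smul2] at hh
    simp only [map_smul, LinearMap.smul_apply] at hh
    rw [map_add, map_add, map_smul, map_smul, map_smul]
    exact hh
  obtain ⟨c, hc⟩ := sc_ker a b hab _ h1
  obtain ⟨A, hA⟩ : ∃ A, A = hsA ![a ^ 2, a * b, b ^ 2, g * a, g * b] := ⟨_, rfl⟩
  obtain ⟨B, hB⟩ : ∃ B, B = hsB ![a ^ 2, a * b, b ^ 2, g * a, g * b] := ⟨_, rfl⟩
  rw [← sc_hs a b g, ← hA, ← hB] at hc
  have h2 : a • (h 0 - c • A) + b • (h 1 - c • B) + g • h 2 = 0 := by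
    have : a • (h 0 - c • A) + b • (h 1 - c • B) + g • h 2 =
        (a • h 0 + b • h 1 + g • h 2) - c • (a • A + b • B) := by
      simp only [smul_sub, smul_add, smul_comm c]
      abel
    rw [this, hc, sub_self]
  obtain ⟨g0, g1, g2, k0, k1, k2⟩ := sc_cross a b g hab _ _ _ h2
  obtain ⟨p0, hp0⟩ := dd_surj 4 hm g0
  obtain ⟨p1, hp1⟩ := dd_surj 4 hm g1
  obtain ⟨p2, hp2⟩ := dd_surj 4 hm g2
  refine ⟨(![p0, p1, p2], c), ?_⟩
  rw [sg_apply]
  funext i
  fin_cases i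
  · show sgf _ _ 0 = h 0
    rw [sgf_zero, sc_smul1, sc_smul2, ← hA]
    show DD 4 (b • ![a, b]) p2 - DD 4 (g • ![a, b]) p1 + c • A = h 0
    rw [map_smul, map_smul, LinearMap.smul_apply, LinearMap.smul_apply, hp1, hp2, k0]
    abel
  · show sgf _ _ 1 = h 1
    rw [sgf_one, sc_smul2, sc_smul0, ← hB]
    show DD 4 (g • ![a, b]) p0 - DD 4 (a • ![a, b]) p2 + c • B = h 1
    rw [map_smul, map_smul, LinearMap.smul_apply, LinearMap.smul_apply, hp0, hp2, k1]
    abel
  · show sgf _ _ 2 = h 2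
    rw [sgf_two, sc_smul0, sc_smul1]
    show DD 4 (a • ![a, b]) p1 - DD 4 (b • ![a, b]) p0 = h 2
    rw [map_smul, map_smul, LinearMap.smul_apply, LinearMap.smul_apply, hp0, hp1, k2]

end Pool.Agent.XP
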