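import Pool.Agent.Work.MP_80e05d_ag.XP.A3
import Pool.Agent.Work.MP_80e05d_ag.XP.A4
import Pool.Agent.Work.MP_80e05d_ag.XP.A5
import Pool.Agent.Work.MP_80e05d_ag.XP.A6

/-!
A7 (S).  Outside the line L (w = (y0,y1,y2) nonzero) the image of sigma(y) is ker B(y), of dimension 9; so rank sigma(y) = 9.
Proof.  If Span2 (mv y): crs_surj (hypothesis = BB_apply), b = (p, 0), and sg y (p,0) = crs 4 (mv y) p (sgf_zero, sgf_one, sgf_two with c = 0).
Otherwise scroll_param and scroll_surj.  The range is ker BB y by bb_sg; bb_ker.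
-/

namespace Pool.Agent.XP
open MvPolynomial Module

theorem sg_exact {y : V5} (hw : y 0 ≠ 0 ∨ y 1 ≠ 0 ∨ y 2 ≠ 0) {h : Hsp} (hh : BB y h = 0) :
    ∃ b : Bsp, sg y b = h := by
  by_cases hs : Span2 (mv y)
  · obtain ⟨p, hp⟩ := crs_surj hs (h := h) (by rw [← BB_apply]; exact hh)
    refine ⟨(p, 0), ?_⟩
    rw [sg_apply]
    funext i
    fin_cases i
    · change sgf y (p, 0) 0 = h 0
      rw [sgf_zero]
      simp only [zero_smul, add_zero]
      exact congrFun hp 0
    · change sgf y (p, 0) 1 = h 1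
      rw [sgf_one]
      simp only [zero_smul, add_zero]
      exact congrFun hp 1
    · change sgf y (p, 0) 2 = h 2
      rw [sgf_two]
      exact congrFun hp 2
  · obtain ⟨a, b, g, hab, hy⟩ := scroll_param hs hw
    subst hy
    exact scroll_surj hab hh

theorem sg_rank {y : V5} (hw : y 0 ≠ 0 ∨ y 1 ≠ 0 ∨ y 2 ≠ 0) :
    finrank ℂ (LinearMap.range (sg y)) = 9 := by
  have hy : y ≠ 0 := by
    rintro rfl
    simp at hw
  have h1 : LinearMap.range (sg y) = LinearMap.ker (BB y) := by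
    apply le_antisymm
    · rintro _ ⟨b, rfl⟩
      exact bb_sg y b
    · intro h hh
      exact sg_exact hw hh
  rw [h1, bb_ker hy]

theorem sg_ker {y : V5} (hw : y 0 ≠ 0 ∨ y 1 ≠ 0 ∨ y 2 ≠ 0) :
    finrank ℂ (LinearMap.ker (sg y)) = 7 := by
  have h1 := LinearMap.finrank_range_add_finrank_ker (sg y)
  rw [sg_rank hw] at h1
  have h2 : finrank ℂ Bsp = 16 := by
    simp [Bsp, finrank_prod, finrank_pi_fintype]
  omega

end Pool.Agent.XP
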