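import Pool.Agent.Work.MP_80e05d_ag.XP.G5
import Pool.Agent.Work.MP_80e05d_ag.XP.A5
import Pool.Agent.Work.MP_80e05d_ag.XP.A7
import Pool.Agent.Work.MP_80e05d_ag.XP.A3

/-!
G6 (M-L).  Nondegeneracy along the plane at y = yy p r, p <= r.

Let u be a kernel vector, nonzero, with Phi as in nn_yy_iff; (Phi_p, Phi_(r+1)) is nonzero by bid_det (Phi = 0 would give u = 0).  b(z) := ((DD 5 (mv z i) Phi)_i, 0) satisfies sg z (b z) = 0 for all z (dd_comm), and b y = bb L0 u:
phi_0 = DD 5 (P1,0) Phi, phi_1 = DD 5 (0,R1) Phi, T u i = (i+1)(P1 Phi_(i+1) + R1 Phi_i) = x(Phi_(i+1) + Phi_i) = DD 5 (x,x) Phi i by the bidiagonal equations.  Polarising sg (y+v) (b (y+v)) = 0: sg v (b y) = - sg y (b v).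
Let xi be Valid, eta_i = xi (sg y (emb (0, (e_i, 0)))), eta(f) = sum eta_i f_i.  xi (sg y (emb (u', (f,0)))) = xi (NN L0 y u') + xi (sg y (emb (0, (f - T u', 0)))) = eta (f - T u').
For arbitrary Phi' (no equations) with b' y = emb (u', (f, 0)), u'_0 i = P1 Phi'_(i+1), u'_1 i = R1 Phi'_i, f i = x (Phi'_(i+1)+Phi'_i): sg y (b' y) = 0, so sum_i eta_i (alp i Phi'_(i+1) + bet i Phi'_i) = 0: dual_supp, dual_ne apply once eta is nonzero.
eta nonzero: otherwise xi kills sg y (emb (u', (f,0))) for all u', f; but mv y spans (det2 (mv y 0)(mv y 1) = P1 R1 nonzero), so by crs_surj every h in ker (BB y) is crs 4 (mv y) phi = sg y (phi, 0); so xi = 0 on ker (BB y), contradiction to Valid.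
Pairing for v in the plane, v = (v0,0,v2,v3,v3): xi (sg v (bb L0 u)) = - xi (sg y (b v)) = - eta (DD 5 (v3,v3) Phi - T (DD 5 (v0,0) Phi, DD 5 (0,v2) Phi)) = - sum_i eta_i ((v3 - (i+1) v0) Phi_(i+1) + (v3 - (i+1) v2) Phi_i).
eta is supported in [p,r]; Phi_i = 0 for p < i <= r (bid_zero): so this equals - ( eta_r (v3 - (r+1) v0) Phi_(r+1) + eta_p (v3 - (p+1) v2) Phi_p ).  If Phi_(r+1) is nonzero take v = (1,0,0,0,0) = jj 0: value eta_r (r+1) Phi_(r+1), nonzero;
otherwise Phi_p is nonzero, take v = (0,0,1,0,0) = jj 1: value eta_p (p+1) Phi_p.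
-/

namespace Pool.Agent.XP
open MvPolynomial Module

private noncomputable def g6b (P : Fin 6 → ℂ) (z : V5) : Bsp := (fun i => DD 5 (mv z i) P, 0)

private theorem g6b_sg (P : Fin 6 → ℂ) (z : V5) : sg z (g6b P z) = 0 := by
  rw [sg_apply]
  funext i
  fin_cases i
  · change sgf z (g6b P z) 0 = 0
    rw [sgf_zero]
    change DD 4 (mv z 1) (DD 5 (mv z 2) P) - DD 4 (mv z 2) (DD 5 (mv z 1) P) + (0 : ℂ) • hsA z = 0
    rw [dd_comm 4 (mv z 1) (mv z 2) P, sub_self, zero_smul, add_zero]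
  · change sgf z (g6b P z) 1 = 0
    rw [sgf_one]
    change DD 4 (mv z 2) (DD 5 (mv z 0) P) - DD 4 (mv z 0) (DD 5 (mv z 2) P) + (0 : ℂ) • hsB z = 0
    rw [dd_comm 4 (mv z 2) (mv z 0) P, sub_self, zero_smul, add_zero]
  · change sgf z (g6b P z) 2 = 0
    rw [sgf_two]
    change DD 4 (mv z 0) (DD 5 (mv z 1) P) - DD 4 (mv z 1) (DD 5 (mv z 0) P) = 0
    rw [dd_comm 4 (mv z 0) (mv z 1) P, sub_self]

private theorem g6b_add (P : Fin 6 → ℂ) (y v : V5) : g6b P (y + v) = g6b P y + g6b P v := by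
  refine Prod.ext ?_ ?_
  · funext i
    change DD 5 (mv (y + v) i) P = DD 5 (mv y i) P + DD 5 (mv v i) P
    rw [map_add, Pi.add_apply, map_add, LinearMap.add_apply]
  · change (0 : ℂ) = 0 + 0
    rw [add_zero]

private theorem g6_polar (P : Fin 6 → ℂ) (y v : V5) : sg v (g6b P y) = - sg y (g6b P v) := by
  have h := g6b_sg P (y + v)
  rw [g6b_add] at h
  simp only [map_add, LinearMap.add_apply] at h
  rw [g6b_sg P y, g6b_sg P v, zero_add, add_zero] at h
  rw [eq_neg_iff_add_eq_zero]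
  first | exact h | (rw [add_comm]; exact h)

private theorem g6b_emb (P : Fin 6 → ℂ) (z : V5) :
    g6b P z = emb ((![DD 5 (mv z 0) P, DD 5 (mv z 1) P], (DD 5 (mv z 2) P, 0)) : Usp × Csp) := by
  rw [emb_apply]
  refine Prod.ext ?_ rfl
  funext i
  fin_cases i <;> rfl

private theorem g6_yy (p r : Fin 5) (P : Fin 6 → ℂ) (i : Fin 5) :
    DD 5 (mv (yy p r) 0) P i = (((p : ℕ) : ℂ) + 1) * P i.succ ∧
    DD 5 (mv (yy p r) 1) P i = (((r : ℕ) : ℂ) + 1) * P i.castSucc ∧
    DD 5 (mv (yy p r) 2) P i =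
      ((((p : ℕ) : ℂ) + 1) * (((r : ℕ) : ℂ) + 1)) * (P i.succ + P i.castSucc) := by
  refine ⟨?_, ?_, ?_⟩
  · rw [DD_apply, mv_zero]
    simp [yy]
  · rw [DD_apply, mv_one]
    simp [yy]
  · rw [DD_apply, mv_two]
    simp [yy]
    ring

theorem nondeg_yy {p r : Fin 5} (hpr : p ≤ r) {u : Usp} (hu : NN L0 (yy p r) u = 0) (hne : u ≠ 0)
    {xi : Hsp →ₗ[ℂ] ℂ} (hv : Valid L0 (yy p r) xi) :
    ∃ v ∈ Submodule.span ℂ (Set.range jj), xi (sg v (bb L0 u)) ≠ 0 := by
  obtain ⟨P, hP, hP0, hP1⟩ := (nn_yy_iff p r u).1 hu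
  obtain ⟨hker, h, hBh, hxh⟩ := hv
  set y : V5 := yy p r with hy
  have hp1 : (((p : ℕ) : ℂ) + 1) ≠ 0 := Nat.cast_add_one_ne_zero _
  have hr1 : (((r : ℕ) : ℂ) + 1) ≠ 0 := Nat.cast_add_one_ne_zero _
  -- the functional eta
  set eta : (Fin 5 → ℂ) →ₗ[ℂ] ℂ := xi ∘ₗ (sg y) ∘ₗ emb ∘ₗ (LinearMap.inr ℂ Usp Csp) ∘ₗ
    (LinearMap.inl ℂ (Fin 5 → ℂ) ℂ) with heta
  have heta1 : ∀ f, eta f = xi (sg y (emb ((0, (f, 0)) : Usp × Csp))) := fun f => rfl
  have key1 : ∀ (u' : Usp) (f : Fin 5 → ℂ), xi (sg y (emb ((u', (f, 0)) : Usp × Csp))) =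
      eta (fun i => f i - (((i : ℕ) : ℂ) + 1) * (u' 0 i + u' 1 i)) := by
    intro u' f
    rw [heta1]
    have h1 : ((u', (f, 0)) : Usp × Csp) = (u', ap L0 u') +
        (0, ((fun i => f i - (((i : ℕ) : ℂ) + 1) * (u' 0 i + u' 1 i)), 0)) := by
      rw [ap_L0]
      refine Prod.ext ?_ (Prod.ext ?_ ?_)
      · simp
      · funext i
        simp
      · simp
    rw [h1, map_add, map_add, map_add]
    have h2 : xi (sg y (emb ((u', ap L0 u') : Usp × Csp))) = 0 := hker u'
    rw [h2, zero_add]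
  set e : Fin 5 → ℂ := fun i => eta (Pi.single i 1) with he
  have hes : ∀ f, eta f = ∑ i, e i * f i := by
    intro f
    rw [LinearMap.pi_apply_eq_sum_univ eta f]
    refine Finset.sum_congr rfl (fun i _ => ?_)
    rw [smul_eq_mul, mul_comm]
    congr 2
    funext j
    rw [Pi.single_apply]
    by_cases hij : i = j
    · rw [if_pos hij, if_pos hij.symm]
    · rw [if_neg hij, if_neg (Ne.symm hij)]
  -- the pairing with g6b
  have key2 : ∀ (Q : Fin 6 → ℂ) (z : V5), xi (sg y (g6b Q z)) = ∑ i, e i *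
      (DD 5 (mv z 2) Q i - (((i : ℕ) : ℂ) + 1) * (DD 5 (mv z 0) Q i + DD 5 (mv z 1) Q i)) := by
    intro Q z
    rw [g6b_emb, key1, hes]
    rfl
  have hdual : ∀ Q : Fin 6 → ℂ,
      ∑ i, e i * (alp p r i * Q i.succ + bet p r i * Q i.castSucc) = 0 := by
    intro Q
    have h1 := key2 Q y
    rw [g6b_sg, map_zero] at h1
    rw [h1]
    refine Finset.sum_congr rfl (fun i _ => ?_)
    obtain ⟨e0, e1, e2⟩ := g6_yy p r Q i
    rw [hy, e0, e1, e2, alp, bet]
    ring
  have hsupp := dual_supp hpr hdual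
  have hene : e ≠ 0 := by
    intro he0
    apply hxh
    have hspan : Span2 (mv y) := by
      left
      rw [mv_zero, mv_one]
      simp only [det2, Matrix.cons_val_zero, Matrix.cons_val_one]
      have h1 : y 0 = ((p : ℕ) : ℂ) + 1 := rfl
      have h2 : y 1 = 0 := rfl
      have h3 : y 2 = ((r : ℕ) : ℂ) + 1 := rfl
      rw [h1, h2, h3, mul_zero, sub_zero]
      exact mul_ne_zero hp1 hr1
    obtain ⟨q, hq⟩ := crs_surj hspan (h := h) (by rw [← BB_apply]; exact hBh)
    have h1 : sg y (emb ((![q 0, q 1], (q 2, 0)) : Usp × Csp)) = h := by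
      rw [← hq, sg_apply, emb_apply]
      funext i
      fin_cases i
      · change sgf y _ 0 = _
        rw [sgf_zero]
        change DD 4 (mv y 1) (q 2) - DD 4 (mv y 2) (q 1) + (0 : ℂ) • hsA y =
          DD 4 (mv y 1) (q 2) - DD 4 (mv y 2) (q 1)
        rw [zero_smul, add_zero]
      · change sgf y _ 1 = _
        rw [sgf_one]
        change DD 4 (mv y 2) (q 0) - DD 4 (mv y 0) (q 2) + (0 : ℂ) • hsB y =
          DD 4 (mv y 2) (q 0) - DD 4 (mv y 0) (q 2)
        rw [zero_smul, add_zero]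
      · rfl
    rw [← h1, key1, hes]
    refine Finset.sum_eq_zero (fun i _ => ?_)
    rw [he0, Pi.zero_apply, zero_mul]
  obtain ⟨hep, her⟩ := dual_ne hpr hdual hene
  -- bb L0 u = g6b P y
  have hbb : bb L0 u = g6b P y := by
    rw [g6b_emb]
    have h1 : bb L0 u = emb ((u, ap L0 u) : Usp × Csp) := rfl
    rw [h1]
    congr 1
    rw [ap_L0]
    refine Prod.ext ?_ (Prod.ext ?_ rfl)
    · funext a i
      obtain ⟨e0, e1, e2⟩ := g6_yy p r P i
      fin_cases a
      · change u 0 i = DD 5 (mv y 0) P i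
        rw [hy, e0, hP0]
      · change u 1 i = DD 5 (mv y 1) P i
        rw [hy, e1, hP1]
    · funext i
      obtain ⟨e0, e1, e2⟩ := g6_yy p r P i
      change (((i : ℕ) : ℂ) + 1) * (u 0 i + u 1 i) = DD 5 (mv y 2) P i
      rw [hy, e2, hP0, hP1]
      have h2 := hP i
      rw [alp, bet] at h2
      linear_combination -h2
  have hpair : ∀ v : V5, xi (sg v (bb L0 u)) = - ∑ i, e i *
      (DD 5 (mv v 2) P i - (((i : ℕ) : ℂ) + 1) * (DD 5 (mv v 0) P i + DD 5 (mv v 1) P i)) := by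
    intro v
    rw [hbb, g6_polar, map_neg, key2]
  have hz := bid_zero hpr hP
  by_cases hr : P r.succ = 0
  · have hpp : P p.castSucc ≠ 0 := by
      intro h0
      apply hne
      have h1 := bid_det hpr hP h0 hr
      funext a i
      fin_cases a
      · change u 0 i = 0
        rw [hP0, h1, Pi.zero_apply, mul_zero]
      · change u 1 i = 0
        rw [hP1, h1, Pi.zero_apply, mul_zero]
    refine ⟨jj 1, Submodule.subset_span ⟨1, rfl⟩, ?_⟩
    have h1 : xi (sg (jj 1) (bb L0 u)) = e p * ((((p : ℕ) : ℂ) + 1) * P p.castSucc) := by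
      rw [hpair, ← Finset.sum_neg_distrib, Finset.sum_eq_single p]
      · rw [DD_apply, DD_apply, DD_apply, mv_zero, mv_one, mv_two]
        simp [jj]
      · intro i _ hi
        rw [DD_apply, DD_apply, DD_apply, mv_zero, mv_one, mv_two]
        rcases lt_or_gt_of_ne hi with h2 | h2
        · rw [hsupp i (Or.inl h2)]
          simp
        · by_cases h3 : r < i
          · rw [hsupp i (Or.inr h3)]
            simp
          · have h4 : P i.castSucc = 0 := hz i.castSucc (by simpa using h2) (by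
              push Not at h3
              simpa using h3)
            simp [jj, h4]
      · intro h2
        exact absurd (Finset.mem_univ p) h2
    rw [h1]
    exact mul_ne_zero hep (mul_ne_zero hp1 hpp)
  · refine ⟨jj 0, Submodule.subset_span ⟨0, rfl⟩, ?_⟩
    have h1 : xi (sg (jj 0) (bb L0 u)) = e r * ((((r : ℕ) : ℂ) + 1) * P r.succ) := by
      rw [hpair, ← Finset.sum_neg_distrib, Finset.sum_eq_single r]
      · rw [DD_apply, DD_apply, DD_apply, mv_zero, mv_one, mv_two]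
        simp [jj]
      · intro i _ hi
        rw [DD_apply, DD_apply, DD_apply, mv_zero, mv_one, mv_two]
        rcases lt_or_gt_of_ne hi with h2 | h2
        · by_cases h3 : i < p
          · rw [hsupp i (Or.inl h3)]
            simp
          · have h4 : P i.succ = 0 := hz i.succ (by
              push Not at h3
              have h5 : (p : ℕ) ≤ (i : ℕ) := h3
              simp only [Fin.val_succ]
              omega) (by
              have h5 : (i : ℕ) < (r : ℕ) := h2
              simp only [Fin.val_succ]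
              omega)
            simp [jj, h4]
        · rw [hsupp i (Or.inr h2)]
          simp
      · intro h2
        exact absurd (Finset.mem_univ r) h2
    rw [h1]
    exact mul_ne_zero her (mul_ne_zero hr1 hr)

end Pool.Agent.XP
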