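import Pool.Agent.Work.MP_80e05d_ag.XP.G3
import Pool.Agent.Work.MP_80e05d_ag.XP.A3

/-!
G7 (M).  The points e1 = (1,0,0,0,0) and e2 = (0,0,1,0,0).

e1: mv y = ((1,0),0,0), hsA, hsB have c = 0 for L0.  DD 4 (1,0) f i = f_(i+1).  NN L0 y u = (0, - (T u)_(i+1), u_1(i+1)), T u i = (i+1)(u_0i + u_1i).  Kernel: u_1(i+1) = 0 and u_0(i+1) = 0 for i < 4: u = (al e_0, be e_0): dimension 2, T u = (al+be) e_0.
Valid xi: kills the image, which is all h with h 0 = 0 ((T u)_(i+1) and u_1(i+1) are arbitrary), BB y h = ((h 0)_(i+1))_i, so on ker (BB y) xi h = (h 0 0) x0 with x0 = xi (e at position (0,0)), x0 nonzero by Valid.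
sg v (bb L0 u) is in ker (BB y) (bb_sg_of_ker), so xi (sg v (bb L0 u)) = x0 * (component (0,0)) = x0 (v2 (al+be) - v4 be) [DD 4 (mv v 1)(T u) 0 = v1 (T u)_1 + v2 (T u)_0, DD 4 (mv v 2)(u 1) 0 = v3 u_1(1) + v4 u_1(0)].
For (al,be) nonzero choose v = jj 1 (v2 = 1: al+be) or v = jj 2 (v4 = 1: -be).
e2: mv y = (0,(0,1),0), DD 4 (0,1) f i = f_i.  NN L0 y u = ((T u)_i, 0, - u_0i)_(i<4).  Kernel: u_0i = 0, u_1i = 0 for i < 4: u = (al e_4, be e_4), T u = 5 (al+be) e_4.  xi kills all h with h 1 = 0; BB y h = ((h 1)_i)_(i<3); x3 = xi (e at (1,3)) nonzero;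
xi (sg v (bb L0 u)) = x3 * component (1,3) = x3 (v3 al - 5 v0 (al+be)) [DD 4 (mv v 2)(u 0) 3 - DD 4 (mv v 0)(T u) 3].  Choose v = jj 2 or jj 0.
-/

namespace Pool.Agent.XP
open MvPolynomial Module

private theorem hsp_split (h : Hsp) :
    h = ![h 0, 0, 0] + ![0, h 1, 0] + ![0, 0, h 2] := by
  funext i
  fin_cases i <;> simp

private theorem bb0 (u : Usp) : bb L0 u =
    (![u 0, u 1, fun i : Fin 5 => (((i : ℕ) : ℂ) + 1) * (u 0 i + u 1 i)], 0) := by
  rw [bb_apply, ap_L0]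

/-- entries of N at e1 -/
private theorem nn1 (u : Usp) (j : Fin 4) :
    NN L0 ![1, 0, 0, 0, 0] u 0 j = 0 ∧
    NN L0 ![1, 0, 0, 0, 0] u 1 j = - ((((j.succ : Fin 5) : ℕ) : ℂ) + 1) * (u 0 j.succ + u 1 j.succ) ∧
    NN L0 ![1, 0, 0, 0, 0] u 2 j = u 1 j.succ := by
  rw [NN_apply, bb0, sg_apply, sgf_zero, sgf_one, sgf_two, mv_zero, mv_one, mv_two]
  refine ⟨?_, ?_, ?_⟩
  · simp [DD_apply]
  · simp [DD_apply]
    ring
  · simp [DD_apply]

/-- entries of N at e2 -/
private theorem nn2 (u : Usp) (j : Fin 4) :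
    NN L0 ![0, 0, 1, 0, 0] u 0 j = (((j : ℕ) : ℂ) + 1) * (u 0 j.castSucc + u 1 j.castSucc) ∧
    NN L0 ![0, 0, 1, 0, 0] u 1 j = 0 ∧
    NN L0 ![0, 0, 1, 0, 0] u 2 j = - u 0 j.castSucc := by
  rw [NN_apply, bb0, sg_apply, sgf_zero, sgf_one, sgf_two, mv_zero, mv_one, mv_two]
  refine ⟨?_, ?_, ?_⟩ <;> simp [DD_apply]

private theorem cne (n : ℕ) : ((n : ℂ) + 1) ≠ 0 := Nat.cast_add_one_ne_zero n

/-- kernel at e1 -/
private theorem ker1 (u : Usp) : NN L0 ![1, 0, 0, 0, 0] u = 0 ↔ ∀ (a : Fin 2) (j : Fin 4), u a j.succ = 0 := by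
  constructor
  · intro h
    have h1 : ∀ j : Fin 4, u 1 j.succ = 0 := by
      intro j
      rw [← (nn1 u j).2.2, h]
      rfl
    have h0 : ∀ j : Fin 4, u 0 j.succ = 0 := by
      intro j
      have e := (nn1 u j).2.1
      rw [h, h1 j, add_zero] at e
      have e' : - ((((j.succ : Fin 5) : ℕ) : ℂ) + 1) * u 0 j.succ = 0 := e.symm
      exact (mul_eq_zero.mp e').resolve_left (neg_ne_zero.mpr (cne _))
    intro a j
    fin_cases a
    · exact h0 j
    · exact h1 j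
  · intro h
    funext i j
    fin_cases i
    · exact (nn1 u j).1
    · refine (nn1 u j).2.1.trans ?_
      rw [h 0 j, h 1 j, add_zero, mul_zero]
      rfl
    · refine (nn1 u j).2.2.trans ?_
      rw [h 1 j]
      rfl

/-- kernel at e2 -/
private theorem ker2 (u : Usp) : NN L0 ![0, 0, 1, 0, 0] u = 0 ↔ ∀ (a : Fin 2) (j : Fin 4), u a j.castSucc = 0 := by
  constructor
  · intro h
    have h0 : ∀ j : Fin 4, u 0 j.castSucc = 0 := by
      intro j
      have e := (nn2 u j).2.2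
      rw [h] at e
      have e' : - u 0 j.castSucc = 0 := e.symm
      exact neg_eq_zero.mp e'
    have h1 : ∀ j : Fin 4, u 1 j.castSucc = 0 := by
      intro j
      have e := (nn2 u j).1
      rw [h, h0 j, zero_add] at e
      have e' : (((j : ℕ) : ℂ) + 1) * u 1 j.castSucc = 0 := e.symm
      exact (mul_eq_zero.mp e').resolve_left (cne _)
    intro a j
    fin_cases a
    · exact h0 j
    · exact h1 j
  · intro h
    funext i j
    fin_cases i
    · refine (nn2 u j).1.trans ?_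
      rw [h 0 j, h 1 j, add_zero, mul_zero]
      rfl
    · exact (nn2 u j).2.1
    · refine (nn2 u j).2.2.trans ?_
      rw [h 0 j, neg_zero]
      rfl

/-- the parametrization of the kernels -/
private noncomputable def par (k : Fin 5) : (Fin 2 → ℂ) →ₗ[ℂ] Usp where
  toFun c := fun a => Pi.single k (c a)
  map_add' := by
    intro c c'; funext a
    change (Pi.single k (c a + c' a) : Fin 5 → ℂ) = Pi.single k (c a) + Pi.single k (c' a)
    rw [Pi.single_add]
  map_smul' := by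
    intro r c; funext a
    funext i
    change (Pi.single k (r * c a) : Fin 5 → ℂ) i = r * (Pi.single k (c a) : Fin 5 → ℂ) i
    by_cases hi : i = k
    · subst hi
      rw [Pi.single_eq_same, Pi.single_eq_same]
    · rw [Pi.single_eq_of_ne hi, Pi.single_eq_of_ne hi, mul_zero]

private theorem par_fin (k : Fin 5) : finrank ℂ (LinearMap.range (par k)) = 2 := by
  rw [LinearMap.finrank_range_of_inj, finrank_fin_fun]
  rw [← LinearMap.ker_eq_bot, LinearMap.ker_eq_bot']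
  intro c hc
  funext a
  have := congrFun (congrFun hc a) k
  have h2 : (Pi.single k (c a) : Fin 5 → ℂ) k = 0 := this
  rwa [Pi.single_eq_same] at h2

private theorem jmem (i : Fin 3) : jj i ∈ Submodule.span ℂ (Set.range jj) :=
  Submodule.subset_span ⟨i, rfl⟩

theorem finrank_e1 : finrank ℂ (LinearMap.ker (NN L0 ![1, 0, 0, 0, 0])) = 2 := by
  have e : LinearMap.ker (NN L0 ![1, 0, 0, 0, 0]) = LinearMap.range (par 0) := by
    ext u
    rw [LinearMap.mem_ker, ker1, LinearMap.mem_range]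
    constructor
    · intro h
      refine ⟨fun a => u a 0, ?_⟩
      funext a i
      change (Pi.single (0 : Fin 5) (u a 0) : Fin 5 → ℂ) i = u a i
      refine Fin.cases ?_ (fun j => ?_) i
      · rw [Pi.single_eq_same]
      · rw [Pi.single_eq_of_ne (Fin.succ_ne_zero j), h a j]
    · rintro ⟨c, rfl⟩ a j
      change (Pi.single (0 : Fin 5) (c a) : Fin 5 → ℂ) j.succ = 0
      rw [Pi.single_eq_of_ne (Fin.succ_ne_zero j)]
  rw [e, par_fin]

theorem nondeg_e1 {u : Usp} (hu : NN L0 ![1, 0, 0, 0, 0] u = 0) (hne : u ≠ 0)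
    {xi : Hsp →ₗ[ℂ] ℂ} (hv : Valid L0 ![1, 0, 0, 0, 0] xi) :
    ∃ v ∈ Submodule.span ℂ (Set.range jj), xi (sg v (bb L0 u)) ≠ 0 := by
  have hk := (ker1 u).mp hu
  -- xi kills h with h 0 = 0
  have hz : ∀ hh : Hsp, hh 0 = 0 → xi hh = 0 := by
    intro hh h0
    let w : Usp := ![Fin.cases 0 (fun j : Fin 4 => - hh 1 j / (((((j.succ : Fin 5) : ℕ) : ℂ) + 1)) - hh 2 j),
      Fin.cases 0 (fun j : Fin 4 => hh 2 j)]
    have hw := hv.1 w
    have e : NN L0 ![1, 0, 0, 0, 0] w = hh := by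
      funext i j
      fin_cases i
      · exact (nn1 w j).1.trans (by rw [show hh (⟨0, by decide⟩ : Fin 3) = 0 from h0]; rfl)
      · refine (nn1 w j).2.1.trans ?_
        change - ((((j.succ : Fin 5) : ℕ) : ℂ) + 1) *
          ((- hh 1 j / (((((j.succ : Fin 5) : ℕ) : ℂ) + 1)) - hh 2 j) + hh 2 j) = hh 1 j
        have := cne ((j.succ : Fin 5) : ℕ)
        field_simp
        ring
      · exact (nn1 w j).2.2
    rwa [e] at hw
  have hB : ∀ hh : Hsp, BB ![1, 0, 0, 0, 0] hh = 0 → ∀ j : Fin 3, hh 0 j.succ = 0 := by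
    intro hh hb j
    rw [BB_apply, mv_zero, mv_one, mv_two] at hb
    have := congrFun hb j
    simpa [DD_apply] using this
  have hxi : ∀ hh : Hsp, BB ![1, 0, 0, 0, 0] hh = 0 →
      xi hh = hh 0 0 * xi ![Pi.single 0 1, 0, 0] := by
    intro hh hb
    have h1 : xi (hh - (hh 0 0) • ![Pi.single 0 1, 0, 0]) = 0 := by
      apply hz
      funext j
      change hh 0 j - (hh 0 0) * (Pi.single (0 : Fin 4) (1 : ℂ) : Fin 4 → ℂ) j = 0
      refine Fin.cases ?_ (fun j => ?_) j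
      · rw [Pi.single_eq_same, mul_one, sub_self]
      · rw [Pi.single_eq_of_ne (Fin.succ_ne_zero j), mul_zero, sub_zero, hB hh hb j]
    rw [map_sub, map_smul, sub_eq_zero, smul_eq_mul] at h1
    exact h1
  have hx0 : xi ![Pi.single 0 1, 0, 0] ≠ 0 := by
    intro h0
    obtain ⟨hh, hb, hx⟩ := hv.2
    rw [hxi hh hb, h0, mul_zero] at hx
    exact hx rfl
  have hval : ∀ v : V5, xi (sg v (bb L0 u)) =
      (v 2 * (u 0 0 + u 1 0) - v 4 * u 1 0) * xi ![Pi.single 0 1, 0, 0] := by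
    intro v
    rw [hxi _ (bb_sg_of_ker hu v)]
    congr 1
    rw [bb0, sg_apply, sgf_zero, mv_one, mv_two]
    have a1 : u 0 1 = 0 := hk 0 0
    have a2 : u 1 1 = 0 := hk 1 0
    simp [DD_apply, a1, a2]
  by_cases hs : u 0 0 + u 1 0 = 0
  · refine ⟨jj 2, jmem 2, ?_⟩
    rw [hval]
    refine mul_ne_zero ?_ hx0
    intro h1
    have h2 : u 1 0 = 0 := by
      simpa [jj] using h1
    apply hne
    have h3 : u 0 0 = 0 := by
      rw [h2, add_zero] at hs
      exact hs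
    funext a i
    refine Fin.cases ?_ (fun j => hk a j) i
    fin_cases a
    · exact h3
    · exact h2
  · refine ⟨jj 1, jmem 1, ?_⟩
    rw [hval]
    refine mul_ne_zero ?_ hx0
    intro h1
    apply hs
    simpa [jj] using h1

theorem finrank_e2 : finrank ℂ (LinearMap.ker (NN L0 ![0, 0, 1, 0, 0])) = 2 := by
  have e : LinearMap.ker (NN L0 ![0, 0, 1, 0, 0]) = LinearMap.range (par (Fin.last 4)) := by
    ext u
    rw [LinearMap.mem_ker, ker2, LinearMap.mem_range]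
    constructor
    · intro h
      refine ⟨fun a => u a (Fin.last 4), ?_⟩
      funext a i
      change (Pi.single (Fin.last 4) (u a (Fin.last 4)) : Fin 5 → ℂ) i = u a i
      refine Fin.lastCases ?_ (fun j => ?_) i
      · rw [Pi.single_eq_same]
      · rw [Pi.single_eq_of_ne (Fin.castSucc_lt_last j).ne, h a j]
    · rintro ⟨c, rfl⟩ a j
      change (Pi.single (Fin.last 4) (c a) : Fin 5 → ℂ) j.castSucc = 0
      rw [Pi.single_eq_of_ne (Fin.castSucc_lt_last j).ne]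
  rw [e, par_fin]

theorem nondeg_e2 {u : Usp} (hu : NN L0 ![0, 0, 1, 0, 0] u = 0) (hne : u ≠ 0)
    {xi : Hsp →ₗ[ℂ] ℂ} (hv : Valid L0 ![0, 0, 1, 0, 0] xi) :
    ∃ v ∈ Submodule.span ℂ (Set.range jj), xi (sg v (bb L0 u)) ≠ 0 := by
  have hk := (ker2 u).mp hu
  have hz : ∀ hh : Hsp, hh 1 = 0 → xi hh = 0 := by
    intro hh h0
    let w : Usp := ![Fin.lastCases 0 (fun j : Fin 4 => - hh 2 j),
      Fin.lastCases 0 (fun j : Fin 4 => hh 0 j / (((j : ℕ) : ℂ) + 1) + hh 2 j)]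
    have hw := hv.1 w
    have w0 : ∀ j : Fin 4, w 0 j.castSucc = - hh 2 j := by
      intro j
      change (Fin.lastCases 0 (fun j : Fin 4 => - hh 2 j) (j.castSucc) : ℂ) = _
      rw [Fin.lastCases_castSucc]
    have w1 : ∀ j : Fin 4, w 1 j.castSucc = hh 0 j / (((j : ℕ) : ℂ) + 1) + hh 2 j := by
      intro j
      change (Fin.lastCases 0 (fun j : Fin 4 => hh 0 j / (((j : ℕ) : ℂ) + 1) + hh 2 j) (j.castSucc) : ℂ) = _
      rw [Fin.lastCases_castSucc]
    have e : NN L0 ![0, 0, 1, 0, 0] w = hh := by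
      funext i j
      fin_cases i
      · refine (nn2 w j).1.trans ?_
        rw [w0, w1]
        change (((j : ℕ) : ℂ) + 1) * (- hh 2 j + (hh 0 j / (((j : ℕ) : ℂ) + 1) + hh 2 j)) = hh 0 j
        have := cne (j : ℕ)
        field_simp
        ring
      · exact (nn2 w j).2.1.trans (by rw [show hh (⟨1, by decide⟩ : Fin 3) = 0 from h0]; rfl)
      · refine (nn2 w j).2.2.trans ?_
        rw [w0, neg_neg]
        rfl
    rwa [e] at hw
  have hB : ∀ hh : Hsp, BB ![0, 0, 1, 0, 0] hh = 0 → ∀ j : Fin 3, hh 1 j.castSucc = 0 := by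
    intro hh hb j
    rw [BB_apply, mv_zero, mv_one, mv_two] at hb
    have := congrFun hb j
    simpa [DD_apply] using this
  have hxi : ∀ hh : Hsp, BB ![0, 0, 1, 0, 0] hh = 0 →
      xi hh = hh 1 (Fin.last 3) * xi ![0, Pi.single (Fin.last 3) 1, 0] := by
    intro hh hb
    have h1 : xi (hh - (hh 1 (Fin.last 3)) • ![0, Pi.single (Fin.last 3) 1, 0]) = 0 := by
      apply hz
      funext j
      change hh 1 j - (hh 1 (Fin.last 3)) * (Pi.single (Fin.last 3) (1 : ℂ) : Fin 4 → ℂ) j = 0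
      refine Fin.lastCases ?_ (fun j => ?_) j
      · rw [Pi.single_eq_same, mul_one, sub_self]
      · rw [Pi.single_eq_of_ne (Fin.castSucc_lt_last j).ne, mul_zero, sub_zero, hB hh hb j]
    rw [map_sub, map_smul, sub_eq_zero, smul_eq_mul] at h1
    exact h1
  have hx0 : xi ![0, Pi.single (Fin.last 3) 1, 0] ≠ 0 := by
    intro h0
    obtain ⟨hh, hb, hx⟩ := hv.2
    rw [hxi hh hb, h0, mul_zero] at hx
    exact hx rfl
  have hval : ∀ v : V5, xi (sg v (bb L0 u)) =
      (v 3 * u 0 4 - 5 * v 0 * (u 0 4 + u 1 4)) * xi ![0, Pi.single (Fin.last 3) 1, 0] := by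
    intro v
    rw [hxi _ (bb_sg_of_ker hu v)]
    congr 1
    rw [bb0, sg_apply, sgf_one, mv_zero, mv_two]
    have a1 : u 0 3 = 0 := hk 0 3
    have a2 : u 1 3 = 0 := hk 1 3
    change v 3 * u 0 4 + v 4 * u 0 3 - (v 0 * ((((4 : ℕ) : ℂ) + 1) * (u 0 4 + u 1 4)) +
      v 1 * ((((3 : ℕ) : ℂ) + 1) * (u 0 3 + u 1 3))) + (0 : ℂ) * hsB v 3 = _
    rw [a1, a2]
    push_cast
    ring
  by_cases hs : u 0 4 + u 1 4 = 0
  · refine ⟨jj 2, jmem 2, ?_⟩
    rw [hval]
    refine mul_ne_zero ?_ hx0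
    intro h1
    have h2 : u 0 4 = 0 := by
      simpa [jj] using h1
    apply hne
    have h3 : u 1 4 = 0 := by
      rw [h2, zero_add] at hs
      exact hs
    funext a i
    refine Fin.lastCases ?_ (fun j => hk a j) i
    fin_cases a
    · exact h2
    · exact h3
  · refine ⟨jj 0, jmem 0, ?_⟩
    rw [hval]
    refine mul_ne_zero ?_ hx0
    intro h1
    apply hs
    simpa [jj] using h1

end Pool.Agent.XP
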