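import Pool.Agent.Work.MP_80e05d_ag.XP.L1

/-!
L2 (M).  The valid functionals along the line and the pairing.

Let xi be Valid L y, y = (0,0,0,s,t).  By nn_line and surjectivity of D_x : S^4 -> S^3 (dd_surj, applied to u 1 and u 0 independently) xi kills every h with h 2 = 0.  BB y h = D_x (h 2) (BB_apply), so Valid says that there is h with
D_x (h 2) = 0 and xi (0,0,h 2) nonzero; ker (D_x on S^3) = C k3 (dd_ker_le; DD 3 x k3 = 0), so kk := xi (0,0,k3) is nonzero.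
For u 0 = al k4, u 1 = be k4 and any v: component 2 of sg v (bb L u) is DD 4 (mv v 0)(u 1) - DD 4 (mv v 1)(u 0) = (be (s v1 - t v0) - al (s v2 - t v1)) k3 by dd_k4 (mv v 0 = (v0,v1), mv v 1 = (v1,v2)), hence
xi (sg v (bb L u)) = kk (be (s v1 - t v0) - al (s v2 - t v1)).
-/

namespace Pool.Agent.XP
open MvPolynomial Module

private theorem st_ne {s t : ℂ} (h : s ≠ 0 ∨ t ≠ 0) : (![s, t] : Fin 2 → ℂ) ≠ 0 := by
  intro h0
  rcases h with h | h
  · exact h (congrFun h0 0)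
  · exact h (congrFun h0 1)

private theorem dd_x_k3 (s t : ℂ) : DD 3 ![s, t] (k3 s t) = 0 := by
  funext i
  rw [DD_apply]
  fin_cases i <;> simp [k3] <;> ring

private theorem ker_k3 {s t : ℂ} (h : s ≠ 0 ∨ t ≠ 0) {f : Fin 4 → ℂ} (hf : DD 3 ![s, t] f = 0) :
    ∃ a : ℂ, f = a • k3 s t := by
  have h1 := dd_ker_le 3 (st_ne h)
  have hk : k3 s t ∈ LinearMap.ker (DD 3 ![s, t]) := LinearMap.mem_ker.mpr (dd_x_k3 s t)
  have hf' : f ∈ LinearMap.ker (DD 3 ![s, t]) := LinearMap.mem_ker.mpr hf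
  obtain ⟨v, hv⟩ := finrank_le_one_iff.mp h1
  obtain ⟨c, hc⟩ := hv ⟨k3 s t, hk⟩
  obtain ⟨d, hd⟩ := hv ⟨f, hf'⟩
  have hc' : c • (v : Fin 4 → ℂ) = k3 s t := congrArg Subtype.val hc
  have hd' : d • (v : Fin 4 → ℂ) = f := congrArg Subtype.val hd
  have hc0 : c ≠ 0 := by
    intro h0
    rw [h0, zero_smul] at hc'
    exact k3_ne h hc'.symm
  refine ⟨d / c, ?_⟩
  rw [← hd', ← hc', smul_smul, div_mul_cancel₀ _ hc0]

theorem pairing_line {L : Par} {s t : ℂ} (h : s ≠ 0 ∨ t ≠ 0) {xi : Hsp →ₗ[ℂ] ℂ}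
    (hv : Valid L ![0, 0, 0, s, t] xi) :
    ∃ kk : ℂ, kk ≠ 0 ∧ ∀ (u : Usp) (al be : ℂ), u 0 = al • k4 s t → u 1 = be • k4 s t →
      ∀ v : V5, xi (sg v (bb L u)) = kk * (be * (s * v 1 - t * v 0) - al * (s * v 2 - t * v 1)) := by
  have hz : ∀ hh : Hsp, hh 2 = 0 → xi hh = 0 := by
    intro hh h2
    obtain ⟨f1, hf1⟩ := dd_surj 4 (st_ne h) (- hh 0)
    obtain ⟨f0, hf0⟩ := dd_surj 4 (st_ne h) (hh 1)
    have hu := hv.1 ![f0, f1]
    rw [nn_line] at hu
    have e : (![- DD 4 ![s, t] ((![f0, f1] : Usp) 1), DD 4 ![s, t] ((![f0, f1] : Usp) 0), 0] : Hsp)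
        = hh := by
      funext i
      fin_cases i
      · change - DD 4 ![s, t] f1 = hh 0
        rw [hf1, neg_neg]
      · exact hf0
      · exact h2.symm
    rwa [e] at hu
  have hxi : ∀ (hh : Hsp) (a : ℂ), hh 2 = a • k3 s t → xi hh = a * xi ![0, 0, k3 s t] := by
    intro hh a ha
    have h1 : xi (hh - a • ![0, 0, k3 s t]) = 0 := by
      apply hz
      change hh 2 - a • k3 s t = 0
      rw [ha, sub_self]
    rw [map_sub, map_smul, sub_eq_zero, smul_eq_mul] at h1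
    exact h1
  refine ⟨xi ![0, 0, k3 s t], ?_, ?_⟩
  · intro hk
    obtain ⟨hh, hb, hx⟩ := hv.2
    apply hx
    rw [BB_apply] at hb
    have e0 : mv ![0, 0, 0, s, t] 0 = 0 := by
      rw [mv_zero]; ext i; fin_cases i <;> simp
    have e1 : mv ![0, 0, 0, s, t] 1 = 0 := by
      rw [mv_one]; ext i; fin_cases i <;> simp
    have e2 : mv ![0, 0, 0, s, t] 2 = ![s, t] := by
      rw [mv_two]; ext i; fin_cases i <;> simp
    rw [e0, e1, e2] at hb
    simp only [map_zero, LinearMap.zero_apply, zero_add] at hb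
    obtain ⟨a, ha⟩ := ker_k3 h hb
    rw [hxi hh a ha, hk, mul_zero]
  · intro u al be h0 h1 v
    rw [sg_apply, bb_apply]
    rw [hxi _ (be * (s * v 1 - t * v 0) - al * (s * v 2 - t * v 1)) ?_]
    · ring
    · rw [sgf_two]
      change DD 4 (mv v 0) (u 1) - DD 4 (mv v 1) (u 0) = _
      rw [h0, h1, map_smul, map_smul, dd_k4, dd_k4, smul_smul, smul_smul, ← sub_smul, mv_zero,
        mv_one]
      rfl

end Pool.Agent.XP
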