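import Pool.Agent.Work.MP_80e05d_ag.XP.G3
import Pool.Agent.Work.MP_80e05d_ag.XP.L2

/-!
G8 (S).  The point e3 = (0,0,0,1,1) on the line (s = t = 1 in L1, L2).
finrank_line.  u 0 = al k4, u 1 = be k4 (ker_line), (al,be) nonzero, pairing_line: xi (sg v (bb L0 u)) = kk (be (v1 - v0) - al (v2 - v1)); v = jj 0 gives - kk be, v = jj 1 gives - kk al.
-/

namespace Pool.Agent.XP
open MvPolynomial Module

theorem finrank_e3 : finrank ℂ (LinearMap.ker (NN L0 ![0, 0, 0, 1, 1])) = 2 :=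
  finrank_line L0 (Or.inl one_ne_zero)

theorem nondeg_e3 {u : Usp} (hu : NN L0 ![0, 0, 0, 1, 1] u = 0) (hne : u ≠ 0)
    {xi : Hsp →ₗ[ℂ] ℂ} (hv : Valid L0 ![0, 0, 0, 1, 1] xi) :
    ∃ v ∈ Submodule.span ℂ (Set.range jj), xi (sg v (bb L0 u)) ≠ 0 := by
  obtain ⟨al, be, h0, h1⟩ := (ker_line L0 (s := 1) (t := 1) (Or.inl one_ne_zero) u).mp hu
  obtain ⟨kk, hkk, hp⟩ := pairing_line (s := 1) (t := 1) (Or.inl one_ne_zero) hv
  by_cases hbe : be = 0
  · have hal : al ≠ 0 := by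
      rintro rfl
      apply hne
      funext i
      fin_cases i
      · simpa using h0
      · simpa [hbe] using h1
    refine ⟨jj 1, Submodule.subset_span ⟨1, rfl⟩, ?_⟩
    rw [hp u al be h0 h1]
    simp [jj, hbe, hkk, hal]
  · refine ⟨jj 0, Submodule.subset_span ⟨0, rfl⟩, ?_⟩
    rw [hp u al be h0 h1]
    simp [jj, hkk, hbe]

end Pool.Agent.XP
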