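import Pool.Agent.Work.MP_80e05d_ag.XP.G3

/-!
G9 (S-M).  The 18 points as a family over Fin 18 (via an index type), pairwise independent; stability of pairwise independence.

Idx = {(p,r) : p <= r} + Fin 3 has 18 elements; pt : Idx -> V5.  Pairwise: no pt i is a multiple of pt k for i not k: for the yy points y3/y0 = r+1 and y3/y2 = p+1; e1 = (1,0,0,0,0), e2 = (0,0,1,0,0), e3 = (0,0,0,1,1) have zero coordinates in different places, the yy points have y0, y2, y3 nonzero.
sep: a, b in V5 both nonzero and not proportional: there is eps > 0 such that |a'-a| < eps, |b'-b| < eps imply that a' is not a multiple c b' (linear independence of (a,b) is an open condition: isOpen_setOf_linearIndependent, or a nonzero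
2 x 2 minor), and a', b' nonzero.
-/

namespace Pool.Agent.XP
open MvPolynomial Module

/-- index type of the 18 points -/
abbrev Idx := {q : Fin 5 × Fin 5 // q.1 ≤ q.2} ⊕ Fin 3

/-- the 18 points -/
def pt : Idx → V5
  | Sum.inl q => yy q.1.1 q.1.2
  | Sum.inr i => jj i

theorem card_Idx : Fintype.card Idx = 18 := by
  decide

private theorem cast_ne (p : Fin 5) : (((p : ℕ) : ℂ) + 1) ≠ 0 := Nat.cast_add_one_ne_zero _

theorem pt_ne (i : Idx) : pt i ≠ 0 := by
  intro h
  rcases i with q | i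
  · have h0 := congrFun h 0
    exact cast_ne q.1.1 h0
  · fin_cases i
    · have h0 := congrFun h 0
      exact one_ne_zero (α := ℂ) h0
    · have h0 := congrFun h 2
      exact one_ne_zero (α := ℂ) h0
    · have h0 := congrFun h 3
      exact one_ne_zero (α := ℂ) h0

theorem pt_mem (i : Idx) : pt i ∈ Submodule.span ℂ (Set.range jj) := by
  rcases i with q | i
  · have h : pt (Sum.inl q) = (((q.1.1 : ℕ) : ℂ) + 1) • jj 0 + ((((q.1.2 : ℕ) : ℂ) + 1) • jj 1 +
        ((((q.1.1 : ℕ) : ℂ) + 1) * (((q.1.2 : ℕ) : ℂ) + 1)) • jj 2) := by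
      funext k
      fin_cases k <;> simp [pt, yy, jj]
    rw [h]
    exact Submodule.add_mem _ (Submodule.smul_mem _ _ (Submodule.subset_span ⟨0, rfl⟩))
      (Submodule.add_mem _ (Submodule.smul_mem _ _ (Submodule.subset_span ⟨1, rfl⟩))
        (Submodule.smul_mem _ _ (Submodule.subset_span ⟨2, rfl⟩)))
  · exact Submodule.subset_span ⟨i, rfl⟩

theorem jj_li : LinearIndependent ℂ jj := by
  rw [Fintype.linearIndependent_iff]
  intro g hg
  rw [Fin.sum_univ_three] at hg
  have h0 := congrFun hg 0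
  have h2 := congrFun hg 2
  have h3 := congrFun hg 3
  simp [jj] at h0 h2 h3
  intro i
  fin_cases i
  · exact h0
  · exact h2
  · exact h3

theorem pt_pair {i k : Idx} (h : i ≠ k) (c : ℂ) : pt i ≠ c • pt k := by
  intro he
  have h0 : pt i 0 = c * pt k 0 := congrFun he 0
  have h2 : pt i 2 = c * pt k 2 := congrFun he 2
  have h3 : pt i 3 = c * pt k 3 := congrFun he 3
  rcases i with q | i
  · have a0 : pt (Sum.inl q) 0 = ((q.1.1 : ℕ) : ℂ) + 1 := rfl
    have a2 : pt (Sum.inl q) 2 = ((q.1.2 : ℕ) : ℂ) + 1 := rfl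
    have a3 : pt (Sum.inl q) 3 = (((q.1.1 : ℕ) : ℂ) + 1) * (((q.1.2 : ℕ) : ℂ) + 1) := rfl
    rw [a0] at h0
    rw [a2] at h2
    rw [a3] at h3
    have n1 := cast_ne q.1.1
    have n2 := cast_ne q.1.2
    rcases k with q' | k
    · have b0 : pt (Sum.inl q') 0 = ((q'.1.1 : ℕ) : ℂ) + 1 := rfl
      have b2 : pt (Sum.inl q') 2 = ((q'.1.2 : ℕ) : ℂ) + 1 := rfl
      have b3 : pt (Sum.inl q') 3 = (((q'.1.1 : ℕ) : ℂ) + 1) * (((q'.1.2 : ℕ) : ℂ) + 1) := rfl
      rw [b0] at h0
      rw [b2] at h2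
      rw [b3] at h3
      have m1 := cast_ne q'.1.1
      have m2 := cast_ne q'.1.2
      have hc : c ≠ 0 := by
        rintro rfl
        rw [zero_mul] at h0
        exact n1 h0
      rw [h0, h2] at h3
      have hc1 : c = 1 := by
        have e1 : c * ((((q'.1.1 : ℕ) : ℂ) + 1) * (((q'.1.2 : ℕ) : ℂ) + 1)) * c =
            c * ((((q'.1.1 : ℕ) : ℂ) + 1) * (((q'.1.2 : ℕ) : ℂ) + 1)) * 1 := by
          rw [mul_one]
          calc _ = c * (((q'.1.1 : ℕ) : ℂ) + 1) * (c * (((q'.1.2 : ℕ) : ℂ) + 1)) := by ring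
            _ = _ := h3
        exact mul_left_cancel₀ (mul_ne_zero hc (mul_ne_zero m1 m2)) e1
      rw [hc1, one_mul] at h0 h2
      have e1 : (q.1.1 : ℕ) = (q'.1.1 : ℕ) := by exact_mod_cast add_right_cancel h0
      have e2 : (q.1.2 : ℕ) = (q'.1.2 : ℕ) := by exact_mod_cast add_right_cancel h2
      apply h
      congr 1
      exact Subtype.ext (Prod.ext (Fin.ext e1) (Fin.ext e2))
    · fin_cases k
      · have b2 : pt (Sum.inr 0) 2 = 0 := rfl
        exact n2 (by rw [h2]; exact (congrArg (c * ·) b2).trans (mul_zero c))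
      · have b0 : pt (Sum.inr 1) 0 = 0 := rfl
        exact n1 (by rw [h0]; exact (congrArg (c * ·) b0).trans (mul_zero c))
      · have b0 : pt (Sum.inr 2) 0 = 0 := rfl
        exact n1 (by rw [h0]; exact (congrArg (c * ·) b0).trans (mul_zero c))
  · rcases k with q' | k
    · have b0 : pt (Sum.inl q') 0 = ((q'.1.1 : ℕ) : ℂ) + 1 := rfl
      have b2 : pt (Sum.inl q') 2 = ((q'.1.2 : ℕ) : ℂ) + 1 := rfl
      have b3 : pt (Sum.inl q') 3 = (((q'.1.1 : ℕ) : ℂ) + 1) * (((q'.1.2 : ℕ) : ℂ) + 1) := rfl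
      rw [b0] at h0
      rw [b2] at h2
      rw [b3] at h3
      have m1 := cast_ne q'.1.1
      have m2 := cast_ne q'.1.2
      fin_cases i
      · have a0 : pt (Sum.inr 0) 0 = 1 := rfl
        have a2 : pt (Sum.inr 0) 2 = 0 := rfl
        have e2 : (0 : ℂ) = c * (((q'.1.2 : ℕ) : ℂ) + 1) := a2.symm.trans h2
        have e0 : (1 : ℂ) = c * (((q'.1.1 : ℕ) : ℂ) + 1) := a0.symm.trans h0
        rcases mul_eq_zero.1 e2.symm with hc | hc
        · rw [hc, zero_mul] at e0
          exact one_ne_zero e0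
        · exact m2 hc
      · have a0 : pt (Sum.inr 1) 0 = 0 := rfl
        have a2 : pt (Sum.inr 1) 2 = 1 := rfl
        have e2 : (1 : ℂ) = c * (((q'.1.2 : ℕ) : ℂ) + 1) := a2.symm.trans h2
        have e0 : (0 : ℂ) = c * (((q'.1.1 : ℕ) : ℂ) + 1) := a0.symm.trans h0
        rcases mul_eq_zero.1 e0.symm with hc | hc
        · rw [hc, zero_mul] at e2
          exact one_ne_zero e2
        · exact m1 hc
      · have a0 : pt (Sum.inr 2) 0 = 0 := rfl
        have a3 : pt (Sum.inr 2) 3 = 1 := rfl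
        have e3 : (1 : ℂ) = c * ((((q'.1.1 : ℕ) : ℂ) + 1) * (((q'.1.2 : ℕ) : ℂ) + 1)) :=
          a3.symm.trans h3
        have e0 : (0 : ℂ) = c * (((q'.1.1 : ℕ) : ℂ) + 1) := a0.symm.trans h0
        rcases mul_eq_zero.1 e0.symm with hc | hc
        · rw [hc, zero_mul] at e3
          exact one_ne_zero e3
        · exact m1 hc
    · have hik : i ≠ k := fun e => h (by rw [e])
      fin_cases i <;> fin_cases k <;> simp [pt, jj] at h0 h2 h3 hik

theorem sep {a b : V5} (ha : a ≠ 0) (hb : b ≠ 0) (h : ∀ c : ℂ, a ≠ c • b) :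
    ∃ ε > 0, ∀ a' b' : V5, ‖a' - a‖ < ε → ‖b' - b‖ < ε → a' ≠ 0 ∧ b' ≠ 0 ∧ ∀ c : ℂ, a' ≠ c • b' := by
  have hli : LinearIndependent ℂ ![a, b] := by
    rw [LinearIndependent.pair_iff]
    intro s t hst
    by_cases hs : s = 0
    · rw [hs, zero_smul, zero_add] at hst
      exact ⟨hs, (smul_eq_zero.1 hst).resolve_right hb⟩
    · exfalso
      apply h (-(t / s))
      have h1 : s • a = -(t • b) := eq_neg_of_add_eq_zero_left hst
      have h2 : a = s⁻¹ • (s • a) := by rw [smul_smul, inv_mul_cancel₀ hs, one_smul]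
      rw [h2, h1, smul_neg, smul_smul, neg_smul]
      congr 2
      field_simp
  have hop := isOpen_setOf_linearIndependent (𝕜 := ℂ) (E := V5) (ι := Fin 2)
  obtain ⟨ε, hε, hball⟩ := Metric.isOpen_iff.1 hop _ hli
  refine ⟨ε, hε, fun a' b' ha' hb' => ?_⟩
  have hmem : ![a', b'] ∈ Metric.ball ![a, b] ε := by
    rw [Metric.mem_ball, dist_pi_lt_iff hε]
    intro i
    fin_cases i
    · rw [dist_eq_norm]
      exact ha'
    · rw [dist_eq_norm]
      exact hb'
  have hli' : LinearIndependent ℂ ![a', b'] := hball hmem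
  refine ⟨hli'.ne_zero 0, hli'.ne_zero 1, fun c hc => ?_⟩
  rw [LinearIndependent.pair_iff] at hli'
  have h1 := hli' 1 (-c) (by rw [one_smul, neg_smul, hc, add_neg_cancel])
  exact one_ne_zero h1.1

end Pool.Agent.XP
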