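import Pool.Agent.Work.MP_80e05d_ag.XP.G2
import Pool.Agent.Work.MP_80e05d_ag.XP.G6
import Pool.Agent.Work.MP_80e05d_ag.XP.G7
import Pool.Agent.Work.MP_80e05d_ag.XP.G8
import Pool.Agent.Work.MP_80e05d_ag.XP.G9

/-!
Gmain (M).  An open set of parameters L for which the plane Pi = span jj meets XX L in at least 18 isolated points.

Proof.  Choose eps > 0 below all the (finitely many) eps of sep for the pairs pt i, pt k, i not k (pt_ne, pt_pair).  For every i in Idx persist_XX (G2) applies at (L0, pt i): hypotheses finrank_yy, nondeg_yy (p <= r), finrank_e1, nondeg_e1, finrank_e2, nondeg_e2,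
finrank_e3, nondeg_e3 (jj 0 = e1, jj 1 = e2, jj 2 = e3), pt_mem, pt_ne, jj_li.  So for L near L0 (finite intersection of eventualities, Filter.eventually_all) all 18 points y_i(L) exist.  The set of such L contains an open neighbourhood W of L0 (eventually_nhds / mem_nhds_iff).
For L in W: DegGe (XX L) 18 with j = jj and P = (y_i(L)) reindexed by an equivalence Fin 18 = Idx (card_Idx, Fintype.equivFinOfCardEq); pairwise not proportional and nonzero by sep (for nonzero: there are at least two indices).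
-/

namespace Pool.Agent.XP
open MvPolynomial Module

private theorem exists_sep : ∃ ε > 0, ∀ i k : Idx, i ≠ k → ∀ a' b' : V5, ‖a' - pt i‖ < ε →
    ‖b' - pt k‖ < ε → a' ≠ 0 ∧ b' ≠ 0 ∧ ∀ c : ℂ, a' ≠ c • b' := by
  have h : ∀ᶠ ε in nhdsWithin (0 : ℝ) (Set.Ioi 0), ∀ q : Idx × Idx, q.1 ≠ q.2 → ∀ a' b' : V5,
      ‖a' - pt q.1‖ < ε → ‖b' - pt q.2‖ < ε → a' ≠ 0 ∧ b' ≠ 0 ∧ ∀ c : ℂ, a' ≠ c • b' := by
    rw [Filter.eventually_all]
    intro q
    by_cases hq : q.1 = q.2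
    · exact Filter.Eventually.of_forall fun ε h => absurd hq h
    · obtain ⟨e, he, hs⟩ := sep (pt_ne q.1) (pt_ne q.2) (fun c => pt_pair hq c)
      filter_upwards [Ioo_mem_nhdsGT he] with ε hε _ a' b' ha hb
      exact hs a' b' (ha.trans hε.2) (hb.trans hε.2)
  obtain ⟨ε, hε, hpos⟩ := (h.and self_mem_nhdsWithin).exists
  exact ⟨ε, hpos, fun i k => hε (i, k)⟩

private theorem fin_nd (i : Idx) : finrank ℂ (LinearMap.ker (NN L0 (pt i))) = 2 ∧
    ∀ u, NN L0 (pt i) u = 0 → u ≠ 0 → ∀ xi, Valid L0 (pt i) xi →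
      ∃ v ∈ Submodule.span ℂ (Set.range jj), xi (sg v (bb L0 u)) ≠ 0 := by
  rcases i with q | i
  · exact ⟨finrank_yy q.2, fun u hu hne xi hv => nondeg_yy q.2 hu hne hv⟩
  · fin_cases i
    · exact ⟨finrank_e1, fun u hu hne xi hv => nondeg_e1 hu hne hv⟩
    · exact ⟨finrank_e2, fun u hu hne xi hv => nondeg_e2 hu hne hv⟩
    · exact ⟨finrank_e3, fun u hu hne xi hv => nondeg_e3 hu hne hv⟩

theorem eighteen : ∃ W : Set Par, IsOpen W ∧ W.Nonempty ∧ ∀ L ∈ W, DegGe (XX L) 18 := by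
  obtain ⟨ε, hε, hsep⟩ := exists_sep
  have h1 : ∀ᶠ L in nhds L0, ∀ i : Idx, ∃ y ∈ XX L, y ∈ Submodule.span ℂ (Set.range jj) ∧
      ‖y - pt i‖ < ε ∧ ∃ ε2 > 0, ∀ z ∈ XX L, z ∈ Submodule.span ℂ (Set.range jj) →
        ‖z - y‖ < ε2 → ∃ c : ℂ, z = c • y := by
    rw [Filter.eventually_all]
    intro i
    exact persist_XX jj_li (pt_mem i) (pt_ne i) (fin_nd i).1 (fin_nd i).2 hε
  obtain ⟨W, hW, hWo, hL0⟩ := eventually_nhds_iff.mp h1
  refine ⟨W, hWo, ⟨L0, hL0⟩, fun L hL => ?_⟩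
  have h2 := hW L hL
  choose y hy1 hy2 hy3 hy4 using h2
  let e : Fin 18 ≃ Idx := (Fintype.equivFinOfCardEq card_Idx).symm
  have hne : ∀ i k : Idx, i ≠ k → y i ≠ 0 ∧ y k ≠ 0 ∧ ∀ c : ℂ, y i ≠ c • y k :=
    fun i k hik => hsep i k hik (y i) (y k) (hy3 i) (hy3 k)
  refine ⟨jj, jj_li, fun n => y (e n), fun n => ⟨hy1 _, hy2 _, ?_⟩, fun n k hnk c => ?_, fun n => ?_⟩
  · have : ∃ k : Idx, e n ≠ k := by
      by_cases h : e n = Sum.inr 0
      · exact ⟨Sum.inr 1, by rw [h]; simp⟩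
      · exact ⟨Sum.inr 0, h⟩
    obtain ⟨k, hk⟩ := this
    exact (hne _ _ hk).1
  · exact (hne _ _ (fun h => hnk (e.injective h))).2.2 c
  · obtain ⟨ε2, h0, h⟩ := hy4 (e n)
    exact ⟨ε2, h0, fun z hz1 hz2 hz3 => h z hz1 hz2 hz3⟩

end Pool.Agent.XP
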