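import Pool.Agent.Work.MP_80e05d_ag.XP.L2
import Pool.Agent.Work.MP_80e05d_ag.XP.D0

/-!
Lmain (S-M).  All points of the line are good points of XX L.
Proof.  y = ![0,0,0,y 3,y 4], (y 3, y 4) nonzero.  y in XX L: mem_XX_iff and finrank_line.  GoodAt: finrank_line; for u nonzero in the kernel u 0 = al k4, u 1 = be k4 with (al, be) nonzero; pairing_line: need v with
be (s v1 - t v0) - al (s v2 - t v1) nonzero: as a linear form in (v0,v1,v2) it is (-t be, s be + t al, - s al); if all three vanish then, s or t being nonzero, al = be = 0 (s nonzero: al = 0, then s be = 0; t nonzero: be = 0, then t al = 0).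
Last clause: v = (s^2, st, t^2, 0, 0): s v1 - t v0 = s s t - t s^2 = 0, s v2 - t v1 = s t^2 - t s t = 0.
-/

namespace Pool.Agent.XP
open MvPolynomial Module

theorem line_good (L : Par) (y : V5) (h0 : y 0 = 0) (h1 : y 1 = 0) (h2 : y 2 = 0) (hy : y ≠ 0) :
    y ∈ XX L ∧ GoodAt L y ∧ ∀ u, NN L y u = 0 → ∀ xi, Valid L y xi →
      xi (sg ![y 3 ^ 2, y 3 * y 4, y 4 ^ 2, 0, 0] (bb L u)) = 0 := by
  obtain ⟨s, t, hst⟩ : ∃ s t : ℂ, y = ![0, 0, 0, s, t] := by
    refine ⟨y 3, y 4, ?_⟩
    funext i
    fin_cases i
    · exact h0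
    · exact h1
    · exact h2
    · rfl
    · rfl
  subst hst
  have hne : s ≠ 0 ∨ t ≠ 0 := by
    by_contra hc
    push Not at hc
    apply hy
    rw [hc.1, hc.2]
    funext i
    fin_cases i <;> rfl
  have hfr := finrank_line L hne
  refine ⟨(mem_XX_iff L _).mpr (by rw [hfr]), ⟨by rw [hfr], ?_⟩, ?_⟩
  · intro u hu hu0 xi hxi
    obtain ⟨kk, hkk, hp⟩ := pairing_line hne hxi
    obtain ⟨al, be, ha, hb⟩ := (ker_line L hne u).mp hu
    have hab : al ≠ 0 ∨ be ≠ 0 := by
      by_contra hc
      push Not at hc
      apply hu0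
      funext i
      fin_cases i
      · change u 0 = 0
        rw [ha, hc.1, zero_smul]
      · change u 1 = 0
        rw [hb, hc.2, zero_smul]
    by_contra hc
    push Not at hc
    have e0 : kk * (be * (s * 0 - t * 1) - al * (s * 0 - t * 0)) = 0 := by
      have e := hc ![1, 0, 0, 0, 0]
      rw [hp u al be ha hb] at e
      exact e
    have e1 : kk * (be * (s * 1 - t * 0) - al * (s * 0 - t * 1)) = 0 := by
      have e := hc ![0, 1, 0, 0, 0]
      rw [hp u al be ha hb] at e
      exact e
    have e2 : kk * (be * (s * 0 - t * 0) - al * (s * 1 - t * 0)) = 0 := by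
      have e := hc ![0, 0, 1, 0, 0]
      rw [hp u al be ha hb] at e
      exact e
    have f0 : be * t = 0 := by
      have := (mul_eq_zero.mp e0).resolve_left hkk
      linear_combination -this
    have f1 : be * s + al * t = 0 := by
      have := (mul_eq_zero.mp e1).resolve_left hkk
      linear_combination this
    have f2 : al * s = 0 := by
      have := (mul_eq_zero.mp e2).resolve_left hkk
      linear_combination -this
    rcases hne with hs | ht
    · have ga : al = 0 := (mul_eq_zero.mp f2).resolve_right hs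
      rw [ga, zero_mul, add_zero] at f1
      have gb : be = 0 := (mul_eq_zero.mp f1).resolve_right hs
      rcases hab with h | h
      · exact h ga
      · exact h gb
    · have gb : be = 0 := (mul_eq_zero.mp f0).resolve_right ht
      rw [gb, zero_mul, zero_add] at f1
      have ga : al = 0 := (mul_eq_zero.mp f1).resolve_right ht
      rcases hab with h | h
      · exact h ga
      · exact h gb
  · intro u hu xi hxi
    obtain ⟨kk, hkk, hp⟩ := pairing_line hne hxi
    obtain ⟨al, be, ha, hb⟩ := (ker_line L hne u).mp hu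
    rw [hp u al be ha hb]
    change kk * (be * (s * (s * t) - t * s ^ 2) - al * (s * t ^ 2 - t * (s * t))) = 0
    ring

end Pool.Agent.XP
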