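import Pool.Agent.Work.MP_80e05d_ag.XP.F1

/-!
# Module Tangent (size S-M): polynomials vanishing on `X` have a gradient orthogonal to the tangent space

PROOF.  `F(y) = G(y) = 0` (`hyX`, `hFG`); `φ, T, ε, C` from `local_param`.  For small `t` the point
`φ t` is in `X` (`h(φ t) ≠ 0` by continuity of `h` at `y` and `‖φ t - y‖ ≤ C ‖t‖`), so
`f(φ t) = 0` near `t = 0`.  The derivative at 0 in the direction `T v` is
`∑ i, grad f y i * (fderiv ℂ φ 0 (T v)) i = 0` (chain rule; `φ` is differentiable at 0, the derivative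
of a polynomial is given by its gradient, by induction on the polynomial), and
`fderiv ℂ φ 0 (T v) = v`.
-/

namespace Pool.Agent.XP
open MvPolynomial

private noncomputable def dL (F : MvPolynomial (Fin 5) ℂ) (y : V5) : V5 →L[ℂ] ℂ :=
  ∑ i, grad F y i • ContinuousLinearMap.proj (R := ℂ) (φ := fun _ : Fin 5 => ℂ) i

private theorem dL_apply (F : MvPolynomial (Fin 5) ℂ) (y v : V5) :
    dL F y v = ∑ i, grad F y i * v i := by
  simp [dL, ContinuousLinearMap.sum_apply]

private theorem hasStrict (F : MvPolynomial (Fin 5) ℂ) (y : V5) :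
    HasStrictFDerivAt (fun z : V5 => eval z F) (dL F y) y := by
  induction F using MvPolynomial.induction_on with
  | C a =>
    have h0 : dL (C a) y = 0 := by
      ext v
      simp [dL, grad]
    rw [h0]
    simpa using (hasStrictFDerivAt_const (𝕜 := ℂ) a y)
  | add p q hp hq =>
    have h0 : dL (p + q) y = dL p y + dL q y := by
      ext v
      simp only [dL_apply, ContinuousLinearMap.add_apply, grad, map_add, add_mul,
        Finset.sum_add_distrib]
    rw [h0]
    exact (hp.add hq).congr_of_eventuallyEq (Filter.Eventually.of_forall fun z => by simp)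
  | mul_X p i hp =>
    have h1 : HasStrictFDerivAt (fun z : V5 => z i)
        (ContinuousLinearMap.proj (R := ℂ) (φ := fun _ : Fin 5 => ℂ) i) y :=
      (ContinuousLinearMap.proj (R := ℂ) (φ := fun _ : Fin 5 => ℂ) i).hasStrictFDerivAt
    have h2 := hp.mul h1
    have h0 : dL (p * X i) y = (eval y p) • (ContinuousLinearMap.proj (R := ℂ)
        (φ := fun _ : Fin 5 => ℂ) i) + (y i) • dL p y := by
      ext v
      simp only [dL_apply, ContinuousLinearMap.add_apply, ContinuousLinearMap.smul_apply,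
        ContinuousLinearMap.proj_apply, grad, smul_eq_mul, Derivation.leibniz, pderiv_X, map_add,
        map_mul, eval_X, add_mul, Finset.sum_add_distrib]
      congr 1
      · rw [Finset.sum_eq_single i]
        · simp
        · intro j _ hj
          rw [Pi.single_eq_of_ne (by exact hj.symm)]
          simp
        · simp
      · rw [Finset.mul_sum]
        exact Finset.sum_congr rfl fun j _ => by ring
    rw [h0]
    have h3 : (fun z : V5 => eval z (p * X i)) = fun z : V5 => eval z p * z i := by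
      funext z
      simp
    rw [h3]
    exact h2

theorem tangent {X : Set V5} {y : V5} (hyX : y ∈ X) {F G h : MvPolynomial (Fin 5) ℂ}
    (hFG : ∀ z ∈ X, eval z F = 0 ∧ eval z G = 0)
    (hli : LinearIndependent ℂ ![grad F y, grad G y]) (hh : eval y h ≠ 0)
    (hX : ∀ z, eval z h ≠ 0 → eval z F = 0 → eval z G = 0 → z ∈ X)
    {v : V5} (hF : ∑ i, grad F y i * v i = 0) (hG : ∑ i, grad G y i * v i = 0)
    {f : MvPolynomial (Fin 5) ℂ} (hf : ∀ z ∈ X, eval z f = 0) :
    ∑ i, grad f y i * v i = 0 := by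
  obtain ⟨hFy, hGy⟩ := hFG y hyX
  obtain ⟨T, ε, C, φ, hε, hC0, hdiff, hφ0, hφ, -, hfd, -⟩ := local_param hFy hGy hli
  have hd0 : DifferentiableAt ℂ φ 0 :=
    (hdiff 0 (Metric.mem_ball_self hε)).differentiableAt (Metric.ball_mem_nhds 0 hε)
  have hcont : Filter.Tendsto φ (nhds 0) (nhds y) := by
    have := hd0.continuousAt.tendsto
    rwa [hφ0] at this
  have hhc : ∀ᶠ z in nhds y, eval z h ≠ 0 := by
    have h1 : ContinuousAt (fun z : V5 => eval z h) y := (hasStrict h y).continuousAt
    exact h1.eventually_ne hh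
  have e1 : ∀ᶠ t in nhds (0 : Fin 3 → ℂ), eval (φ t) f = 0 := by
    filter_upwards [hcont.eventually hhc, Metric.ball_mem_nhds (0 : Fin 3 → ℂ) hε] with t ht1 ht2
    obtain ⟨h1, h2, -⟩ := hφ t ht2
    exact hf _ (hX _ ht1 h1 h2)
  have h1 : HasFDerivAt (fun t => eval (φ t) f) ((dL f y).comp (fderiv ℂ φ 0)) 0 := by
    have h2 : HasFDerivAt (fun z : V5 => eval z f) (dL f y) (φ 0) := by
      rw [hφ0]; exact (hasStrict f y).hasFDerivAt
    exact h2.comp (0 : Fin 3 → ℂ) hd0.hasFDerivAt
  have h2 : HasFDerivAt (fun t => eval (φ t) f) (0 : (Fin 3 → ℂ) →L[ℂ] ℂ) 0 :=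
    (hasFDerivAt_const (0 : ℂ) (0 : Fin 3 → ℂ)).congr_of_eventuallyEq e1
  have h3 := h1.unique h2
  have h4 := congrArg (fun l : (Fin 3 → ℂ) →L[ℂ] ℂ => l (T v)) h3
  simp only [ContinuousLinearMap.comp_apply, hfd v hF hG, dL_apply] at h4
  simpa using h4

end Pool.Agent.XP
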