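import Pool.Agent.Work.MP_80e05d_ag.XP.Fmain
import Pool.Agent.Work.MP_80e05d_ag.XP.Cmain
import Pool.Agent.Work.MP_80e05d_ag.XP.Lmain
import Pool.Agent.Work.MP_80e05d_ag.XP.Dmain
import Pool.Agent.Work.MP_80e05d_ag.XP.ConeX
import Pool.Agent.Work.MP_80e05d_ag.XP.Tangent
import Pool.Agent.Work.MP_80e05d_ag.XP.Gmain

namespace Pool.Agent.XP
open MvPolynomial

theorem zero_mem_XX (L : Par) : (0 : V5) ∈ XX L := by
  intro r c
  have h : (NM L 0).submatrix r c = 0 := by
    ext i j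
    simp [NM, NN_apply]
  rw [h]
  exact Matrix.det_zero

theorem main : ∃ X : Set V5, IsCone X ∧ Irred X ∧ (∀ y ∈ X, y ≠ 0 → SmoothAt X y) ∧
    DegGe X 18 ∧ HasMinusOneLine X := by
  obtain ⟨W, hW, hWne, hW18⟩ := eighteen
  obtain ⟨L, hL, hgood⟩ := dense_good W hW hWne
  have hg : ∀ y : V5, y ≠ 0 → GoodAt L y := by
    intro y hy
    by_cases h0 : y 0 = 0
    · by_cases h1 : y 1 = 0
      · by_cases h2 : y 2 = 0
        · exact (line_good L y h0 h1 h2 hy).2.1
        · exact hgood y (Or.inr (Or.inr h2))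
      · exact hgood y (Or.inr (Or.inl h1))
    · exact hgood y (Or.inl h0)
  have hs : ∀ y ∈ XX L, y ≠ 0 → SmoothAt (XX L) y := by
    intro y hyX hy
    obtain ⟨F, G, h, h1, h2, h3, h4, -⟩ := smooth_of_good L y hy hyX (hg y hy)
    exact ⟨F, G, h, h1, h2, h3, h4⟩
  refine ⟨XX L, cone_XX L, irred_of_smooth (cone_XX L) hs, hs, hW18 L hL, ?_⟩
  have hst : ∀ s t : ℂ, s • (![0, 0, 0, 1, 0] : V5) + t • (![0, 0, 0, 0, 1] : V5) =
      ![0, 0, 0, s, t] := by
    intro s t; ext i; fin_cases i <;> simp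
  have hc : ∀ s t : ℂ, s ^ 2 • (![1, 0, 0, 0, 0] : V5) + (s * t) • (![0, 1, 0, 0, 0] : V5) +
      t ^ 2 • (![0, 0, 1, 0, 0] : V5) = ![s ^ 2, s * t, t ^ 2, 0, 0] := by
    intro s t; ext i; fin_cases i <;> simp
  refine ⟨![0, 0, 0, 1, 0], ![0, 0, 0, 0, 1], ![1, 0, 0, 0, 0], ![0, 1, 0, 0, 0],
    ![0, 0, 1, 0, 0], ?_, ?_, ?_⟩
  · rw [LinearIndependent.pair_iff]
    intro s t h
    rw [hst] at h
    have h3 := congrFun h 3
    have h4 := congrFun h 4
    simp at h3 h4
    exact ⟨h3, h4⟩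
  · intro s t
    rw [hst]
    by_cases h : (![0, 0, 0, s, t] : V5) = 0
    · -- the origin
      rw [h]
      exact zero_mem_XX L
    · exact (line_good L _ rfl rfl rfl h).1
  · intro s t hne
    rw [hst, hc]
    have hy : (![0, 0, 0, s, t] : V5) ≠ 0 := by
      intro h
      have h3 := congrFun h 3
      have h4 := congrFun h 4
      simp at h3 h4
      exact hne (by rw [h3, h4])
    constructor
    · intro hmem
      rw [Submodule.mem_span_pair] at hmem
      obtain ⟨a, b, hab⟩ := hmem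
      have h0 := congrFun hab 0
      have h2 := congrFun hab 2
      simp at h0 h2
      have hs0 : s = 0 := by
        have : s ^ 2 = 0 := h0.symm
        exact pow_eq_zero_iff (two_ne_zero) |>.mp this
      have ht0 : t = 0 := by
        have : t ^ 2 = 0 := h2.symm
        exact pow_eq_zero_iff (two_ne_zero) |>.mp this
      exact hne (by rw [hs0, ht0])
    · intro f hf
      obtain ⟨hX, hgl, htan⟩ := line_good L ![0, 0, 0, s, t] rfl rfl rfl hy
      obtain ⟨F, G, h, h1, h2, h3, h4, h5⟩ := smooth_of_good L _ hy hX hgl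
      have h6 := h5 ![s ^ 2, s * t, t ^ 2, 0, 0] (by
        intro u hu xi hxi
        exact htan u hu xi hxi)
      exact tangent hX h1 h2 h3 h4 h6.1 h6.2 hf

end Pool.Agent.XP
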