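import Pool.Agent.Work.MP_80e05d_ag.XP.Defs

/-!
A0 (definitions, complete).  det2 of two vectors, the set NS (the complement of the cone over the cubic scroll S_3),
the cross product of a triple of vectors with phi, for arbitrary triples m : Fin 3 -> C^2.
-/

namespace Pool.Agent.XP
open MvPolynomial Module

/-- determinant of two vectors -/
def det2 (m n : Fin 2 → ℂ) : ℂ := m 0 * n 1 - m 1 * n 0

/-- the triple of vectors spans C^2 -/
def Span2 (m : Fin 3 → Fin 2 → ℂ) : Prop := det2 (m 0) (m 1) ≠ 0 ∨ det2 (m 1) (m 2) ≠ 0 ∨ det2 (m 2) (m 0) ≠ 0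

/-- m x D phi, for an arbitrary triple m -/
noncomputable def crs (d : ℕ) (m : Fin 3 → Fin 2 → ℂ) (p : Fin 3 → Fin (d + 1) → ℂ) : Fin 3 → Fin d → ℂ :=
  ![DD d (m 1) (p 2) - DD d (m 2) (p 1), DD d (m 2) (p 0) - DD d (m 0) (p 2),
    DD d (m 0) (p 1) - DD d (m 1) (p 0)]

end Pool.Agent.XP
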