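import Pool.Agent.Work.MP_80e05d_ag.XP.A0

/-!
A1 (S-M).  Elementary facts on D_m : S^d -> S^(d-1) (functions on Fin (d+1) to functions on Fin d),
(D_m f)_i = m_0 f_(i+1) + m_1 f_i  (theorem DD_apply in Defs).

dd_ker_le: the kernel has dimension <= 1.  If m_0 is nonzero then f_(i+1) = -(m_1/m_0) f_i, so f in the kernel with f_0 = 0 is 0
and f -> f_0 is injective on the kernel.  If m_0 = 0, m_1 is nonzero then f_i = 0 for i < d and f -> f_d is injective on the kernel.
dd_surj: rank-nullity: the range has dimension >= d+1-1 = d.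
dd_comm: both sides are m_0 n_0 f_(i+2) + (m_0 n_1 + m_1 n_0) f_(i+1) + m_1 n_1 f_i.
dd_both: m_0 f_(i+1) + m_1 f_i = 0 = n_0 f_(i+1) + n_1 f_i and det2 m n nonzero give f_(i+1) = f_i = 0 for all i < d, and d >= 1.
-/

namespace Pool.Agent.XP
open MvPolynomial Module

theorem dd_ker_le (d : ℕ) {m : Fin 2 → ℂ} (hm : m ≠ 0) : finrank ℂ (LinearMap.ker (DD d m)) ≤ 1 := by
  have key : ∃ j : Fin (d + 1), ∀ f : Fin (d + 1) → ℂ, DD d m f = 0 → f j = 0 → f = 0 := by
    by_cases h0 : m 0 = 0
    · have h1 : m 1 ≠ 0 := by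
        intro h1
        apply hm
        funext i
        fin_cases i
        · exact h0
        · exact h1
      refine ⟨Fin.last d, fun f hf hl => ?_⟩
      funext i
      refine Fin.lastCases hl (fun i => ?_) i
      have := congrFun hf i
      rw [DD_apply, h0, zero_mul, zero_add] at this
      exact (mul_eq_zero.mp this).resolve_left h1
    · refine ⟨0, fun f hf hz => ?_⟩
      funext i
      refine Fin.induction hz (fun i hi => ?_) i
      have := congrFun hf i
      rw [DD_apply, hi] at this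
      simp only [Pi.zero_apply, mul_zero, add_zero] at this
      exact (mul_eq_zero.mp this).resolve_left h0
  obtain ⟨j, hj⟩ := key
  let φ : LinearMap.ker (DD d m) →ₗ[ℂ] ℂ :=
    (LinearMap.proj j : (Fin (d + 1) → ℂ) →ₗ[ℂ] ℂ) ∘ₗ (LinearMap.ker (DD d m)).subtype
  have hφ : Function.Injective φ := by
    rw [← LinearMap.ker_eq_bot, LinearMap.ker_eq_bot']
    rintro ⟨f, hf⟩ h
    have : f = 0 := hj f (LinearMap.mem_ker.mp hf) h
    exact Subtype.ext this
  have := LinearMap.finrank_le_finrank_of_injective hφ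
  rwa [Module.finrank_self] at this

theorem dd_surj (d : ℕ) {m : Fin 2 → ℂ} (hm : m ≠ 0) : Function.Surjective (DD d m) := by
  have h1 := dd_ker_le d hm
  have h2 := LinearMap.finrank_range_add_finrank_ker (DD d m)
  rw [Module.finrank_fin_fun] at h2
  have h3 : finrank ℂ (LinearMap.range (DD d m)) ≤ finrank ℂ (Fin d → ℂ) := Submodule.finrank_le _
  rw [Module.finrank_fin_fun] at h3
  rw [← LinearMap.range_eq_top]
  apply Submodule.eq_top_of_finrank_eq
  rw [Module.finrank_fin_fun]
  omega

theorem dd_comm (d : ℕ) (m n : Fin 2 → ℂ) (f : Fin (d + 2) → ℂ) :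
    DD d m (DD (d + 1) n f) = DD d n (DD (d + 1) m f) := by
  funext i
  rw [DD_apply, DD_apply, DD_apply, DD_apply, DD_apply, DD_apply]
  rw [Fin.succ_castSucc]
  ring

theorem dd_both {d : ℕ} (hd : 1 ≤ d) {m n : Fin 2 → ℂ} (h : det2 m n ≠ 0) {f : Fin (d + 1) → ℂ}
    (h1 : DD d m f = 0) (h2 : DD d n f = 0) : f = 0 := by
  have key : ∀ i : Fin d, f i.succ = 0 ∧ f i.castSucc = 0 := by
    intro i
    have e1 := congrFun h1 i
    have e2 := congrFun h2 i
    rw [DD_apply, Pi.zero_apply] at e1 e2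
    unfold det2 at h
    constructor
    · have : (m 0 * n 1 - m 1 * n 0) * f i.succ = 0 := by linear_combination n 1 * e1 - m 1 * e2
      exact (mul_eq_zero.mp this).resolve_left h
    · have : (m 0 * n 1 - m 1 * n 0) * f i.castSucc = 0 := by
        linear_combination m 0 * e2 - n 0 * e1
      exact (mul_eq_zero.mp this).resolve_left h
  obtain ⟨e, rfl⟩ : ∃ e, d = e + 1 := ⟨d - 1, by omega⟩
  funext i
  refine Fin.cases ?_ (fun i => (key i).1) i
  exact (key 0).2

end Pool.Agent.XP
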