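import Pool.Agent.Work.MP_80e05d_ag.XP.A0

/-!
A10 (S-M).  Algebra of linear forms.  m, m2 triples, m spans C^2, and m2_i m_j = m2_j m_i as products of linear forms for all pairs
(three coefficient equations each) => m2 = a m.

Proof.  Let i, j be such that det2 (m i) (m j) = D is nonzero, write p = m i, q = m j, x = m2 i, y = m2 j: x0 q0 = y0 p0, x0 q1 + x1 q0 = y0 p1 + y1 p0,
x1 q1 = y1 p1.  Substituting the root (-p1, p0) of the form p: (-x0 p1 + x1 p0)(-q0 p1 + q1 p0) = 0 (p1^2 times the first minus p0 p1 times the second plus p0^2 times the third equation),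
the second factor is D, so x is proportional to p: x = al p (p is nonzero), similarly y = be q; then (al - be) p q = 0 coefficientwise gives al = be
(p0 q0, p0 q1 + p1 q0, p1 q1 are not all zero).  For the third index k: al p (m k) = (m2 k) p coefficientwise gives m2 k = al m k (p nonzero: if p0 is nonzero
compare the coefficients in the order d0^2, d0 d1; if p0 = 0 then p1 is nonzero, compare d0 d1 and d1^2).
-/

namespace Pool.Agent.XP
open MvPolynomial Module

/-- equality of the products of linear forms m n = m' n' -/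
def ProdEq (m n m' n' : Fin 2 → ℂ) : Prop :=
  m 0 * n 0 - m' 0 * n' 0 = 0 ∧ m 0 * n 1 + m 1 * n 0 - m' 0 * n' 1 - m' 1 * n' 0 = 0 ∧
    m 1 * n 1 - m' 1 * n' 1 = 0

private theorem a10_two {p q x y : Fin 2 → ℂ} (hD : det2 p q ≠ 0) (h : ProdEq x q y p) :
    ∃ a : ℂ, (x 0 = a * p 0 ∧ x 1 = a * p 1) ∧ y 0 = a * q 0 ∧ y 1 = a * q 1 := by
  obtain ⟨h1, h2, h3⟩ := h
  unfold det2 at hD
  have e1 : x 1 * p 0 - x 0 * p 1 = 0 := by
    refine (mul_eq_zero.1 ?_).resolve_right hD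
    linear_combination (p 1) ^ 2 * h1 - p 0 * p 1 * h2 + (p 0) ^ 2 * h3
  have e2 : y 1 * q 0 - y 0 * q 1 = 0 := by
    refine (mul_eq_zero.1 ?_).resolve_right hD
    linear_combination (q 1) ^ 2 * h1 - q 0 * q 1 * h2 + (q 0) ^ 2 * h3
  set D := p 0 * q 1 - p 1 * q 0 with hDdef
  set a := (x 0 * q 1 - x 1 * q 0) / D with ha
  set b := (p 0 * y 1 - p 1 * y 0) / D with hb
  have hx0 : x 0 = a * p 0 := by
    rw [ha, div_mul_eq_mul_div, eq_div_iff hD, hDdef]
    linear_combination q 0 * e1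
  have hx1 : x 1 = a * p 1 := by
    rw [ha, div_mul_eq_mul_div, eq_div_iff hD, hDdef]
    linear_combination q 1 * e1
  have hy0 : y 0 = b * q 0 := by
    rw [hb, div_mul_eq_mul_div, eq_div_iff hD, hDdef]
    linear_combination (-p 0) * e2
  have hy1 : y 1 = b * q 1 := by
    rw [hb, div_mul_eq_mul_div, eq_div_iff hD, hDdef]
    linear_combination (-p 1) * e2
  rw [hx0, hy0] at h1
  rw [hx0, hy0, hx1, hy1] at h2
  rw [hx1, hy1] at h3
  have hab : a - b = 0 := by
    have h4 : (a - b) ^ 2 * D ^ 2 = 0 := by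
      rw [hDdef]
      linear_combination ((a - b) * (p 0 * q 1 + p 1 * q 0)) * h2 - 4 * (a - b) * p 0 * q 0 * h3
    have h5 := (mul_eq_zero.1 h4).resolve_right (pow_ne_zero 2 hD)
    exact pow_eq_zero_iff (two_ne_zero) |>.1 h5
  have hab' : b = a := (sub_eq_zero.1 hab).symm
  refine ⟨a, ⟨hx0, hx1⟩, ?_, ?_⟩
  · rw [hy0, hab']
  · rw [hy1, hab']

private theorem a10_third {p q x z r : Fin 2 → ℂ} (hD : det2 p q ≠ 0) {a : ℂ}
    (hx : x 0 = a * p 0 ∧ x 1 = a * p 1) (h : ProdEq x r z p) :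
    z 0 = a * r 0 ∧ z 1 = a * r 1 := by
  obtain ⟨h1, h2, h3⟩ := h
  rw [hx.1] at h1 h2
  rw [hx.2] at h2 h3
  by_cases hp : p 0 = 0
  · have hp1 : p 1 ≠ 0 := by
      intro h4
      apply hD
      rw [det2, hp, h4]
      ring
    have e1 : a * r 1 - z 1 = 0 := by
      refine (mul_eq_zero.1 ?_).resolve_left hp1
      linear_combination h3
    have e0 : a * r 0 - z 0 = 0 := by
      refine (mul_eq_zero.1 ?_).resolve_left hp1
      linear_combination h2 - (a * r 1 - z 1) * hp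
    exact ⟨(sub_eq_zero.1 e0).symm, (sub_eq_zero.1 e1).symm⟩
  · have e0 : a * r 0 - z 0 = 0 := by
      refine (mul_eq_zero.1 ?_).resolve_left hp
      linear_combination h1
    have e1 : a * r 1 - z 1 = 0 := by
      refine (mul_eq_zero.1 ?_).resolve_left hp
      linear_combination h2 - p 1 * e0
    exact ⟨(sub_eq_zero.1 e0).symm, (sub_eq_zero.1 e1).symm⟩

private theorem a10_ext {m m2 : Fin 3 → Fin 2 → ℂ} {a : ℂ} (h0 : m2 0 0 = a * m 0 0 ∧ m2 0 1 = a * m 0 1)
    (h1 : m2 1 0 = a * m 1 0 ∧ m2 1 1 = a * m 1 1) (h2 : m2 2 0 = a * m 2 0 ∧ m2 2 1 = a * m 2 1) :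
    m2 = a • m := by
  funext i j
  fin_cases i <;> fin_cases j
  · exact h0.1
  · exact h0.2
  · exact h1.1
  · exact h1.2
  · exact h2.1
  · exact h2.2

theorem eq_smul_of_prodEq {m m2 : Fin 3 → Fin 2 → ℂ} (hm : Span2 m)
    (h : ∀ i j, ProdEq (m2 i) (m j) (m2 j) (m i)) : ∃ a : ℂ, m2 = a • m := by
  rcases hm with hD | hD | hD
  · obtain ⟨a, hx, hy⟩ := a10_two hD (h 0 1)
    exact ⟨a, a10_ext hx hy (a10_third hD hx (h 0 2))⟩
  · obtain ⟨a, hx, hy⟩ := a10_two hD (h 1 2)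
    exact ⟨a, a10_ext (a10_third hD hx (h 1 0)) hx hy⟩
  · obtain ⟨a, hx, hy⟩ := a10_two hD (h 2 0)
    exact ⟨a, a10_ext hy (a10_third hD hx (h 2 1)) hx⟩

end Pool.Agent.XP
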