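import Pool.Agent.Work.MP_80e05d_ag.XP.A0

/-!
A9 (S-M).  A nonzero quadratic operator with constant coefficients has a kernel of dimension <= 2 on S^5 (linear recurrence).
Proof.  If q0 is nonzero, P_(i+2) = -(q1 P_(i+1) + q2 P_i)/q0 for i = 0,1,2,3, so P -> (P_0, P_1) is injective on K.
If q0 = 0, q1 nonzero: P_(i+1) = -(q2/q1) P_i for i = 0,..,3, so P -> (P_0, P_5) is injective on K.
If q0 = q1 = 0, q2 nonzero: P_0 = P_1 = P_2 = P_3 = 0, P -> (P_4, P_5) is injective.  (Use LinearMap.finrank_le_finrank_of_injective.)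
-/

namespace Pool.Agent.XP
open MvPolynomial Module

/-- kernel of q0 d0^2 + q1 d0 d1 + q2 d1^2 on S^5 -/
def qker (q0 q1 q2 : ℂ) : Submodule ℂ (Fin 6 → ℂ) where
  carrier := {P | q0 * P 2 + q1 * P 1 + q2 * P 0 = 0 ∧ q0 * P 3 + q1 * P 2 + q2 * P 1 = 0 ∧
    q0 * P 4 + q1 * P 3 + q2 * P 2 = 0 ∧ q0 * P 5 + q1 * P 4 + q2 * P 3 = 0}
  add_mem' := by
    rintro a b ⟨h1, h2, h3, h4⟩ ⟨k1, k2, k3, k4⟩
    simp only [Set.mem_setOf_eq, Pi.add_apply]
    exact ⟨by linear_combination h1 + k1, by linear_combination h2 + k2,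
      by linear_combination h3 + k3, by linear_combination h4 + k4⟩
  zero_mem' := by simp
  smul_mem' := by
    rintro c a ⟨h1, h2, h3, h4⟩
    simp only [Set.mem_setOf_eq, Pi.smul_apply, smul_eq_mul]
    exact ⟨by linear_combination c * h1, by linear_combination c * h2,
      by linear_combination c * h3, by linear_combination c * h4⟩

theorem qker_le {q0 q1 q2 : ℂ} (h : q0 ≠ 0 ∨ q1 ≠ 0 ∨ q2 ≠ 0) : finrank ℂ (qker q0 q1 q2) ≤ 2 := by
  have key : ∀ i j : Fin 6, (∀ P ∈ qker q0 q1 q2, P i = 0 → P j = 0 → P = 0) →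
      finrank ℂ (qker q0 q1 q2) ≤ 2 := by
    intro i j hK
    let f : qker q0 q1 q2 →ₗ[ℂ] (Fin 2 → ℂ) :=
      { toFun := fun P ↦ ![P.1 i, P.1 j]
        map_add' := by
          intro P Q
          funext k
          fin_cases k <;> rfl
        map_smul' := by
          intro c P
          funext k
          fin_cases k <;> rfl }
    have hinj : Function.Injective f := by
      rw [← LinearMap.ker_eq_bot, LinearMap.ker_eq_bot']
      intro P hP
      have h0 : P.1 i = 0 := congrFun hP 0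
      have h1 : P.1 j = 0 := congrFun hP 1
      exact Subtype.ext (hK P.1 P.2 h0 h1)
    have := LinearMap.finrank_le_finrank_of_injective hinj
    simpa using this
  by_cases h0 : q0 = 0
  · by_cases h1 : q1 = 0
    · have h2 : q2 ≠ 0 := by
        rcases h with h | h | h
        · exact absurd h0 h
        · exact absurd h1 h
        · exact h
      refine key 4 5 ?_
      rintro P ⟨e1, e2, e3, e4⟩ p4 p5
      rw [h0, h1] at e1 e2 e3 e4
      simp only [zero_mul, zero_add, mul_eq_zero, h2, false_or] at e1 e2 e3 e4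
      funext k
      fin_cases k
      · exact e1
      · exact e2
      · exact e3
      · exact e4
      · exact p4
      · exact p5
    · refine key 0 5 ?_
      rintro P ⟨e1, e2, e3, e4⟩ p0 p5
      rw [h0] at e1 e2 e3 e4
      simp only [zero_mul, zero_add] at e1 e2 e3 e4
      have p1 : P 1 = 0 := by
        rw [p0, mul_zero, add_zero, mul_eq_zero] at e1
        exact e1.resolve_left h1
      have p2 : P 2 = 0 := by
        rw [p1, mul_zero, add_zero, mul_eq_zero] at e2
        exact e2.resolve_left h1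
      have p3 : P 3 = 0 := by
        rw [p2, mul_zero, add_zero, mul_eq_zero] at e3
        exact e3.resolve_left h1
      have p4 : P 4 = 0 := by
        rw [p3, mul_zero, add_zero, mul_eq_zero] at e4
        exact e4.resolve_left h1
      funext k
      fin_cases k
      · exact p0
      · exact p1
      · exact p2
      · exact p3
      · exact p4
      · exact p5
  · refine key 0 1 ?_
    rintro P ⟨e1, e2, e3, e4⟩ p0 p1
    have p2 : P 2 = 0 := by
      rw [p0, p1, mul_zero, mul_zero, add_zero, add_zero, mul_eq_zero] at e1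
      exact e1.resolve_left h0
    have p3 : P 3 = 0 := by
      rw [p1, p2, mul_zero, mul_zero, add_zero, add_zero, mul_eq_zero] at e2
      exact e2.resolve_left h0
    have p4 : P 4 = 0 := by
      rw [p2, p3, mul_zero, mul_zero, add_zero, add_zero, mul_eq_zero] at e3
      exact e3.resolve_left h0
    have p5 : P 5 = 0 := by
      rw [p3, p4, mul_zero, mul_zero, add_zero, add_zero, mul_eq_zero] at e4
      exact e4.resolve_left h0
    funext k
    fin_cases k
    · exact p0
    · exact p1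
    · exact p2
    · exact p3
    · exact p4
    · exact p5

theorem mem_qker_of_comm {m n m' n' : Fin 2 → ℂ} {P : Fin 6 → ℂ}
    (h : DD 4 m (DD 5 n P) = DD 4 m' (DD 5 n' P)) :
    P ∈ qker (m 0 * n 0 - m' 0 * n' 0) (m 0 * n 1 + m 1 * n 0 - m' 0 * n' 1 - m' 1 * n' 0)
      (m 1 * n 1 - m' 1 * n' 1) := by
  have h0 : m 0 * (n 0 * P 2 + n 1 * P 1) + m 1 * (n 0 * P 1 + n 1 * P 0) =
    m' 0 * (n' 0 * P 2 + n' 1 * P 1) + m' 1 * (n' 0 * P 1 + n' 1 * P 0) := congrFun h 0
  have h1 : m 0 * (n 0 * P 3 + n 1 * P 2) + m 1 * (n 0 * P 2 + n 1 * P 1) =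
    m' 0 * (n' 0 * P 3 + n' 1 * P 2) + m' 1 * (n' 0 * P 2 + n' 1 * P 1) := congrFun h 1
  have h2 : m 0 * (n 0 * P 4 + n 1 * P 3) + m 1 * (n 0 * P 3 + n 1 * P 2) =
    m' 0 * (n' 0 * P 4 + n' 1 * P 3) + m' 1 * (n' 0 * P 3 + n' 1 * P 2) := congrFun h 2
  have h3 : m 0 * (n 0 * P 5 + n 1 * P 4) + m 1 * (n 0 * P 4 + n 1 * P 3) =
    m' 0 * (n' 0 * P 5 + n' 1 * P 4) + m' 1 * (n' 0 * P 4 + n' 1 * P 3) := congrFun h 3
  refine ⟨?_, ?_, ?_, ?_⟩
  · linear_combination h0
  · linear_combination h1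
  · linear_combination h2
  · linear_combination h3

end Pool.Agent.XP
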