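import Pool.Agent.Work.MP_80e05d_ag.XP.A8
import Pool.Agent.Work.MP_80e05d_ag.XP.A9
import Pool.Agent.Work.MP_80e05d_ag.XP.A10

/-!
A11 (M).  z with Span2 (mv z) and z2 not a multiple of z: dim (ker sg z cap ker sg z2) <= 3.

Proof.  K = ker (sg z) cap ker (sg z2).  The functional b -> b.2 on K has kernel K0 with dim K <= dim K0 + 1 (rank-nullity).
b = (p, 0) in K0: crs 4 (mv z) p = 0 (sgf with c = 0), so p i = DD 5 (mv z i) P for all i (crs_ker), and sg z2 b = 0 gives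
DD 4 (mv z2 i)(DD 5 (mv z j) P) = DD 4 (mv z2 j)(DD 5 (mv z i) P) for (i,j) = (1,2), (2,0), (0,1) (hence for all i, j).
By eq_smul_of_prodEq (mv is injective: mv z2 = a mv z implies z2 = a z) some pair (i,j) violates ProdEq (mv z2 i)(mv z j)(mv z2 j)(mv z i), so P lies in
the space Q = qker of its three coefficients (mem_qker_of_comm), of dimension <= 2 (qker_le).  K0 is contained in the image of Q under the linear map P -> (fun i => DD 5 (mv z i) P, 0),
so dim K0 <= 2.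
-/

namespace Pool.Agent.XP
open MvPolynomial Module

theorem mv_injective {y z : V5} {a : ℂ} (h : mv y = a • mv z) : y = a • z := by
  have h0 := congrFun h 0
  have h1 := congrFun h 1
  have h2 := congrFun h 2
  have a0 : y 0 = a * z 0 := congrFun h0 0
  have a1 : y 1 = a * z 1 := congrFun h0 1
  have a2 : y 2 = a * z 2 := congrFun h1 1
  have a3 : y 3 = a * z 3 := congrFun h2 0
  have a4 : y 4 = a * z 4 := congrFun h2 1
  funext i
  rw [Pi.smul_apply, smul_eq_mul]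
  fin_cases i
  · exact a0
  · exact a1
  · exact a2
  · exact a3
  · exact a4

private theorem a11_crs {z : V5} {b : Bsp} (hb : b.2 = 0) (h : sg z b = 0) :
    crs 4 (mv z) b.1 = 0 := by
  rw [sg_apply] at h
  unfold sgf at h
  rw [hb, zero_smul, zero_smul, add_zero, add_zero] at h
  exact h

private noncomputable def a11_g (z : V5) : (Fin 6 → ℂ) →ₗ[ℂ] Bsp :=
  LinearMap.prod (LinearMap.pi fun i ↦ DD 5 (mv z i)) 0

private theorem a11_comm {z z2 : V5} {b : Bsp} (hb : b.2 = 0) (h : sg z2 b = 0) {P : Fin 6 → ℂ}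
    (hP : ∀ i, b.1 i = DD 5 (mv z i) P) (i j : Fin 3) :
    DD 4 (mv z2 i) (DD 5 (mv z j) P) = DD 4 (mv z2 j) (DD 5 (mv z i) P) := by
  have hc := a11_crs hb h
  have h0 : DD 4 (mv z2 1) (b.1 2) - DD 4 (mv z2 2) (b.1 1) = 0 := congrFun hc 0
  have h1 : DD 4 (mv z2 2) (b.1 0) - DD 4 (mv z2 0) (b.1 2) = 0 := congrFun hc 1
  have h2 : DD 4 (mv z2 0) (b.1 1) - DD 4 (mv z2 1) (b.1 0) = 0 := congrFun hc 2
  rw [hP, hP, sub_eq_zero] at h0 h1 h2
  fin_cases i <;> fin_cases j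
  · rfl
  · exact h2
  · exact h1.symm
  · exact h2.symm
  · rfl
  · exact h0
  · exact h1
  · exact h0.symm
  · rfl

theorem ker_inter_le_of_span {z z2 : V5} (hz : Span2 (mv z)) (h : ∀ a : ℂ, z2 ≠ a • z) :
    finrank ℂ (LinearMap.ker (sg z) ⊓ LinearMap.ker (sg z2) : Submodule ℂ Bsp) ≤ 3 := by
  obtain ⟨i, j, hij⟩ : ∃ i j, ¬ ProdEq (mv z2 i) (mv z j) (mv z2 j) (mv z i) := by
    by_contra hcon
    push Not at hcon
    obtain ⟨a, ha⟩ := eq_smul_of_prodEq hz hcon
    exact h a (mv_injective ha)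
  have hq := qker_le (q0 := mv z2 i 0 * mv z j 0 - mv z2 j 0 * mv z i 0)
    (q1 := mv z2 i 0 * mv z j 1 + mv z2 i 1 * mv z j 0 - mv z2 j 0 * mv z i 1 - mv z2 j 1 * mv z i 0)
    (q2 := mv z2 i 1 * mv z j 1 - mv z2 j 1 * mv z i 1) (by
      by_contra hcon
      push Not at hcon
      exact hij ⟨hcon.1, hcon.2.1, hcon.2.2⟩)
  set Q := qker (mv z2 i 0 * mv z j 0 - mv z2 j 0 * mv z i 0)
    (mv z2 i 0 * mv z j 1 + mv z2 i 1 * mv z j 0 - mv z2 j 0 * mv z i 1 - mv z2 j 1 * mv z i 0)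
    (mv z2 i 1 * mv z j 1 - mv z2 j 1 * mv z i 1) with hQ
  set K : Submodule ℂ Bsp := LinearMap.ker (sg z) ⊓ LinearMap.ker (sg z2) with hK
  let f : K →ₗ[ℂ] ℂ := (LinearMap.snd ℂ (Fin 3 → Fin 5 → ℂ) ℂ).domRestrict K
  have hsub : (LinearMap.ker f).map K.subtype ≤ Q.map (a11_g z) := by
    rintro b ⟨b', hb', rfl⟩
    have hb2 : ((b' : K) : Bsp).2 = 0 := hb'
    have hk1 : sg z (b' : Bsp) = 0 := (Submodule.mem_inf.mp b'.2).1
    have hk2 : sg z2 (b' : Bsp) = 0 := (Submodule.mem_inf.mp b'.2).2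
    obtain ⟨P, hP⟩ := crs_ker hz (a11_crs hb2 hk1)
    refine ⟨P, mem_qker_of_comm (a11_comm hb2 hk2 hP i j), ?_⟩
    refine Prod.ext ?_ ?_
    · funext k
      exact (hP k).symm
    · exact hb2.symm
  have h1 : finrank ℂ (LinearMap.ker f) ≤ 2 := by
    rw [← Submodule.finrank_map_subtype_eq K (LinearMap.ker f)]
    exact (Submodule.finrank_mono hsub).trans ((Submodule.finrank_map_le _ _).trans hq)
  have h2 : finrank ℂ (LinearMap.range f) ≤ 1 := by
    have h3 := Submodule.finrank_le (LinearMap.range f)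
    rwa [finrank_self] at h3
  have h3 := LinearMap.finrank_range_add_finrank_ker f
  omega

end Pool.Agent.XP
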