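import Pool.Agent.Work.MP_80e05d_ag.XP.A1

/-!
A12 (M).  Two points of a ruling of the scroll: y = (a^2,ab,b^2,ga,gb), v = (0,0,0,a,b), (a,b) nonzero: dim (ker sg y cap ker sg v) <= 3.

Proof.  m = (a,b), b = (phi; c).  sg v b = 0: mv v = (0, 0, m), hsA v = hsB v = 0: component 0: D_m phi_1 = 0, component 1: D_m phi_0 = 0
(phi_0, phi_1, phi_2 indexed by Fin 3).  sg y b = 0, mv y = (a m, b m, g m): component 0: b D_m phi_2 - g D_m phi_1 + c hsA y = 0, so b D_m phi_2 + c hsA y = 0;
component 1: g D_m phi_0 - a D_m phi_2 + c hsB y = 0, so - a D_m phi_2 + c hsB y = 0.  Then c (a hsA y + b hsB y) = 0 and a hsA y + b hsB y = 6 (a^3, -a^2 b, a b^2, -b^3)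
is nonzero, so c = 0, and then D_m phi_2 = 0 (a or b nonzero).  So b -> (phi_0, phi_1, phi_2) is an injection of the intersection into (ker D_m)^3 which has dimension <= 3 by dd_ker_le.
-/

namespace Pool.Agent.XP
open MvPolynomial Module

private noncomputable def a12_g (m : Fin 2 → ℂ) :
    (Fin 3 → LinearMap.ker (DD 4 m)) →ₗ[ℂ] Bsp :=
  LinearMap.prod (LinearMap.pi fun i ↦ (LinearMap.ker (DD 4 m)).subtype ∘ₗ LinearMap.proj i) 0

private theorem a12_key {a b g : ℂ} (hab : a ≠ 0 ∨ b ≠ 0) {x : Bsp}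
    (h1 : sg ![a ^ 2, a * b, b ^ 2, g * a, g * b] x = 0) (h2 : sg ![0, 0, 0, a, b] x = 0) :
    (∀ i, DD 4 ![a, b] (x.1 i) = 0) ∧ x.2 = 0 := by
  have m0 : mv ![a ^ 2, a * b, b ^ 2, g * a, g * b] 0 = a • ![a, b] := by
    rw [mv_zero]
    funext i
    fin_cases i
    · simp [pow_two]
    · simp
  have m1 : mv ![a ^ 2, a * b, b ^ 2, g * a, g * b] 1 = b • ![a, b] := by
    rw [mv_one]
    funext i
    fin_cases i
    · simp [mul_comm]
    · simp [pow_two]
  have m2 : mv ![a ^ 2, a * b, b ^ 2, g * a, g * b] 2 = g • ![a, b] := by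
    rw [mv_two]
    funext i
    fin_cases i <;> simp
  have n0 : mv ![0, 0, 0, a, b] 0 = 0 := by
    rw [mv_zero]
    funext i
    fin_cases i <;> simp
  have n1 : mv ![0, 0, 0, a, b] 1 = 0 := by
    rw [mv_one]
    funext i
    fin_cases i <;> simp
  have n2 : mv ![0, 0, 0, a, b] 2 = ![a, b] := by
    rw [mv_two]
    funext i
    fin_cases i <;> simp
  have nA : hsA ![0, 0, 0, a, b] = 0 := by
    funext i
    fin_cases i <;> simp [hsA]
  have nB : hsB ![0, 0, 0, a, b] = 0 := by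
    funext i
    fin_cases i <;> simp [hsB]
  rw [sg_apply] at h1 h2
  have e0 := congrFun h1 0
  have e1 := congrFun h1 1
  have f0 := congrFun h2 0
  have f1 := congrFun h2 1
  rw [sgf_zero] at e0 f0
  rw [sgf_one] at e1 f1
  rw [n1, n2, nA, map_zero, LinearMap.zero_apply, smul_zero, zero_sub, add_zero, Pi.zero_apply,
    neg_eq_zero] at f0
  rw [n0, n2, nB, map_zero, LinearMap.zero_apply, smul_zero, sub_zero, add_zero,
    Pi.zero_apply] at f1
  rw [m1, m2, map_smul, map_smul, LinearMap.smul_apply, LinearMap.smul_apply, f0, smul_zero,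
    sub_zero, Pi.zero_apply] at e0
  rw [m0, m2, map_smul, map_smul, LinearMap.smul_apply, LinearMap.smul_apply, f1, smul_zero,
    zero_sub, Pi.zero_apply] at e1
  have c0 := congrFun e0 0
  have c1 := congrFun e1 0
  have c2 := congrFun e0 3
  have c3 := congrFun e1 3
  simp only [Pi.add_apply, Pi.neg_apply, Pi.smul_apply, smul_eq_mul, Pi.zero_apply, hsA,
    hsB, Matrix.cons_val] at c0 c1 c2 c3
  have hx : x.2 = 0 := by
    rcases hab with ha | hb
    · have h3 : x.2 * (6 * a ^ 3) = 0 := by linear_combination a * c0 + b * c1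
      rcases mul_eq_zero.mp h3 with h | h
      · exact h
      · exact absurd h (mul_ne_zero (by norm_num) (pow_ne_zero 3 ha))
    · have h3 : x.2 * (6 * b ^ 3) = 0 := by linear_combination -a * c2 - b * c3
      rcases mul_eq_zero.mp h3 with h | h
      · exact h
      · exact absurd h (mul_ne_zero (by norm_num) (pow_ne_zero 3 hb))
  rw [hx, zero_smul, add_zero] at e0 e1
  refine ⟨?_, hx⟩
  intro i
  fin_cases i
  · exact f1
  · exact f0
  · rcases hab with ha | hb
    · rw [neg_eq_zero] at e1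
      exact (smul_eq_zero.mp e1).resolve_left ha
    · exact (smul_eq_zero.mp e0).resolve_left hb

theorem ruling_ker_le {a b g : ℂ} (hab : a ≠ 0 ∨ b ≠ 0) :
    finrank ℂ (LinearMap.ker (sg ![a ^ 2, a * b, b ^ 2, g * a, g * b]) ⊓
      LinearMap.ker (sg ![0, 0, 0, a, b]) : Submodule ℂ Bsp) ≤ 3 := by
  have hm : (![a, b] : Fin 2 → ℂ) ≠ 0 := by
    intro h
    have h0 : a = 0 := congrFun h 0
    have h1 : b = 0 := congrFun h 1
    rcases hab with h | h
    · exact h h0
    · exact h h1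
  have hsub : (LinearMap.ker (sg ![a ^ 2, a * b, b ^ 2, g * a, g * b]) ⊓
      LinearMap.ker (sg ![0, 0, 0, a, b]) : Submodule ℂ Bsp) ≤ LinearMap.range (a12_g ![a, b]) := by
    intro x hx
    obtain ⟨k1, k2⟩ := Submodule.mem_inf.mp hx
    obtain ⟨h1, h2⟩ := a12_key hab (LinearMap.mem_ker.mp k1) (LinearMap.mem_ker.mp k2)
    refine ⟨fun i ↦ ⟨x.1 i, h1 i⟩, ?_⟩
    refine Prod.ext ?_ ?_
    · funext k
      rfl
    · exact h2.symm
  refine (Submodule.finrank_mono hsub).trans ((LinearMap.finrank_range_le _).trans ?_)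
  rw [Module.finrank_pi_fintype]
  simp only [Finset.sum_const, Finset.card_univ, Fintype.card_fin, smul_eq_mul]
  have := dd_ker_le 4 hm
  omega

end Pool.Agent.XP
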