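import Pool.Agent.Work.MP_80e05d_ag.XP.A6

/-!
A13 (M).  A line contained in the scroll and not meeting only L is a ruling: if y = (a^2,ab,b^2,ga,gb), (a,b) nonzero, and v, y+v are also on the cone
(no Span2) then v = k y + d (0,0,0,a,b) for some k, d.

Proof.  m = (a,b), lam = (a,b,g), mv y i = lam_i m.  det2 (mv (y+v) i)(mv (y+v) j) = 0 minus the same for y and v gives
lam_i det2 m (mv v j) - lam_j det2 m (mv v i) = 0 for the three pairs.  With r_i = det2 m (mv v i): r is proportional to lam: r = th lam (lam is nonzero).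
r_0 = a v1 - b v0 = th a, r_1 = a v2 - b v1 = th b, r_2 = a v4 - b v3 = th g.
Claim th = 0.  If (v0,v1,v2) = 0 then th a = th b = 0, so th = 0.  Otherwise, v being on the cone with w nonzero, scroll_param gives v = (a2^2, a2 b2, b2^2, g2 a2, g2 b2), n = (a2,b2), mv v i = mu_i n with
mu = (a2,b2,g2), r_i = mu_i det2 m n = th lam_i.  If th is nonzero then r_0 = a2 D = th a, r_1 = b2 D = th b with D = det2 m n = a b2 - b a2, so
D^2 = a (b2 D) - b (a2 D) = th (a b - b a) = 0, so D = 0 and th a = th b = 0: contradiction.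
With th = 0: a v1 = b v0, a v2 = b v1, a v4 = b v3, so (v0,v1,v2) = k (a^2,ab,b^2) and (v3,v4) = e (a,b); d = e - k g.
-/

namespace Pool.Agent.XP
open MvPolynomial Module

private theorem not_span2 {y : V5} (h : ¬ Span2 (mv y)) :
    y 0 * y 2 - y 1 * y 1 = 0 ∧ y 1 * y 4 - y 2 * y 3 = 0 ∧ y 3 * y 1 - y 4 * y 0 = 0 := by
  rw [Span2] at h
  push Not at h
  obtain ⟨h1, h2, h3⟩ := h
  simp only [det2, mv_zero, mv_one, mv_two, Matrix.cons_val_zero, Matrix.cons_val_one] at h1 h2 h3
  exact ⟨h1, h2, h3⟩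

theorem ruling_of_line {a b g : ℂ} (hab : a ≠ 0 ∨ b ≠ 0) {v : V5} (hv : ¬ Span2 (mv v))
    (hyv : ¬ Span2 (mv (![a ^ 2, a * b, b ^ 2, g * a, g * b] + v))) :
    ∃ k d : ℂ, v = k • ![a ^ 2, a * b, b ^ 2, g * a, g * b] + d • ![0, 0, 0, a, b] := by
  obtain ⟨v1, v2, v3⟩ := not_span2 hv
  obtain ⟨w1, w2, w3⟩ := not_span2 hyv
  have e0 : (![a ^ 2, a * b, b ^ 2, g * a, g * b] + v : V5) 0 = a ^ 2 + v 0 := rfl
  have e1 : (![a ^ 2, a * b, b ^ 2, g * a, g * b] + v : V5) 1 = a * b + v 1 := rfl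
  have e2 : (![a ^ 2, a * b, b ^ 2, g * a, g * b] + v : V5) 2 = b ^ 2 + v 2 := rfl
  have e3 : (![a ^ 2, a * b, b ^ 2, g * a, g * b] + v : V5) 3 = g * a + v 3 := rfl
  have e4 : (![a ^ 2, a * b, b ^ 2, g * a, g * b] + v : V5) 4 = g * b + v 4 := rfl
  rw [e0, e1, e2] at w1
  rw [e1, e2, e3, e4] at w2
  rw [e0, e1, e3, e4] at w3
  have q1 : a * (a * v 2 - b * v 1) - b * (a * v 1 - b * v 0) = 0 := by
    linear_combination w1 - v1
  have q2 : b * (a * v 4 - b * v 3) - g * (a * v 2 - b * v 1) = 0 := by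
    linear_combination w2 - v2
  have q3 : g * (a * v 1 - b * v 0) - a * (a * v 4 - b * v 3) = 0 := by
    linear_combination w3 - v3
  have key : a * v 1 - b * v 0 = 0 ∧ a * v 2 - b * v 1 = 0 := by
    by_cases hw : v 0 ≠ 0 ∨ v 1 ≠ 0 ∨ v 2 ≠ 0
    · obtain ⟨a2, b2, g2, h2, rfl⟩ := scroll_param hv hw
      have f0 : (![a2 ^ 2, a2 * b2, b2 ^ 2, g2 * a2, g2 * b2] : V5) 0 = a2 ^ 2 := rfl
      have f1 : (![a2 ^ 2, a2 * b2, b2 ^ 2, g2 * a2, g2 * b2] : V5) 1 = a2 * b2 := rfl
      have f2 : (![a2 ^ 2, a2 * b2, b2 ^ 2, g2 * a2, g2 * b2] : V5) 2 = b2 ^ 2 := rfl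
      rw [f0, f1, f2] at q1 ⊢
      have hD : a * b2 - b * a2 = 0 := by
        have : (a * b2 - b * a2) ^ 2 = 0 := by linear_combination q1
        exact pow_eq_zero_iff (two_ne_zero) |>.1 this
      constructor
      · linear_combination a2 * hD
      · linear_combination b2 * hD
    · push Not at hw
      obtain ⟨h0, h1, h2⟩ := hw
      rw [h0, h1, h2]
      constructor <;> ring
  obtain ⟨r0, r1⟩ := key
  have r2 : a * v 4 - b * v 3 = 0 := by
    rcases hab with h | h
    · have : a * (a * v 4 - b * v 3) = 0 := by linear_combination g * r0 - q3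
      exact (mul_eq_zero.1 this).resolve_left h
    · have : b * (a * v 4 - b * v 3) = 0 := by linear_combination q2 + g * r1
      exact (mul_eq_zero.1 this).resolve_left h
  have fin : ∀ k d : ℂ, v 0 = k * a ^ 2 → v 1 = k * (a * b) → v 2 = k * b ^ 2 →
      v 3 = k * (g * a) + d * a → v 4 = k * (g * b) + d * b →
      v = k • ![a ^ 2, a * b, b ^ 2, g * a, g * b] + d • ![0, 0, 0, a, b] := by
    intro k d h0 h1 h2 h3 h4
    funext i
    fin_cases i
    · simpa using h0
    · simpa using h1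
    · simpa using h2
    · simpa using h3
    · simpa using h4
  rcases hab with h | h
  · refine ⟨v 0 / a ^ 2, v 3 / a - v 0 / a ^ 2 * g, fin _ _ ?_ ?_ ?_ ?_ ?_⟩
    · field_simp
    · field_simp
      linear_combination r0
    · field_simp
      linear_combination a * r1 + b * r0
    · field_simp
      ring
    · field_simp
      linear_combination a * r2
  · refine ⟨v 2 / b ^ 2, v 4 / b - v 2 / b ^ 2 * g, fin _ _ ?_ ?_ ?_ ?_ ?_⟩
    · field_simp
      linear_combination - b * r0 - a * r1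
    · field_simp
      linear_combination - r1
    · field_simp
    · field_simp
      linear_combination - b * r2
    · field_simp
      ring

end Pool.Agent.XP
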