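import Pool.Agent.Work.MP_80e05d_ag.XP.A11
import Pool.Agent.Work.MP_80e05d_ag.XP.A12
import Pool.Agent.Work.MP_80e05d_ag.XP.A13

/-!
A14 (S-M).  The main bound: w(y) nonzero, v not a multiple of y => dim (ker sg y cap ker sg v) <= 3.

Proof.  sg is linear in y, so ker sg y cap ker sg v = ker sg z cap ker sg z2 whenever z, z2 is another basis of span(y,v) (only needed: (y,v), (v,y), (y+v, y), (y, v0) below).
If Span2 (mv y): ker_inter_le_of_span with z = y.  If Span2 (mv v): z = v, z2 = y (y is not a multiple a v of v: if y = a v then a is nonzero since y is nonzero, v = (1/a) y).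
If Span2 (mv (y+v)): z = y+v, z2 = y (y = a(y+v) would give a v = (1-a) y; a = 0 gives y = 0, otherwise v is a multiple of y).
Otherwise y = (a^2,ab,b^2,ga,gb) by scroll_param and v = k y + d v0, v0 = (0,0,0,a,b) by ruling_of_line, d nonzero because v is not a multiple of y; then
ker sg y cap ker sg v = ker sg y cap ker sg v0 and ruling_ker_le.
-/

namespace Pool.Agent.XP
open MvPolynomial Module

private theorem inter_mem {y v z z2 : V5} {p q r t : ℂ} (hz : z = p • y + q • v)
    (hz2 : z2 = r • y + t • v) :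
    (LinearMap.ker (sg y) ⊓ LinearMap.ker (sg v) : Submodule ℂ Bsp) ≤
      LinearMap.ker (sg z) ⊓ LinearMap.ker (sg z2) := by
  rintro b ⟨h1, h2⟩
  have h1' : sg y b = 0 := h1
  have h2' : sg v b = 0 := h2
  refine ⟨?_, ?_⟩
  · show sg z b = 0
    rw [hz, map_add, map_smul, map_smul, LinearMap.add_apply, LinearMap.smul_apply,
      LinearMap.smul_apply, h1', h2', smul_zero, smul_zero, add_zero]
  · show sg z2 b = 0
    rw [hz2, map_add, map_smul, map_smul, LinearMap.add_apply, LinearMap.smul_apply,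
      LinearMap.smul_apply, h1', h2', smul_zero, smul_zero, add_zero]

theorem ker_inter_le {y v : V5} (hw : y 0 ≠ 0 ∨ y 1 ≠ 0 ∨ y 2 ≠ 0) (h : ∀ a : ℂ, v ≠ a • y) :
    finrank ℂ (LinearMap.ker (sg y) ⊓ LinearMap.ker (sg v) : Submodule ℂ Bsp) ≤ 3 := by
  have hy0 : y ≠ 0 := by
    rintro rfl
    rcases hw with h | h | h <;> exact h rfl
  by_cases h1 : Span2 (mv y)
  · exact ker_inter_le_of_span h1 h
  by_cases h2 : Span2 (mv v)
  · refine le_trans (Submodule.finrank_mono (inter_mem (z := v) (z2 := y) (p := 0) (q := 1)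
      (r := 1) (t := 0) (by simp) (by simp))) (ker_inter_le_of_span h2 ?_)
    intro a ha
    have ha0 : a ≠ 0 := by
      rintro rfl
      exact hy0 (by rw [ha, zero_smul])
    exact h a⁻¹ (by rw [ha, smul_smul, inv_mul_cancel₀ ha0, one_smul])
  by_cases h3 : Span2 (mv (y + v))
  · refine le_trans (Submodule.finrank_mono (inter_mem (z := y + v) (z2 := y) (p := 1) (q := 1)
      (r := 1) (t := 0) (by simp) (by simp))) (ker_inter_le_of_span h3 ?_)
    intro a ha
    have ha0 : a ≠ 0 := by
      rintro rfl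
      exact hy0 (by rw [ha, zero_smul])
    refine h (a⁻¹ - 1) ?_
    have h4 : a⁻¹ • y = y + v := by
      conv_lhs => rw [ha]
      rw [smul_smul, inv_mul_cancel₀ ha0, one_smul]
    rw [sub_smul, one_smul, h4, add_sub_cancel_left]
  obtain ⟨a, b, g, hab, rfl⟩ := scroll_param h1 hw
  obtain ⟨k, d, hv⟩ := ruling_of_line hab h2 h3
  have hd : d ≠ 0 := by
    rintro rfl
    exact h k (by rw [hv, zero_smul, add_zero])
  refine le_trans (Submodule.finrank_mono (inter_mem (z := ![a ^ 2, a * b, b ^ 2, g * a, g * b])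
    (z2 := ![0, 0, 0, a, b]) (p := 1) (q := 0) (r := -(d⁻¹ * k)) (t := d⁻¹) (by simp) ?_))
    (ruling_ker_le hab)
  rw [hv, smul_add, smul_smul, smul_smul, inv_mul_cancel₀ hd, one_smul, neg_smul,
    neg_add_cancel_left]

end Pool.Agent.XP
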