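import Pool.Agent.Work.MP_80e05d_ag.XP.A0

/-!
A15 (S).  If sigma(v) b = 0 for all v in C^5 then b = 0.
Proof.  b = (phi; c).  Component 2 for v = e_0, e_1, e_2 (mv e_0 = ((1,0),0,0), mv e_1 = ((0,1),(1,0),0), mv e_2 = (0,(0,1),0)):
e_0: phi_1 (i+1) = 0 (i < 4); e_2: phi_0 i = 0 (i < 4); e_1: phi_1 i - phi_0 (i+1) = 0 (i < 4).  So phi_0 = phi_1 = 0 (phi_1 0 = phi_0 1 = 0, phi_0 4 = phi_1 3 = 0).
Component 0 for e_0: c (6,0,0,0) = 0 (mv e_0 1 = 0), so c = 0; for e_1: phi_2 (i+1) = 0 (i<4); for e_2: phi_2 i = 0 (i<4).  So phi_2 = 0.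
-/

namespace Pool.Agent.XP
open MvPolynomial Module

theorem eq_zero_of_sg {b : Bsp} (h : ∀ v, sg v b = 0) : b = 0 := by
  have key : ∀ (v : V5) (j : Fin 3) (i : Fin 4), sgf v b j i = 0 := by
    intro v j i
    rw [← sg_apply, h v]
    rfl
  have k2 : ∀ (v : V5) (i : Fin 4), (v 0 * b.1 1 i.succ + v 1 * b.1 1 i.castSucc) -
      (v 1 * b.1 0 i.succ + v 2 * b.1 0 i.castSucc) = 0 := by
    intro v i
    exact key v 2 i
  have k0 : ∀ (v : V5) (i : Fin 4), (v 1 * b.1 2 i.succ + v 2 * b.1 2 i.castSucc) -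
      (v 3 * b.1 1 i.succ + v 4 * b.1 1 i.castSucc) + b.2 * hsA v i = 0 := by
    intro v i
    exact key v 0 i
  have a1 : ∀ i : Fin 4, b.1 1 i.succ = 0 := by
    intro i
    have := k2 ![1, 0, 0, 0, 0] i
    simpa using this
  have a0 : ∀ i : Fin 4, b.1 0 i.castSucc = 0 := by
    intro i
    have := k2 ![0, 0, 1, 0, 0] i
    simpa using this
  have a01 : ∀ i : Fin 4, b.1 1 i.castSucc = b.1 0 i.succ := by
    intro i
    have := k2 ![0, 1, 0, 0, 0] i
    simpa [sub_eq_zero] using this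
  have c0 : b.2 = 0 := by
    have := k0 ![1, 0, 0, 0, 0] 0
    simpa [hsA] using this
  have p1 : b.1 1 = 0 := by
    funext i
    refine Fin.cases ?_ (fun j => a1 j) i
    have h1 := a01 0
    have h2 := a0 1
    exact h1.trans h2
  have p0 : b.1 0 = 0 := by
    funext i
    refine Fin.lastCases ?_ (fun j => a0 j) i
    have h1 := a01 3
    have h2 := a1 2
    exact h1.symm.trans h2
  have p2 : b.1 2 = 0 := by
    funext i
    refine Fin.cases ?_ (fun j => ?_) i
    · have := k0 ![0, 0, 1, 0, 0] 0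
      rw [c0] at this
      simpa using this
    · have := k0 ![0, 1, 0, 0, 0] j
      rw [c0] at this
      simpa using this
  refine Prod.ext ?_ c0
  funext j
  fin_cases j
  · exact p0
  · exact p1
  · exact p2

end Pool.Agent.XP
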