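import Pool.Agent.Work.MP_80e05d_ag.XP.A1

/-!
A2 (M).  Exactness of the Koszul complex of two operators: det2 m n nonzero, D_m f + D_n g = 0 (f, g in S^d) =>
there is Phi in S^(d+1) with f = D_n Phi, g = - D_m Phi.

Proof by dimensions.  The map k : (f,g) -> D_m f + D_n g from S^d x S^d to S^(d-1) (dimension d) is onto (dd_surj for m; m is nonzero because det2 m n is),
so its kernel has dimension 2(d+1) - d = d+2.  The map j : S^(d+1) -> S^d x S^d, Phi -> (D_n Phi, - D_m Phi) has image in the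
kernel (dd_comm; for d = 0 the target C^0 is trivial) and is injective (dd_both for d+1 >= 1), so its image has dimension d+2 and is the whole kernel.
(dd_comm is stated for DD d m (DD (d+1) n f), exactly what is needed.)
-/

namespace Pool.Agent.XP
open MvPolynomial Module

theorem koszul2 (d : ℕ) {m n : Fin 2 → ℂ} (h : det2 m n ≠ 0) {f g : Fin (d + 1) → ℂ}
    (hfg : DD d m f + DD d n g = 0) :
    ∃ P : Fin (d + 2) → ℂ, f = DD (d + 1) n P ∧ g = - DD (d + 1) m P := by
  have hm : m ≠ 0 := by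
    intro h0
    apply h
    rw [h0]
    simp [det2]
  obtain ⟨k, hk⟩ : ∃ k : ((Fin (d + 1) → ℂ) × (Fin (d + 1) → ℂ)) →ₗ[ℂ] (Fin d → ℂ),
      k = (DD d m).coprod (DD d n) := ⟨_, rfl⟩
  obtain ⟨j, hj⟩ : ∃ j : (Fin (d + 2) → ℂ) →ₗ[ℂ] ((Fin (d + 1) → ℂ) × (Fin (d + 1) → ℂ)),
      j = (DD (d + 1) n).prod (-DD (d + 1) m) := ⟨_, rfl⟩
  have hk1 : ∀ a b, k (a, b) = DD d m a + DD d n b := by
    intro a b
    rw [hk, LinearMap.coprod_apply]
  have hj1 : ∀ P, j P = (DD (d + 1) n P, -DD (d + 1) m P) := by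
    intro P
    rw [hj]
    rfl
  have hks : LinearMap.range k = ⊤ := by
    rw [LinearMap.range_eq_top]
    intro z
    obtain ⟨a, ha⟩ := dd_surj d hm z
    exact ⟨(a, 0), by rw [hk1, ha, map_zero, add_zero]⟩
  have hji : LinearMap.ker j = ⊥ := by
    rw [LinearMap.ker_eq_bot']
    intro P hP
    rw [hj1, Prod.mk_eq_zero] at hP
    exact dd_both (d := d + 1) (by omega) h (neg_eq_zero.1 hP.2) hP.1
  have hle : LinearMap.range j ≤ LinearMap.ker k := by
    rintro _ ⟨P, rfl⟩
    rw [LinearMap.mem_ker, hj1, hk1, map_neg, dd_comm d m n P, add_neg_cancel]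
  have h1 := LinearMap.finrank_range_add_finrank_ker k
  have h2 := LinearMap.finrank_range_add_finrank_ker j
  rw [hks, finrank_top, Module.finrank_prod, Module.finrank_fin_fun, Module.finrank_fin_fun] at h1
  rw [hji, finrank_bot, add_zero, Module.finrank_fin_fun] at h2
  have heq : LinearMap.range j = LinearMap.ker k := by
    apply Submodule.eq_of_le_of_finrank_eq hle
    omega
  have hmem : (f, g) ∈ LinearMap.range j := by
    rw [heq, LinearMap.mem_ker, hk1]
    exact hfg
  obtain ⟨P, hP⟩ := hmem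
  rw [hj1] at hP
  refine ⟨P, ?_, ?_⟩
  · exact (congrArg Prod.fst hP).symm
  · exact (congrArg Prod.snd hP).symm

end Pool.Agent.XP
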