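import Pool.Agent.Work.MP_80e05d_ag.XP.A2

/-!
A8 (M).  For a triple m which spans C^2: m x D phi = 0 (phi in (S^4)^3) implies phi_i = D_(m_i) Phi for some Phi in S^5.

Proof.  Case det2 (m 0) (m 1) nonzero.  Component 2 says D_(m 0)(phi 1) + D_(m 1)(- phi 0) = 0, so by koszul2 (d = 4) there is P in S^5 with
phi 1 = D_(m 1) P and - phi 0 = - D_(m 0) P.  Components 0 and 1: D_(m 1)(phi 2) = D_(m 2) D_(m 1) P = D_(m 1) D_(m 2) P and
D_(m 0)(phi 2) = D_(m 2)(phi 0) = D_(m 0) D_(m 2) P (dd_comm), so phi 2 - D_(m 2) P is killed by D_(m 0) and D_(m 1), hence 0 (dd_both).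
Other cases by cyclic rotation.
-/

namespace Pool.Agent.XP
open MvPolynomial Module

private theorem a8_core {a b c : Fin 2 → ℂ} (h : det2 a b ≠ 0) {x y z : Fin 5 → ℂ}
    (h0 : DD 4 b z = DD 4 c y) (h1 : DD 4 c x = DD 4 a z) (h2 : DD 4 a y = DD 4 b x) :
    ∃ P : Fin 6 → ℂ, x = DD 5 a P ∧ y = DD 5 b P ∧ z = DD 5 c P := by
  obtain ⟨P, hy, hx⟩ := koszul2 4 h (f := y) (g := -x) (by rw [map_neg, h2, add_neg_cancel])
  have hx' : x = DD 5 a P := neg_injective hx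
  refine ⟨P, hx', hy, ?_⟩
  have e1 : DD 4 a (z - DD 5 c P) = 0 := by
    rw [map_sub, dd_comm 4 a c P, ← hx', ← h1, sub_self]
  have e2 : DD 4 b (z - DD 5 c P) = 0 := by
    have hy' : y = DD 5 b P := hy
    rw [map_sub, dd_comm 4 b c P, ← hy', ← h0, sub_self]
  exact sub_eq_zero.1 (dd_both (d := 4) (by norm_num) h e1 e2)

theorem crs_ker {m : Fin 3 → Fin 2 → ℂ} (hm : Span2 m) {p : Fin 3 → Fin 5 → ℂ}
    (hp : crs 4 m p = 0) : ∃ P : Fin 6 → ℂ, ∀ i, p i = DD 5 (m i) P := by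
  have e0 : DD 4 (m 1) (p 2) = DD 4 (m 2) (p 1) := sub_eq_zero.1 (congrFun hp 0)
  have e1 : DD 4 (m 2) (p 0) = DD 4 (m 0) (p 2) := sub_eq_zero.1 (congrFun hp 1)
  have e2 : DD 4 (m 0) (p 1) = DD 4 (m 1) (p 0) := sub_eq_zero.1 (congrFun hp 2)
  rcases hm with h | h | h
  · obtain ⟨P, h0, h1, h2⟩ := a8_core h e0 e1 e2
    refine ⟨P, fun i => ?_⟩
    fin_cases i
    · exact h0
    · exact h1
    · exact h2
  · obtain ⟨P, h1, h2, h0⟩ := a8_core h e1 e2 e0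
    refine ⟨P, fun i => ?_⟩
    fin_cases i
    · exact h0
    · exact h1
    · exact h2
  · obtain ⟨P, h2, h0, h1⟩ := a8_core h e2 e0 e1
    refine ⟨P, fun i => ?_⟩
    fin_cases i
    · exact h0
    · exact h1
    · exact h2

end Pool.Agent.XP
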