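import Pool.Agent.Work.MP_80e05d_ag.XP.A0

/-!
C0 (definitions, complete) for the dimension counts (block C).
W y : the point is outside the line L.  dp: the pairing on Hsp.  ub b = (phi_1, phi_2), cs b = (phi_3, c); so b = emb (ub b, cs b).
cB j: the coordinates of Bsp.  ZB b = {v : sigma(v) b = 0}.  prJ J: three coordinates of Usp.
sysE, sys3, sysX, sysP: the linear systems for b, Lambda, xi, Lambda.
-/

namespace Pool.Agent.XP
open MvPolynomial Module

/-- y is not on the line L -/
def W (y : V5) : Prop := y 0 ≠ 0 ∨ y 1 ≠ 0 ∨ y 2 ≠ 0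

/-- the pairing on Hsp -/
noncomputable def dp : Hsp →ₗ[ℂ] Hsp →ₗ[ℂ] ℂ :=
  LinearMap.mk₂ ℂ (fun xi h => ∑ i, ∑ k, xi i k * h i k)
    (by intro x x' h; simp only [Pi.add_apply, add_mul, Finset.sum_add_distrib])
    (by intro c x h; simp only [Pi.smul_apply, smul_eq_mul, mul_assoc, Finset.mul_sum])
    (by intro x h h'; simp only [Pi.add_apply, mul_add, Finset.sum_add_distrib])
    (by
      intro c x h
      simp only [Pi.smul_apply, smul_eq_mul, Finset.mul_sum]
      exact Finset.sum_congr rfl fun a _ => Finset.sum_congr rfl fun i _ => by ring)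

theorem dp_apply (xi h : Hsp) : dp xi h = ∑ i, ∑ k, xi i k * h i k := rfl

/-- (phi_1, phi_2) -/
def ub : Bsp →ₗ[ℂ] Usp where
  toFun b := ![b.1 0, b.1 1]
  map_add' := by intro b b'; ext i j; fin_cases i <;> simp
  map_smul' := by intro c b; ext i j; fin_cases i <;> simp

/-- (phi_3, c) -/
def cs : Bsp →ₗ[ℂ] Csp where
  toFun b := (b.1 2, b.2)
  map_add' := by intro b b'; simp
  map_smul' := by intro c b; simp

theorem emb_ub_cs (b : Bsp) : emb (ub b, cs b) = b := by
  obtain ⟨p, c⟩ := b
  refine Prod.ext ?_ rfl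
  funext i
  fin_cases i <;> rfl

theorem ub_bb (L : Par) (u : Usp) : ub (bb L u) = u := by
  funext i
  fin_cases i <;> rfl

theorem cs_bb (L : Par) (u : Usp) : cs (bb L u) = ap L u := rfl

/-- the coordinates of Bsp -/
def cB (j : Option (Fin 3 × Fin 5)) : Bsp →ₗ[ℂ] ℂ where
  toFun b := match j with
    | none => b.2
    | some p => b.1 p.1 p.2
  map_add' := by intro b b'; cases j <;> simp
  map_smul' := by intro c b; cases j <;> simp

/-- the directions killed by b -/
noncomputable def ZB (b : Bsp) : Submodule ℂ V5 := LinearMap.ker (sg.flip b)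

theorem mem_ZB {b : Bsp} {v : V5} : v ∈ ZB b ↔ sg v b = 0 := Iff.rfl

/-- three coordinates of Usp -/
def prJ (J : Fin 3 → Fin 2 × Fin 5) : Usp →ₗ[ℂ] (Fin 3 → ℂ) where
  toFun u k := u (J k).1 (J k).2
  map_add' := by intro u u'; rfl
  map_smul' := by intro c u; rfl

/-- b -> (sigma(y) b, three coordinates of u) -/
noncomputable def sysE (J : Fin 3 → Fin 2 × Fin 5) (y : V5) : Bsp →ₗ[ℂ] Hsp × (Fin 3 → ℂ) :=
  (sg y).prod (prJ J ∘ₗ ub)

/-- Lambda -> the values of Lambda at three vectors -/
noncomputable def sys3 (u : Fin 3 → Usp) : Par →ₗ[ℂ] (Fin 3 → Csp) :=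
  LinearMap.pi fun k => ap.flip (u k)

/-- xi -> (xi at R, the pairings with sigma(e_i) b, xi at l) -/
noncomputable def sysX (R : Fin 3 → Fin 3 × Fin 4) (l : Fin 3 × Fin 4) (b : Bsp) :
    Hsp →ₗ[ℂ] (Fin 3 → ℂ) × (Fin 5 → ℂ) × ℂ where
  toFun xi := (fun k => xi (R k).1 (R k).2, fun i => dp xi (sg (Pi.single i 1) b), xi l.1 l.2)
  map_add' := by
    intro x x'
    refine Prod.ext rfl (Prod.ext ?_ rfl)
    funext i
    simp
  map_smul' := by
    intro c x
    refine Prod.ext rfl (Prod.ext ?_ rfl)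
    funext i
    simp

/-- Lambda -> (Lambda u, zeta o Lambda), zeta q = <xi, sigma(y) (0, q)> -/
noncomputable def sysP (y : V5) (b : Bsp) (xi : Hsp) : Par →ₗ[ℂ] Csp × (Fin 2 × Fin 5 → ℂ) where
  toFun L := (ap L (ub b), fun c => dp xi (sg y (emb (0, ap L (eU c)))))
  map_add' := by
    intro x x'
    refine Prod.ext ?_ ?_
    · simp
    · funext i
      have : emb (0, ap (x + x') (eU i)) = emb (0, ap x (eU i)) + emb (0, ap x' (eU i)) := by
        rw [← map_add]; simp
      change dp xi (sg y (emb (0, ap (x + x') (eU i)))) =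
        dp xi (sg y (emb (0, ap x (eU i)))) + dp xi (sg y (emb (0, ap x' (eU i))))
      rw [this, map_add, map_add]
  map_smul' := by
    intro c x
    refine Prod.ext ?_ ?_
    · simp
    · funext i
      have : emb (0, ap (c • x) (eU i)) = c • emb (0, ap x (eU i)) := by
        rw [← map_smul]; simp
      change dp xi (sg y (emb (0, ap (c • x) (eU i)))) = c • dp xi (sg y (emb (0, ap x (eU i))))
      rw [this, map_smul, map_smul]

/-- the three columns of B(y) at the positions R are independent -/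
def PivB (y : V5) (R : Fin 3 → Fin 3 × Fin 4) : Prop :=
  Function.Injective R ∧
    ∀ h : Hsp, (∀ i k, (∀ n, R n ≠ (i, k)) → h i k = 0) → BB y h = 0 → h = 0

end Pool.Agent.XP
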