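import Pool.Agent.Work.MP_80e05d_ag.XP.TA

/-!
TB (M-L).  The linear systems lemma: if theta runs over a k-thin set A and L theta : E' -> F is a
linear map of rank at least r depending differentiably on theta, then the set of all
(theta, w) with L theta w = c theta is (k + dim E' - r)-thin.

Proof.  n = dim E', fix bases of E' and F.  Step 1 (linear algebra): if l : E' -> F has rank >= r
there are P : F -> C^r (a selection of r coordinates in the basis of F) and Q : E' -> C^(n-r)
(a selection of n-r coordinates) such that (P o l, Q) : E' -> C^r x C^(n-r) is bijective: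
choose r coordinates of F such that P o l is onto C^r (rank of P o l = r: from the rows of the matrix of l
choose r independent ones); then ker(P o l) has dimension n-r and some n-r of the coordinate functionals of E' are
independent on it.  (r <= n because the rank is at most n.)
(You may use any FINITE or COUNTABLE family of pairs (P,Q) instead, e.g. all pairs of linear maps with
entries in a fixed countable dense set of numbers, or simply Fin r -> index of the basis.)
Step 2: fix (P,Q).  The set U of theta with (P o L theta, Q) bijective is open (preimage of the invertible maps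
under a continuous map; E' and C^r x C^(n-r) are finite dimensional of the same dimension; or det of the matrix
nonzero), and theta -> (P o L theta, Q)^(-1) is differentiable on U (ContinuousLinearMap.inverse with
contDiffAt_map_inverse, or matrix inverse = adjugate / det with polynomial entries).
L is differentiable as a map into E' ->L F because it is so on each basis vector (hL).
Step 3: charts: for a chart (f, s) of A take s' = {(z,v) : z in s, f z in U} in C^k x C^(n-r)
(identify with C^(k+(n-r)) by Fin.append / an equivalence) and f'(z,v) = (f z, (P o L(f z), Q)^(-1)(P c(f z), v)).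
If theta in A, L theta w = c theta then with a pair (P,Q) of step 1 and v = Q w we have w = that inverse of
(P c theta, v).  Finitely many (P,Q), countably many charts: use Thin.iUnion.
-/

set_option autoImplicit false

namespace Pool.Agent.XP

variable {E F E' : Type*} [NormedAddCommGroup E] [NormedSpace ℂ E]
  [NormedAddCommGroup F] [NormedSpace ℂ F] [NormedAddCommGroup E'] [NormedSpace ℂ E']

private theorem diff_clm [FiniteDimensional ℂ E'] (L : E → E' →L[ℂ] F)
    (hL : ∀ w, Differentiable ℂ (fun θ => L θ w)) : Differentiable ℂ L := by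
  let d := Module.finrank ℂ E'
  have hd : d = Module.finrank ℂ (Fin d → ℂ) := (Module.finrank_fin_fun ℂ).symm
  let e₁ := ContinuousLinearEquiv.ofFinrankEq hd
  let e₂ := (e₁.arrowCongr (1 : F ≃L[ℂ] F)).trans (ContinuousLinearEquiv.piRing (Fin d))
  have h2 : Differentiable ℂ (fun θ => e₂ (L θ)) := differentiable_pi.mpr fun i => hL _
  have h3 : Differentiable ℂ (fun θ => e₂.symm (e₂ (L θ))) :=
    (e₂.symm : (Fin d → F) →L[ℂ] (E' →L[ℂ] F)).differentiable.comp h2
  have h4 : (fun θ => e₂.symm (e₂ (L θ))) = L := by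
    funext θ
    exact e₂.symm_apply_apply _
  rw [h4] at h3
  exact h3

private theorem exists_PQ [FiniteDimensional ℂ E'] [FiniteDimensional ℂ F] {r : ℕ}
    (l : E' →ₗ[ℂ] F) (hr : r ≤ Module.finrank ℂ (LinearMap.range l)) :
    ∃ (P : F →ₗ[ℂ] (Fin r → ℂ)) (Q : E' →ₗ[ℂ] (Fin (Module.finrank ℂ E' - r) → ℂ)),
      Function.Bijective ((P ∘ₗ l).prod Q) := by
  classical
  let b := (Module.finBasis ℂ (LinearMap.range l)).equivFun
  let g : (LinearMap.range l) →ₗ[ℂ] (Fin r → ℂ) :=
    (LinearMap.funLeft ℂ ℂ (Fin.castLE hr)) ∘ₗ (b : (LinearMap.range l) →ₗ[ℂ] _)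
  have hg : Function.Surjective g := by
    intro y
    obtain ⟨x, hx⟩ := LinearMap.funLeft_surjective_of_injective ℂ ℂ (Fin.castLE hr)
      (Fin.castLE_injective hr) y
    refine ⟨b.symm x, ?_⟩
    show (LinearMap.funLeft ℂ ℂ (Fin.castLE hr)) (b (b.symm x)) = y
    rw [b.apply_symm_apply]
    exact hx
  obtain ⟨P, hP⟩ := LinearMap.exists_extend g
  have hPl : Function.Surjective (P ∘ₗ l) := by
    intro y
    obtain ⟨x, hx⟩ := hg y
    obtain ⟨w, hw⟩ := x.2
    refine ⟨w, ?_⟩
    have : P x.1 = g x := by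
      rw [← hP]
      rfl
    show P (l w) = y
    rw [hw, this, hx]
  have hrange : Module.finrank ℂ (LinearMap.range (P ∘ₗ l)) = r := by
    rw [LinearMap.range_eq_top.2 hPl, finrank_top]
    exact Module.finrank_fin_fun ℂ
  have hsum := LinearMap.finrank_range_add_finrank_ker (P ∘ₗ l)
  have hker : Module.finrank ℂ (LinearMap.ker (P ∘ₗ l)) = Module.finrank ℂ E' - r := by
    rw [hrange] at hsum
    omega
  have hrn : r ≤ Module.finrank ℂ E' := by
    rw [hrange] at hsum
    omega
  let q : (LinearMap.ker (P ∘ₗ l)) ≃ₗ[ℂ] (Fin (Module.finrank ℂ E' - r) → ℂ) :=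
    LinearEquiv.ofFinrankEq _ _ (by rw [hker, Module.finrank_fin_fun])
  obtain ⟨Q, hQ⟩ := LinearMap.exists_extend q.toLinearMap
  refine ⟨P, Q, ?_⟩
  have hinj : Function.Injective ((P ∘ₗ l).prod Q) := by
    rw [← LinearMap.ker_eq_bot, LinearMap.ker_eq_bot']
    intro x hx
    have h1 : (P ∘ₗ l) x = 0 := congrArg Prod.fst hx
    have h2 : Q x = 0 := congrArg Prod.snd hx
    have h3 : q ⟨x, h1⟩ = Q x := by
      have : q.toLinearMap ⟨x, h1⟩ = Q x := by
        rw [← hQ]
        rfl
      exact this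
    rw [h2] at h3
    have h4 : (⟨x, h1⟩ : LinearMap.ker (P ∘ₗ l)) = 0 := by
      apply q.injective
      rw [h3, map_zero]
    exact congrArg Subtype.val h4
  refine ⟨hinj, ?_⟩
  refine (LinearMap.injective_iff_surjective_of_finrank_eq_finrank ?_).1 hinj
  rw [Module.finrank_prod, Module.finrank_fin_fun, Module.finrank_fin_fun]
  omega

/-- the solutions of linear systems of rank at least r with parameters in a thin set -/
theorem Thin.lin [FiniteDimensional ℂ E'] [FiniteDimensional ℂ F] {k r : ℕ} {A : Set E}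
    (h : Thin k A) (L : E → E' →ₗ[ℂ] F) (c : E → F)
    (hL : ∀ w, Differentiable ℂ (fun θ => L θ w)) (hc : Differentiable ℂ c)
    (hr : ∀ θ ∈ A, r ≤ Module.finrank ℂ (LinearMap.range (L θ))) :
    Thin (k + (Module.finrank ℂ E' - r)) {p : E × E' | p.1 ∈ A ∧ L p.1 p.2 = c p.1} := by
  classical
  obtain ⟨f, s, hfs, hA⟩ := h
  set m := Module.finrank ℂ E' - r with hm
  have : CompleteSpace E' := FiniteDimensional.complete ℂ E'
  let Lc : E → E' →L[ℂ] F := fun θ => LinearMap.toContinuousLinearMap (L θ)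
  let V := (F →L[ℂ] (Fin r → ℂ)) × (E' →L[ℂ] (Fin m → ℂ))
  have : SecondCountableTopology V := inferInstance
  let D : ℕ → V := TopologicalSpace.denseSeq V
  let Mx : V → E → E' →L[ℂ] ((Fin r → ℂ) × (Fin m → ℂ)) := fun v θ =>
    (v.1.comp (Lc θ)).prod v.2
  have hMx : ∀ v, Differentiable ℂ (Mx v) := by
    intro v
    refine diff_clm _ fun w => ?_
    exact (v.1.differentiable.comp (hL w)).prodMk (differentiable_const _)
  let zz : (Fin (k + m) → ℂ) → (Fin k → ℂ) := fun t i => t (Fin.castAdd m i)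
  let vv : (Fin (k + m) → ℂ) → (Fin m → ℂ) := fun t i => t (Fin.natAdd k i)
  have hzz : Differentiable ℂ zz := by fun_prop
  have hvv : Differentiable ℂ vv := by fun_prop
  let G : ℕ × ℕ → (Fin (k + m) → ℂ) → E × E' := fun x t =>
    (f x.1 (zz t), (Mx (D x.2) (f x.1 (zz t))).inverse ((D x.2).1 (c (f x.1 (zz t))), vv t))
  let W : ℕ × ℕ → Set (Fin (k + m) → ℂ) := fun x =>
    (zz ⁻¹' (s x.1)) ∩ (fun t => Mx (D x.2) (f x.1 (zz t))) ⁻¹'
      Set.range ((↑) : (E' ≃L[ℂ] ((Fin r → ℂ) × (Fin m → ℂ))) → _)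
  have hWo : ∀ x, IsOpen (W x) := by
    intro x
    refine ContinuousOn.isOpen_inter_preimage ?_ ((hfs x.1).1.preimage hzz.continuous)
      ContinuousLinearEquiv.isOpen
    refine (hMx _).continuous.comp_continuousOn ?_
    exact (hfs x.1).2.continuousOn.comp hzz.continuous.continuousOn (fun t ht => ht)
  have hGd : ∀ x, DifferentiableOn ℂ (G x) (W x) := by
    intro x t ht
    obtain ⟨ht1, e, he⟩ := ht
    refine DifferentiableAt.differentiableWithinAt ?_
    have h1 : DifferentiableAt ℂ (fun t => f x.1 (zz t)) t :=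
      (((hfs x.1).2 (zz t) ht1).differentiableAt ((hfs x.1).1.mem_nhds ht1)).comp t
        hzz.differentiableAt
    have h2 : DifferentiableAt ℂ (fun t => Mx (D x.2) (f x.1 (zz t))) t :=
      (hMx (D x.2)).differentiableAt.comp t h1
    have h3 : DifferentiableAt ℂ (fun t => (Mx (D x.2) (f x.1 (zz t))).inverse) t := by
      have h4 : DifferentiableAt ℂ (ContinuousLinearMap.inverse :
          (E' →L[ℂ] ((Fin r → ℂ) × (Fin m → ℂ))) → _) (Mx (D x.2) (f x.1 (zz t))) := by
        have he' : (e : E' →L[ℂ] ((Fin r → ℂ) × (Fin m → ℂ))) = Mx (D x.2) (f x.1 (zz t)) := he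
        rw [← he']
        exact (contDiffAt_map_inverse (n := 1) e).differentiableAt one_ne_zero
      exact h4.comp t h2
    have h5 : DifferentiableAt ℂ (fun t => (((D x.2).1 (c (f x.1 (zz t))), vv t) :
        (Fin r → ℂ) × (Fin m → ℂ))) t :=
      (((D x.2).1.differentiableAt.comp t (hc.differentiableAt.comp t h1))).prodMk
        hvv.differentiableAt
    exact h1.prodMk (h3.clm_apply h5)
  have hone : ∀ x, Thin (k + m) (G x '' W x) := fun x =>
    ⟨fun _ => G x, fun _ => W x, fun _ => ⟨hWo x, hGd x⟩, fun y hy =>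
      Set.mem_iUnion.2 ⟨0, hy⟩⟩
  refine Thin.mono ?_ (Thin.iUnion hone)
  rintro ⟨θ, w⟩ ⟨hθ, hw⟩
  simp only at hθ hw
  obtain ⟨i, hi⟩ := Set.mem_iUnion.1 (hA hθ)
  obtain ⟨z, hz, hzθ⟩ := hi
  obtain ⟨P, Q, hPQ⟩ := exists_PQ (L θ) (hr θ hθ)
  let v0 : V := (LinearMap.toContinuousLinearMap P, LinearMap.toContinuousLinearMap Q)
  have hv0 : Mx v0 θ ∈ Set.range
      ((↑) : (E' ≃L[ℂ] ((Fin r → ℂ) × (Fin m → ℂ))) → E' →L[ℂ] ((Fin r → ℂ) × (Fin m → ℂ))) := by
    refine ⟨(LinearEquiv.ofBijective ((P ∘ₗ L θ).prod Q) hPQ).toContinuousLinearEquiv, ?_⟩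
    ext x <;> rfl
  have hopen : IsOpen ((fun v : V => Mx v θ) ⁻¹' Set.range
      ((↑) : (E' ≃L[ℂ] ((Fin r → ℂ) × (Fin m → ℂ))) →
        E' →L[ℂ] ((Fin r → ℂ) × (Fin m → ℂ)))) := by
    refine ContinuousLinearEquiv.isOpen.preimage ?_
    have : Continuous fun v : V => ((v.1.comp (Lc θ)).prod v.2 :
        E' →L[ℂ] ((Fin r → ℂ) × (Fin m → ℂ))) := by
      have h1 : Continuous fun v : V => v.1.comp (Lc θ) :=
        ((ContinuousLinearMap.compL ℂ E' F (Fin r → ℂ)).flip (Lc θ)).continuous.comp
          continuous_fst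
      exact (ContinuousLinearMap.prodₗᵢ (𝕜 := ℂ) (E := E') (F := Fin r → ℂ)
        (G := Fin m → ℂ) ℂ).continuous.comp (h1.prodMk continuous_snd)
    exact this
  obtain ⟨j, hj⟩ := (TopologicalSpace.denseRange_denseSeq V).exists_mem_open hopen ⟨v0, hv0⟩
  refine Set.mem_iUnion.2 ⟨(i, j), ?_⟩
  have hj' : Mx (D j) θ ∈ Set.range
      ((↑) : (E' ≃L[ℂ] ((Fin r → ℂ) × (Fin m → ℂ))) →
        E' →L[ℂ] ((Fin r → ℂ) × (Fin m → ℂ))) := hj
  obtain ⟨e, he⟩ := hj'
  have hzt : zz (Fin.append z ((D j).2 w)) = z := by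
    funext a
    exact Fin.append_left _ _ _
  have hvt : vv (Fin.append z ((D j).2 w)) = (D j).2 w := by
    funext a
    exact Fin.append_right _ _ _
  refine ⟨Fin.append z ((D j).2 w), ⟨?_, ?_⟩, ?_⟩
  · show zz _ ∈ s i
    rw [hzt]
    exact hz
  · show Mx (D j) (f i (zz (Fin.append z ((D j).2 w)))) ∈ Set.range
      ((↑) : (E' ≃L[ℂ] ((Fin r → ℂ) × (Fin m → ℂ))) →
        E' →L[ℂ] ((Fin r → ℂ) × (Fin m → ℂ)))
    rw [hzt, hzθ]
    exact ⟨e, he⟩
  · show (f i (zz _), (Mx (D j) (f i (zz _))).inverse ((D j).1 (c (f i (zz _))), vv _)) = (θ, w)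
    rw [hzt, hvt, hzθ, ← he, ContinuousLinearMap.inverse_equiv]
    refine Prod.ext rfl ?_
    show e.symm ((D j).1 (c θ), (D j).2 w) = w
    rw [ContinuousLinearEquiv.symm_apply_eq]
    have : e w = Mx (D j) θ w := by rw [← he]; rfl
    rw [this]
    show ((D j).1 (c θ), (D j).2 w) = ((D j).1 (L θ w), (D j).2 w)
    rw [hw]

end Pool.Agent.XP
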