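import Pool.Agent.Work.MP_80e05d_ag.XP.C0
import Pool.Agent.Work.MP_80e05d_ag.XP.TB

/-!
C1 (S-M).  Differentiability of the bilinear maps, and the linear systems lemma without parameters.
diff_sg, diff_ap, diff_dp: a bilinear map between finite dimensional spaces is differentiable
(e.g. sg = sum over a basis; or LinearMap.mkContinuous2 / toContinuousBilinearMap; or expand into coordinates and fun_prop).
thin_lin1: Thin.lin (TB) with E = (Fin 0 -> C), A = univ (Thin 0 by Thin.univ, finrank = 0), constant L and c, then Thin.image under Prod.snd.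
thin_chart: the case L = coordinate i, rank 1.
-/

namespace Pool.Agent.XP
open MvPolynomial Module

private theorem diff_bil {E₁ E₂ F : Type*} [NormedAddCommGroup E₁] [NormedSpace ℂ E₁]
    [FiniteDimensional ℂ E₁] [NormedAddCommGroup E₂] [NormedSpace ℂ E₂] [FiniteDimensional ℂ E₂]
    [NormedAddCommGroup F] [NormedSpace ℂ F] (B : E₁ →ₗ[ℂ] E₂ →ₗ[ℂ] F) :
    Differentiable ℂ (fun p : E₁ × E₂ => B p.1 p.2) := by
  let B' : E₁ →L[ℂ] E₂ →L[ℂ] F := LinearMap.toContinuousLinearMap
    ((LinearMap.toContinuousLinearMap : (E₂ →ₗ[ℂ] F) ≃ₗ[ℂ] (E₂ →L[ℂ] F)).toLinearMap ∘ₗ B)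
  have h : Differentiable ℂ (fun p : E₁ × E₂ => B' p.1 p.2) :=
    (B'.differentiable.comp differentiable_fst).clm_apply differentiable_snd
  exact h

theorem diff_sg : Differentiable ℂ (fun p : V5 × Bsp => sg p.1 p.2) := diff_bil sg

theorem diff_ap : Differentiable ℂ (fun p : Par × Usp => ap p.1 p.2) := diff_bil ap

theorem diff_dp : Differentiable ℂ (fun p : Hsp × Hsp => dp p.1 p.2) := diff_bil dp

theorem diff_lin {E F : Type*} [NormedAddCommGroup E] [NormedSpace ℂ E] [FiniteDimensional ℂ E]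
    [NormedAddCommGroup F] [NormedSpace ℂ F] (l : E →ₗ[ℂ] F) : Differentiable ℂ l :=
  (LinearMap.toContinuousLinearMap l).differentiable

theorem thin_lin1 {E' F : Type*} [NormedAddCommGroup E'] [NormedSpace ℂ E']
    [NormedAddCommGroup F] [NormedSpace ℂ F] [FiniteDimensional ℂ E'] [FiniteDimensional ℂ F]
    (L : E' →ₗ[ℂ] F) (c : F) {r : ℕ} (hr : r ≤ finrank ℂ (LinearMap.range L)) :
    Thin (finrank ℂ E' - r) {w | L w = c} := by
  have h0 : Thin 0 (Set.univ : Set (Fin 0 → ℂ)) := by
    have h := Thin.univ (E := Fin 0 → ℂ)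
    rwa [Module.finrank_fin_fun] at h
  have h1 := Thin.lin (E := Fin 0 → ℂ) (E' := E') (F := F) (k := 0) (r := r) h0
    (fun _ => L) (fun _ => c) (fun w => differentiable_const _) (differentiable_const _)
    (fun _ _ => hr)
  rw [zero_add] at h1
  refine Thin.mono ?_ (Thin.image h1 (g := fun p : (Fin 0 → ℂ) × E' => p.2) differentiable_snd)
  intro w hw
  exact ⟨(0, w), ⟨Set.mem_univ _, hw⟩, rfl⟩

theorem thin_chart (i : Fin 5) : Thin 4 {y : V5 | y i = 1} := by
  have h := thin_lin1 (E' := V5) (F := ℂ) (LinearMap.proj i) 1 (r := 1) (by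
    have hs : Function.Surjective (LinearMap.proj (R := ℂ) (φ := fun _ : Fin 5 => ℂ) i) := by
      intro c
      exact ⟨fun _ => c, rfl⟩
    rw [LinearMap.range_eq_top.2 hs, finrank_top, Module.finrank_self])
  have h5 : finrank ℂ V5 = 5 := Module.finrank_fin_fun ℂ
  rw [h5] at h
  exact h

end Pool.Agent.XP
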