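import Pool.Agent.Work.MP_80e05d_ag.XP.C0
import Pool.Agent.Work.MP_80e05d_ag.XP.A7

/-!
C2 (M).  Linear algebra for three dimensional kernels.

echelon: K a subspace of Usp = C^10 of dimension >= 3: there are three coordinates J and vectors u_k in K with J-coordinates e_k.
Proof: the ten coordinate functionals span the dual of K, so three of them are independent on K (dimension >= 3); then the map K -> C^3, prJ J restricted to K, is onto.
rank12: ker (sg y) contains b_k with prJ J (ub b_k) = e_k, so prJ J o ub maps ker (sg y) onto C^3; rank (sg y) = 9 (sg_rank).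
For a map (f,g) : V -> A x B: rank (f,g) = rank f + dim g(ker f)  [kernel of (f,g) = kernel of g on ker f; rank-nullity twice].  So rank sysE = 9 + 3.
rank18: u_k are independent (their J-coordinates are the unit vectors), so L -> (ap L (u k))_k is onto (Fin 3 -> Csp), which has dimension 18:
given targets q_k there is a linear map Usp -> Csp with u_k -> q_k (extend to a basis), and every linear map is ap L for some L (L a i = value at the basis vector eU (a,i)).
-/

namespace Pool.Agent.XP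
open MvPolynomial Module

/-- the coordinate functional -/
private def c2co (c : Fin 2 × Fin 5) : Usp →ₗ[ℂ] ℂ where
  toFun u := u c.1 c.2
  map_add' := by intro u u'; rfl
  map_smul' := by intro c u; rfl

private theorem c2_cut (K : Submodule ℂ Usp) (c : Fin 2 × Fin 5) {n : ℕ} (h : n + 1 ≤ finrank ℂ K) :
    n ≤ finrank ℂ (K ⊓ LinearMap.ker (c2co c) : Submodule ℂ Usp) := by
  have h1 := Submodule.finrank_sup_add_finrank_inf_eq K (LinearMap.ker (c2co c))
  have h2 := LinearMap.finrank_range_add_finrank_ker (c2co c)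
  have h3 : finrank ℂ (LinearMap.range (c2co c)) ≤ 1 := by
    have h3 := Submodule.finrank_le (LinearMap.range (c2co c))
    rwa [finrank_self] at h3
  have h4 := Submodule.finrank_le (K ⊔ LinearMap.ker (c2co c))
  omega

private theorem c2_pick (K : Submodule ℂ Usp) (h : 1 ≤ finrank ℂ K) :
    ∃ (c : Fin 2 × Fin 5) (u : Usp), u ∈ K ∧ u c.1 c.2 = 1 := by
  have hne : K ≠ ⊥ := by
    rintro rfl
    rw [finrank_bot] at h
    omega
  obtain ⟨u, hu, hu0⟩ := Submodule.exists_mem_ne_zero_of_ne_bot hne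
  obtain ⟨a, ha⟩ := Function.ne_iff.mp hu0
  obtain ⟨i, hi⟩ := Function.ne_iff.mp ha
  refine ⟨(a, i), (u a i)⁻¹ • u, K.smul_mem _ hu, ?_⟩
  exact inv_mul_cancel₀ hi

theorem echelon (K : Submodule ℂ Usp) (hK : 3 ≤ finrank ℂ K) :
    ∃ (J : Fin 3 → Fin 2 × Fin 5) (u : Fin 3 → Usp), (∀ k, u k ∈ K) ∧
      ∀ k, prJ J (u k) = Pi.single k 1 := by
  obtain ⟨a, u0, hu0, h00⟩ := c2_pick K (by omega)
  obtain ⟨b, u1, hu1, h11⟩ := c2_pick _ ((show 1 ≤ 2 by norm_num).trans (c2_cut K a (n := 2) hK))
  obtain ⟨c, u2, hu2, h22⟩ := c2_pick _ (c2_cut _ b (n := 1) (c2_cut K a (n := 2) hK))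
  have k1 : u1 ∈ K := (Submodule.mem_inf.mp hu1).1
  have h10 : u1 a.1 a.2 = 0 := (Submodule.mem_inf.mp hu1).2
  have k2 : u2 ∈ K := (Submodule.mem_inf.mp (Submodule.mem_inf.mp hu2).1).1
  have h20 : u2 a.1 a.2 = 0 := (Submodule.mem_inf.mp (Submodule.mem_inf.mp hu2).1).2
  have h21 : u2 b.1 b.2 = 0 := (Submodule.mem_inf.mp hu2).2
  set v1 : Usp := u1 - (u1 c.1 c.2) • u2 with hv1
  set v0 : Usp := u0 - (u0 b.1 b.2) • v1 - (u0 c.1 c.2) • u2 with hv0
  have m1 : v1 ∈ K := K.sub_mem k1 (K.smul_mem _ k2)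
  have m0 : v0 ∈ K := K.sub_mem (K.sub_mem hu0 (K.smul_mem _ m1)) (K.smul_mem _ k2)
  have e10 : v1 a.1 a.2 = 0 := by simp [hv1, h10, h20]
  have e11 : v1 b.1 b.2 = 1 := by simp [hv1, h11, h21]
  have e12 : v1 c.1 c.2 = 0 := by simp [hv1, h22]
  have e00 : v0 a.1 a.2 = 1 := by simp [hv0, h00, e10, h20]
  have e01 : v0 b.1 b.2 = 0 := by simp [hv0, e11, h21]
  have e02 : v0 c.1 c.2 = 0 := by simp [hv0, e12, h22]
  refine ⟨![a, b, c], ![v0, v1, u2], ?_, ?_⟩
  · intro k
    fin_cases k
    · exact m0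
    · exact m1
    · exact k2
  · intro k
    funext l
    fin_cases k <;> fin_cases l
    · exact e00
    · exact e01
    · exact e02
    · exact e10
    · exact e11
    · exact e12
    · exact h20
    · exact h21
    · exact h22

theorem rank12 {y : V5} (hw : W y) {J : Fin 3 → Fin 2 × Fin 5} {b : Fin 3 → Bsp}
    (hb : ∀ k, sg y (b k) = 0) (hJ : ∀ k, prJ J (ub (b k)) = Pi.single k 1) :
    12 ≤ finrank ℂ (LinearMap.range (sysE J y)) := by
  have h1 := LinearMap.finrank_range_add_finrank_ker (sysE J y)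
  have hB : finrank ℂ Bsp = 16 := by
    rw [finrank_prod, finrank_pi_fintype]
    simp
  have hk := sg_ker hw
  let g : LinearMap.ker (sg y) →ₗ[ℂ] (Fin 3 → ℂ) := (prJ J ∘ₗ ub).domRestrict (LinearMap.ker (sg y))
  have hg : Function.Surjective g := by
    intro t
    refine ⟨∑ k, t k • (⟨b k, hb k⟩ : LinearMap.ker (sg y)), ?_⟩
    rw [map_sum]
    have : ∀ k, g (t k • (⟨b k, hb k⟩ : LinearMap.ker (sg y))) = t k • Pi.single k 1 := by
      intro k
      rw [map_smul]
      exact congrArg _ (hJ k)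
    rw [Finset.sum_congr rfl fun k _ => this k]
    funext l
    simp [Finset.sum_apply, Pi.single_apply]
  have h2 := LinearMap.finrank_range_add_finrank_ker g
  rw [LinearMap.range_eq_top.mpr hg, finrank_top, hk] at h2
  have h3 : finrank ℂ (LinearMap.ker (sysE J y)) ≤ finrank ℂ (LinearMap.ker g) := by
    rw [← Submodule.finrank_map_subtype_eq _ (LinearMap.ker g)]
    refine Submodule.finrank_mono ?_
    intro x hx
    have hx' : (sg y x, prJ J (ub x)) = ((0, 0) : Hsp × (Fin 3 → ℂ)) := hx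
    have hx1 : sg y x = 0 := congrArg Prod.fst hx'
    have hx2 : prJ J (ub x) = 0 := congrArg Prod.snd hx'
    exact ⟨⟨x, hx1⟩, hx2, rfl⟩
  have h4 : finrank ℂ (Fin 3 → ℂ) = 3 := by simp
  omega

theorem ap_surj (f : Usp →ₗ[ℂ] Csp) : ∃ L : Par, ap L = f := by
  refine ⟨fun a i => f (eU (a, i)), ?_⟩
  refine LinearMap.ext fun u => ?_
  rw [ap_apply]
  have : u = ∑ a, ∑ i, u a i • eU (a, i) := by
    funext a i
    rw [Finset.sum_apply, Finset.sum_apply, Finset.sum_eq_single a]
    · rw [Finset.sum_apply, Finset.sum_apply, Finset.sum_eq_single i]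
      · simp [eU]
      · intro b _ hb
        simp [eU, hb.symm]
      · intro h
        exact absurd (Finset.mem_univ _) h
    · intro b _ hb
      rw [Finset.sum_apply, Finset.sum_apply]
      refine Finset.sum_eq_zero fun c _ => ?_
      simp [eU, hb.symm]
    · intro h
      exact absurd (Finset.mem_univ _) h
  conv_rhs => rw [this]
  simp only [map_sum, map_smul]

theorem rank18 {J : Fin 3 → Fin 2 × Fin 5} {u : Fin 3 → Usp}
    (hJ : ∀ k, prJ J (u k) = Pi.single k 1) :
    18 ≤ finrank ℂ (LinearMap.range (sys3 u)) := by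
  have hs : Function.Surjective (sys3 u) := by
    intro q
    let f : Usp →ₗ[ℂ] Csp := ∑ k, (c2co (J k)).smulRight (q k)
    obtain ⟨L, hL⟩ := ap_surj f
    refine ⟨L, ?_⟩
    funext k
    change ap L (u k) = q k
    rw [hL]
    have h1 : ∀ l, c2co (J l) (u k) = if l = k then 1 else 0 := by
      intro l
      have := congrFun (hJ k) l
      rw [Pi.single_apply] at this
      exact this
    simp [f, h1]
  rw [LinearMap.range_eq_top.mpr hs, finrank_top, finrank_pi_fintype]
  simp [finrank_prod]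

end Pool.Agent.XP
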