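import Pool.Agent.Work.MP_80e05d_ag.XP.C1
import Pool.Agent.Work.MP_80e05d_ag.XP.C2

/-!
C3 (M).  The parameters L for which some N(y), y outside the line, has a kernel of dimension >= 3 form a 58-thin set.

Proof.  L in the set, with y.  Some y i0 is nonzero (y nonzero); replace y by y / y i0 (N(cy) = c N(y) has the same kernel, W is preserved): y i0 = 1.
echelon for K = ker (NN L y): J and u_k; b_k = bb L u_k satisfies sysE J y b_k = (0, e_k) (ub_bb), rank (sysE J y) >= 12 (rank12), and sys3 (ub b_k) L = (cs b_k) (cs_bb), rank >= 18 (rank18).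
So for fixed i0, J consider the sets
A1 = {y : y i0 = 1 and 12 <= rank (sysE J y)} : 4-thin (thin_chart, mono);
A2 = {(y,b1) : y in A1, sysE J y b1 = (0,e_0)} : (4+4)-thin by Thin.lin (finrank Bsp = 16, r = 12);
A3 = {((y,b1),b2) : (y,b1) in A2, sysE J y b2 = (0,e_1)} : 12-thin;   A4 the same with b3 : 16-thin;
A4' = the points of A4 with 18 <= rank (sys3 (ub b1, ub b2, ub b3));
A5 = {(t, L) : t in A4', sys3 (..) L = (cs b1, cs b2, cs b3)} : (16 + (60 - 18))-thin by Thin.lin, finrank Par = 60.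
The set is contained in the union over i0 and J (finite) of the images of A5 under the projection to L (Thin.image, Thin.iUnion).
Differentiability hypotheses of Thin.lin: for fixed b the map y -> sysE J y b is linear in y (diff_lin, diff_sg), for fixed L the map (b1,b2,b3) -> (ap L (ub b_k))_k is linear.
-/

namespace Pool.Agent.XP
open MvPolynomial Module

private theorem c3_gen {Y B P G Q : Type*} [NormedAddCommGroup Y] [NormedSpace ℂ Y]
    [NormedAddCommGroup B] [NormedSpace ℂ B] [FiniteDimensional ℂ B]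
    [NormedAddCommGroup P] [NormedSpace ℂ P] [FiniteDimensional ℂ P]
    [NormedAddCommGroup G] [NormedSpace ℂ G] [FiniteDimensional ℂ G]
    [NormedAddCommGroup Q] [NormedSpace ℂ Q] [FiniteDimensional ℂ Q]
    (hB : finrank ℂ B = 16) (hP : finrank ℂ P = 60)
    (S : Y → B →ₗ[ℂ] G) (hS : ∀ w, Differentiable ℂ (fun y => S y w)) (v : Fin 3 → G)
    (T : (Fin 3 → B) → P →ₗ[ℂ] Q) (hT : ∀ L, Differentiable ℂ (fun t => T t L))
    (c : (Fin 3 → B) → Q) (hc : Differentiable ℂ c)
    {A : Set Y} (hA : Thin 4 A) (hr : ∀ y ∈ A, 12 ≤ finrank ℂ (LinearMap.range (S y))) :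
    Thin 58 {L : P | ∃ y ∈ A, ∃ b : Fin 3 → B, (∀ k, S y (b k) = v k) ∧
      18 ≤ finrank ℂ (LinearMap.range (T b)) ∧ T b L = c b} := by
  have h2 : Thin 8 {p : Y × B | p.1 ∈ A ∧ S p.1 p.2 = v 0} := by
    have h := Thin.lin hA S (fun _ => v 0) hS (differentiable_const _) hr
    rw [hB] at h
    exact h
  have h3 : Thin 12 {p : (Y × B) × B | (p.1.1 ∈ A ∧ S p.1.1 p.1.2 = v 0) ∧
      S p.1.1 p.2 = v 1} := by
    have h := Thin.lin h2 (fun p => S p.1) (fun _ => v 1)
      (fun w => (hS w).comp differentiable_fst) (differentiable_const _) (fun p hp => hr _ hp.1)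
    rw [hB] at h
    exact h
  have h4 : Thin 16 {p : ((Y × B) × B) × B | ((p.1.1.1 ∈ A ∧ S p.1.1.1 p.1.1.2 = v 0) ∧
      S p.1.1.1 p.1.2 = v 1) ∧ S p.1.1.1 p.2 = v 2} := by
    have h := Thin.lin h3 (fun p => S p.1.1) (fun _ => v 2)
      (fun w => (hS w).comp (differentiable_fst.comp differentiable_fst))
      (differentiable_const _) (fun p hp => hr _ hp.1.1)
    rw [hB] at h
    exact h
  let bv : (((Y × B) × B) × B) → Fin 3 → B := fun p => ![p.1.1.2, p.1.2, p.2]
  have hbv : Differentiable ℂ bv := by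
    rw [differentiable_pi]
    intro k
    fin_cases k
    · show Differentiable ℂ (fun p : ((Y × B) × B) × B => p.1.1.2)
      exact differentiable_snd.comp (differentiable_fst.comp differentiable_fst)
    · show Differentiable ℂ (fun p : ((Y × B) × B) × B => p.1.2)
      exact differentiable_snd.comp differentiable_fst
    · show Differentiable ℂ (fun p : ((Y × B) × B) × B => p.2)
      exact differentiable_snd
  have h5 : Thin 16 {p : ((Y × B) × B) × B | (((p.1.1.1 ∈ A ∧ S p.1.1.1 p.1.1.2 = v 0) ∧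
      S p.1.1.1 p.1.2 = v 1) ∧ S p.1.1.1 p.2 = v 2) ∧
      18 ≤ finrank ℂ (LinearMap.range (T (bv p)))} := Thin.mono (fun p hp => hp.1) h4
  have h6 := Thin.lin h5 (fun p => T (bv p)) (fun p => c (bv p)) (fun L => (hT L).comp hbv)
    (hc.comp hbv) (fun p hp => hp.2)
  rw [hP] at h6
  have h7 := Thin.image h6 (g := Prod.snd) differentiable_snd
  refine Thin.mono ?_ h7
  rintro L ⟨y, hy, b, hb, h18, hTL⟩
  have hbb : bv (((y, b 0), b 1), b 2) = b := by
    funext k
    fin_cases k <;> rfl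
  refine ⟨((((y, b 0), b 1), b 2), L), ⟨⟨⟨⟨⟨hy, hb 0⟩, hb 1⟩, hb 2⟩, ?_⟩, ?_⟩, rfl⟩
  · show 18 ≤ finrank ℂ (LinearMap.range (T (bv (((y, b 0), b 1), b 2))))
    rw [hbb]
    exact h18
  · show T (bv (((y, b 0), b 1), b 2)) L = c (bv (((y, b 0), b 1), b 2))
    rw [hbb]
    exact hTL

private theorem c3_finB : finrank ℂ Bsp = 16 := by
  simp [Module.finrank_prod, Module.finrank_pi_fintype]

private theorem c3_finP : finrank ℂ Par = 60 := by
  simp [Module.finrank_prod, Module.finrank_pi_fintype]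

private theorem c3_bil {E A B C : Type*} [NormedAddCommGroup E] [NormedSpace ℂ E]
    [NormedAddCommGroup A] [NormedSpace ℂ A] [NormedAddCommGroup B] [NormedSpace ℂ B]
    [NormedAddCommGroup C] [NormedSpace ℂ C] (f : A →ₗ[ℂ] B →ₗ[ℂ] C)
    (hf : Differentiable ℂ (fun p : A × B => f p.1 p.2)) (g : E → A) (hg : Differentiable ℂ g)
    (h : E → B) (hh : Differentiable ℂ h) : Differentiable ℂ (fun t => f (g t) (h t)) :=
  hf.comp (hg.prodMk hh)

private theorem c3_pm {E A B : Type*} [NormedAddCommGroup E] [NormedSpace ℂ E]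
    [NormedAddCommGroup A] [NormedSpace ℂ A] [NormedAddCommGroup B] [NormedSpace ℂ B]
    (f : E → A) (hf : Differentiable ℂ f) (b : B) : Differentiable ℂ (fun t => (f t, b)) :=
  hf.prodMk (differentiable_const b)

private theorem c3_dE (J : Fin 3 → Fin 2 × Fin 5) (w : Bsp) :
    Differentiable ℂ (fun y => sysE J y w) := by
  have h1 : Differentiable ℂ (fun y => sg y w) :=
    c3_bil sg diff_sg id differentiable_id (fun _ => w) (differentiable_const w)
  have e : (fun y => sysE J y w) = fun y => (sg y w, prJ J (ub w)) := rfl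
  rw [e]
  exact c3_pm _ h1 _

private theorem c3_pi {B C A D : Type*} [NormedAddCommGroup B] [NormedSpace ℂ B]
    [NormedAddCommGroup C] [NormedSpace ℂ C] [NormedAddCommGroup A] [NormedSpace ℂ A]
    [NormedAddCommGroup D] [NormedSpace ℂ D] (f : A →ₗ[ℂ] C →ₗ[ℂ] D)
    (hf : Differentiable ℂ (fun p : A × C => f p.1 p.2)) (u : B → C) (hu : Differentiable ℂ u)
    (L : A) : Differentiable ℂ (fun t : Fin 3 → B => fun k => f L (u (t k))) := by
  rw [differentiable_pi]
  intro k
  have h1 : Differentiable ℂ (fun t : Fin 3 → B => t k) := differentiable_apply k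
  exact c3_bil f hf (fun _ => L) (differentiable_const L) (fun t : Fin 3 → B => u (t k))
    (hu.comp h1)

private theorem c3_pj {B C : Type*} [NormedAddCommGroup B] [NormedSpace ℂ B]
    [NormedAddCommGroup C] [NormedSpace ℂ C] (u : B → C) (hu : Differentiable ℂ u) :
    Differentiable ℂ (fun t : Fin 3 → B => fun k => u (t k)) := by
  rw [differentiable_pi]
  intro k
  have h1 : Differentiable ℂ (fun t : Fin 3 → B => t k) := differentiable_apply k
  exact hu.comp h1

private theorem c3_thin (i0 : Fin 5) (J : Fin 3 → Fin 2 × Fin 5) :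
    Thin 58 {L : Par | ∃ y ∈ {y : V5 | y i0 = 1 ∧ 12 ≤ finrank ℂ (LinearMap.range (sysE J y))},
      ∃ b : Fin 3 → Bsp, (∀ k, sysE J y (b k) = (fun k => ((0 : Hsp), (Pi.single k 1 : Fin 3 → ℂ))) k) ∧
      18 ≤ finrank ℂ (LinearMap.range (sys3 (fun k => ub (b k)))) ∧
        sys3 (fun k => ub (b k)) L = fun k => cs (b k)} :=
  c3_gen c3_finB c3_finP (fun y => sysE J y) (c3_dE J)
    (fun k => ((0 : Hsp), (Pi.single k 1 : Fin 3 → ℂ)))
    (fun b => sys3 (fun k => ub (b k))) (fun L => c3_pi ap diff_ap ub (diff_lin ub) L)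
    (fun b => fun k => cs (b k)) (c3_pj cs (diff_lin cs))
    (Thin.mono (fun _ hy => hy.1) (thin_chart i0)) (fun _ hy => hy.2)

theorem thin_E1 : Thin 58 {L : Par | ∃ y : V5, W y ∧ 3 ≤ finrank ℂ (LinearMap.ker (NN L y))} := by
  have hU := Thin.iUnion (fun q : Fin 5 × (Fin 3 → Fin 2 × Fin 5) => c3_thin q.1 q.2)
  refine Thin.mono ?_ hU
  rintro L ⟨y, hw, hk⟩
  obtain ⟨i0, hi0⟩ : ∃ i0, y i0 ≠ 0 := by
    rcases hw with h | h | h
    · exact ⟨_, h⟩
    · exact ⟨_, h⟩
    · exact ⟨_, h⟩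
  set c : ℂ := (y i0)⁻¹ with hc
  have hc0 : c ≠ 0 := inv_ne_zero hi0
  have hw' : W (c • y) := by
    rcases hw with h | h | h
    · exact Or.inl (mul_ne_zero hc0 h)
    · exact Or.inr (Or.inl (mul_ne_zero hc0 h))
    · exact Or.inr (Or.inr (mul_ne_zero hc0 h))
  have hy1 : (c • y) i0 = 1 := inv_mul_cancel₀ hi0
  have hker : LinearMap.ker (NN L y) = LinearMap.ker (NN L (c • y)) := by
    ext u
    rw [LinearMap.mem_ker, LinearMap.mem_ker, NN_apply, NN_apply, map_smul, LinearMap.smul_apply,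
      smul_eq_zero, or_iff_right hc0]
  rw [hker] at hk
  obtain ⟨J, u, hu, hJ⟩ := echelon _ hk
  have hb : ∀ k, sg (c • y) (bb L (u k)) = 0 := fun k => hu k
  have hJ' : ∀ k, prJ J (ub (bb L (u k))) = Pi.single k 1 := fun k => by rw [ub_bb, hJ k]
  have hsys : ∀ k, sysE J (c • y) (bb L (u k)) = (0, Pi.single k 1) := fun k =>
    Prod.ext (hb k) (hJ' k)
  have h12 := rank12 hw' hb hJ'
  have h18 := rank18 hJ
  have hub : (fun k => ub (bb L (u k))) = u := funext fun k => ub_bb L (u k)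
  refine Set.mem_iUnion.2 ⟨(i0, J), ?_⟩
  refine ⟨c • y, ⟨hy1, h12⟩, fun k => bb L (u k), hsys, ?_, ?_⟩
  · rw [hub]
    exact h18
  · rw [hub]
    funext k
    rfl

end Pool.Agent.XP
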