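import Pool.Agent.Work.MP_80e05d_ag.XP.C1
import Pool.Agent.Work.MP_80e05d_ag.XP.A7

/-!
C4 (S-M).  Pairs (y, b) in general: 10-thin.
Proof.  A1 = {y : y i0 = 1, 10 <= rank (b -> (sg y b, cB j b))} is 4-thin (thin_chart, mono).  Thin.lin with E' = Bsp (dimension 16), r = 10:
{(y,b) : y in A1, sg y b = 0, cB j b = 1} is (4+6)-thin.  A pair (y,b) of our set has y in A1: rank (sg y) = 9 (sg_rank) and b in ker (sg y) has cB j b = 1, nonzero,
so rank (sg y, cB j) = 9 + 1 (rank (f,g) = rank f + dim g(ker f)).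
-/

namespace Pool.Agent.XP
open MvPolynomial Module

theorem thin_pairs_one (i0 : Fin 5) (j : Option (Fin 3 × Fin 5)) :
    Thin 10 {p : V5 × Bsp | p.1 i0 = 1 ∧ W p.1 ∧ sg p.1 p.2 = 0 ∧ cB j p.2 = 1} := by
  have hdim : finrank ℂ Bsp = 16 := by
    simp [Module.finrank_prod, Module.finrank_pi_fintype]
  have h1 : Thin 4 {y : V5 | y i0 = 1 ∧ W y ∧ ∃ b, sg y b = 0 ∧ cB j b = 1} :=
    Thin.mono (fun y hy => hy.1) (thin_chart i0)
  have hsg : ∀ w : Bsp, Differentiable ℂ (fun y : V5 => sg y w) := by
    intro w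
    have h0 : Differentiable ℂ (fun y : V5 => ((y, w) : V5 × Bsp)) :=
      differentiable_id.prodMk (differentiable_const w)
    have h01 := diff_sg.comp h0
    exact h01
  have h2 := Thin.lin (r := 10) h1 (fun y => (sg y).prod (cB j)) (fun _ => ((0 : Hsp), (1 : ℂ)))
    (fun w => (hsg w).prodMk (differentiable_const _)) (differentiable_const _) (by
      rintro y ⟨-, hW, b, hb1, hb2⟩
      have h3 := sg_ker hW
      have h4 := LinearMap.finrank_range_add_finrank_ker ((sg y).prod (cB j))
      rw [hdim] at h4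
      have h5 : LinearMap.ker ((sg y).prod (cB j)) < LinearMap.ker (sg y) := by
        refine lt_of_le_of_ne ?_ ?_
        · intro x hx
          rw [LinearMap.mem_ker] at hx ⊢
          exact congrArg Prod.fst hx
        · intro he
          have : b ∈ LinearMap.ker ((sg y).prod (cB j)) := by
            rw [he, LinearMap.mem_ker]
            exact hb1
          rw [LinearMap.mem_ker] at this
          have h6 : cB j b = 0 := congrArg Prod.snd this
          rw [hb2] at h6
          exact one_ne_zero h6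
      have h7 := Submodule.finrank_lt_finrank_of_lt h5
      rw [h3] at h7
      omega)
  rw [hdim] at h2
  refine Thin.mono ?_ h2
  rintro ⟨y, b⟩ ⟨ha, hb, hc, hd⟩
  exact ⟨⟨ha, hb, b, hc, hd⟩, Prod.ext hc hd⟩

end Pool.Agent.XP
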