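import Pool.Agent.Work.MP_80e05d_ag.XP.C1
import Pool.Agent.Work.MP_80e05d_ag.XP.A7
import Pool.Agent.Work.MP_80e05d_ag.XP.A14

/-!
C5 (M).  Pairs (y, b) with a z-dimensional space ZB b of directions killed by b, 2 <= z <= 4: (11 - z)-thin.

Proof.  Fix a set J of z - 2 coordinates different from i0.  Let (y,b) be in the set.  y in ZB b and y i0 = 1; the space {v in ZB b : v i0 = 0, v j = 0 for j in J} has dimension >= z - 1 - (z-2) = 1,
so it contains v nonzero; some coordinate v j0 is nonzero (j0 not in J, not i0), scale: v j0 = 1.  v is not a multiple of y (v = a y gives a = v i0 = 0), so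
dim (ker sg y cap ker sg v) <= 3 (ker_inter_le), hence the map b -> (sg y b, sg v b) has rank >= 13, and (sg y, sg v, cB j) has rank >= 14 because b is in the kernel of the first two and cB j b = 1.
Sets: G1 = {y : y i0 = 1} 4-thin;  G2 = {(y,v) : y in G1, v i0 = 0, v j = 0 (j in J), v j0 = 1} : (4 + (5 - z))-thin by Thin.lin with the constant linear map
v -> (v i0, v j (j in J), v j0) of rank z (distinct coordinates);  G2' = those with 14 <= rank (sg y, sg v, cB j);
G3 = {((y,v),b) : (y,v) in G2', sg y b = 0, sg v b = 0, cB j b = 1} : (4 + (5-z) + (16-14))-thin = (11 - z)-thin.  Our set is contained in the union over j0 of the images of G3 under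
((y,v),b) -> (y,b).
(z is one of 2, 3, 4: you may treat the three cases separately, e.g. J = {}, {i0+1}, {i0+1, i0+2} in Fin 5.)
-/

namespace Pool.Agent.XP
open MvPolynomial Module

/-- restriction to the coordinates in S -/
private noncomputable def c5_res (S : Finset (Fin 5)) : V5 →ₗ[ℂ] (S → ℂ) where
  toFun v k := v k
  map_add' := by intro u u'; rfl
  map_smul' := by intro c u; rfl

private theorem c5_rank (S : Finset (Fin 5)) :
    finrank ℂ (LinearMap.range (c5_res S)) = S.card := by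
  have hs : Function.Surjective (c5_res S) := by
    intro t
    refine ⟨fun i => if h : i ∈ S then t ⟨i, h⟩ else 0, ?_⟩
    funext k
    change (if h : (k : Fin 5) ∈ S then t ⟨k, h⟩ else 0) = t k
    rw [dif_pos k.2]
  rw [LinearMap.range_eq_top.mpr hs, finrank_top]
  simp

private theorem c5_ker (S : Finset (Fin 5)) :
    finrank ℂ (LinearMap.ker (c5_res S)) + S.card = 5 := by
  have h := LinearMap.finrank_range_add_finrank_ker (c5_res S)
  rw [c5_rank] at h
  have h5 : finrank ℂ V5 = 5 := by simp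
  omega

/-- the linear system for b -/
private noncomputable def c5_L (j : Option (Fin 3 × Fin 5)) (q : V5 × V5) :
    Bsp →ₗ[ℂ] Hsp × Hsp × ℂ := (sg q.1).prod ((sg q.2).prod (cB j))

private theorem c5_big (j : Option (Fin 3 × Fin 5)) {y v : V5} {b : Bsp} (hw : W y)
    (hv : ∀ a : ℂ, v ≠ a • y) (h1 : sg y b = 0) (h2 : sg v b = 0) (h3 : cB j b = 1) :
    14 ≤ finrank ℂ (LinearMap.range (c5_L j (y, v))) := by
  have hB : finrank ℂ Bsp = 16 := by
    rw [finrank_prod, finrank_pi_fintype]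
    simp
  have hk := ker_inter_le hw hv
  have hlt : LinearMap.ker (c5_L j (y, v)) <
      (LinearMap.ker (sg y) ⊓ LinearMap.ker (sg v) : Submodule ℂ Bsp) := by
    rw [lt_iff_le_and_ne]
    constructor
    · intro x hx
      have hx0 : c5_L j (y, v) x = 0 := hx
      have hx1 : sg y x = 0 := congrArg (fun q : Hsp × Hsp × ℂ => q.1) hx0
      have hx2 : sg v x = 0 := congrArg (fun q : Hsp × Hsp × ℂ => q.2.1) hx0
      exact ⟨hx1, hx2⟩
    · intro heq
      have h4 : b ∈ LinearMap.ker (c5_L j (y, v)) := heq ▸ (⟨h1, h2⟩ : b ∈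
        (LinearMap.ker (sg y) ⊓ LinearMap.ker (sg v) : Submodule ℂ Bsp))
      have h5 : c5_L j (y, v) b = 0 := h4
      have h6 : cB j b = 0 := congrArg (fun q => q.2.2) h5
      rw [h3] at h6
      exact one_ne_zero h6
  have hlt' := Submodule.finrank_lt_finrank_of_lt hlt
  have hfin := LinearMap.finrank_range_add_finrank_ker (c5_L j (y, v))
  omega

theorem thin_pairs_ge (i0 : Fin 5) (j : Option (Fin 3 × Fin 5)) {z : ℕ} (h2 : 2 ≤ z) (h4 : z ≤ 4) :
    Thin (11 - z) {p : V5 × Bsp | p.1 i0 = 1 ∧ W p.1 ∧ sg p.1 p.2 = 0 ∧ cB j p.2 = 1 ∧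
      finrank ℂ (ZB p.2) = z} := by
  classical
  obtain ⟨J, hJ1, hJ2⟩ : ∃ J : Finset (Fin 5), J ⊆ Finset.univ.erase i0 ∧ J.card = z - 2 := by
    refine Finset.exists_subset_card_eq ?_
    rw [Finset.card_erase_of_mem (Finset.mem_univ _), Finset.card_fin]
    omega
  have hi0 : i0 ∉ J := fun h => (Finset.mem_erase.mp (hJ1 h)).1 rfl
  set S0 : Finset (Fin 5) := insert i0 J with hS0
  have hS0c : S0.card = z - 1 := by
    rw [hS0, Finset.card_insert_of_notMem hi0, hJ2]
    omega
  -- the sets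
  let G2 : {j0 : Fin 5 // j0 ∉ S0} → Set (V5 × V5) := fun j0 =>
    {p | p.1 ∈ {y : V5 | y i0 = 1} ∧ c5_res (insert (j0 : Fin 5) S0) p.2 =
      (fun k : (insert (j0 : Fin 5) S0 : Finset (Fin 5)) => if (k : Fin 5) = j0 then (1 : ℂ) else 0)}
  have hG2 : ∀ j0, Thin (4 + (5 - z)) (G2 j0) := by
    intro j0
    have h := Thin.lin (thin_chart i0) (fun _ => c5_res (insert (j0 : Fin 5) S0))
      (fun _ => (fun k : (insert (j0 : Fin 5) S0 : Finset (Fin 5)) =>
        if (k : Fin 5) = j0 then (1 : ℂ) else 0))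
      (fun w => differentiable_const _) (differentiable_const _) (r := z) (by
        intro θ _
        rw [c5_rank, Finset.card_insert_of_notMem j0.2, hS0c]
        omega)
    have h5 : finrank ℂ V5 = 5 := by simp
    rw [h5] at h
    exact h
  let G2' : {j0 : Fin 5 // j0 ∉ S0} → Set (V5 × V5) := fun j0 =>
    {q | q ∈ G2 j0 ∧ 14 ≤ finrank ℂ (LinearMap.range (c5_L j q))}
  have hG2' : ∀ j0, Thin (4 + (5 - z)) (G2' j0) := fun j0 =>
    (hG2 j0).mono fun q hq => hq.1
  let G3 : {j0 : Fin 5 // j0 ∉ S0} → Set ((V5 × V5) × Bsp) := fun j0 =>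
    {p | p.1 ∈ G2' j0 ∧ c5_L j p.1 p.2 = ((0, 0, 1) : Hsp × Hsp × ℂ)}
  have hB : finrank ℂ Bsp = 16 := by
    rw [finrank_prod, finrank_pi_fintype]
    simp
  have hG3 : ∀ j0, Thin (11 - z) (G3 j0) := by
    intro j0
    have h := Thin.lin (hG2' j0) (fun q => c5_L j q) (fun _ => ((0, 0, 1) : Hsp × Hsp × ℂ))
      (by
        intro w
        change Differentiable ℂ (fun θ : V5 × V5 => (sg θ.1 w, sg θ.2 w, cB j w))
        have hs : Differentiable ℂ (fun y : V5 => sg y w) := diff_lin (sg.flip w)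
        exact (hs.comp differentiable_fst).prodMk
          ((hs.comp differentiable_snd).prodMk (differentiable_const _)))
      (differentiable_const _) (r := 14) (fun q hq => hq.2)
    rw [hB] at h
    have h6 : 4 + (5 - z) + (16 - 14) = 11 - z := by omega
    rw [h6] at h
    exact h
  have him : ∀ j0, Thin (11 - z) ((fun x : (V5 × V5) × Bsp => (x.1.1, x.2)) '' G3 j0) := fun j0 =>
    (hG3 j0).image ((differentiable_fst.comp differentiable_fst).prodMk differentiable_snd)
  refine (Thin.iUnion him).mono ?_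
  rintro ⟨y, b⟩ ⟨hy1, hw, hyb, hcb, hzb⟩
  simp only at hy1 hw hyb hcb hzb
  -- a vector v
  have h5 : finrank ℂ V5 = 5 := by simp
  have hinf : 1 ≤ finrank ℂ (ZB b ⊓ LinearMap.ker (c5_res S0) : Submodule ℂ V5) := by
    have e1 := Submodule.finrank_sup_add_finrank_inf_eq (ZB b) (LinearMap.ker (c5_res S0))
    have e2 := Submodule.finrank_le (ZB b ⊔ LinearMap.ker (c5_res S0))
    have e3 := c5_ker S0
    omega
  have hne : (ZB b ⊓ LinearMap.ker (c5_res S0) : Submodule ℂ V5) ≠ ⊥ := by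
    intro h
    rw [h, finrank_bot] at hinf
    omega
  obtain ⟨v, hv, hv0⟩ := Submodule.exists_mem_ne_zero_of_ne_bot hne
  obtain ⟨j0, hj0⟩ := Function.ne_iff.mp hv0
  have hvS : ∀ k ∈ S0, v k = 0 := by
    intro k hk
    have h6 : c5_res S0 v = 0 := (Submodule.mem_inf.mp hv).2
    exact congrFun h6 ⟨k, hk⟩
  have hj0S : j0 ∉ S0 := fun h => hj0 (hvS j0 h)
  set u : V5 := (v j0)⁻¹ • v with hu
  have hu1 : u j0 = 1 := inv_mul_cancel₀ hj0
  have huS : ∀ k ∈ S0, u k = 0 := by
    intro k hk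
    rw [hu, Pi.smul_apply, hvS k hk, smul_zero]
  have hub : sg u b = 0 := by
    have h6 : v ∈ ZB b := (Submodule.mem_inf.mp hv).1
    exact (ZB b).smul_mem _ h6
  have hnm : ∀ a : ℂ, u ≠ a • y := by
    intro a ha
    have h6 : u i0 = a * y i0 := congrFun ha i0
    rw [huS i0 (Finset.mem_insert_self _ _), hy1, mul_one] at h6
    rw [← h6, zero_smul] at ha
    rw [ha] at hu1
    exact zero_ne_one hu1
  refine Set.mem_iUnion.mpr ⟨⟨j0, hj0S⟩, ((y, u), b), ⟨⟨⟨hy1, ?_⟩, ?_⟩, ?_⟩, rfl⟩
  · funext k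
    change u k = if (k : Fin 5) = j0 then (1 : ℂ) else 0
    by_cases hk : (k : Fin 5) = j0
    · rw [if_pos hk, hk, hu1]
    · rw [if_neg hk]
      exact huS k ((Finset.mem_insert.mp k.2).resolve_left hk)
  · exact c5_big j hw hnm hyb hub hcb
  · change (sg y b, sg u b, cB j b) = ((0, 0, 1) : Hsp × Hsp × ℂ)
    rw [hyb, hub, hcb]

end Pool.Agent.XP
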