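import Pool.Agent.Work.MP_80e05d_ag.XP.C0
import Pool.Agent.Work.MP_80e05d_ag.XP.A3

/-!
C6 (M).  Rank of the system for xi.  sg y b = 0, dim ZB b = z, xi a solution of the homogeneous system with xi l = 1: rank (sysX R l b) >= 9 - z.

Proof.  S = range of v -> sg v b, dimension 5 - z (rank-nullity, ZB b = kernel); S is contained in ker (BB y) (bb_sg_of_ker).  T = span of the three basis vectors of Hsp at the positions R n, dimension 3
(R injective).  T cap ker (BB y) = 0 by PivB, so T + S is a direct sum, dimension 8 - z.  The system (xi -> (xi at R, <xi, sg e_i b>)) has kernel = annihilator of T + S under the (nondegenerate) pairing dp,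
of dimension 12 - (8 - z) = 4 + z, so its rank is 8 - z.  Adding the functional xi -> xi l, which does not vanish on this kernel (the given xi), raises the rank by one: 9 - z.
(z <= 5 always; natural subtraction is fine.)
-/

namespace Pool.Agent.XP
open MvPolynomial Module

/-- the span of the basis vectors at the positions R -/
private noncomputable def c6_io (R : Fin 3 → Fin 3 × Fin 4) : (Fin 3 → ℂ) →ₗ[ℂ] Hsp where
  toFun t i k := ∑ n, if R n = (i, k) then t n else 0
  map_add' := by
    intro t t'
    funext i k
    simp only [Pi.add_apply]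
    rw [← Finset.sum_add_distrib]
    refine Finset.sum_congr rfl fun n _ => ?_
    split_ifs <;> simp
  map_smul' := by
    intro c t
    funext i k
    simp only [Pi.smul_apply, smul_eq_mul, RingHom.id_apply, Finset.mul_sum]
    refine Finset.sum_congr rfl fun n _ => ?_
    split_ifs <;> simp

private theorem c6_io_apply (R : Fin 3 → Fin 3 × Fin 4) (t : Fin 3 → ℂ) (i : Fin 3) (k : Fin 4) :
    c6_io R t i k = ∑ n, if R n = (i, k) then t n else 0 := rfl

private theorem c6_dp_io (R : Fin 3 → Fin 3 × Fin 4) (t : Fin 3 → ℂ) (xi : Hsp) :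
    dp xi (c6_io R t) = ∑ n, t n * xi (R n).1 (R n).2 := by
  rw [dp_apply]
  have h1 : ∀ n : Fin 3, ∑ i, ∑ k, xi i k * (if R n = (i, k) then t n else 0) =
      t n * xi (R n).1 (R n).2 := by
    intro n
    rw [Finset.sum_eq_single (R n).1]
    · rw [Finset.sum_eq_single (R n).2]
      · rw [if_pos rfl, mul_comm]
      · intro k _ hk
        rw [if_neg, mul_zero]
        intro h
        exact hk (congrArg Prod.snd h).symm
      · intro h
        exact absurd (Finset.mem_univ _) h
    · intro i _ hi
      refine Finset.sum_eq_zero fun k _ => ?_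
      rw [if_neg, mul_zero]
      intro h
      exact hi (congrArg Prod.fst h).symm
    · intro h
      exact absurd (Finset.mem_univ _) h
  calc ∑ i, ∑ k, xi i k * c6_io R t i k
      = ∑ i, ∑ k, ∑ n, xi i k * (if R n = (i, k) then t n else 0) := by
        refine Finset.sum_congr rfl fun i _ => Finset.sum_congr rfl fun k _ => ?_
        rw [c6_io_apply, Finset.mul_sum]
    _ = ∑ n, ∑ i, ∑ k, xi i k * (if R n = (i, k) then t n else 0) := by
        have : ∀ i : Fin 3, ∑ k, ∑ n, xi i k * (if R n = (i, k) then t n else 0) =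
            ∑ n, ∑ k, xi i k * (if R n = (i, k) then t n else 0) :=
          fun i => Finset.sum_comm
        rw [Finset.sum_congr rfl fun i _ => this i, Finset.sum_comm]
    _ = _ := Finset.sum_congr rfl fun n _ => h1 n

private theorem c6_io_inj {R : Fin 3 → Fin 3 × Fin 4} (hR : Function.Injective R) {t : Fin 3 → ℂ}
    (h : c6_io R t = 0) : t = 0 := by
  funext n
  have h1 := congrFun (congrFun h (R n).1) (R n).2
  rw [c6_io_apply, Finset.sum_eq_single n] at h1
  · rwa [if_pos rfl] at h1
  · intro m _ hm
    rw [if_neg]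
    intro h2
    exact hm (hR h2)
  · intro h2
    exact absurd (Finset.mem_univ _) h2

private theorem c6_dp_inj : Function.Injective dp := by
  rw [injective_iff_map_eq_zero]
  intro xi h
  funext i k
  have h1 : dp xi (Pi.single i (Pi.single k 1)) = 0 := by rw [h]; rfl
  rw [dp_apply, Finset.sum_eq_single i] at h1
  · rw [Finset.sum_eq_single k] at h1
    · simpa using h1
    · intro b _ hb
      simp [hb]
    · intro h2
      exact absurd (Finset.mem_univ _) h2
  · intro b _ hb
    refine Finset.sum_eq_zero fun c _ => ?_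
    simp [hb]
  · intro h2
    exact absurd (Finset.mem_univ _) h2

theorem rank_sysX {y : V5} {b : Bsp} {z : ℕ} (hb : sg y b = 0) (hz : finrank ℂ (ZB b) = z)
    {R : Fin 3 → Fin 3 × Fin 4} (hR : PivB y R) {l : Fin 3 × Fin 4} {xi : Hsp}
    (h1 : ∀ k, xi (R k).1 (R k).2 = 0) (h2 : ∀ v, dp xi (sg v b) = 0) (h3 : xi l.1 l.2 = 1) :
    9 - z ≤ finrank ℂ (LinearMap.range (sysX R l b)) := by
  let P : (Fin 3 → ℂ) × V5 →ₗ[ℂ] Hsp := (c6_io R).coprod (sg.flip b)
  have hP : ∀ t v, P (t, v) = c6_io R t + sg v b := fun t v => rfl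
  -- the kernel of P
  have hker : finrank ℂ (LinearMap.ker P) ≤ z := by
    rw [← hz]
    have hsub : LinearMap.ker P ≤ (ZB b).map (LinearMap.inr ℂ (Fin 3 → ℂ) V5) := by
      rintro ⟨t, v⟩ htv
      have h4 : c6_io R t + sg v b = 0 := htv
      have h5 : BB y (c6_io R t) = 0 := by
        have h6 : BB y (c6_io R t + sg v b) = 0 := by rw [h4, map_zero]
        rwa [map_add, bb_sg_of_ker hb v, add_zero] at h6
      have h6 : c6_io R t = 0 := by
        refine hR.2 _ ?_ h5
        intro i k hik
        rw [c6_io_apply]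
        exact Finset.sum_eq_zero fun n _ => if_neg (hik n)
      have h7 : t = 0 := c6_io_inj hR.1 h6
      subst h7
      refine ⟨v, ?_, rfl⟩
      rw [h6, zero_add] at h4
      exact h4
    exact (Submodule.finrank_mono hsub).trans (Submodule.finrank_map_le _ _)
  have hrn := LinearMap.finrank_range_add_finrank_ker P
  have h8 : finrank ℂ ((Fin 3 → ℂ) × V5) = 8 := by
    rw [finrank_prod]; simp
  set M := LinearMap.range P with hM
  have hann := Subspace.finrank_add_finrank_dualAnnihilator_eq M
  have h12 : finrank ℂ Hsp = 12 := by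
    rw [finrank_pi_fintype]; simp
  set K0 : Submodule ℂ Hsp := M.dualAnnihilator.comap dp with hK0
  have hK0le : finrank ℂ K0 ≤ finrank ℂ M.dualAnnihilator := by
    rw [LinearEquiv.finrank_eq (Submodule.equivMapOfInjective dp c6_dp_inj K0)]
    exact Submodule.finrank_mono (Submodule.map_comap_le _ _)
  have hmem : ∀ x : Hsp, (∀ k, x (R k).1 (R k).2 = 0) → (∀ v, dp x (sg v b) = 0) → x ∈ K0 := by
    intro x hx1 hx2
    rw [hK0, Submodule.mem_comap, Submodule.mem_dualAnnihilator]
    rintro _ ⟨⟨t, v⟩, rfl⟩
    rw [hP, map_add, hx2, add_zero, c6_dp_io]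
    exact Finset.sum_eq_zero fun n _ => by rw [hx1, mul_zero]
  have hlt : LinearMap.ker (sysX R l b) < K0 := by
    rw [lt_iff_le_and_ne]
    constructor
    · intro x hx
      have hx0 : sysX R l b x = 0 := hx
      have hx1 : ∀ k, x (R k).1 (R k).2 = 0 := fun k => congrFun (congrArg Prod.fst hx0) k
      have hx2 : ∀ i, dp x (sg (Pi.single i 1) b) = 0 := fun i =>
        congrFun (congrArg (fun q => q.2.1) hx0) i
      refine hmem x hx1 fun v => ?_
      have hv : v = ∑ i, v i • (Pi.single i (1 : ℂ) : V5) := by
        funext j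
        simp [Finset.sum_apply, Pi.single_apply]
      rw [hv, map_sum, LinearMap.sum_apply, map_sum]
      refine Finset.sum_eq_zero fun i _ => ?_
      rw [map_smul, LinearMap.smul_apply, map_smul, hx2, smul_zero]
    · intro heq
      have h9 : xi ∈ LinearMap.ker (sysX R l b) := heq ▸ hmem xi h1 h2
      have h10 : sysX R l b xi = 0 := h9
      have h11 : xi l.1 l.2 = 0 := congrArg (fun q => q.2.2) h10
      rw [h3] at h11
      exact one_ne_zero h11
  have hlt' := Submodule.finrank_lt_finrank_of_lt hlt
  have hfin := LinearMap.finrank_range_add_finrank_ker (sysX R l b)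
  omega

end Pool.Agent.XP
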