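import Pool.Agent.Work.MP_80e05d_ag.XP.C0

/-!
C7 (M).  Rank of the system for Lambda: u = ub b nonzero, zeta(q) = <xi, sigma(y)(0,q)> a nonzero functional on Csp = C^6: rank (sysP y b xi) >= 15.

Proof.  L -> ap L identifies Par with Hom(Usp, Csp) (dimension 60).  The kernel of sysP consists of the L with ap L u = 0 and zeta o ap L = 0 (the eU c span Usp), i.e.
of the linear maps from Usp / C u (dimension 9) to ker zeta (dimension 5), dimension 45.  So the rank is 60 - 45 = 15.
Alternative without quotients: it is enough to find a 15-dimensional subspace of Par on which sysP is injective, or: the range contains ... choose a basis of Usp starting with u: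
u = u_1, ..., u_10; ap L is determined by the values q_k = ap L u_k in Csp, arbitrary.  The kernel is q_1 = 0, q_k in ker zeta (k >= 2): dimension 9 x 5 = 45.
(The map L -> (ap L u_k)_k is a linear equivalence Par = (Fin 10 -> Csp); see C2.ap_surj if useful, or prove injectivity/surjectivity from LinearMap.toMatrix / Basis.constr.)
-/

namespace Pool.Agent.XP
open MvPolynomial Module

private theorem ap_eU (L : Par) (c : Fin 2 × Fin 5) : ap L (eU c) = L c.1 c.2 := by
  rw [ap_apply, Finset.sum_eq_single c.1, Finset.sum_eq_single c.2]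
  · simp [eU]
  · intro i _ hi
    simp [eU, Pi.single_eq_of_ne hi]
  · intro h; exact absurd (Finset.mem_univ _) h
  · intro a _ ha
    refine Finset.sum_eq_zero fun i _ => ?_
    simp [eU, Pi.single_eq_of_ne ha]
  · intro h; exact absurd (Finset.mem_univ _) h

private noncomputable def EE (c0 : Fin 2 × Fin 5) (q0 : Csp) :
    (Csp × ({c : Fin 2 × Fin 5 // c ≠ c0} → ℂ)) →ₗ[ℂ] Par where
  toFun p := fun a i => if h : (a, i) = c0 then p.1 else p.2 ⟨(a, i), h⟩ • q0
  map_add' := by
    intro p p'
    funext a i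
    by_cases h : (a, i) = c0
    · simp [h]
    · simp [h, add_smul]
  map_smul' := by
    intro c p
    funext a i
    by_cases h : (a, i) = c0
    · simp [h]
    · simp [h, mul_smul]

private theorem EE_self (c0 : Fin 2 × Fin 5) (q0 : Csp)
    (p : Csp × ({c : Fin 2 × Fin 5 // c ≠ c0} → ℂ)) : EE c0 q0 p c0.1 c0.2 = p.1 := by
  change (if h : (c0.1, c0.2) = c0 then p.1 else p.2 ⟨(c0.1, c0.2), h⟩ • q0) = p.1
  rw [dif_pos rfl]

private theorem EE_ne (c0 : Fin 2 × Fin 5) (q0 : Csp)
    (p : Csp × ({c : Fin 2 × Fin 5 // c ≠ c0} → ℂ)) (c : Fin 2 × Fin 5) (h : c ≠ c0) :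
    EE c0 q0 p c.1 c.2 = p.2 ⟨c, h⟩ • q0 := by
  change (if h : (c.1, c.2) = c0 then p.1 else p.2 ⟨(c.1, c.2), h⟩ • q0) = _
  rw [dif_neg h]

theorem rank_sysP {y : V5} {b : Bsp} {xi : Hsp} (hu : ub b ≠ 0)
    (hz : ∃ q : Csp, dp xi (sg y (emb (0, q))) ≠ 0) :
    15 ≤ finrank ℂ (LinearMap.range (sysP y b xi)) := by
  obtain ⟨q0, hq0⟩ := hz
  obtain ⟨c0, h0⟩ : ∃ c : Fin 2 × Fin 5, ub b c.1 c.2 ≠ 0 := by
    by_contra h
    push Not at h
    exact hu (funext fun a => funext fun i => h (a, i))
  have hinj : Function.Injective ((sysP y b xi).comp (EE c0 q0)) := by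
    rw [← LinearMap.ker_eq_bot, LinearMap.ker_eq_bot']
    rintro ⟨q, t⟩ h
    have h1 : ap (EE c0 q0 (q, t)) (ub b) = 0 := congrArg Prod.fst h
    have h2 : ∀ c, dp xi (sg y (emb (0, ap (EE c0 q0 (q, t)) (eU c)))) = 0 :=
      fun c => congrFun (congrArg Prod.snd h) c
    have ht : t = 0 := by
      funext c
      have h3 := h2 c.1
      rw [ap_eU, EE_ne c0 q0 (q, t) c.1 c.2] at h3
      have h4 : emb ((0 : Usp), t c • q0) = t c • emb ((0 : Usp), q0) := by
        rw [← map_smul]
        simp
      change dp xi (sg y (emb ((0 : Usp), t c • q0))) = 0 at h3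
      rw [h4, map_smul, map_smul, smul_eq_mul] at h3
      exact (mul_eq_zero.1 h3).resolve_right hq0
    subst ht
    have h5 : ap (EE c0 q0 (q, 0)) (ub b) = ub b c0.1 c0.2 • q := by
      rw [ap_apply, Finset.sum_eq_single c0.1, Finset.sum_eq_single c0.2]
      · rw [EE_self]
      · intro i _ hi
        rw [EE_ne c0 q0 (q, 0) (c0.1, i) (by intro h; exact hi (congrArg Prod.snd h))]
        simp
      · intro h; exact absurd (Finset.mem_univ _) h
      · intro a _ ha
        refine Finset.sum_eq_zero fun i _ => ?_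
        rw [EE_ne c0 q0 (q, 0) (a, i) (by intro h; exact ha (congrArg Prod.fst h))]
        simp
      · intro h; exact absurd (Finset.mem_univ _) h
    rw [h5] at h1
    have h6 : q = 0 := (smul_eq_zero.1 h1).resolve_left h0
    rw [h6]
    rfl
  have hd : finrank ℂ (Csp × ({c : Fin 2 × Fin 5 // c ≠ c0} → ℂ)) = 15 := by
    rw [Module.finrank_prod, Module.finrank_prod, Module.finrank_pi, Module.finrank_pi,
      Module.finrank_self, Fintype.card_subtype_compl, Fintype.card_subtype_eq]
    simp
  calc 15 = finrank ℂ (Csp × ({c : Fin 2 × Fin 5 // c ≠ c0} → ℂ)) := hd.symm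
    _ = finrank ℂ (LinearMap.range ((sysP y b xi).comp (EE c0 q0))) :=
      (LinearMap.finrank_range_of_inj hinj).symm
    _ ≤ _ := Submodule.finrank_mono (LinearMap.range_comp_le_range _ _)

end Pool.Agent.XP
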