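import Pool.Agent.Work.MP_80e05d_ag.XP.C1
import Pool.Agent.Work.MP_80e05d_ag.XP.C4
import Pool.Agent.Work.MP_80e05d_ag.XP.C5
import Pool.Agent.Work.MP_80e05d_ag.XP.C6
import Pool.Agent.Work.MP_80e05d_ag.XP.C7
import Pool.Agent.Work.MP_80e05d_ag.XP.A7
import Pool.Agent.Work.MP_80e05d_ag.XP.A15

/-!
C8 (M-L).  The normalised bad set E2 is 59-thin.

zeta_ne: xi with xi = 0 at R (PivB y R), xi l = 1 and <xi, N(y) u> = 0 for all u: then zeta is not zero.
Proof: if <xi, sg y (emb (0,q))> = 0 for all q then for all u, 0 = <xi, NN L y u> = <xi, sg y (emb (u,0))> + <xi, sg y (emb (0, ap L u))> gives <xi, sg y b'> = 0 for all b' in Bsp, so xi kills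
range (sg y) = ker (BB y) (sg_exact).  Every h in Hsp is h' + h'' with h'' supported on R and h' in ker (BB y) (BB y restricted to the 3-dimensional space of vectors supported on R is injective by PivB, hence onto C^3),
and xi kills h'' too; so <xi, h> = 0 for all h, xi = 0, contradiction to xi l = 1.

thin_E2: fix i0, j, R, l, z.  P = the set of pairs (y,b) of C4 (z = 1) or C5 (z >= 2): (11 - z)-thin.
P' = those (y,b) in P with 9 - z <= rank (sysX R l b);  Q = {((y,b),xi) : (y,b) in P', sysX R l b xi = (0,0,1)} : (11 - z + (12 - (9 - z)))-thin = 14-thin (Thin.lin, finrank Hsp = 12);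
Q' = those with 15 <= rank (sysP y b xi);
T = {(((y,b),xi),L) : in Q', sysP y b xi L = (cs b, c -> - <xi, sg y (emb (eU c, 0))>)} : (14 + (60 - 15))-thin = 59-thin.
Every L in the bad set, with its y, b, xi, gives a point of T: sysX ... = (0,0,1) from the hypotheses, rank by rank_sysX; ap L (ub b) = cs b; and <xi, NN L y (eU c)> = 0 with
bb L (eU c) = emb (eU c, 0) + emb (0, ap L (eU c)) gives the second component; rank by rank_sysP, zeta_ne.  Image under the projection to L.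
Differentiability: b -> sysX R l b xi is linear in b; (y,b,xi) -> sysP y b xi L is a composition of diff_dp, diff_sg, linear maps; the right hand sides are as well.
-/

namespace Pool.Agent.XP
open MvPolynomial Module

/-- the normalised bad set -/
def E2set (i0 : Fin 5) (j : Option (Fin 3 × Fin 5)) (R : Fin 3 → Fin 3 × Fin 4) (l : Fin 3 × Fin 4)
    (z : ℕ) : Set Par :=
  {L | ∃ (y : V5) (b : Bsp) (xi : Hsp), y i0 = 1 ∧ W y ∧ sg y b = 0 ∧ cB j b = 1 ∧
    finrank ℂ (ZB b) = z ∧ PivB y R ∧ (∀ k, xi (R k).1 (R k).2 = 0) ∧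
    (∀ v, dp xi (sg v b) = 0) ∧ xi l.1 l.2 = 1 ∧ ub b ≠ 0 ∧ ap L (ub b) = cs b ∧
    ∀ u, dp xi (NN L y u) = 0}

/-- the vectors supported on the positions R -/
private noncomputable def supR (R : Fin 3 → Fin 3 × Fin 4) : (Fin 3 → ℂ) →ₗ[ℂ] Hsp where
  toFun c := ∑ n, c n • Pi.single (R n).1 (Pi.single (R n).2 1)
  map_add' := by
    intro c c'
    simp only [Pi.add_apply, add_smul, Finset.sum_add_distrib]
  map_smul' := by
    intro a c
    simp only [Pi.smul_apply, smul_eq_mul, mul_smul, Finset.smul_sum, RingHom.id_apply]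

private theorem supR_apply (R : Fin 3 → Fin 3 × Fin 4) (c : Fin 3 → ℂ) (i : Fin 3) (k : Fin 4) :
    supR R c i k = ∑ n, c n * (if R n = (i, k) then 1 else 0) := by
  change (∑ n, c n • Pi.single (R n).1 (Pi.single (R n).2 (1 : ℂ)) : Hsp) i k = _
  rw [Finset.sum_apply, Finset.sum_apply]
  refine Finset.sum_congr rfl fun n _ => ?_
  rw [Pi.smul_apply, Pi.smul_apply, smul_eq_mul]
  congr 1
  by_cases h1 : (R n).1 = i
  · by_cases h2 : (R n).2 = k
    · rw [if_pos (Prod.ext h1 h2), ← h1, ← h2, Pi.single_eq_same, Pi.single_eq_same]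
    · rw [if_neg (fun h => h2 (congrArg Prod.snd h)), ← h1, Pi.single_eq_same,
        Pi.single_eq_of_ne (Ne.symm h2)]
  · rw [if_neg (fun h => h1 (congrArg Prod.fst h)), Pi.single_eq_of_ne (Ne.symm h1)]
    rfl

private theorem dp_supR (R : Fin 3 → Fin 3 × Fin 4) (c : Fin 3 → ℂ) {xi : Hsp}
    (h1 : ∀ k, xi (R k).1 (R k).2 = 0) : dp xi (supR R c) = 0 := by
  rw [dp_apply]
  have : ∀ i k, xi i k * supR R c i k = 0 := by
    intro i k
    rw [supR_apply, Finset.mul_sum]
    refine Finset.sum_eq_zero fun n _ => ?_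
    by_cases h : R n = (i, k)
    · have h2 := h1 n
      rw [h] at h2
      have h3 : xi i k = 0 := h2
      rw [h3, zero_mul]
    · rw [if_neg h, mul_zero, mul_zero]
  simp only [this, Finset.sum_const_zero]

private theorem supR_surj {y : V5} {R : Fin 3 → Fin 3 × Fin 4} (hR : PivB y R) (v : Fin 3 → ℂ) :
    ∃ c, BB y (supR R c) = v := by
  have hinj : Function.Injective (BB y ∘ₗ supR R) := by
    rw [← LinearMap.ker_eq_bot, LinearMap.ker_eq_bot']
    intro c hc
    have h0 : supR R c = 0 := by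
      refine hR.2 _ ?_ hc
      intro i k h
      rw [supR_apply]
      refine Finset.sum_eq_zero fun n _ => ?_
      rw [if_neg (h n), mul_zero]
    funext n
    have h1 : supR R c (R n).1 (R n).2 = 0 := by
      rw [h0]
      rfl
    rw [supR_apply, Finset.sum_eq_single n] at h1
    · rw [if_pos rfl, mul_one] at h1
      exact h1
    · intro m _ hm
      rw [if_neg, mul_zero]
      intro h
      exact hm (hR.1 h)
    · intro h
      exact absurd (Finset.mem_univ n) h
  have hsurj := (LinearMap.injective_iff_surjective (f := BB y ∘ₗ supR R)).1 hinj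
  exact hsurj v

private theorem emb_split (u : Usp) (q : Csp) : emb (u, q) = emb (u, 0) + emb (0, q) := by
  rw [← map_add]
  simp

theorem zeta_ne {y : V5} (hw : W y) {R : Fin 3 → Fin 3 × Fin 4} (hR : PivB y R)
    {l : Fin 3 × Fin 4} {xi : Hsp} (h1 : ∀ k, xi (R k).1 (R k).2 = 0) (h3 : xi l.1 l.2 = 1)
    {L : Par} (hN : ∀ u, dp xi (NN L y u) = 0) :
    ∃ q : Csp, dp xi (sg y (emb (0, q))) ≠ 0 := by
  by_contra hcon
  push Not at hcon
  have hall : ∀ b' : Bsp, dp xi (sg y b') = 0 := by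
    intro b'
    have h4 := hN (ub b')
    have h5 : bb L (ub b') = emb (ub b', ap L (ub b')) := rfl
    rw [NN_apply, h5, emb_split, map_add, map_add, hcon, add_zero] at h4
    rw [← emb_ub_cs b', emb_split, map_add, map_add, h4, hcon, add_zero]
  have hzero : ∀ h : Hsp, dp xi h = 0 := by
    intro h
    obtain ⟨c, hc⟩ := supR_surj hR (BB y h)
    have h5 : BB y (h - supR R c) = 0 := by
      rw [map_sub, hc, sub_self]
    obtain ⟨b', hb'⟩ := sg_exact hw h5
    have h6 := hall b'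
    rw [hb', map_sub, dp_supR R c h1, sub_zero] at h6
    exact h6
  have h7 := hzero (Pi.single l.1 (Pi.single l.2 1))
  rw [dp_apply, Finset.sum_eq_single l.1, Finset.sum_eq_single l.2] at h7
  · rw [Pi.single_eq_same, Pi.single_eq_same, mul_one, h3] at h7
    exact one_ne_zero h7
  · intro k _ hk
    rw [Pi.single_eq_same, Pi.single_eq_of_ne hk, mul_zero]
  · intro h
    exact absurd (Finset.mem_univ _) h
  · intro i _ hi
    refine Finset.sum_eq_zero fun k _ => ?_
    rw [Pi.single_eq_of_ne hi]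
    exact mul_zero _
  · intro h
    exact absurd (Finset.mem_univ _) h

private theorem finrank_Hsp : finrank ℂ Hsp = 12 := by
  simp [Module.finrank_pi_fintype]

private theorem finrank_Par : finrank ℂ Par = 60 := by
  simp [Module.finrank_pi_fintype]

private theorem diff_sysX (R : Fin 3 → Fin 3 × Fin 4) (l : Fin 3 × Fin 4) (xi : Hsp) :
    Differentiable ℂ (fun p : V5 × Bsp => sysX R l p.2 xi) := by
  change Differentiable ℂ (fun p : V5 × Bsp => ((fun k => xi (R k).1 (R k).2 : Fin 3 → ℂ),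
    ((fun i => dp xi (sg (Pi.single i 1) p.2) : Fin 5 → ℂ), xi l.1 l.2)))
  refine (differentiable_const _).prodMk (Differentiable.prodMk ?_ (differentiable_const _))
  rw [differentiable_pi]
  intro i
  exact diff_lin (dp xi ∘ₗ sg (Pi.single i 1) ∘ₗ LinearMap.snd ℂ V5 Bsp)

private theorem diff_pair (v : Bsp) :
    Differentiable ℂ (fun p : (V5 × Bsp) × Hsp => dp p.2 (sg p.1.1 v)) := by
  have h1 : Differentiable ℂ (fun p : (V5 × Bsp) × Hsp => sg p.1.1 v) :=
    diff_lin (sg.flip v ∘ₗ LinearMap.fst ℂ V5 Bsp ∘ₗ LinearMap.fst ℂ (V5 × Bsp) Hsp)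
  exact diff_dp.comp (differentiable_snd.prodMk h1)

private theorem diff_sysP (L : Par) :
    Differentiable ℂ (fun p : (V5 × Bsp) × Hsp => sysP p.1.1 p.1.2 p.2 L) := by
  change Differentiable ℂ (fun p : (V5 × Bsp) × Hsp => (ap L (ub p.1.2),
    (fun c => dp p.2 (sg p.1.1 (emb (0, ap L (eU c)))) : Fin 2 × Fin 5 → ℂ)))
  refine Differentiable.prodMk ?_ ?_
  · exact diff_lin (ap L ∘ₗ ub ∘ₗ LinearMap.snd ℂ V5 Bsp ∘ₗ LinearMap.fst ℂ (V5 × Bsp) Hsp)
  · rw [differentiable_pi]
    intro c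
    exact diff_pair _

private theorem thin_P (i0 : Fin 5) (j : Option (Fin 3 × Fin 5)) {z : ℕ} (h1 : 1 ≤ z)
    (h4 : z ≤ 4) : Thin (11 - z) {p : V5 × Bsp | p.1 i0 = 1 ∧ W p.1 ∧ sg p.1 p.2 = 0 ∧
      cB j p.2 = 1 ∧ finrank ℂ (ZB p.2) = z} := by
  rcases eq_or_lt_of_le h1 with h | h
  · subst h
    refine Thin.mono ?_ (thin_pairs_one i0 j)
    exact fun p hp => ⟨hp.1, hp.2.1, hp.2.2.1, hp.2.2.2.1⟩
  · exact thin_pairs_ge i0 j h h4

theorem thin_E2 (i0 : Fin 5) (j : Option (Fin 3 × Fin 5)) (R : Fin 3 → Fin 3 × Fin 4)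
    (l : Fin 3 × Fin 4) {z : ℕ} (h1 : 1 ≤ z) (h4 : z ≤ 4) : Thin 59 (E2set i0 j R l z) := by
  let P : Set (V5 × Bsp) := {p : V5 × Bsp | p.1 i0 = 1 ∧ W p.1 ∧ sg p.1 p.2 = 0 ∧
      cB j p.2 = 1 ∧ finrank ℂ (ZB p.2) = z}
  let P' : Set (V5 × Bsp) := {p | p ∈ P ∧ 9 - z ≤ finrank ℂ (LinearMap.range (sysX R l p.2))}
  have hP' : Thin (11 - z) P' := Thin.mono (fun p hp => hp.1) (thin_P i0 j h1 h4)
  let Q : Set ((V5 × Bsp) × Hsp) := {q | q.1 ∈ P' ∧ sysX R l q.1.2 q.2 = (0, 0, 1)}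
  have hQ : Thin 14 Q := by
    have h := Thin.lin hP' (fun p : V5 × Bsp => sysX R l p.2) (fun _ => (0, 0, 1))
      (fun w => diff_sysX R l w) (differentiable_const _) (r := 9 - z) (fun p hp => hp.2)
    rw [finrank_Hsp] at h
    exact Thin.le (by omega) h
  let Q' : Set ((V5 × Bsp) × Hsp) :=
    {q | q ∈ Q ∧ 15 ≤ finrank ℂ (LinearMap.range (sysP q.1.1 q.1.2 q.2))}
  have hQ' : Thin 14 Q' := Thin.mono (fun p hp => hp.1) hQ
  have hT := Thin.lin hQ' (fun q : (V5 × Bsp) × Hsp => sysP q.1.1 q.1.2 q.2)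
    (fun q => (cs q.1.2, fun c => - dp q.2 (sg q.1.1 (emb (eU c, 0)))))
    (fun w => diff_sysP w) (by
      refine Differentiable.prodMk ?_ ?_
      · exact diff_lin (cs ∘ₗ LinearMap.snd ℂ V5 Bsp ∘ₗ LinearMap.fst ℂ (V5 × Bsp) Hsp)
      · rw [differentiable_pi]
        intro c
        exact (diff_pair _).neg) (r := 15) (fun q hq => hq.2)
  rw [finrank_Par] at hT
  have hT' := Thin.image hT (g := Prod.snd) differentiable_snd
  refine Thin.mono ?_ hT'
  rintro L ⟨y, b, xi, hy, hW, hb, hc, hz, hR, hx1, hx2, hx3, hu, hap, hN⟩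
  refine ⟨(((y, b), xi), L), ⟨⟨⟨⟨⟨hy, hW, hb, hc, hz⟩, ?_⟩, ?_⟩, ?_⟩, ?_⟩, rfl⟩
  · exact rank_sysX hb hz hR hx1 hx2 hx3
  · refine Prod.ext ?_ (Prod.ext ?_ ?_)
    · funext k
      exact hx1 k
    · funext i
      exact hx2 _
    · exact hx3
  · exact rank_sysP hu (zeta_ne hW hR hx1 hx3 hN)
  · refine Prod.ext ?_ ?_
    · exact hap
    · funext c
      change dp xi (sg y (emb (0, ap L (eU c)))) = - dp xi (sg y (emb (eU c, 0)))
      have h5 := hN (eU c)
      have h6 : bb L (eU c) = emb (eU c, ap L (eU c)) := rfl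
      rw [NN_apply, h6, emb_split, map_add, map_add, add_comm] at h5
      exact eq_neg_of_add_eq_zero_left h5

end Pool.Agent.XP
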