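import Pool.Agent.Work.MP_80e05d_ag.XP.D1

/-!
D2 (M).  If the data are admissible at (L, z) and the two bordered 9 x 9 minors vanish, then z is in XX L.

Proof.  r : Fin 9 injective, R injective, disjoint ranges: every one of the 12 rows is in exactly one of them.  Let N' = the 9 x 10 matrix ((NM L z).submatrix r id).  The nine columns cA of N' are dependent (det = 0) but the first eight
(columns c8) are independent (the 8 x 8 minor is nonzero), so column c 8 of N' is a combination of the eight columns c8; the same for column c 9 (cBB).  So there are two independent vectors u_A, u_B in Usp, supported on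
cA, cBB, with u_A having coordinate -1 at c 8 and 0 at c 9, u_B coordinate 0 at c 8 and -1 at c 9, and (NN L z u)(r k) = 0 for all k.  Then h = NN L z u is supported on R and BB z h = 0 (bb_sg), so h = 0 by PivB.
So dim ker (NN L z) >= 2 and mem_XX_iff (D0).
Also please prove minors_zero_of_mem: z in XX L implies both minors vanish (definition of XX).
-/

namespace Pool.Agent.XP
open MvPolynomial Module

/-- the vector of `Usp` with coordinates `v k` at the positions `c' k` -/
private noncomputable def uvec (c' : Fin 9 → Fin 2 × Fin 5) (v : Fin 9 → ℂ) : Usp :=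
  fun a i => ∑ k, if c' k = (a, i) then v k else 0

private theorem uvec_at {c' : Fin 9 → Fin 2 × Fin 5} (hc : Function.Injective c')
    (v : Fin 9 → ℂ) (k : Fin 9) : uvec c' v (c' k).1 (c' k).2 = v k := by
  unfold uvec
  rw [Finset.sum_eq_single k]
  · simp
  · intro j _ hj
    rw [if_neg]
    intro h
    exact hj (hc h)
  · intro h
    exact absurd (Finset.mem_univ k) h

private theorem uvec_off {c' : Fin 9 → Fin 2 × Fin 5} (v : Fin 9 → ℂ) {p : Fin 2 × Fin 5}
    (hp : ∀ k, c' k ≠ p) : uvec c' v p.1 p.2 = 0 := by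
  unfold uvec
  refine Finset.sum_eq_zero fun j _ => ?_
  rw [if_neg]
  exact hp j

private theorem uvec_NN (L : Par) (z : V5) {c' : Fin 9 → Fin 2 × Fin 5}
    (v : Fin 9 → ℂ) (p : Fin 3 × Fin 4) :
    NN L z (uvec c' v) p.1 p.2 = ∑ k, NM L z p (c' k) * v k := by
  have h1 : NN L z (uvec c' v) p.1 p.2 =
      ∑ c : Fin 2 × Fin 5, uvec c' v c.1 c.2 * NM L z p c := by
    rw [NN_sum]
    simp only [Finset.sum_apply, Pi.smul_apply, smul_eq_mul, NM]
  rw [h1]
  have h2 : ∀ c : Fin 2 × Fin 5, uvec c' v c.1 c.2 * NM L z p c =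
      ∑ k, if c' k = c then NM L z p (c' k) * v k else 0 := by
    intro c
    unfold uvec
    rw [Finset.sum_mul]
    refine Finset.sum_congr rfl fun k _ => ?_
    by_cases hk : c' k = c
    · rw [if_pos hk, if_pos hk, hk]
      ring
    · rw [if_neg hk, if_neg hk, zero_mul]
  simp_rw [h2]
  rw [Finset.sum_comm]
  refine Finset.sum_congr rfl fun k _ => ?_
  rw [Finset.sum_ite_eq]
  simp

private theorem rows_cover {R : Fin 3 → Fin 3 × Fin 4} {r : Fin 9 → Fin 3 × Fin 4}
    (hR : Function.Injective R) (hr : Function.Injective r) (hRr : ∀ n k, R n ≠ r k)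
    (p : Fin 3 × Fin 4) (hp : ∀ n, R n ≠ p) : ∃ k, r k = p := by
  have hinj : Function.Injective (Sum.elim R r) := Function.Injective.sumElim hR hr hRr
  have hcard : Fintype.card (Fin 3 ⊕ Fin 9) = Fintype.card (Fin 3 × Fin 4) := by
    simp
  have hbij := (Fintype.bijective_iff_injective_and_card (Sum.elim R r)).2 ⟨hinj, hcard⟩
  obtain ⟨x, hx⟩ := hbij.2 p
  rcases x with n | k
  · exact absurd hx (hp n)
  · exact ⟨k, hx⟩

private theorem ker_vec {R : Fin 3 → Fin 3 × Fin 4} {r : Fin 9 → Fin 3 × Fin 4}
    {c' : Fin 9 → Fin 2 × Fin 5} (hr : Function.Injective r) (hRr : ∀ n k, R n ≠ r k)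
    (hc : Function.Injective c') {L : Par} {z : V5} (hP : PivB z R)
    (h8 : ((NM L z).submatrix (r8 r) (fun k : Fin 8 => c' k.castSucc)).det ≠ 0)
    (h9 : ((NM L z).submatrix r c').det = 0) :
    ∃ u : Usp, NN L z u = 0 ∧ u (c' (Fin.last 8)).1 (c' (Fin.last 8)).2 ≠ 0 ∧
      ∀ p, (∀ k, c' k ≠ p) → u p.1 p.2 = 0 := by
  obtain ⟨v, hv0, hv⟩ := Matrix.exists_mulVec_eq_zero_iff.2 h9
  have hrow : ∀ k, ∑ j, NM L z (r k) (c' j) * v j = 0 := by
    intro k
    have := congrFun hv k
    simpa [Matrix.mulVec, dotProduct] using this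
  refine ⟨uvec c' v, ?_, ?_, ?_⟩
  · apply hP.2
    · intro i k hik
      obtain ⟨k', hk'⟩ := rows_cover hP.1 hr hRr (i, k) hik
      have h1 := uvec_NN L z (c' := c') v (r k')
      rw [hrow k', hk'] at h1
      exact h1
    · rw [NN_apply]
      exact bb_sg z _
  · rw [uvec_at hc]
    intro h0
    apply hv0
    have hw : Matrix.mulVec ((NM L z).submatrix (r8 r) (fun k : Fin 8 => c' k.castSucc))
        (fun k : Fin 8 => v k.castSucc) = 0 := by
      funext k
      have h1 := hrow k.castSucc
      rw [Fin.sum_univ_castSucc, h0, mul_zero, add_zero] at h1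
      simpa [Matrix.mulVec, dotProduct, r8] using h1
    have hz : (fun k : Fin 8 => v k.castSucc) = 0 := by
      by_contra hne
      exact h8 (Matrix.exists_mulVec_eq_zero_iff.1 ⟨_, hne, hw⟩)
    funext k
    refine Fin.lastCases ?_ (fun j => ?_) k
    · exact h0
    · exact congrFun hz j
  · intro p hp
    exact uvec_off v hp

theorem mem_XX_of_minors {R : Fin 3 → Fin 3 × Fin 4} {r : Fin 9 → Fin 3 × Fin 4}
    {c : Fin 10 → Fin 2 × Fin 5} (hr : Function.Injective r) (hRr : ∀ n k, R n ≠ r k)
    (hc : Function.Injective c) {L : Par} {z : V5} (ha : Adm R r c L z)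
    (hA : ((NM L z).submatrix r (cA c)).det = 0) (hB : ((NM L z).submatrix r (cBB c)).det = 0) :
    z ∈ XX L := by
  have hB8 : cBB c (Fin.last 8) = c 9 := by
    unfold cBB
    exact if_pos (show (Fin.last 8 : Fin 9) = 8 from rfl)
  have hBj : ∀ k : Fin 8, cBB c k.castSucc = c k.castSucc.castSucc := by
    intro k
    unfold cBB
    rw [if_neg]
    intro h
    have := congrArg Fin.val h
    simp at this
    omega
  have hcA : Function.Injective (cA c) := fun a b h => Fin.castSucc_injective _ (hc h)
  have hcB : Function.Injective (cBB c) := by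
    intro a b h
    induction a using Fin.lastCases with
    | last =>
      induction b using Fin.lastCases with
      | last => rfl
      | cast b =>
        rw [hB8, hBj] at h
        have := congrArg Fin.val (hc h)
        simp at this
        omega
    | cast a =>
      induction b using Fin.lastCases with
      | last =>
        rw [hB8, hBj] at h
        have := congrArg Fin.val (hc h)
        simp at this
        omega
      | cast b =>
        rw [hBj, hBj] at h
        exact Fin.castSucc_injective _ (hc h)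
  have h8B : ((NM L z).submatrix (r8 r) (fun k : Fin 8 => cBB c k.castSucc)).det ≠ 0 := by
    have e : (fun k : Fin 8 => cBB c k.castSucc) = c8 c := by
      funext k
      exact hBj k
    rw [e]
    exact ha.2
  obtain ⟨uA, hA0, hA8, hAo⟩ := ker_vec hr hRr hcA ha.1 ha.2 hA
  obtain ⟨uB, hB0, hB9, hBo⟩ := ker_vec hr hRr hcB ha.1 h8B hB
  have hA9 : uA (c 9).1 (c 9).2 = 0 := by
    apply hAo
    intro k h
    have := congrArg Fin.val (hc h)
    simp at this
    omega
  rw [hB8] at hB9
  have hB8' : uB (c 8).1 (c 8).2 = 0 := by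
    apply hBo
    intro k
    induction k using Fin.lastCases with
    | last =>
      rw [hB8]
      intro h
      have := congrArg Fin.val (hc h)
      simp at this
    | cast k =>
      rw [hBj]
      intro h
      have := congrArg Fin.val (hc h)
      simp at this
      omega
  have hA8' : uA (c 8).1 (c 8).2 ≠ 0 := hA8
  rw [mem_XX_iff]
  let vA : LinearMap.ker (NN L z) := ⟨uA, hA0⟩
  let vB : LinearMap.ker (NN L z) := ⟨uB, hB0⟩
  have hli : LinearIndependent ℂ ![vA, vB] := by
    rw [LinearIndependent.pair_iff]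
    intro s t hst
    have h1 : s • uA + t • uB = 0 := congrArg Subtype.val hst
    have h2 := congrFun (congrFun h1 (c 8).1) (c 8).2
    have h3 := congrFun (congrFun h1 (c 9).1) (c 9).2
    simp only [Pi.add_apply, Pi.smul_apply, smul_eq_mul, Pi.zero_apply] at h2 h3
    rw [hB8', mul_zero, add_zero] at h2
    rw [hA9, mul_zero, zero_add] at h3
    exact ⟨(mul_eq_zero.1 h2).resolve_right hA8', (mul_eq_zero.1 h3).resolve_right hB9⟩
  have := hli.fintype_card_le_finrank
  simpa using this

theorem minors_zero_of_mem (r : Fin 9 → Fin 3 × Fin 4) (c : Fin 10 → Fin 2 × Fin 5) {L : Par}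
    {z : V5} (h : z ∈ XX L) :
    ((NM L z).submatrix r (cA c)).det = 0 ∧ ((NM L z).submatrix r (cBB c)).det = 0 :=
  ⟨h r (cA c), h r (cBB c)⟩

end Pool.Agent.XP
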