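import Pool.Agent.Work.MP_80e05d_ag.XP.A0

/-!
D3 (M).  The derivative of a determinant, and the adjugate of a 9 x 9 matrix of rank 8.

det_deriv: strict derivative of z -> det (M z) at z0 is sum_ij adj(M z0)_ji M'_ij.
Proof: det = sum over permutations of sign times a product (Matrix.det_apply); derivative of a product (HasStrictFDerivAt.finset_prod) and regroup; or by multilinearity: det is a continuous multilinear function of the rows
(ContinuousMultilinearMap.hasStrictFDerivAt), the derivative in direction H is sum_i det (updateRow M i (H i)) = sum_i sum_j H i j * adjugate j i (Matrix.adjugate_apply, Cramer: det (updateRow M i (row)) expanded linearly).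
adj_rank1: adj(M) M = 0 = M adj(M) (det = 0).  ker M (column vectors) has dimension 1 because the 8 x 8 minor is nonzero (rank >= 8), it is spanned by kap; so every column of adj M is a multiple of kap, every row a multiple of rho:
adj M = c kap rho^T; c is nonzero because the entry adj(M)(last,last) = the 8 x 8 minor (up to sign +1) is nonzero.
-/

namespace Pool.Agent.XP
open MvPolynomial Module

private theorem d3_adj {n : Type*} [Fintype n] [DecidableEq n] (A : Matrix n n ℂ) (i j : n) :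
    A.adjugate j i = ∑ σ : Equiv.Perm n, if σ j = i then
      ((Equiv.Perm.sign σ : ℤ) : ℂ) * ∏ k ∈ Finset.univ.erase j, A (σ k) k else 0 := by
  rw [Matrix.adjugate_apply, Matrix.det_apply']
  refine Finset.sum_congr rfl fun σ _ => ?_
  split_ifs with h
  · congr 1
    rw [← Finset.mul_prod_erase Finset.univ _ (Finset.mem_univ j)]
    have h1 : (A.updateRow i (Pi.single j 1)) (σ j) j = 1 := by
      rw [h, Matrix.updateRow_self]
      simp
    rw [h1, one_mul]
    refine Finset.prod_congr rfl fun k hk => ?_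
    rw [Finset.mem_erase] at hk
    rw [Matrix.updateRow_ne]
    intro h2
    exact hk.1 (σ.injective (h2.trans h.symm))
  · have h0 : (A.updateRow i (Pi.single j 1)) (σ (σ.symm i)) (σ.symm i) = 0 := by
      rw [Equiv.apply_symm_apply, Matrix.updateRow_self, Pi.single_apply, if_neg]
      intro h1
      apply h
      rw [← h1, Equiv.apply_symm_apply]
    have h5 : ∏ k, (A.updateRow i (Pi.single j 1)) (σ k) k = 0 :=
      Finset.prod_eq_zero (Finset.mem_univ (σ.symm i)) h0
    rw [h5, mul_zero]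

private theorem d3_ker {A : Matrix (Fin 9) (Fin 9) ℂ}
    (h8 : (A.submatrix (Fin.castSucc : Fin 8 → Fin 9) (Fin.castSucc : Fin 8 → Fin 9)).det ≠ 0)
    {w : Fin 9 → ℂ} (hw : A.mulVec w = 0) (hl : w (Fin.last 8) = 0) : w = 0 := by
  have h1 : (A.submatrix (Fin.castSucc : Fin 8 → Fin 9) (Fin.castSucc : Fin 8 → Fin 9)).mulVec
      (fun i => w (Fin.castSucc i)) = 0 := by
    ext i
    have h2 := congrFun hw (Fin.castSucc i)
    simp only [Matrix.mulVec, dotProduct, Pi.zero_apply] at h2 ⊢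
    rw [Fin.sum_univ_castSucc, hl, mul_zero, add_zero] at h2
    simpa only [Matrix.submatrix_apply] using h2
  have h3 := Matrix.eq_zero_of_mulVec_eq_zero h8 h1
  ext i
  refine Fin.lastCases ?_ (fun j => ?_) i
  · simpa using hl
  · exact congrFun h3 j

private theorem d3_line {A : Matrix (Fin 9) (Fin 9) ℂ}
    (h8 : (A.submatrix (Fin.castSucc : Fin 8 → Fin 9) (Fin.castSucc : Fin 8 → Fin 9)).det ≠ 0)
    {kap : Fin 9 → ℂ} (h2 : A.mulVec kap = 0) (h4 : kap ≠ 0) :
    kap (Fin.last 8) ≠ 0 ∧ ∀ v : Fin 9 → ℂ, A.mulVec v = 0 →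
      ∀ i, kap (Fin.last 8) * v i = v (Fin.last 8) * kap i := by
  refine ⟨fun h => h4 (d3_ker h8 h2 h), fun v hv i => ?_⟩
  have h5 : A.mulVec (kap (Fin.last 8) • v - v (Fin.last 8) • kap) = 0 := by
    rw [Matrix.mulVec_sub, Matrix.mulVec_smul, Matrix.mulVec_smul, hv, h2]
    simp
  have h6 := d3_ker h8 h5 (by simp [mul_comm])
  have h7 := congrFun h6 i
  simp only [Pi.sub_apply, Pi.smul_apply, smul_eq_mul, Pi.zero_apply] at h7
  exact sub_eq_zero.1 h7

theorem det_deriv {V : Type*} [NormedAddCommGroup V] [NormedSpace ℂ V]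
    {M : V → Matrix (Fin 9) (Fin 9) ℂ} {M' : Fin 9 → Fin 9 → (V →L[ℂ] ℂ)} {z0 : V}
    (h : ∀ i j, HasStrictFDerivAt (fun z => M z i j) (M' i j) z0) :
    HasStrictFDerivAt (fun z => (M z).det) (∑ i, ∑ j, (M z0).adjugate j i • M' i j) z0 := by
  have hf : (fun z => (M z).det) = fun z => ∑ σ : Equiv.Perm (Fin 9),
      ((Equiv.Perm.sign σ : ℤ) : ℂ) * ∏ i, M z (σ i) i := by
    funext z
    exact Matrix.det_apply' (M z)
  rw [hf]
  have hd := HasStrictFDerivAt.fun_sum (u := (Finset.univ : Finset (Equiv.Perm (Fin 9))))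
    (fun σ _ => (HasStrictFDerivAt.finsetProd (u := (Finset.univ : Finset (Fin 9)))
      (fun i _ => h (σ i) i)).const_mul ((Equiv.Perm.sign σ : ℤ) : ℂ))
  refine hd.congr_fderiv ?_
  have h1 : ∀ i j, (M z0).adjugate j i • M' i j = ∑ σ : Equiv.Perm (Fin 9), if σ j = i then
      (((Equiv.Perm.sign σ : ℤ) : ℂ) * ∏ k ∈ Finset.univ.erase j, M z0 (σ k) k) • M' i j else 0 := by
    intro i j
    rw [d3_adj]
    refine (Finset.sum_smul (s := (Finset.univ : Finset (Equiv.Perm (Fin 9))))
      (f := fun σ => if σ j = i then ((Equiv.Perm.sign σ : ℤ) : ℂ) *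
        ∏ k ∈ Finset.univ.erase j, M z0 (σ k) k else 0) (x := M' i j)).trans
      (Finset.sum_congr rfl fun σ _ => ?_)
    split_ifs
    · rfl
    · rw [zero_smul]
  calc ∑ σ : Equiv.Perm (Fin 9), ((Equiv.Perm.sign σ : ℤ) : ℂ) •
        ∑ i, (∏ j ∈ Finset.univ.erase i, M z0 (σ j) j) • M' (σ i) i
      = ∑ σ : Equiv.Perm (Fin 9), ∑ j, (((Equiv.Perm.sign σ : ℤ) : ℂ) *
          ∏ k ∈ Finset.univ.erase j, M z0 (σ k) k) • M' (σ j) j := by
        refine Finset.sum_congr rfl fun σ _ => ?_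
        rw [Finset.smul_sum]
        exact Finset.sum_congr rfl fun j _ => smul_smul _ _ _
    _ = ∑ j, ∑ σ : Equiv.Perm (Fin 9), (((Equiv.Perm.sign σ : ℤ) : ℂ) *
          ∏ k ∈ Finset.univ.erase j, M z0 (σ k) k) • M' (σ j) j := Finset.sum_comm
    _ = ∑ j, ∑ σ : Equiv.Perm (Fin 9), ∑ i, (if σ j = i then
          (((Equiv.Perm.sign σ : ℤ) : ℂ) * ∏ k ∈ Finset.univ.erase j, M z0 (σ k) k) • M' i j
            else 0) := by
        refine Finset.sum_congr rfl fun j _ => Finset.sum_congr rfl fun σ _ => ?_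
        rw [Finset.sum_ite_eq, if_pos (Finset.mem_univ _)]
    _ = ∑ j, ∑ i, ∑ σ : Equiv.Perm (Fin 9), (if σ j = i then
          (((Equiv.Perm.sign σ : ℤ) : ℂ) * ∏ k ∈ Finset.univ.erase j, M z0 (σ k) k) • M' i j
            else 0) := Finset.sum_congr rfl fun j _ => Finset.sum_comm
    _ = ∑ i, ∑ j, ∑ σ : Equiv.Perm (Fin 9), (if σ j = i then
          (((Equiv.Perm.sign σ : ℤ) : ℂ) * ∏ k ∈ Finset.univ.erase j, M z0 (σ k) k) • M' i j
            else 0) := Finset.sum_comm
    _ = ∑ i, ∑ j, (M z0).adjugate j i • M' i j :=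
        Finset.sum_congr rfl fun i _ => Finset.sum_congr rfl fun j _ => (h1 i j).symm

theorem adj_rank1 {M : Matrix (Fin 9) (Fin 9) ℂ} (hdet : M.det = 0)
    (h8 : (M.submatrix (Fin.castSucc : Fin 8 → Fin 9) (Fin.castSucc : Fin 8 → Fin 9)).det ≠ 0)
    {rho kap : Fin 9 → ℂ} (h1 : Matrix.vecMul rho M = 0) (h2 : M.mulVec kap = 0)
    (h3 : rho ≠ 0) (h4 : kap ≠ 0) :
    ∃ c : ℂ, c ≠ 0 ∧ ∀ i j, M.adjugate j i = c * (kap j * rho i) := by
  have hM1 : M * M.adjugate = 0 := by rw [Matrix.mul_adjugate, hdet, zero_smul]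
  have hM2 : M.adjugate * M = 0 := by rw [Matrix.adjugate_mul, hdet, zero_smul]
  obtain ⟨hk, hk'⟩ := d3_line h8 h2 h4
  have h8' : (M.transpose.submatrix (Fin.castSucc : Fin 8 → Fin 9)
      (Fin.castSucc : Fin 8 → Fin 9)).det ≠ 0 := by
    rw [← Matrix.transpose_submatrix, Matrix.det_transpose]
    exact h8
  have h1' : M.transpose.mulVec rho = 0 := by rw [Matrix.mulVec_transpose, h1]
  obtain ⟨hr, hr'⟩ := d3_line h8' h1' h3
  have hcol : ∀ i, M.mulVec (fun j => M.adjugate j i) = 0 := by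
    intro i
    ext k
    have h5 : ∑ l, M k l * M.adjugate l i = (M * M.adjugate) k i := (Matrix.mul_apply).symm
    rw [hM1] at h5
    exact h5
  have hrow : ∀ j, M.transpose.mulVec (fun i => M.adjugate j i) = 0 := by
    intro j
    ext k
    have h5 : ∑ l, M.adjugate j l * M l k = (M.adjugate * M) j k := (Matrix.mul_apply).symm
    rw [hM2] at h5
    have h6 : ∑ l, M.transpose k l * M.adjugate j l = ∑ l, M.adjugate j l * M l k :=
      Finset.sum_congr rfl fun l _ => mul_comm _ _
    exact h6.trans h5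
  have hll : M.adjugate (Fin.last 8) (Fin.last 8) ≠ 0 := by
    have := Matrix.adjugate_fin_succ_eq_det_submatrix M (Fin.last 8) (Fin.last 8)
    rw [this]
    have e : (Fin.last 8).succAbove = (Fin.castSucc : Fin 8 → Fin 9) := by
      funext i
      exact Fin.succAbove_last_apply i
    rw [e]
    exact mul_ne_zero (pow_ne_zero _ (by norm_num)) h8
  refine ⟨M.adjugate (Fin.last 8) (Fin.last 8) / (kap (Fin.last 8) * rho (Fin.last 8)),
    div_ne_zero hll (mul_ne_zero hk hr), fun i j => ?_⟩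
  have e1 := hk' _ (hcol i) j
  have e2 := hr' _ (hrow (Fin.last 8)) i
  field_simp
  linear_combination rho (Fin.last 8) * e1 + kap j * e2

end Pool.Agent.XP
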