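import Pool.Agent.Work.MP_80e05d_ag.XP.D2
import Pool.Agent.Work.MP_80e05d_ag.XP.D3

/-!
D4 (M-L).  The derivatives of the two bordered minors at a point y nonzero with dim ker N(y) = 2 and admissible data.

Statement: there are xi in Hsp with Valid L y (dp xi), independent kernel vectors uA, uB and strict derivatives DA, DB (in both variables (z, L')) of the two minors at (y, L) such that
DA (v, 0) = kA <xi, sg v (bb L uA)>, DB (v, 0) = kB <xi, sg v (bb L uB)> with kA, kB nonzero.

Proof.  N' = 9 x 10 matrix, rows r, of rank 8 (its kernel = ker NN L y by PivB and bb_sg as in D2, dimension 2).  So there is rho : Fin 9 -> C nonzero with rho N' = 0; xi = the vector of Hsp with xi (r k) = rho k and xi = 0 at R.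
<xi, NN L y u> = rho . (N' u) = 0.  dp xi is not zero on ker (BB y): every h in Hsp is h' + h'' with h'' supported on R, BB y h' = 0 (PivB: BB y on vectors supported on R is bijective onto C^3), and <xi, h''> = 0, so otherwise
xi = 0.  So Valid.
The 9 x 9 matrix M_A = N'[cA] has determinant 0 (y in XX L because the kernel has dimension 2, mem_XX_iff, minors_zero_of_mem) and nonzero upper left 8 x 8 minor; its right kernel is spanned by kap_A nonzero, put uA = sum_k kap_A k • eU (cA c k):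
N' uA = 0, so NN L y uA = 0.  kap_A 8 is nonzero (otherwise the 8 x 8 matrix would have a kernel).  In the same way uB.  uA has a nonzero coordinate at c 8 and coordinate 0 at c 9, uB the opposite: independent.
Entries of NM L' z are bilinear-plus-linear in (z, L'), strictly differentiable; the derivative of the entry (r i, cA j) in direction (v, 0) is (sg v (bb L (eU (cA j)))) (r i) (bb L' (eU c) is affine in L', sg is bilinear).
det_deriv and adj_rank1: DA (v,0) = sum_ij c kap_j rho_i (sg v (bb L (eU (cA j))))(r i) = c <xi, sg v (bb L uA)>.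
-/

namespace Pool.Agent.XP
open MvPolynomial Module

private theorem entry_deriv (L : Par) (y : V5) (a : Fin 3 × Fin 4) (b : Fin 2 × Fin 5) :
    ∃ D : V5 × Par →L[ℂ] ℂ, HasStrictFDerivAt (fun p : V5 × Par => NM p.2 p.1 a b) D (y, L) ∧
      ∀ v, D (v, 0) = sg v (bb L (eU b)) a.1 a.2 := by
  obtain ⟨ev, hev⟩ : ∃ ev : Hsp →ₗ[ℂ] ℂ, ∀ h : Hsp, ev h = h a.1 a.2 :=
    ⟨LinearMap.proj a.2 ∘ₗ LinearMap.proj (R := ℂ) (φ := fun _ : Fin 3 => Fin 4 → ℂ) a.1,
      fun h => rfl⟩
  have hB : ∀ k : Fin 5, ∃ B : Par →L[ℂ] ℂ, ∀ L' : Par,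
      ev (sg (Pi.single k 1) (bb L' (eU b))) =
        ev (sg (Pi.single k 1) (emb (eU b, 0))) + B L' := by
    intro k
    refine ⟨LinearMap.toContinuousLinearMap (ev ∘ₗ (sg (Pi.single k 1)) ∘ₗ emb ∘ₗ
      (LinearMap.inr ℂ Usp Csp) ∘ₗ (ap.flip (eU b))), fun L' => ?_⟩
    have h : bb L' (eU b) = emb (eU b, 0) + emb (0, ap L' (eU b)) := by
      rw [← map_add]
      simp [bb]
    rw [h, map_add, map_add]
    rfl
  choose B hB using hB
  obtain ⟨A, hA⟩ : ∃ A : Fin 5 → ℂ, ∀ k, A k = ev (sg (Pi.single k 1) (emb (eU b, 0))) :=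
    ⟨_, fun k => rfl⟩
  have hlin : ∀ (z : V5) (h : Bsp), ev (sg z h) = ∑ k : Fin 5, z k * ev (sg (Pi.single k 1) h) := by
    intro z h
    have hz : z = ∑ k, z k • (Pi.single k (1 : ℂ) : V5) := by
      ext i
      simp [Finset.sum_apply, Pi.single_apply]
    calc ev (sg z h) = (ev ∘ₗ (sg.flip h)) z := rfl
      _ = (ev ∘ₗ (sg.flip h)) (∑ k, z k • (Pi.single k (1 : ℂ) : V5)) := by rw [← hz]
      _ = ∑ k : Fin 5, z k * ev (sg (Pi.single k 1) h) := by
        rw [map_sum]
        refine Finset.sum_congr rfl fun k _ => ?_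
        rw [map_smul]
        rfl
  have hfun : ∀ p : V5 × Par, NM p.2 p.1 a b = ∑ k : Fin 5, p.1 k * (A k + B k p.2) := by
    intro p
    have h1 : NM p.2 p.1 a b = ev (sg p.1 (bb p.2 (eU b))) := (hev _).symm
    rw [h1, hlin]
    refine Finset.sum_congr rfl fun k _ => ?_
    rw [hB, hA]
  have hk : ∀ k : Fin 5, HasStrictFDerivAt (fun p : V5 × Par => p.1 k * (A k + B k p.2))
      (y k • ((B k).comp (ContinuousLinearMap.snd ℂ V5 Par)) + (A k + B k L) •
        ((ContinuousLinearMap.proj k : V5 →L[ℂ] ℂ).comp (ContinuousLinearMap.fst ℂ V5 Par)))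
      (y, L) := by
    intro k
    have h1 := (((ContinuousLinearMap.proj k : V5 →L[ℂ] ℂ).comp
      (ContinuousLinearMap.fst ℂ V5 Par)).hasStrictFDerivAt (x := (y, L)))
    have h2 := (((B k).comp (ContinuousLinearMap.snd ℂ V5 Par)).hasStrictFDerivAt
      (x := (y, L))).const_add (A k)
    exact h1.fun_mul h2
  refine ⟨_, (HasStrictFDerivAt.fun_sum (u := Finset.univ) fun k _ => hk k).congr_of_eventuallyEq
    (Filter.Eventually.of_forall fun p => (hfun p).symm), ?_⟩
  intro v
  rw [← hev (sg v (bb L (eU b))), hlin]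
  rw [ContinuousLinearMap.sum_apply]
  refine Finset.sum_congr rfl fun k _ => ?_
  rw [hB, ← hA]
  simp
  ring

private theorem core {L : Par} {y : V5} (r : Fin 9 → Fin 3 × Fin 4) (d : Fin 9 → Fin 2 × Fin 5)
    (hdet : ((NM L y).submatrix r d).det = 0)
    (h8 : ((NM L y).submatrix (fun k : Fin 8 => r k.castSucc) (fun k : Fin 8 => d k.castSucc)).det
      ≠ 0) {rho : Fin 9 → ℂ} (hr0 : rho ≠ 0) (hrho : ∀ b, ∑ i, rho i * NM L y (r i) b = 0) :
    ∃ (kap : Fin 9 → ℂ) (k : ℂ) (D : V5 × Par →L[ℂ] ℂ), kap 8 ≠ 0 ∧ k ≠ 0 ∧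
      (∀ i, ∑ j, NM L y (r i) (d j) * kap j = 0) ∧
      HasStrictFDerivAt (fun p : V5 × Par => ((NM p.2 p.1).submatrix r d).det) D (y, L) ∧
      ∀ v, D (v, 0) = k * ∑ i, rho i *
        (sg v (bb L (∑ j, kap j • eU (d j)))) (r i).1 (r i).2 := by
  obtain ⟨kap, hk0, hkap⟩ := Matrix.exists_mulVec_eq_zero_iff.2 hdet
  have hkap' : ∀ i, ∑ j, NM L y (r i) (d j) * kap j = 0 := fun i => congrFun hkap i
  have hlast : kap 8 ≠ 0 := by
    intro h0
    apply hk0
    have h1 : (fun k : Fin 8 => kap k.castSucc) = 0 := by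
      refine Matrix.eq_zero_of_mulVec_eq_zero h8 ?_
      funext i
      have h2 := hkap' i.castSucc
      rw [Fin.sum_univ_castSucc] at h2
      have h3 : kap (Fin.last 8) = 0 := h0
      rw [h3, mul_zero, add_zero] at h2
      exact h2
    funext k
    refine Fin.lastCases ?_ (fun k => ?_) k
    · exact h0
    · exact congrFun h1 k
  obtain ⟨c, hc0, hadj⟩ := adj_rank1 (M := (NM L y).submatrix r d) hdet h8
    (rho := rho) (kap := kap) (by
      funext j
      exact hrho (d j)) hkap hr0 hk0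
  choose M' hM1 hM2 using fun (i j : Fin 9) => entry_deriv L y (r i) (d j)
  refine ⟨kap, c, _, hlast, hc0, hkap', det_deriv (M := fun p : V5 × Par =>
    (NM p.2 p.1).submatrix r d) (M' := M') (z0 := (y, L)) (fun i j => hM1 i j), ?_⟩
  intro v
  rw [ContinuousLinearMap.sum_apply, Finset.mul_sum]
  refine Finset.sum_congr rfl fun i _ => ?_
  rw [ContinuousLinearMap.sum_apply]
  have h1 : (sg v (bb L (∑ j, kap j • eU (d j)))) (r i).1 (r i).2 =
      ∑ j, kap j * (sg v (bb L (eU (d j)))) (r i).1 (r i).2 := by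
    rw [map_sum, map_sum, Finset.sum_apply, Finset.sum_apply]
    refine Finset.sum_congr rfl fun j _ => ?_
    rw [map_smul, map_smul, Pi.smul_apply, Pi.smul_apply, smul_eq_mul]
  rw [h1, Finset.mul_sum, Finset.mul_sum]
  refine Finset.sum_congr rfl fun j _ => ?_
  have h2 : ((c * (kap j * rho i)) • M' i j) (v, 0) =
      (c * (kap j * rho i)) * M' i j (v, 0) := rfl
  have h3 := hadj i j
  change ((((NM L y).submatrix r d).adjugate j i) • M' i j) (v, 0) = _
  rw [h3, h2, hM2]
  ring

private theorem surjR {R : Fin 3 → Fin 3 × Fin 4} {y : V5} (hp : PivB y R) (g : Fin 3 → ℂ) :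
    ∃ h : Hsp, (∀ i k, (∀ n, R n ≠ (i, k)) → h i k = 0) ∧ BB y h = g := by
  obtain ⟨hRi, hp⟩ := hp
  obtain ⟨f, hf⟩ : ∃ f : (Fin 3 → ℂ) →ₗ[ℂ] Hsp, ∀ a, f a =
      ∑ n, a n • (Pi.single (R n).1 (Pi.single (R n).2 1) : Hsp) := by
    refine ⟨∑ n, (LinearMap.proj (R := ℂ) (φ := fun _ : Fin 3 => ℂ) n).smulRight
      (Pi.single (R n).1 (Pi.single (R n).2 1) : Hsp), fun a => ?_⟩
    simp [LinearMap.sum_apply]
  have hfv : ∀ a i k, f a i k = ∑ n, if R n = (i, k) then a n else 0 := by
    intro a i k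
    rw [hf, Finset.sum_apply, Finset.sum_apply]
    refine Finset.sum_congr rfl fun n _ => ?_
    rw [Pi.smul_apply, Pi.smul_apply, smul_eq_mul]
    by_cases h1 : R n = (i, k)
    · rw [if_pos h1, h1]
      simp
    · rw [if_neg h1]
      by_cases h2 : i = (R n).1
      · have h3 : k ≠ (R n).2 := by
          rintro rfl
          exact h1 (Prod.ext h2.symm rfl)
        subst h2
        simp [h3]
      · rw [Pi.single_eq_of_ne h2]
        simp
  have hsupp : ∀ a i k, (∀ n, R n ≠ (i, k)) → f a i k = 0 := by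
    intro a i k h
    rw [hfv]
    exact Finset.sum_eq_zero fun n _ => if_neg (h n)
  have hfi : ∀ a, f a = 0 → a = 0 := by
    intro a h
    funext m
    have h1 := hfv a (R m).1 (R m).2
    rw [h] at h1
    rw [Finset.sum_eq_single m] at h1
    · rw [if_pos rfl] at h1
      exact h1.symm
    · intro n _ hn
      exact if_neg fun h2 => hn (hRi h2)
    · intro h2
      exact absurd (Finset.mem_univ m) h2
  have hinj : Function.Injective (BB y ∘ₗ f) := by
    rw [← LinearMap.ker_eq_bot, LinearMap.ker_eq_bot']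
    intro a ha
    exact hfi a (hp (f a) (hsupp a) ha)
  obtain ⟨a, ha⟩ := (LinearMap.injective_iff_surjective.1 hinj) g
  exact ⟨f a, hsupp a, ha⟩

theorem minors_deriv {R : Fin 3 → Fin 3 × Fin 4} {r : Fin 9 → Fin 3 × Fin 4}
    {c : Fin 10 → Fin 2 × Fin 5} (hr : Function.Injective r) (hRr : ∀ n k, R n ≠ r k)
    (hc : Function.Injective c) {L : Par} {y : V5} (hy : y ≠ 0)
    (hk : finrank ℂ (LinearMap.ker (NN L y)) = 2) (ha : Adm R r c L y) :
    ∃ (xi : Hsp) (uA uB : Usp) (kA kB : ℂ) (DA DB : V5 × Par →L[ℂ] ℂ),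
      Valid L y (dp xi) ∧ LinearIndependent ℂ ![uA, uB] ∧ NN L y uA = 0 ∧ NN L y uB = 0 ∧
      kA ≠ 0 ∧ kB ≠ 0 ∧
      HasStrictFDerivAt (fun p : V5 × Par => ((NM p.2 p.1).submatrix r (cA c)).det) DA (y, L) ∧
      HasStrictFDerivAt (fun p : V5 × Par => ((NM p.2 p.1).submatrix r (cBB c)).det) DB (y, L) ∧
      (∀ v, DA (v, 0) = kA * dp xi (sg v (bb L uA))) ∧
      (∀ v, DB (v, 0) = kB * dp xi (sg v (bb L uB))) := by
  obtain ⟨hp, h8⟩ := ha
  have hX : y ∈ XX L := (mem_XX_iff L y).2 hk.ge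
  obtain ⟨hdA, hdB⟩ := minors_zero_of_mem r c hX
  have hall : ∀ a : Fin 3 × Fin 4, (∃ n, R n = a) ∨ ∃ k, r k = a := by
    have hinj : Function.Injective (Sum.elim R r) := hp.1.sumElim hr hRr
    have hbij : Function.Bijective (Sum.elim R r) := by
      rw [Fintype.bijective_iff_injective_and_card]
      exact ⟨hinj, by simp⟩
    intro a
    obtain ⟨s, hs⟩ := hbij.2 a
    rcases s with n | k
    · exact Or.inl ⟨n, hs⟩
    · exact Or.inr ⟨k, hs⟩
  have hcall : ∀ b : Fin 2 × Fin 5, ∃ k, c k = b := by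
    have hbij : Function.Bijective c := by
      rw [Fintype.bijective_iff_injective_and_card]
      exact ⟨hc, by simp⟩
    exact fun b => hbij.2 b
  have hker : ∀ u, (∀ k, NN L y u (r k).1 (r k).2 = 0) → NN L y u = 0 := by
    intro u hu
    refine hp.2 _ ?_ (bb_sg y _)
    intro i k h
    rcases hall (i, k) with ⟨n, hn⟩ | ⟨m, hm⟩
    · exact absurd hn (h n)
    · have := hu m
      rw [hm] at this
      exact this
  have h8A : ((NM L y).submatrix (fun k : Fin 8 => r k.castSucc)
      (fun k : Fin 8 => cA c k.castSucc)).det ≠ 0 := h8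
  have hcB : ∀ k : Fin 8, cBB c k.castSucc = c8 c k := by
    intro k
    unfold cBB c8
    rw [if_neg]
    intro h
    have h1 := congrArg Fin.val h
    have h2 := k.2
    simp at h1
    omega
  have h8B : ((NM L y).submatrix (fun k : Fin 8 => r k.castSucc)
      (fun k : Fin 8 => cBB c k.castSucc)).det ≠ 0 := by
    have h1 : (fun k : Fin 8 => cBB c k.castSucc) = c8 c := funext hcB
    rw [h1]
    exact h8
  -- the left kernel
  have hlast : ∀ ρ : Fin 9 → ℂ, (∀ k : Fin 8, ∑ i, ρ i * NM L y (r i) (c8 c k) = 0) →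
      ρ 8 = 0 → ρ = 0 := by
    intro ρ h h0
    have h1 : (fun k : Fin 8 => ρ k.castSucc) = 0 := by
      refine Matrix.eq_zero_of_vecMul_eq_zero h8 ?_
      funext k
      have h2 := h k
      rw [Fin.sum_univ_castSucc] at h2
      have h3 : ρ (Fin.last 8) = 0 := h0
      rw [h3, zero_mul, add_zero] at h2
      exact h2
    funext k
    refine Fin.lastCases ?_ (fun k => ?_) k
    · exact h0
    · exact congrFun h1 k
  obtain ⟨ρA, hA0, hA1⟩ := Matrix.exists_vecMul_eq_zero_iff.2 hdA
  obtain ⟨ρB, hB0, hB1⟩ := Matrix.exists_vecMul_eq_zero_iff.2 hdB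
  have hA2 : ∀ k : Fin 9, ∑ i, ρA i * NM L y (r i) (cA c k) = 0 := fun k => congrFun hA1 k
  have hB2 : ∀ k : Fin 9, ∑ i, ρB i * NM L y (r i) (cBB c k) = 0 := fun k => congrFun hB1 k
  have hA3 : ∀ k : Fin 8, ∑ i, ρA i * NM L y (r i) (c8 c k) = 0 := fun k => hA2 k.castSucc
  have hB3 : ∀ k : Fin 8, ∑ i, ρB i * NM L y (r i) (c8 c k) = 0 := fun k => by
    have := hB2 k.castSucc
    rw [hcB] at this
    exact this
  have hA4 : ρA 8 ≠ 0 := fun h => hA0 (hlast ρA hA3 h)
  have hB4 : ρB 8 ≠ 0 := fun h => hB0 (hlast ρB hB3 h)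
  have hAB : ∀ i, ρB 8 * ρA i = ρA 8 * ρB i := by
    have h := hlast (fun i => ρB 8 * ρA i - ρA 8 * ρB i) (by
      intro k
      have e1 : ∑ i, (ρB 8 * ρA i - ρA 8 * ρB i) * NM L y (r i) (c8 c k) =
          ρB 8 * ∑ i, ρA i * NM L y (r i) (c8 c k) -
            ρA 8 * ∑ i, ρB i * NM L y (r i) (c8 c k) := by
        rw [Finset.mul_sum, Finset.mul_sum, ← Finset.sum_sub_distrib]
        exact Finset.sum_congr rfl fun i _ => by ring
      rw [e1, hA3, hB3]
      ring) (by ring)
    intro i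
    have h1 := congrFun h i
    exact sub_eq_zero.1 h1
  have hrho : ∀ b, ∑ i, ρA i * NM L y (r i) b = 0 := by
    intro b
    obtain ⟨k, hk⟩ := hcall b
    rw [← hk]
    refine Fin.lastCases ?_ (fun k => ?_) k
    · have h1 := hB2 8
      have h2 : cBB c 8 = c (Fin.last 9) := by
        unfold cBB
        rw [if_pos rfl]
        rfl
      rw [h2] at h1
      have h3 : ρB 8 * ∑ i, ρA i * NM L y (r i) (c (Fin.last 9)) = 0 := by
        rw [Finset.mul_sum]
        calc ∑ i, ρB 8 * (ρA i * NM L y (r i) (c (Fin.last 9)))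
            = ∑ i, ρA 8 * (ρB i * NM L y (r i) (c (Fin.last 9))) :=
              Finset.sum_congr rfl fun i _ => by rw [← mul_assoc, hAB, mul_assoc]
          _ = 0 := by rw [← Finset.mul_sum, h1, mul_zero]
      exact (mul_eq_zero.1 h3).resolve_left hB4
    · exact hA2 k
  obtain ⟨kapA, kA, DA, hkA8, hkA0, hkA, hDA, hDA'⟩ := core r (cA c) hdA h8A hA0 hrho
  obtain ⟨kapB, kB, DB, hkB8, hkB0, hkB, hDB, hDB'⟩ := core r (cBB c) hdB h8B hA0 hrho
  obtain ⟨xi, hxi⟩ : ∃ xi : Hsp, ∀ h : Hsp, dp xi h = ∑ n, ρA n * h (r n).1 (r n).2 := by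
    refine ⟨fun i k => ∑ n, if r n = (i, k) then ρA n else 0, fun h => ?_⟩
    rw [dp_apply]
    calc ∑ i, ∑ k, (∑ n, if r n = (i, k) then ρA n else 0) * h i k
        = ∑ a : Fin 3 × Fin 4, (∑ n, if r n = a then ρA n else 0) * h a.1 a.2 := by
          rw [Fintype.sum_prod_type]
      _ = ∑ a : Fin 3 × Fin 4, ∑ n, if r n = a then ρA n * h a.1 a.2 else 0 := by
          refine Finset.sum_congr rfl fun a _ => ?_
          rw [Finset.sum_mul]
          exact Finset.sum_congr rfl fun n _ => by rw [ite_mul, zero_mul]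
      _ = ∑ n, ∑ a : Fin 3 × Fin 4, if r n = a then ρA n * h a.1 a.2 else 0 := Finset.sum_comm
      _ = ∑ n, ρA n * h (r n).1 (r n).2 := by
          refine Finset.sum_congr rfl fun n _ => ?_
          rw [Finset.sum_ite_eq]
          simp
  have hNN : ∀ (d : Fin 9 → Fin 2 × Fin 5) (kap : Fin 9 → ℂ),
      (∀ i, ∑ j, NM L y (r i) (d j) * kap j = 0) → NN L y (∑ j, kap j • eU (d j)) = 0 := by
    intro d kap h
    refine hker _ fun k => ?_
    rw [map_sum, Finset.sum_apply, Finset.sum_apply, ← h k]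
    refine Finset.sum_congr rfl fun j _ => ?_
    rw [map_smul, Pi.smul_apply, Pi.smul_apply, smul_eq_mul, mul_comm]
    rfl
  have heU : ∀ b b' : Fin 2 × Fin 5, eU b b'.1 b'.2 = if b' = b then 1 else 0 := by
    intro b b'
    unfold eU
    by_cases h1 : b' = b
    · rw [if_pos h1, h1]
      simp
    · rw [if_neg h1]
      by_cases h2 : b'.1 = b.1
      · have h3 : b'.2 ≠ b.2 := fun h3 => h1 (Prod.ext h2 h3)
        rw [h2]
        simp [h3]
      · rw [Pi.single_eq_of_ne h2]
        rfl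
  have hcoord : ∀ (d : Fin 9 → Fin 2 × Fin 5) (kap : Fin 9 → ℂ) (b : Fin 2 × Fin 5),
      (∑ j, kap j • eU (d j)) b.1 b.2 = ∑ j, if b = d j then kap j else 0 := by
    intro d kap b
    rw [Finset.sum_apply, Finset.sum_apply]
    refine Finset.sum_congr rfl fun j _ => ?_
    rw [Pi.smul_apply, Pi.smul_apply, smul_eq_mul, heU, mul_ite, mul_one, mul_zero]
  refine ⟨xi, ∑ j, kapA j • eU (cA c j), ∑ j, kapB j • eU (cBB c j), kA, kB, DA, DB, ⟨?_, ?_⟩, ?_,
    hNN _ _ hkA, hNN _ _ hkB, hkA0, hkB0, hDA, hDB, ?_, ?_⟩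
  · intro u
    rw [hxi, NN_sum]
    calc ∑ n, ρA n * (∑ b : Fin 2 × Fin 5, u b.1 b.2 • NN L y (eU b)) (r n).1 (r n).2
        = ∑ n, ∑ b : Fin 2 × Fin 5, u b.1 b.2 * (ρA n * NM L y (r n) b) := by
          refine Finset.sum_congr rfl fun n _ => ?_
          rw [Finset.sum_apply, Finset.sum_apply, Finset.mul_sum]
          refine Finset.sum_congr rfl fun b _ => ?_
          rw [Pi.smul_apply, Pi.smul_apply, smul_eq_mul]
          change ρA n * (u b.1 b.2 * NM L y (r n) b) = _
          ring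
      _ = ∑ b : Fin 2 × Fin 5, ∑ n, u b.1 b.2 * (ρA n * NM L y (r n) b) := Finset.sum_comm
      _ = 0 := by
          refine Finset.sum_eq_zero fun b _ => ?_
          rw [← Finset.mul_sum, hrho, mul_zero]
  · obtain ⟨h', hs, hh⟩ := surjR hp
      (-(BB y (Pi.single (r 8).1 (Pi.single (r 8).2 1) : Hsp)))
    refine ⟨(Pi.single (r 8).1 (Pi.single (r 8).2 1) : Hsp) + h', ?_, ?_⟩
    · rw [map_add, hh, add_neg_cancel]
    · rw [hxi]
      have h1 : ∀ n, ((Pi.single (r 8).1 (Pi.single (r 8).2 1) : Hsp) + h') (r n).1 (r n).2 =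
          if n = 8 then 1 else 0 := by
        intro n
        have h2 : h' (r n).1 (r n).2 = 0 := hs _ _ fun m => hRr m n
        rw [Pi.add_apply, Pi.add_apply, h2, add_zero]
        by_cases h3 : n = 8
        · rw [if_pos h3, h3]
          simp
        · rw [if_neg h3]
          by_cases h4 : (r n).1 = (r 8).1
          · have h5 : (r n).2 ≠ (r 8).2 := fun h5 => h3 (hr (Prod.ext h4 h5))
            rw [h4]
            simp [h5]
          · rw [Pi.single_eq_of_ne h4]
            rfl
      simp only [h1, mul_ite, mul_one, mul_zero, Finset.sum_ite_eq', Finset.mem_univ, if_true]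
      exact hA4
  · rw [LinearIndependent.pair_iff]
    intro s t hst
    have hcA8 : cA c 8 = c 8 := rfl
    have hcB8 : cBB c 8 = c 9 := by
      unfold cBB
      rw [if_pos rfl]
    have h1 := congrFun (congrFun hst (c 8).1) (c 8).2
    have h2 := congrFun (congrFun hst (c 9).1) (c 9).2
    rw [Pi.add_apply, Pi.add_apply, Pi.smul_apply, Pi.smul_apply, Pi.smul_apply, Pi.smul_apply,
      hcoord, hcoord] at h1 h2
    have e1 : ∑ j, (if c 8 = cA c j then kapA j else 0) = kapA 8 := by
      rw [Finset.sum_eq_single 8]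
      · rw [if_pos hcA8.symm]
      · intro j _ hj
        refine if_neg fun h => hj ?_
        have h3 := hc h
        apply Fin.ext
        have h4 := congrArg Fin.val h3
        simp at h4
        rw [← h4]
        rfl
      · intro h
        exact absurd (Finset.mem_univ _) h
    have e2 : ∑ j, (if c 8 = cBB c j then kapB j else 0) = 0 := by
      refine Finset.sum_eq_zero fun j _ => if_neg fun h => ?_
      unfold cBB at h
      split_ifs at h with h5
      · exact absurd (hc h) (by decide)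
      · have h3 := hc h
        apply h5
        apply Fin.ext
        have h4 := congrArg Fin.val h3
        simp at h4
        rw [← h4]
        rfl
    have e3 : ∑ j, (if c 9 = cA c j then kapA j else 0) = 0 := by
      refine Finset.sum_eq_zero fun j _ => if_neg fun h => ?_
      have h3 := hc h
      have h4 := congrArg Fin.val h3
      have h5 := j.2
      simp at h4
      omega
    have e4 : ∑ j, (if c 9 = cBB c j then kapB j else 0) = kapB 8 := by
      rw [Finset.sum_eq_single 8]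
      · rw [if_pos hcB8.symm]
      · intro j _ hj
        refine if_neg fun h => ?_
        unfold cBB at h
        rw [if_neg hj] at h
        have h3 := hc h
        have h4 := congrArg Fin.val h3
        have h5 := j.2
        simp at h4
        omega
      · intro h
        exact absurd (Finset.mem_univ _) h
    rw [e1, e2] at h1
    rw [e3, e4] at h2
    constructor
    · simpa [hkA8] using h1
    · simpa [hkB8] using h2
  · intro v
    rw [hDA', hxi]
  · intro v
    rw [hDB', hxi]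

end Pool.Agent.XP
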