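import Mathlib

/-!
MP_80e05d_ag: a smooth surface of degree 18 in P^4 with a (-1)-line.  DEFINITIONS (fixed).

Coordinates y = (w2, w3, w4, x0, x1) on C^5.  S^d = C^(d+1) = functions Fin (d+1) -> C
(divided powers), the operators D_m : S^(d+1) -> S^d commute.
-/

open MvPolynomial

noncomputable section

namespace Pool.Agent.XP

/-- C^5 -/
abbrev V5 := Fin 5 → ℂ
/-- the space of b = (phi_1, phi_2, phi_3; c), dimension 16 -/
abbrev Bsp := (Fin 3 → Fin 5 → ℂ) × ℂ
/-- the space of h = (h_1, h_2, h_3), dimension 12 -/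
abbrev Hsp := Fin 3 → Fin 4 → ℂ
/-- the space of u = (phi_1, phi_2), dimension 10 -/
abbrev Usp := Fin 2 → Fin 5 → ℂ
/-- the space of (phi_3, c), dimension 6 -/
abbrev Csp := (Fin 5 → ℂ) × ℂ
/-- parameters: linear maps Usp -> Csp, written by their values on the basis; dimension 60 -/
abbrev Par := Fin 2 → Fin 5 → Csp

/-- The operator `D_m : S^d → S^(d-1)`, `(D_m f)_i = m_0 f_(i+1) + m_1 f_i`; linear in `m` and `f`. -/
def DD (d : ℕ) : (Fin 2 → ℂ) →ₗ[ℂ] (Fin (d + 1) → ℂ) →ₗ[ℂ] (Fin d → ℂ) :=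
  LinearMap.mk₂ ℂ (fun m f i => m 0 * f i.succ + m 1 * f i.castSucc)
    (by intro m m' f; ext i; simp; ring)
    (by intro c m f; ext i; simp; ring)
    (by intro m f f'; ext i; simp; ring)
    (by intro c m f; ext i; simp; ring)

/-- the three vectors m_1 = (w2,w3), m_2 = (w3,w4), m_3 = (x0,x1) -/
def mv : V5 →ₗ[ℂ] (Fin 3 → Fin 2 → ℂ) where
  toFun y := ![![y 0, y 1], ![y 1, y 2], ![y 3, y 4]]
  map_add' := by
    intro y y'; ext i j; fin_cases i <;> fin_cases j <;> simp
  map_smul' := by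
    intro c y; ext i j; fin_cases i <;> fin_cases j <;> simp

/-- t omega, a vector of S^3 -/
def hsA (y : V5) : Fin 4 → ℂ := ![6 * y 0, -4 * y 1, 2 * y 2, 0]
/-- - s omega, a vector of S^3 -/
def hsB (y : V5) : Fin 4 → ℂ := ![0, -2 * y 0, 4 * y 1, -6 * y 2]

/-- the value sigma(y) b -/
def sgf (y : V5) (b : Bsp) : Hsp :=
  ![DD 4 (mv y 1) (b.1 2) - DD 4 (mv y 2) (b.1 1) + b.2 • hsA y,
    DD 4 (mv y 2) (b.1 0) - DD 4 (mv y 0) (b.1 2) + b.2 • hsB y,
    DD 4 (mv y 0) (b.1 1) - DD 4 (mv y 1) (b.1 0)]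

theorem DD_apply (d : ℕ) (m : Fin 2 → ℂ) (f : Fin (d + 1) → ℂ) (i : Fin d) :
    DD d m f i = m 0 * f i.succ + m 1 * f i.castSucc := rfl

theorem mv_zero (y : V5) : mv y 0 = ![y 0, y 1] := rfl
theorem mv_one (y : V5) : mv y 1 = ![y 1, y 2] := rfl
theorem mv_two (y : V5) : mv y 2 = ![y 3, y 4] := rfl

theorem sgf_zero (y : V5) (b : Bsp) :
    sgf y b 0 = DD 4 (mv y 1) (b.1 2) - DD 4 (mv y 2) (b.1 1) + b.2 • hsA y := rfl
theorem sgf_one (y : V5) (b : Bsp) :
    sgf y b 1 = DD 4 (mv y 2) (b.1 0) - DD 4 (mv y 0) (b.1 2) + b.2 • hsB y := rfl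
theorem sgf_two (y : V5) (b : Bsp) :
    sgf y b 2 = DD 4 (mv y 0) (b.1 1) - DD 4 (mv y 1) (b.1 0) := rfl

theorem hsA_add (y y' : V5) : hsA (y + y') = hsA y + hsA y' := by
  ext i; fin_cases i <;> simp [hsA] <;> ring
theorem hsA_smul (c : ℂ) (y : V5) : hsA (c • y) = c • hsA y := by
  ext i; fin_cases i <;> simp [hsA] <;> ring
theorem hsB_add (y y' : V5) : hsB (y + y') = hsB y + hsB y' := by
  ext i; fin_cases i <;> simp [hsB] <;> ring
theorem hsB_smul (c : ℂ) (y : V5) : hsB (c • y) = c • hsB y := by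
  ext i; fin_cases i <;> simp [hsB] <;> ring

/-- the bilinear map sigma(y) b -/
def sg : V5 →ₗ[ℂ] Bsp →ₗ[ℂ] Hsp :=
  LinearMap.mk₂ ℂ sgf
    (by
      intro y y' b; funext i
      fin_cases i
      · change sgf (y + y') b 0 = sgf y b 0 + sgf y' b 0
        simp only [sgf_zero, map_add, Pi.add_apply, LinearMap.add_apply, hsA_add, smul_add]; abel
      · change sgf (y + y') b 1 = sgf y b 1 + sgf y' b 1
        simp only [sgf_one, map_add, Pi.add_apply, LinearMap.add_apply, hsB_add, smul_add]; abel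
      · change sgf (y + y') b 2 = sgf y b 2 + sgf y' b 2
        simp only [sgf_two, map_add, Pi.add_apply, LinearMap.add_apply]; abel)
    (by
      intro c y b; funext i
      fin_cases i
      · change sgf (c • y) b 0 = c • sgf y b 0
        simp only [sgf_zero, map_smul, Pi.smul_apply, LinearMap.smul_apply, hsA_smul,
          smul_add, smul_sub, smul_comm c b.2]
      · change sgf (c • y) b 1 = c • sgf y b 1
        simp only [sgf_one, map_smul, Pi.smul_apply, LinearMap.smul_apply, hsB_smul,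
          smul_add, smul_sub, smul_comm c b.2]
      · change sgf (c • y) b 2 = c • sgf y b 2
        simp only [sgf_two, map_smul, Pi.smul_apply, LinearMap.smul_apply, smul_sub])
    (by
      intro y b b'; funext i
      fin_cases i
      · change sgf y (b + b') 0 = sgf y b 0 + sgf y b' 0
        simp only [sgf_zero, map_add, Pi.add_apply, Prod.fst_add, Prod.snd_add, add_smul]; abel
      · change sgf y (b + b') 1 = sgf y b 1 + sgf y b' 1
        simp only [sgf_one, map_add, Pi.add_apply, Prod.fst_add, Prod.snd_add, add_smul]; abel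
      · change sgf y (b + b') 2 = sgf y b 2 + sgf y b' 2
        simp only [sgf_two, map_add, Pi.add_apply, Prod.fst_add]; abel)
    (by
      intro c y b; funext i
      fin_cases i
      · change sgf y (c • b) 0 = c • sgf y b 0
        simp only [sgf_zero, map_smul, Pi.smul_apply, Prod.smul_fst, Prod.smul_snd,
          smul_add, smul_sub, smul_eq_mul, mul_smul]
      · change sgf y (c • b) 1 = c • sgf y b 1
        simp only [sgf_one, map_smul, Pi.smul_apply, Prod.smul_fst, Prod.smul_snd,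
          smul_add, smul_sub, smul_eq_mul, mul_smul]
      · change sgf y (c • b) 2 = c • sgf y b 2
        simp only [sgf_two, map_smul, Pi.smul_apply, Prod.smul_fst, smul_sub])

theorem sg_apply (y : V5) (b : Bsp) : sg y b = sgf y b := rfl

/-- the bilinear map B(y) h = sum_i D_(m_i(y)) h_i -/
def BB : V5 →ₗ[ℂ] Hsp →ₗ[ℂ] (Fin 3 → ℂ) :=
  LinearMap.mk₂ ℂ (fun y h => ∑ i, DD 3 (mv y i) (h i))
    (by
      intro y y' h
      simp only [map_add, Pi.add_apply, LinearMap.add_apply, Finset.sum_add_distrib])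
    (by
      intro c y h
      simp only [map_smul, Pi.smul_apply, LinearMap.smul_apply, Finset.smul_sum])
    (by
      intro y h h'
      simp only [map_add, Pi.add_apply, Finset.sum_add_distrib])
    (by
      intro c y h
      simp only [map_smul, Pi.smul_apply, Finset.smul_sum])

theorem BB_apply (y : V5) (h : Hsp) :
    BB y h = DD 3 (mv y 0) (h 0) + DD 3 (mv y 1) (h 1) + DD 3 (mv y 2) (h 2) := by
  change ∑ i, DD 3 (mv y i) (h i) = _
  rw [Fin.sum_univ_three]

/-- a parameter as a linear map -/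
def ap : Par →ₗ[ℂ] Usp →ₗ[ℂ] Csp :=
  LinearMap.mk₂ ℂ (fun L u => ∑ a, ∑ i, u a i • L a i)
    (by intro L L' u; simp only [Pi.add_apply, smul_add, Finset.sum_add_distrib])
    (by
      intro c L u
      simp only [Pi.smul_apply, Finset.smul_sum]
      exact Finset.sum_congr rfl fun a _ => Finset.sum_congr rfl fun i _ => smul_comm _ _ _)
    (by intro L u u'; simp only [Pi.add_apply, add_smul, Finset.sum_add_distrib])
    (by
      intro c L u
      simp only [Pi.smul_apply, smul_eq_mul, mul_smul, Finset.smul_sum])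

/-- (phi_1, phi_2) and (phi_3, c) together form an element of `Bsp` -/
def emb : Usp × Csp →ₗ[ℂ] Bsp where
  toFun p := (![p.1 0, p.1 1, p.2.1], p.2.2)
  map_add' := by
    intro p q; ext i j
    · fin_cases i <;> simp
    · simp
  map_smul' := by
    intro c p; ext i j
    · fin_cases i <;> simp
    · simp

theorem ap_apply (L : Par) (u : Usp) : ap L u = ∑ a, ∑ i, u a i • L a i := rfl

theorem emb_apply (u : Usp) (f : Fin 5 → ℂ) (c : ℂ) : emb (u, (f, c)) = (![u 0, u 1, f], c) := rfl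

/-- b = (u, Lambda u) -/
def bb (L : Par) : Usp →ₗ[ℂ] Bsp := emb ∘ₗ (LinearMap.prod LinearMap.id (ap L))

theorem bb_apply (L : Par) (u : Usp) : bb L u = (![u 0, u 1, (ap L u).1], (ap L u).2) := rfl

/-- the linear map N(y) = sigma(y) o (u -> (u, Lambda u)) : Usp -> Hsp -/
def NN (L : Par) (y : V5) : Usp →ₗ[ℂ] Hsp := sg y ∘ₗ bb L

theorem NN_apply (L : Par) (y : V5) (u : Usp) : NN L y u = sg y (bb L u) := rfl

/-- basis vectors of `Usp` -/
def eU (c : Fin 2 × Fin 5) : Usp := Pi.single c.1 (Pi.single c.2 1)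

/-- the 12 x 10 matrix of N(y) -/
def NM (L : Par) (y : V5) : Matrix (Fin 3 × Fin 4) (Fin 2 × Fin 5) ℂ :=
  fun r c => NN L y (eU c) r.1 r.2

/-- the degeneracy locus: all 9 x 9 minors vanish -/
def XX (L : Par) : Set V5 :=
  {y | ∀ (r : Fin 9 → Fin 3 × Fin 4) (c : Fin 9 → Fin 2 × Fin 5),
    ((NM L y).submatrix r c).det = 0}

/-- `xi` is a valid conormal functional at `y`: it kills the image of N(y), but not ker B(y) -/
def Valid (L : Par) (y : V5) (xi : Hsp →ₗ[ℂ] ℂ) : Prop :=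
  (∀ u, xi (NN L y u) = 0) ∧ ∃ h, BB y h = 0 ∧ xi h ≠ 0

/-- the good points: the kernel is at most two dimensional and the derivative is onto -/
def GoodAt (L : Par) (y : V5) : Prop :=
  Module.finrank ℂ (LinearMap.ker (NN L y)) ≤ 2 ∧
  ∀ u, NN L y u = 0 → u ≠ 0 → ∀ xi, Valid L y xi → ∃ v, xi (sg v (bb L u)) ≠ 0

/-- gradient of a polynomial -/
def grad (F : MvPolynomial (Fin 5) ℂ) (y : V5) : V5 := fun i => eval y (pderiv i F)

/-- smooth of codimension two at y, as a Zariski local complete intersection -/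
def SmoothAt (X : Set V5) (y : V5) : Prop :=
  ∃ F G h : MvPolynomial (Fin 5) ℂ, (∀ z ∈ X, eval z F = 0 ∧ eval z G = 0) ∧
    LinearIndependent ℂ ![grad F y, grad G y] ∧ eval y h ≠ 0 ∧
    ∀ z, eval z h ≠ 0 → eval z F = 0 → eval z G = 0 → z ∈ X

/-- X is the cone of a projective algebraic set -/
def IsCone (X : Set V5) : Prop :=
  ∃ S : Set (MvPolynomial (Fin 5) ℂ), (∀ F ∈ S, ∃ n, F.IsHomogeneous n) ∧
    X = {y | ∀ F ∈ S, eval y F = 0}

/-- X is irreducible -/
def Irred (X : Set V5) : Prop :=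
  ∀ f g : MvPolynomial (Fin 5) ℂ, (∀ y ∈ X, eval y (f * g) = 0) →
    (∀ y ∈ X, eval y f = 0) ∨ (∀ y ∈ X, eval y g = 0)

/-- some plane meets X in at least n isolated points -/
def DegGe (X : Set V5) (n : ℕ) : Prop :=
  ∃ j : Fin 3 → V5, LinearIndependent ℂ j ∧ ∃ P : Fin n → V5,
    (∀ i, P i ∈ X ∧ P i ∈ Submodule.span ℂ (Set.range j) ∧ P i ≠ 0) ∧
    (∀ i k, i ≠ k → ∀ c : ℂ, P i ≠ c • P k) ∧
    ∀ i, ∃ ε > 0, ∀ z ∈ X, z ∈ Submodule.span ℂ (Set.range j) → ‖z - P i‖ < ε →
      ∃ c : ℂ, z = c • P i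

/-- X contains a (-1)-line: the tangent spaces of X along the line spanned by p and q are
spanned by p, q and a nowhere vanishing quadratic c(s,t) modulo p, q; so the normal bundle of the
line is O(-1). -/
def HasMinusOneLine (X : Set V5) : Prop :=
  ∃ p q c0 c1 c2 : V5, LinearIndependent ℂ ![p, q] ∧ (∀ s t : ℂ, s • p + t • q ∈ X) ∧
    ∀ s t : ℂ, (s, t) ≠ (0, 0) →
      (s ^ 2 • c0 + (s * t) • c1 + t ^ 2 • c2 ∉ Submodule.span ℂ {p, q}) ∧
      ∀ f : MvPolynomial (Fin 5) ℂ, (∀ y ∈ X, eval y f = 0) →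
        ∑ i, grad f (s • p + t • q) i * (s ^ 2 • c0 + (s * t) • c1 + t ^ 2 • c2) i = 0

end Pool.Agent.XP
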