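import Pool.Agent.Work.MP_80e05d_ag.XP.FDefs

/-!
# Module F1 (size M-L): local parametrisation

`F`, `G` polynomials, `F(y) = G(y) = 0`, gradients at `y` independent.  There are a linear map `T`
and a holomorphic `φ` on a ball of `ℂ^3` parametrising the zero set of `F, G` near `y`.

PROOF.  The two linear forms `dF : v ↦ ∑ i, grad F y i * v i` and `dG` are independent; choose
`T : V5 → ℂ^3` linear such that `v ↦ (T v, dF v, dG v)` is injective (so bijective, dimension 5):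
e.g. `K = ker dF ∩ ker dG` has dimension 3 (`finrank`), take a linear equivalence `K ≃ ℂ^3` and
extend it to `V5` (`LinearMap.exists_extend` or a complement).
`Ψ(z) = (T (z - y), F z, G z)`, `V5 → (Fin 3 → ℂ) × ℂ × ℂ`, is `C^1` (polynomials: `MvPolynomial`
evaluation is `ContDiff`, e.g. by induction or `MvPolynomial.contDiff` if it exists), its
derivative at `y` is the linear equivalence `v ↦ (T v, dF v, dG v)` (derivative of a polynomial =
sum of the pderiv terms, by induction on the polynomial).  Inverse function theorem over `ℂ`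
(`ContDiffAt.toOpenPartialHomeomorph`, or `HasStrictFDerivAt.toOpenPartialHomeomorph`), which gives
a local inverse `Θ`, differentiable near `Ψ y = 0`; `φ t = Θ (t, 0, 0)`.
`‖φ t - y‖ ≤ C ‖t‖` on a small ball: `φ` is differentiable at 0 with `φ 0 = y`, so it is
`O(‖t‖)` near 0; shrink the ball.
(3): for `z` near `y` with `F z = G z = 0`: `Ψ z = (T (z - y), 0, 0)`, so `φ (T (z - y)) = Θ (Ψ z) = z`.
(4): for `v` with `dF v = dG v = 0`: `DΘ(0) = (DΨ(y))⁻¹`, so `Dφ(0)(T v) = (DΨ(y))⁻¹ (T v, 0, 0) = v`.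
-/

open MvPolynomial

namespace Pool.Agent.XP

private noncomputable def dL (F : MvPolynomial (Fin 5) ℂ) (y : V5) : V5 →L[ℂ] ℂ :=
  ∑ i, grad F y i • ContinuousLinearMap.proj (R := ℂ) (φ := fun _ : Fin 5 => ℂ) i

private theorem dL_apply (F : MvPolynomial (Fin 5) ℂ) (y v : V5) :
    dL F y v = ∑ i, grad F y i * v i := by
  simp [dL, ContinuousLinearMap.sum_apply]

private theorem hasStrict (F : MvPolynomial (Fin 5) ℂ) (y : V5) :
    HasStrictFDerivAt (fun z : V5 => eval z F) (dL F y) y := by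
  induction F using MvPolynomial.induction_on with
  | C a =>
    have h0 : dL (C a) y = 0 := by
      ext v
      simp [dL, grad]
    rw [h0]
    simpa using (hasStrictFDerivAt_const (𝕜 := ℂ) a y)
  | add p q hp hq =>
    have h0 : dL (p + q) y = dL p y + dL q y := by
      ext v
      simp only [dL_apply, ContinuousLinearMap.add_apply, grad, map_add, add_mul,
        Finset.sum_add_distrib]
    rw [h0]
    exact (hp.add hq).congr_of_eventuallyEq (Filter.Eventually.of_forall fun z => by simp)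
  | mul_X p i hp =>
    have h1 : HasStrictFDerivAt (fun z : V5 => z i)
        (ContinuousLinearMap.proj (R := ℂ) (φ := fun _ : Fin 5 => ℂ) i) y :=
      (ContinuousLinearMap.proj (R := ℂ) (φ := fun _ : Fin 5 => ℂ) i).hasStrictFDerivAt
    have h2 := hp.mul h1
    have h0 : dL (p * X i) y = (eval y p) • (ContinuousLinearMap.proj (R := ℂ)
        (φ := fun _ : Fin 5 => ℂ) i) + (y i) • dL p y := by
      ext v
      simp only [dL_apply, ContinuousLinearMap.add_apply, ContinuousLinearMap.smul_apply,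
        ContinuousLinearMap.proj_apply, grad, smul_eq_mul, Derivation.leibniz, pderiv_X, map_add,
        map_mul, eval_X, add_mul, Finset.sum_add_distrib]
      congr 1
      · rw [Finset.sum_eq_single i]
        · simp
        · intro j _ hj
          rw [Pi.single_eq_of_ne (by exact hj.symm)]
          simp
        · simp
      · rw [Finset.mul_sum]
        exact Finset.sum_congr rfl fun j _ => by ring
    rw [h0]
    have h3 : (fun z : V5 => eval z (p * X i)) = fun z : V5 => eval z p * z i := by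
      funext z
      simp
    rw [h3]
    exact h2

private theorem exT {a b : V5} (hli : LinearIndependent ℂ ![a, b]) :
    ∃ T : V5 →ₗ[ℂ] (Fin 3 → ℂ), ∀ v : V5, T v = 0 → ∑ i, a i * v i = 0 → ∑ i, b i * v i = 0 →
      v = 0 := by
  classical
  set M : Matrix (Fin 2) (Fin 5) ℂ := Matrix.of ![a, b] with hM
  have hrk : M.rank = 2 := by
    have h1 : LinearIndependent ℂ M.row := hli
    simpa using h1.rank_matrix
  set K : Submodule ℂ V5 := LinearMap.ker M.mulVecLin with hK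
  have hKd : Module.finrank ℂ K = 3 := by
    have h1 := LinearMap.finrank_range_add_finrank_ker M.mulVecLin
    have h2 : Module.finrank ℂ (LinearMap.range M.mulVecLin) = 2 := hrk
    have h3 : Module.finrank ℂ (Fin 5 → ℂ) = 5 := by simp
    have h4 : Module.finrank ℂ K = Module.finrank ℂ (LinearMap.ker M.mulVecLin) := rfl
    rw [h2, h3, ← h4] at h1
    clear_value K
    omega
  obtain ⟨K', hKK⟩ := Submodule.exists_isCompl K
  have hfd : Module.finrank ℂ K = Module.finrank ℂ (Fin 3 → ℂ) := by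
    rw [hKd]; simp
  let e : K ≃ₗ[ℂ] (Fin 3 → ℂ) := LinearEquiv.ofFinrankEq _ _ hfd
  refine ⟨e.toLinearMap ∘ₗ (K.projectionOnto K' hKK), ?_⟩
  intro v hv h1 h2
  have h3 : K.projectionOnto K' hKK v = 0 := by
    have : e (K.projectionOnto K' hKK v) = 0 := hv
    simpa using this
  have h4 : v ∈ K' := by
    rwa [← Submodule.projectionOnto_apply_eq_zero_iff hKK]
  have h5 : v ∈ K := by
    rw [hK, LinearMap.mem_ker, Matrix.mulVecLin_apply]
    ext j
    fin_cases j
    · simpa [hM, Matrix.mulVec, dotProduct] using h1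
    · simpa [hM, Matrix.mulVec, dotProduct] using h2
  have h6 : v ∈ K ⊓ K' := ⟨h5, h4⟩
  rw [hKK.inf_eq_bot] at h6
  simpa using h6

theorem local_param {F G : MvPolynomial (Fin 5) ℂ} {y : V5} (hF : eval y F = 0)
    (hG : eval y G = 0) (hli : LinearIndependent ℂ ![grad F y, grad G y]) :
    ∃ (T : V5 →ₗ[ℂ] (Fin 3 → ℂ)) (ε C : ℝ) (φ : (Fin 3 → ℂ) → V5), 0 < ε ∧ 0 ≤ C ∧
      DifferentiableOn ℂ φ (Metric.ball 0 ε) ∧ φ 0 = y ∧
      (∀ t ∈ Metric.ball (0 : Fin 3 → ℂ) ε, eval (φ t) F = 0 ∧ eval (φ t) G = 0 ∧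
        T (φ t - y) = t ∧ ‖φ t - y‖ ≤ C * ‖t‖) ∧
      (∃ δ : ℝ, 0 < δ ∧ ∀ z : V5, ‖z - y‖ < δ → eval z F = 0 → eval z G = 0 →
        T (z - y) ∈ Metric.ball (0 : Fin 3 → ℂ) ε ∧ φ (T (z - y)) = z) ∧
      (∀ v : V5, ∑ i, grad F y i * v i = 0 → ∑ i, grad G y i * v i = 0 →
        (fderiv ℂ φ 0) (T v) = v) ∧
      (∀ v : V5, T v = 0 → ∑ i, grad F y i * v i = 0 → ∑ i, grad G y i * v i = 0 → v = 0) := by
  obtain ⟨T, hT⟩ := exT hli
  let Tc : V5 →L[ℂ] (Fin 3 → ℂ) := LinearMap.toContinuousLinearMap T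
  let L₀ : V5 →ₗ[ℂ] (Fin 3 → ℂ) × ℂ × ℂ := T.prod ((dL F y).toLinearMap.prod (dL G y).toLinearMap)
  have hinj : Function.Injective L₀ := by
    rw [← LinearMap.ker_eq_bot, LinearMap.ker_eq_bot']
    intro v hv
    have h1 : T v = 0 := congrArg Prod.fst hv
    have h2 : dL F y v = 0 := congrArg (fun p => p.2.1) hv
    have h3 : dL G y v = 0 := congrArg (fun p => p.2.2) hv
    rw [dL_apply] at h2 h3
    exact hT v h1 h2 h3
  have hfr : Module.finrank ℂ V5 = Module.finrank ℂ ((Fin 3 → ℂ) × ℂ × ℂ) := by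
    simp
  let L₁ : V5 ≃ₗ[ℂ] (Fin 3 → ℂ) × ℂ × ℂ := LinearEquiv.ofInjectiveOfFinrankEq L₀ hinj hfr
  let L : V5 ≃L[ℂ] (Fin 3 → ℂ) × ℂ × ℂ := L₁.toContinuousLinearEquiv
  have hL : ∀ v, L v = (T v, dL F y v, dL G y v) := fun v => rfl
  let Ψ : V5 → (Fin 3 → ℂ) × ℂ × ℂ := fun z => (T (z - y), eval z F, eval z G)
  have hΨy : Ψ y = 0 := by
    simp only [Ψ, sub_self, map_zero, hF, hG]
    rfl
  have hΨd : HasStrictFDerivAt Ψ (L : V5 →L[ℂ] (Fin 3 → ℂ) × ℂ × ℂ) y := by
    have h1 : HasStrictFDerivAt (fun z : V5 => T (z - y)) Tc y := by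
      have := (Tc.hasStrictFDerivAt (x := y)).sub_const (Tc y)
      refine this.congr_of_eventuallyEq ?_
      refine Filter.Eventually.of_forall fun z => ?_
      show Tc z - Tc y = T (z - y)
      rw [map_sub]
      rfl
    have h2 := h1.prodMk ((hasStrict F y).prodMk (hasStrict G y))
    refine h2.congr_fderiv ?_
    ext v <;> rfl
  have hpol : ∀ P : MvPolynomial (Fin 5) ℂ, ContDiff ℂ 1 (fun z : V5 => eval z P) := fun P =>
    (AnalyticOnNhd.eval_mvPolynomial (𝕜 := ℂ) P).contDiff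
  have hΨc : ContDiffAt ℂ 1 Ψ y := by
    have h1 : ContDiff ℂ 1 (fun z : V5 => T (z - y)) := Tc.contDiff.comp (contDiff_id.sub contDiff_const)
    exact (h1.prodMk ((hpol F).prodMk (hpol G))).contDiffAt
  have hΨe : HasFDerivAt Ψ (L : V5 →L[ℂ] (Fin 3 → ℂ) × ℂ × ℂ) y := hΨd.hasFDerivAt
  let Θ := hΨc.localInverse hΨe one_ne_zero
  have hΘ : Θ = hΨd.localInverse Ψ L y := rfl
  have hΘc : ContDiffAt ℂ 1 Θ (Ψ y) := hΨc.to_localInverse hΨe one_ne_zero
  have hΘy : Θ (Ψ y) = y := hΨc.localInverse_apply_image hΨe one_ne_zero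
  have hΘd : HasStrictFDerivAt Θ (L.symm : (Fin 3 → ℂ) × ℂ × ℂ →L[ℂ] V5) (Ψ y) :=
    hΨd.to_localInverse
  have hr : ∀ᶠ w in nhds (Ψ y), Ψ (Θ w) = w := hΨd.eventually_right_inverse
  have hl : ∀ᶠ z in nhds y, Θ (Ψ z) = z := hΨd.eventually_left_inverse
  rw [hΨy] at hΘc hΘy hΘd hr
  let j : (Fin 3 → ℂ) →L[ℂ] (Fin 3 → ℂ) × ℂ × ℂ := ContinuousLinearMap.inl ℂ _ _
  have hj : ∀ t, j t = (t, 0, 0) := fun t => rfl
  have hj0 : j 0 = 0 := map_zero j
  let φ : (Fin 3 → ℂ) → V5 := fun t => Θ (j t)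
  have hφ0 : φ 0 = y := by
    show Θ (j 0) = y
    rw [hj0, hΘy]
  have hφd : HasFDerivAt φ ((L.symm : (Fin 3 → ℂ) × ℂ × ℂ →L[ℂ] V5).comp j) 0 := by
    have h1 : HasFDerivAt Θ (L.symm : (Fin 3 → ℂ) × ℂ × ℂ →L[ℂ] V5) (j 0) := by
      rw [hj0]; exact hΘd.hasFDerivAt
    exact h1.comp (0 : Fin 3 → ℂ) j.hasFDerivAt
  have hcj : Filter.Tendsto j (nhds 0) (nhds 0) := by
    have := j.continuous.tendsto 0
    rwa [hj0] at this
  have e1 : ∀ᶠ t in nhds (0 : Fin 3 → ℂ), Ψ (φ t) = j t := hcj.eventually hr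
  have e2 : ∀ᶠ t in nhds (0 : Fin 3 → ℂ), DifferentiableAt ℂ φ t := by
    have h1 : ∀ᶠ w in nhds (0 : (Fin 3 → ℂ) × ℂ × ℂ), ContDiffAt ℂ 1 Θ w :=
      hΘc.eventually (by simp)
    filter_upwards [hcj.eventually h1] with t ht
    exact (ht.differentiableAt one_ne_zero).comp t j.differentiableAt
  obtain ⟨C, hC0, hC⟩ := hφd.isBigO_sub.exists_nonneg
  have e3 : ∀ᶠ t in nhds (0 : Fin 3 → ℂ), ‖φ t - y‖ ≤ C * ‖t‖ := by
    filter_upwards [hC.bound] with t ht
    rwa [hφ0, sub_zero] at ht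
  obtain ⟨ε, hε, hball⟩ := Metric.eventually_nhds_iff_ball.1 (e1.and (e2.and e3))
  refine ⟨T, ε, C, φ, hε, hC0, ?_, hφ0, ?_, ?_, ?_, hT⟩
  · intro t ht
    exact (hball t ht).2.1.differentiableWithinAt
  · intro t ht
    have h1 := (hball t ht).1
    have h2 : T (φ t - y) = t := congrArg Prod.fst h1
    have h3 : eval (φ t) F = 0 := congrArg (fun p => p.2.1) h1
    have h4 : eval (φ t) G = 0 := congrArg (fun p => p.2.2) h1
    exact ⟨h3, h4, h2, (hball t ht).2.2⟩
  · have hTc : Filter.Tendsto (fun z : V5 => T (z - y)) (nhds y) (nhds 0) := by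
      have h1 : Continuous (fun z : V5 => Tc (z - y)) := Tc.continuous.comp (continuous_id.sub continuous_const)
      have h2 := h1.tendsto y
      simp only [sub_self, map_zero] at h2
      exact h2
    have e4 : ∀ᶠ z in nhds y, T (z - y) ∈ Metric.ball (0 : Fin 3 → ℂ) ε :=
      hTc.eventually (Metric.ball_mem_nhds 0 hε)
    obtain ⟨δ, hδ, hb⟩ := Metric.eventually_nhds_iff.1 (e4.and hl)
    refine ⟨δ, hδ, fun z hz hzF hzG => ?_⟩
    obtain ⟨h1, h2⟩ := hb (y := z) (by rwa [dist_eq_norm])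
    refine ⟨h1, ?_⟩
    have h3 : Ψ z = j (T (z - y)) := by
      simp only [Ψ, hj, hzF, hzG]
    show Θ (j (T (z - y))) = z
    rw [← h3, h2]
  · intro v hv1 hv2
    rw [hφd.fderiv]
    show L.symm (j (T v)) = v
    have h1 : L v = j (T v) := by
      rw [hL, dL_apply, dL_apply, hv1, hv2, hj]
    rw [← h1, ContinuousLinearEquiv.symm_apply_apply]

end Pool.Agent.XP
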