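import Mathlib

/-!
# Module F10 (size S): `choose (N + 5) 5` is eventually larger than `K (N + 1)^4`

PROOF.  `120 choose (N + 5) 5 = (N+1)(N+2)(N+3)(N+4)(N+5) ≥ (N+1)^5`
(`Nat.descFactorial_eq_factorial_mul_choose` or `Nat.succ_mul_choose_eq` five times); take
`N = 120 K`.
-/

namespace Pool.Agent.XP

theorem choose_gt (K : ℕ) : ∃ N : ℕ, K * (N + 1) ^ 4 < Nat.choose (N + 5) 5 := by
  refine ⟨120 * K, ?_⟩
  set N := 120 * K with hN
  have h1 : (N + 5).descFactorial 5 = Nat.factorial 5 * Nat.choose (N + 5) 5 :=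
    Nat.descFactorial_eq_factorial_mul_choose (N + 5) 5
  have h2 : (N + 5).descFactorial 5 = (N + 1) * ((N + 2) * ((N + 3) * ((N + 4) * (N + 5)))) := by
    simp [Nat.descFactorial]
  have h3 : Nat.factorial 5 = 120 := rfl
  rw [h2, h3] at h1
  have h4 : (N + 1) * (N + 1) ^ 4 ≤ (N + 1) * ((N + 2) * ((N + 3) * ((N + 4) * (N + 5)))) := by
    refine Nat.mul_le_mul_left _ ?_
    have e : (N + 1) ^ 4 = (N + 1) * ((N + 1) * ((N + 1) * (N + 1))) := by ring
    rw [e]
    gcongr <;> omega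
  have h5 : 120 * (K * (N + 1) ^ 4) < (N + 1) * (N + 1) ^ 4 := by
    have e : 120 * (K * (N + 1) ^ 4) = N * (N + 1) ^ 4 := by rw [hN]; ring
    rw [e]
    exact Nat.mul_lt_mul_of_pos_right (Nat.lt_succ_self N) (by positivity)
  omega

end Pool.Agent.XP
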