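import Pool.Agent.Work.MP_80e05d_ag.XP.FDefs

/-!
# Module F2a (size S-M): identity theorem on a ball of `ℂ^3`

PROOF.  Let `t` be in the ball.  `g λ = ψ (a + λ • (t - a))` is differentiable on the open convex
set `{λ : ℂ | a + λ • (t - a) ∈ ball 0 ε}` (preimage of a ball under an affine map; it contains 0
and 1) and vanishes for small `λ`; by the one variable identity theorem
(`AnalyticOnNhd.eqOn_zero_of_preconnected_of_eventuallyEq_zero`,
`DifferentiableOn.analyticOnNhd`) `g 1 = 0`.
-/

namespace Pool.Agent.XP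

theorem ball_identity {ψ : (Fin 3 → ℂ) → ℂ} {ε : ℝ}
    (hψ : DifferentiableOn ℂ ψ (Metric.ball 0 ε)) {a : Fin 3 → ℂ} (ha : a ∈ Metric.ball 0 ε)
    (h0 : ∀ᶠ t in nhds a, ψ t = 0) : ∀ t ∈ Metric.ball (0 : Fin 3 → ℂ) ε, ψ t = 0 := by
  intro t ht
  set L : ℂ → (Fin 3 → ℂ) := fun l ↦ a + l • (t - a) with hL
  have hLd : Differentiable ℂ L := by
    rw [hL]
    exact (differentiable_const a).add (differentiable_id.smul_const (t - a))
  set U : Set ℂ := L ⁻¹' Metric.ball 0 ε with hU
  have hUo : IsOpen U := Metric.isOpen_ball.preimage hLd.continuous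
  have hUc : Convex ℝ U := by
    intro x hx y hy p q hp hq hpq
    have h1 : L (p • x + q • y) = p • L x + q • L y := by
      simp only [hL]
      ext i
      simp only [Pi.add_apply, Pi.smul_apply, Pi.sub_apply, smul_eq_mul, Complex.real_smul]
      have h2 : (p : ℂ) + (q : ℂ) = 1 := by exact_mod_cast hpq
      linear_combination (-(a i)) * h2
    have h3 := (convex_ball (0 : Fin 3 → ℂ) ε) hx hy hp hq hpq
    rw [← h1] at h3
    exact h3
  have h0U : (0 : ℂ) ∈ U := by
    rw [hU, Set.mem_preimage]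
    simp only [hL, zero_smul, add_zero]
    exact ha
  have h1U : (1 : ℂ) ∈ U := by
    rw [hU, Set.mem_preimage]
    simp only [hL, one_smul, add_sub_cancel]
    exact ht
  have hg : DifferentiableOn ℂ (ψ ∘ L) U :=
    hψ.comp hLd.differentiableOn (fun x hx ↦ hx)
  have hga : AnalyticOnNhd ℂ (ψ ∘ L) U := hg.analyticOnNhd hUo
  have hev : (ψ ∘ L) =ᶠ[nhds (0 : ℂ)] 0 := by
    have h2 : Filter.Tendsto L (nhds 0) (nhds a) := by
      have h3 := hLd.continuous.tendsto 0
      have h4 : L 0 = a := by simp only [hL, zero_smul, add_zero]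
      rwa [h4] at h3
    exact h2.eventually h0
  have h5 := hga.eqOn_zero_of_preconnected_of_eventuallyEq_zero hUc.isPreconnected h0U hev h1U
  have h6 : L 1 = t := by simp only [hL, one_smul, add_sub_cancel]
  simpa [Function.comp, h6] using h5

end Pool.Agent.XP
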