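import Pool.Agent.Work.MP_80e05d_ag.XP.F1
import Pool.Agent.Work.MP_80e05d_ag.XP.F2a

/-!
# Module F2 (size M): local irreducibility

PROOF.  Data `F, G, h` of `SmoothAt X y`; `F(y) = G(y) = 0` since `y ∈ X`; `φ, T, ε` from
`local_param`.  Choose `0 < ε' ≤ ε` such that for `‖t‖ < ε'`: `h(φ t) ≠ 0` (continuity of `h` at
`y`, `‖φ t - y‖ ≤ C ‖t‖`), so `φ t ∈ X`, and `‖φ t - y‖` is less than the radius of
`ZeroNear X y (f * g)`.  So `f(φ t) g(φ t) = 0` on `ball 0 ε'`.  If `f(φ a) ≠ 0` for some `a` of this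
ball, then `f ∘ φ ≠ 0` near `a`, so `g ∘ φ = 0` near `a`, hence on `ball 0 ε'` by `ball_identity`;
then for `z ∈ X` near `y`: `T (z - y)` is small, `φ (T (z - y)) = z`, so `g z = 0`.  Otherwise
`f ∘ φ = 0` on `ball 0 ε'` and in the same way `f = 0` on `X` near `y`.
-/

open MvPolynomial

namespace Pool.Agent.XP

private theorem f2_diff (p : MvPolynomial (Fin 5) ℂ) :
    Differentiable ℂ (fun z : V5 => eval z p) := by
  induction p using MvPolynomial.induction_on with
  | C a =>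
    simp only [eval_C]
    exact differentiable_const a
  | add p q hp hq =>
    simp only [map_add]
    exact hp.add hq
  | mul_X p i hp =>
    simp only [map_mul, eval_X]
    exact hp.mul (differentiable_apply i)

theorem zeroNear_mul {X : Set V5} {y : V5} (hy : y ∈ X) (hs : SmoothAt X y)
    {f g : MvPolynomial (Fin 5) ℂ} (h : ZeroNear X y (f * g)) :
    ZeroNear X y f ∨ ZeroNear X y g := by
  obtain ⟨F, G, k, hz, hli, hk, hloc⟩ := hs
  obtain ⟨T, ε, C, φ, hε, hC, hφd, hφ0, h1, ⟨δ, hδ, h2⟩, -, -⟩ :=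
    local_param (hz y hy).1 (hz y hy).2 hli
  obtain ⟨ρ, hρ, hfg⟩ := h
  obtain ⟨η, hη, hkη⟩ : ∃ η : ℝ, 0 < η ∧ ∀ z : V5, ‖z - y‖ < η → eval z k ≠ 0 := by
    have hc : ContinuousAt (fun z : V5 => eval z k) y := (f2_diff k).continuous.continuousAt
    obtain ⟨η, hη, h3⟩ := Metric.eventually_nhds_iff.1 (hc.eventually_ne hk)
    exact ⟨η, hη, fun z hz => h3 (by rwa [dist_eq_norm])⟩
  set ε' : ℝ := min ε (min ρ η / (C + 1)) with hε'
  have hC1 : 0 < C + 1 := by linarith
  have hε'0 : 0 < ε' := lt_min hε (div_pos (lt_min hρ hη) hC1)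
  have hsub : Metric.ball (0 : Fin 3 → ℂ) ε' ⊆ Metric.ball 0 ε :=
    Metric.ball_subset_ball (min_le_left _ _)
  have hprod : ∀ t ∈ Metric.ball (0 : Fin 3 → ℂ) ε', eval (φ t) f * eval (φ t) g = 0 := by
    intro t ht
    have ht' : ‖t‖ < ε' := by simpa using ht
    have h3 : ‖t‖ < min ρ η / (C + 1) := lt_of_lt_of_le ht' (min_le_right _ _)
    rw [lt_div_iff₀ hC1] at h3
    obtain ⟨e1, e2, e3, e4⟩ := h1 t (hsub ht)
    have h4 : ‖φ t - y‖ < min ρ η := by
      refine lt_of_le_of_lt e4 (lt_of_le_of_lt ?_ h3)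
      nlinarith [norm_nonneg t]
    have h5 : φ t ∈ X := hloc _ (hkη _ (lt_of_lt_of_le h4 (min_le_right _ _))) e1 e2
    have h6 := hfg _ h5 (lt_of_lt_of_le h4 (min_le_left _ _))
    rwa [map_mul] at h6
  have hback : ∀ p : MvPolynomial (Fin 5) ℂ,
      (∀ t ∈ Metric.ball (0 : Fin 3 → ℂ) ε', eval (φ t) p = 0) → ZeroNear X y p := by
    intro p hp
    have hT : Continuous T := T.continuous_of_finiteDimensional
    have hT0 : ContinuousAt (fun z : V5 => T (z - y)) y :=
      (hT.comp (continuous_id.sub continuous_const)).continuousAt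
    have hT1 : ∀ᶠ z in nhds y, T (z - y) ∈ Metric.ball (0 : Fin 3 → ℂ) ε' := by
      apply hT0
      simp only [sub_self, map_zero]
      exact Metric.ball_mem_nhds _ hε'0
    obtain ⟨γ, hγ, h3⟩ := Metric.eventually_nhds_iff.1 hT1
    refine ⟨min δ γ, lt_min hδ hγ, fun z hzX hzn => ?_⟩
    have h4 := h2 z (lt_of_lt_of_le hzn (min_le_left _ _)) (hz z hzX).1 (hz z hzX).2
    have h5 : T (z - y) ∈ Metric.ball (0 : Fin 3 → ℂ) ε' :=
      h3 (by rw [dist_eq_norm]; exact lt_of_lt_of_le hzn (min_le_right _ _))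
    have h6 := hp _ h5
    rwa [h4.2] at h6
  have hdiff : ∀ p : MvPolynomial (Fin 5) ℂ,
      DifferentiableOn ℂ (fun t => eval (φ t) p) (Metric.ball (0 : Fin 3 → ℂ) ε') := fun p =>
    (f2_diff p).comp_differentiableOn (hφd.mono hsub)
  by_cases ha : ∃ a ∈ Metric.ball (0 : Fin 3 → ℂ) ε', eval (φ a) f ≠ 0
  · right
    obtain ⟨a, ha, hfa⟩ := ha
    apply hback
    refine ball_identity (hdiff g) ha ?_
    have hca : ContinuousAt (fun t => eval (φ t) f) a :=
      ((hdiff f).continuousOn).continuousAt (Metric.isOpen_ball.mem_nhds ha)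
    filter_upwards [hca.eventually_ne hfa, Metric.isOpen_ball.mem_nhds ha] with t ht1 ht2
    exact (mul_eq_zero.1 (hprod t ht2)).resolve_left ht1
  · left
    apply hback
    intro t ht
    by_contra hne
    exact ha ⟨t, ht, hne⟩

end Pool.Agent.XP
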