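import Pool.Agent.Work.MP_80e05d_ag.XP.FDefs

/-!
# Module F3a (size M-L): division

Hypothesis `hx` is the conclusion of `coord_mem` (module F3x).  For every `n` every polynomial is
`p(l_1, l_2, l_3) + j + r` with `p` of total degree `< n` (for `n = 0` take `p = 0`, `r = h`),
`j ∈ (F, G)`, `r ∈ m_y^n`.

PROOF.  `m_y` is generated by the `x_i = X i - C (y i)` (first lemma `mI_eq`).
Step (by induction on `n`): every `r ∈ m_y^n` is `q(l) + j + r'` with `q` homogeneous of degree `n`,
`j ∈ (F,G)`, `r' ∈ m_y^(n+1)`.  The set of `r` with this property is closed under addition; for `n = 0`: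
`r = C (r y) + (r - C (r y))`.  For `n + 1`: `m_y^(n+1) = m_y^n * m_y`
(`Submodule.mul_induction_on` / `Ideal.mul_mem_mul`, `Submodule.span_induction`): it is enough to
treat `s * (g * x_i)` with `s ∈ m_y^n`, `g` a polynomial; `s * g ∈ m_y^n` is `q(l) + j + r'`, and
`x_i = ∑ a_k l_k + j_1 + r_1`; in the product `(q(l) + j + r')(∑ a_k l_k + j_1 + r_1)` the part
`q(l) ∑ a_k l_k` is `(q * ∑ C a_k X_k)(l)`, the terms with `j` or `j_1` are in `(F, G)`, the rest
(`q(l) r_1`, `r' ∑ a_k l_k`, `r' r_1`) is in `m_y^(n+2)` since `l_k ∈ m_y` and `q(l) ∈ m_y^n` (`q`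
homogeneous of degree `n`; `aeval` of a homogeneous
polynomial of degree `n` at elements of `m_y` is in `m_y^n`, by writing `q` as a sum of monomials).
Then sum up over `n`: `h = p(l) + j + r`, `r ∈ m_y^n`, apply the step to `r`; the total degree of
`p + q` is `< n + 1`.
-/

open MvPolynomial

namespace Pool.Agent.XP

private theorem f3a_sub (y : V5) (f : MvPolynomial (Fin 5) ℂ) :
    f - C (eval y f) ∈
      Ideal.span (Set.range fun i : Fin 5 => (X i - C (y i) : MvPolynomial (Fin 5) ℂ)) := by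
  induction f using MvPolynomial.induction_on with
  | C a => simp
  | add p q hp hq =>
    have : p + q - C (eval y (p + q)) = (p - C (eval y p)) + (q - C (eval y q)) := by
      rw [map_add, map_add]
      ring
    rw [this]
    exact Ideal.add_mem _ hp hq
  | mul_X p i hp =>
    have : p * X i - C (eval y (p * X i)) = p * (X i - C (y i)) + C (y i) * (p - C (eval y p)) := by
      rw [map_mul, eval_X, map_mul]
      ring
    rw [this]
    exact Ideal.add_mem _ (Ideal.mul_mem_left _ _ (Ideal.subset_span ⟨i, rfl⟩))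
      (Ideal.mul_mem_left _ _ hp)

theorem mI_eq (y : V5) :
    mI y = Ideal.span (Set.range fun i : Fin 5 => (X i - C (y i) : MvPolynomial (Fin 5) ℂ)) := by
  apply le_antisymm
  · intro f hf
    have h1 := f3a_sub y f
    rw [mem_mI] at hf
    rw [hf, map_zero, sub_zero] at h1
    exact h1
  · rw [Ideal.span_le]
    rintro _ ⟨i, rfl⟩
    show _ ∈ mI y
    rw [mem_mI]
    simp

private theorem f3a_l (T : V5 →ₗ[ℂ] (Fin 3 → ℂ)) (y : V5) (k : Fin 3) : lp T y k ∈ mI y := by
  rw [mem_mI, eval_lp, sub_self, map_zero]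
  rfl

/-- the ideal of the origin in three variables -/
private noncomputable def f3K : Ideal (MvPolynomial (Fin 3) ℂ) := Ideal.span (Set.range fun k : Fin 3 => X k)

private theorem f3a_map (T : V5 →ₗ[ℂ] (Fin 3 → ℂ)) (y : V5) {n : ℕ} {q : MvPolynomial (Fin 3) ℂ}
    (hq : q ∈ f3K ^ n) : aeval (lp T y) q ∈ mI y ^ n := by
  have h1 : Ideal.map (aeval (lp T y) : MvPolynomial (Fin 3) ℂ →ₐ[ℂ] MvPolynomial (Fin 5) ℂ).toRingHom
      f3K ≤ mI y := by
    unfold f3K
    rw [Ideal.map_span, Ideal.span_le]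
    rintro _ ⟨_, ⟨k, rfl⟩, rfl⟩
    show _ ∈ mI y
    have : (aeval (lp T y) : MvPolynomial (Fin 3) ℂ →ₐ[ℂ] MvPolynomial (Fin 5) ℂ).toRingHom (X k) =
        lp T y k := by
      simp
    rw [this]
    exact f3a_l T y k
  have h2 := Ideal.mem_map_of_mem
    (aeval (lp T y) : MvPolynomial (Fin 3) ℂ →ₐ[ℂ] MvPolynomial (Fin 5) ℂ).toRingHom hq
  rw [Ideal.map_pow] at h2
  exact Ideal.pow_right_mono h1 n h2

private def F3P (J : Ideal (MvPolynomial (Fin 5) ℂ)) (y : V5) (T : V5 →ₗ[ℂ] (Fin 3 → ℂ)) (n : ℕ)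
    (r : MvPolynomial (Fin 5) ℂ) : Prop :=
  ∃ q ∈ f3K ^ n, q.totalDegree ≤ n ∧ ∃ j ∈ J, ∃ r' ∈ mI y ^ (n + 1), r = aeval (lp T y) q + j + r'

private theorem F3P.add {J : Ideal (MvPolynomial (Fin 5) ℂ)} {y : V5} {T : V5 →ₗ[ℂ] (Fin 3 → ℂ)}
    {n : ℕ} {r s : MvPolynomial (Fin 5) ℂ} (hr : F3P J y T n r) (hs : F3P J y T n s) :
    F3P J y T n (r + s) := by
  obtain ⟨q, hq, hd, j, hj, r', hr', e⟩ := hr
  obtain ⟨q2, hq2, hd2, j2, hj2, r2, hr2, e2⟩ := hs
  refine ⟨q + q2, Ideal.add_mem _ hq hq2, (totalDegree_add _ _).trans (max_le hd hd2), j + j2,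
    Ideal.add_mem _ hj hj2, r' + r2, Ideal.add_mem _ hr' hr2, ?_⟩
  rw [e, e2, map_add]
  ring

private theorem f3a_step {F G : MvPolynomial (Fin 5) ℂ} {y : V5} {T : V5 →ₗ[ℂ] (Fin 3 → ℂ)}
    (hx : ∀ i : Fin 5, ∃ a : Fin 3 → ℂ, ∃ j ∈ Ideal.span {F, G}, ∃ r ∈ mI y ^ 2,
      (X i - C (y i) : MvPolynomial (Fin 5) ℂ) = ∑ k, C (a k) * lp T y k + j + r) (n : ℕ) :
    ∀ r ∈ mI y ^ n, F3P (Ideal.span {F, G}) y T n r := by
  induction n with
  | zero =>
    intro r _
    refine ⟨C (eval y r), by rw [pow_zero, Ideal.one_eq_top]; exact Submodule.mem_top, by simp, 0,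
      Ideal.zero_mem _, r - C (eval y r), ?_, ?_⟩
    · rw [zero_add, pow_one, mem_mI]
      simp
    · rw [algHom_C, algebraMap_eq]
      ring
  | succ n ih =>
    have key : ∀ t ∈ mI y, ∀ s ∈ mI y ^ n, F3P (Ideal.span {F, G}) y T (n + 1) (s * t) := by
      intro t ht
      rw [mI_eq] at ht
      induction ht using Submodule.span_induction with
      | mem t ht =>
        obtain ⟨i, rfl⟩ := ht
        intro s hs
        obtain ⟨q, hq, hd, j, hj, r', hr', e⟩ := ih s hs
        obtain ⟨a, j1, hj1, r1, hr1, e1⟩ := hx i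
        set m : MvPolynomial (Fin 3) ℂ := ∑ k, C (a k) * X k with hm
        have hmK : m ∈ f3K := by
          rw [hm]
          exact Ideal.sum_mem _ (fun k _ => Ideal.mul_mem_left _ _ (Ideal.subset_span ⟨k, rfl⟩))
        have hmd : m.totalDegree ≤ 1 := by
          rw [hm]
          refine totalDegree_finsetSum_le (fun k _ => ?_)
          refine (totalDegree_mul _ _).trans ?_
          rw [totalDegree_C, zero_add]
          exact (totalDegree_X k).le
        have hmφ : aeval (lp T y) m = ∑ k, C (a k) * lp T y k := by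
          rw [hm, map_sum]
          refine Finset.sum_congr rfl (fun k _ => ?_)
          rw [map_mul, aeval_X, algHom_C, algebraMap_eq]
        rw [← hmφ] at e1
        have hφq : aeval (lp T y) q ∈ mI y ^ n := f3a_map T y hq
        have hφm : aeval (lp T y) m ∈ mI y := by
          have := f3a_map T y (n := 1) (q := m) (by rw [pow_one]; exact hmK)
          rwa [pow_one] at this
        have hr1' : r1 ∈ mI y := by
          have h2 : mI y ^ 2 ≤ mI y := Ideal.pow_le_self two_ne_zero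
          exact h2 hr1
        refine ⟨q * m, by rw [pow_succ]; exact Ideal.mul_mem_mul hq hmK,
          (totalDegree_mul _ _).trans (by omega),
          j * (aeval (lp T y) m + j1 + r1) + (aeval (lp T y) q + r') * j1, ?_,
          aeval (lp T y) q * r1 + r' * aeval (lp T y) m + r' * r1, ?_, ?_⟩
        · exact Ideal.add_mem _ (Ideal.mul_mem_right _ _ hj) (Ideal.mul_mem_left _ _ hj1)
        · refine Ideal.add_mem _ (Ideal.add_mem _ ?_ ?_) ?_
          · have : n + 1 + 1 = n + 2 := rfl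
            rw [this, pow_add]
            exact Ideal.mul_mem_mul hφq hr1
          · rw [pow_succ]
            exact Ideal.mul_mem_mul hr' hφm
          · rw [pow_succ]
            exact Ideal.mul_mem_mul hr' hr1'
        · show s * (X i - C (y i)) = _
          rw [e, e1, map_mul]
          ring
      | zero =>
        intro s _
        rw [mul_zero]
        exact ⟨0, Ideal.zero_mem _, by simp, 0, Ideal.zero_mem _, 0, Ideal.zero_mem _, by simp⟩
      | add t t' _ _ h1 h2 =>
        intro s hs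
        rw [mul_add]
        exact (h1 s hs).add (h2 s hs)
      | smul a t _ h1 =>
        intro s hs
        rw [smul_eq_mul, ← mul_assoc]
        exact h1 (s * a) (Ideal.mul_mem_right _ _ hs)
    intro r hr
    rw [pow_succ] at hr
    refine Submodule.mul_induction_on hr (fun s hs t ht => key t ht s hs) (fun a b ha hb => ha.add hb)

theorem division {F G : MvPolynomial (Fin 5) ℂ} {y : V5} {T : V5 →ₗ[ℂ] (Fin 3 → ℂ)}
    (hx : ∀ i : Fin 5, ∃ a : Fin 3 → ℂ, ∃ j ∈ Ideal.span {F, G}, ∃ r ∈ mI y ^ 2,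
      (X i - C (y i) : MvPolynomial (Fin 5) ℂ) = ∑ k, C (a k) * lp T y k + j + r)
    (n : ℕ) (h : MvPolynomial (Fin 5) ℂ) :
    ∃ p : MvPolynomial (Fin 3) ℂ, (p = 0 ∨ p.totalDegree < n) ∧ ∃ j ∈ Ideal.span {F, G},
      ∃ r ∈ mI y ^ n, h = aeval (lp T y) p + j + r := by
  induction n with
  | zero =>
    exact ⟨0, Or.inl rfl, 0, Ideal.zero_mem _, h, by rw [pow_zero, Ideal.one_eq_top]; exact Submodule.mem_top,
      by simp⟩
  | succ n ih =>
    obtain ⟨p, hp, j, hj, r, hr, e⟩ := ih
    obtain ⟨q, -, hd, j2, hj2, r2, hr2, e2⟩ := f3a_step hx n r hr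
    refine ⟨p + q, Or.inr ?_, j + j2, Ideal.add_mem _ hj hj2, r2, hr2, ?_⟩
    · refine lt_of_le_of_lt (totalDegree_add _ _) ?_
      rcases hp with rfl | hp
      · rw [totalDegree_zero]
        simp only [Nat.zero_max]
        omega
      · exact max_lt (by omega) (by omega)
    · rw [e, e2, map_add]
      ring

end Pool.Agent.XP
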