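import Mathlib

/-!
# Module F3b (size S-M): a polynomial of degree `< n` which is `O(‖t‖^n)` at 0 vanishes

PROOF.  Fix `t₀`; `q(λ) = p(λ t₀)` is a one variable polynomial (e.g.
`aeval (fun k => C (t₀ k) * X) p : Polynomial ℂ`) of degree `≤ totalDegree p < n` with
`|q(λ)| ≤ C' |λ|^n` for small `λ`, so `q = 0` (if `q ≠ 0` write `q = X^m * q₁`, `q₁(0) ≠ 0`,
`m ≤ natDegree q < n`; then `|q₁(λ)| ≤ C' |λ|^(n-m)` for small `λ ≠ 0`, so `q₁(0) = 0`).  Hence
`p(t₀) = q(1) = 0` for all `t₀` and `p = 0` (`MvPolynomial.funext`).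
-/

open MvPolynomial

namespace Pool.Agent.XP


private theorem poly_bound {q : Polynomial ℂ} {n : ℕ} (hn : q.natDegree < n) {δ K : ℝ}
    (hδ : 0 < δ) (h : ∀ l : ℂ, ‖l‖ < δ → ‖q.eval l‖ ≤ K * ‖l‖ ^ n) : q = 0 := by
  by_contra hq
  obtain ⟨r, hr, hnd⟩ := q.exists_eq_pow_rootMultiplicity_mul_and_not_dvd hq 0
  set m := q.rootMultiplicity 0 with hm
  rw [Polynomial.C_0, sub_zero] at hr hnd
  have hr0 : r.eval 0 ≠ 0 := by
    intro h0
    apply hnd
    rw [Polynomial.X_dvd_iff, Polynomial.coeff_zero_eq_eval_zero]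
    exact h0
  have hrne : r ≠ 0 := by
    rintro rfl
    simp at hr0
  have hmn : m < n := by
    have h1 : q.natDegree = m + r.natDegree := by
      conv_lhs => rw [hr]
      rw [Polynomial.natDegree_mul (pow_ne_zero _ Polynomial.X_ne_zero) hrne,
        Polynomial.natDegree_X_pow]
    omega
  -- the bound on `r`
  have hb : ∀ l : ℂ, l ≠ 0 → ‖l‖ < δ → ‖r.eval l‖ ≤ K * ‖l‖ ^ (n - m) := by
    intro l hl hld
    have h1 := h l hld
    rw [hr, Polynomial.eval_mul, Polynomial.eval_pow, Polynomial.eval_X, norm_mul, norm_pow] at h1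
    have hpos : 0 < ‖l‖ := norm_pos_iff.2 hl
    have h2 : ‖l‖ ^ n = ‖l‖ ^ m * ‖l‖ ^ (n - m) := by
      rw [← pow_add]
      congr 1
      omega
    rw [h2] at h1
    have hpm : 0 < ‖l‖ ^ m := pow_pos hpos m
    have h3 : ‖l‖ ^ m * ‖r.eval l‖ ≤ ‖l‖ ^ m * (K * ‖l‖ ^ (n - m)) := by
      calc _ ≤ _ := h1
        _ = _ := by ring
    exact le_of_mul_le_mul_left h3 hpm
  have ht1 : Filter.Tendsto (fun l : ℂ => ‖r.eval l‖) (nhdsWithin 0 {0}ᶜ) (nhds ‖r.eval 0‖) :=
    ((r.continuous.norm).tendsto 0).mono_left nhdsWithin_le_nhds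
  have ht2 : Filter.Tendsto (fun l : ℂ => K * ‖l‖ ^ (n - m)) (nhdsWithin 0 {0}ᶜ) (nhds 0) := by
    have : Filter.Tendsto (fun l : ℂ => K * ‖l‖ ^ (n - m)) (nhds 0) (nhds (K * ‖(0 : ℂ)‖ ^ (n - m))) :=
      ((continuous_norm.pow (n - m)).const_mul K).tendsto 0
    rw [norm_zero, zero_pow (by omega), mul_zero] at this
    exact this.mono_left nhdsWithin_le_nhds
  have hle : ‖r.eval 0‖ ≤ 0 := by
    refine le_of_tendsto_of_tendsto ht1 ht2 ?_
    have hball : ∀ᶠ l : ℂ in nhdsWithin 0 {0}ᶜ, ‖l‖ < δ := by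
      apply mem_nhdsWithin_of_mem_nhds
      have := Metric.ball_mem_nhds (0 : ℂ) hδ
      filter_upwards [this] with l hl
      simpa using hl
    filter_upwards [hball, self_mem_nhdsWithin] with l hl hl0
    exact hb l hl0 hl
  exact hr0 (norm_le_zero_iff.1 hle)

theorem eq_zero_of_bound {p : MvPolynomial (Fin 3) ℂ} {n : ℕ} (hp : p = 0 ∨ p.totalDegree < n)
    {ε K : ℝ} (hε : 0 < ε) (h : ∀ t : Fin 3 → ℂ, ‖t‖ < ε → ‖eval t p‖ ≤ K * ‖t‖ ^ n) :
    p = 0 := by
  rcases hp with hp | hp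
  · exact hp
  apply MvPolynomial.funext
  intro t₀
  rw [map_zero]
  set q : Polynomial ℂ := aeval (fun k : Fin 3 => Polynomial.C (t₀ k) * Polynomial.X) p with hq
  have hqe : ∀ l : ℂ, q.eval l = eval (l • t₀) p := by
    intro l
    have h1 : (Polynomial.evalRingHom l).comp
        (aeval (fun k : Fin 3 => Polynomial.C (t₀ k) * Polynomial.X) :
          MvPolynomial (Fin 3) ℂ →ₐ[ℂ] Polynomial ℂ).toRingHom = eval (l • t₀) := by
      apply MvPolynomial.ringHom_ext
      · intro a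
        change Polynomial.eval l (aeval (fun k : Fin 3 => Polynomial.C (t₀ k) * Polynomial.X) (C a)) =
          eval (l • t₀) (C a)
        rw [aeval_C, eval_C, Polynomial.algebraMap_eq, Polynomial.eval_C]
      · intro i
        change Polynomial.eval l (aeval (fun k : Fin 3 => Polynomial.C (t₀ k) * Polynomial.X) (X i)) =
          eval (l • t₀) (X i)
        rw [aeval_X, eval_X, Polynomial.eval_mul, Polynomial.eval_C, Polynomial.eval_X,
          Pi.smul_apply, smul_eq_mul, mul_comm]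
    exact RingHom.congr_fun h1 p
  have hdeg : q.natDegree < n := by
    refine lt_of_le_of_lt ?_ hp
    have := MvPolynomial.aeval_natDegree_le p le_rfl
      (fun k : Fin 3 => Polynomial.C (t₀ k) * Polynomial.X) (n := 1) (fun i =>
        (Polynomial.natDegree_C_mul_le _ _).trans Polynomial.natDegree_X_le)
    rwa [mul_one] at this
  have hM : (0 : ℝ) < ‖t₀‖ + 1 := by positivity
  have hq0 : q = 0 := by
    refine poly_bound (δ := ε / (‖t₀‖ + 1)) (K := K * ‖t₀‖ ^ n) hdeg (by positivity) ?_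
    intro l hl
    rw [hqe]
    have h1 : ‖l • t₀‖ < ε := by
      rw [norm_smul]
      calc ‖l‖ * ‖t₀‖ ≤ ‖l‖ * (‖t₀‖ + 1) := by
            apply mul_le_mul_of_nonneg_left _ (norm_nonneg _)
            linarith
        _ < ε / (‖t₀‖ + 1) * (‖t₀‖ + 1) := by
            apply mul_lt_mul_of_pos_right hl hM
        _ = ε := by field_simp
    have h2 := h _ h1
    rw [norm_smul, mul_pow] at h2
    calc _ ≤ _ := h2
      _ = _ := by ring
  have := hqe 1
  rw [hq0, one_smul] at this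
  simpa using this.symm

end Pool.Agent.XP
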