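import Pool.Agent.Work.MP_80e05d_ag.XP.FDefs

/-!
# Module F3c (size S-M): elements of `m_y^n` are `O(‖z - y‖^n)`

PROOF.  Induction on `n`.  `n = 0`: a polynomial is bounded on the compact set `‖z - y‖ ≤ 1`.
`n = 1`: `f(y) = 0`; a polynomial is Lipschitz on the compact convex ball (it is `C^1`), or:
`f = ∑ g_i x_i` with `x_i = X i - C (y i)`.  `n + 1`: `m_y^(n+1) = m_y^n * m_y`,
`Submodule.mul_induction_on`.
-/

open MvPolynomial

namespace Pool.Agent.XP


private theorem lip_poly (y : V5) (f : MvPolynomial (Fin 5) ℂ) :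
    ∃ K : ℝ, 0 ≤ K ∧ ∀ z : V5, ‖z - y‖ ≤ 1 → ‖eval z f - eval y f‖ ≤ K * ‖z - y‖ := by
  induction f using MvPolynomial.induction_on with
  | C a =>
    refine ⟨0, le_rfl, fun z _ => ?_⟩
    simp
  | add p q hp hq =>
    obtain ⟨K, hK, h⟩ := hp
    obtain ⟨L, hL, h'⟩ := hq
    refine ⟨K + L, by positivity, fun z hz => ?_⟩
    have h1 := h z hz
    have h2 := h' z hz
    calc ‖eval z (p + q) - eval y (p + q)‖ = ‖(eval z p - eval y p) + (eval z q - eval y q)‖ := by
          rw [map_add, map_add]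
          congr 1
          ring
      _ ≤ ‖eval z p - eval y p‖ + ‖eval z q - eval y q‖ := norm_add_le _ _
      _ ≤ K * ‖z - y‖ + L * ‖z - y‖ := add_le_add h1 h2
      _ = _ := by ring
  | mul_X p i hp =>
    obtain ⟨K, hK, h⟩ := hp
    refine ⟨K * (‖y i‖ + 1) + ‖eval y p‖, by positivity, fun z hz => ?_⟩
    have h1 := h z hz
    have h2 : ‖z i - y i‖ ≤ ‖z - y‖ := norm_le_pi_norm (z - y) i
    have h3 : ‖z i‖ ≤ ‖y i‖ + 1 := by
      calc ‖z i‖ = ‖y i + (z i - y i)‖ := by congr 1; ring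
        _ ≤ ‖y i‖ + ‖z i - y i‖ := norm_add_le _ _
        _ ≤ ‖y i‖ + 1 := by linarith
    calc ‖eval z (p * X i) - eval y (p * X i)‖
        = ‖(eval z p - eval y p) * z i + eval y p * (z i - y i)‖ := by
          rw [map_mul, map_mul, eval_X, eval_X]
          congr 1
          ring
      _ ≤ ‖(eval z p - eval y p) * z i‖ + ‖eval y p * (z i - y i)‖ := norm_add_le _ _
      _ = ‖eval z p - eval y p‖ * ‖z i‖ + ‖eval y p‖ * ‖z i - y i‖ := by
          rw [norm_mul, norm_mul]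
      _ ≤ (K * ‖z - y‖) * (‖y i‖ + 1) + ‖eval y p‖ * ‖z - y‖ := by
          gcongr
      _ = _ := by ring

theorem bound_of_mem {y : V5} {n : ℕ} {r : MvPolynomial (Fin 5) ℂ} (hr : r ∈ mI y ^ n) :
    ∃ K : ℝ, 0 ≤ K ∧ ∀ z : V5, ‖z - y‖ ≤ 1 → ‖eval z r‖ ≤ K * ‖z - y‖ ^ n := by
  induction n generalizing r with
  | zero =>
    obtain ⟨K, hK, h⟩ := lip_poly y r
    refine ⟨K + ‖eval y r‖, by positivity, fun z hz => ?_⟩
    have h1 := h z hz
    have h2 : K * ‖z - y‖ ≤ K := by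
      calc K * ‖z - y‖ ≤ K * 1 := by gcongr
        _ = K := mul_one K
    calc ‖eval z r‖ = ‖(eval z r - eval y r) + eval y r‖ := by congr 1; ring
      _ ≤ ‖eval z r - eval y r‖ + ‖eval y r‖ := norm_add_le _ _
      _ ≤ K + ‖eval y r‖ := by linarith
      _ = _ := by rw [pow_zero, mul_one]
  | succ n ih =>
    rw [pow_succ] at hr
    refine Submodule.mul_induction_on hr ?_ ?_
    · intro a ha b hb
      obtain ⟨K, hK, h⟩ := ih ha
      obtain ⟨L, hL, h'⟩ := lip_poly y b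
      rw [mem_mI] at hb
      refine ⟨K * L, by positivity, fun z hz => ?_⟩
      have h1 := h z hz
      have h2 := h' z hz
      rw [hb, sub_zero] at h2
      calc ‖eval z (a * b)‖ = ‖eval z a‖ * ‖eval z b‖ := by rw [map_mul, norm_mul]
        _ ≤ (K * ‖z - y‖ ^ n) * (L * ‖z - y‖) := by gcongr
        _ = _ := by ring
    · rintro a b ⟨K, hK, h⟩ ⟨L, hL, h'⟩
      refine ⟨K + L, by positivity, fun z hz => ?_⟩
      have h1 := h z hz
      have h2 := h' z hz
      calc ‖eval z (a + b)‖ ≤ ‖eval z a‖ + ‖eval z b‖ := by rw [map_add]; exact norm_add_le _ _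
        _ ≤ _ := add_le_add h1 h2
        _ = _ := by ring

end Pool.Agent.XP
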