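import Pool.Agent.Work.MP_80e05d_ag.XP.FDefs

/-!
# Module F3x (size M): the coordinates modulo `m_y^2`

`x_i = X i - C (y i)`.  Claim: `x_i = ∑_k a_k l_k + j + r` with `a_k ∈ ℂ`, `j ∈ (F, G)`,
`r ∈ m_y^2`.

PROOF.  The linear map `v ↦ (T v, dF v, dG v)`, `V5 → ℂ^3 × ℂ × ℂ`, is injective (hypothesis `hT`),
so every linear form factors through it: there are `a : Fin 3 → ℂ` and `b, c` with
`v i = ∑ k, a k * T v k + b * dF v + c * dG v` for all `v` (left inverse of an injective linear map,
`LinearMap.exists_leftInverse_of_injective`).  With `v = e_j` : `δ_ij = ∑ a_k T(e_j)_k + b ∂_j F(y) + c ∂_j G(y)`.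
Multiply by `x_j` and sum: `x_i = ∑ a_k l_k + b ∑_j ∂_j F(y) x_j + c ∑_j ∂_j G(y) x_j`.
Taylor (first part of the module, `taylor1`): `P - C (P y) - ∑_j C (∂_j P (y)) x_j ∈ m_y^2` for every
polynomial `P`, by induction on `P` (`MvPolynomial.induction_on`: constants, sums, multiplication
by a variable).  Apply it to `F` and `G`.
-/

open MvPolynomial

namespace Pool.Agent.XP


theorem taylor1 (y : V5) (P : MvPolynomial (Fin 5) ℂ) :
    P - C (eval y P) - ∑ j, C (grad P y j) * (X j - C (y j)) ∈ mI y ^ 2 := by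
  induction P using MvPolynomial.induction_on with
  | C a =>
    have : (C a : MvPolynomial (Fin 5) ℂ) - C (eval y (C a)) -
        ∑ j, C (grad (C a) y j) * (X j - C (y j)) = 0 := by
      simp [grad]
    rw [this]
    exact Ideal.zero_mem _
  | add p q hp hq =>
    have : (p + q) - C (eval y (p + q)) - ∑ j, C (grad (p + q) y j) * (X j - C (y j)) =
        (p - C (eval y p) - ∑ j, C (grad p y j) * (X j - C (y j))) +
        (q - C (eval y q) - ∑ j, C (grad q y j) * (X j - C (y j))) := by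
      have h1 : ∀ j, C (grad (p + q) y j) * (X j - C (y j)) =
          C (grad p y j) * (X j - C (y j)) + C (grad q y j) * (X j - C (y j)) := by
        intro j
        simp only [grad, map_add, add_mul]
      simp only [h1, Finset.sum_add_distrib, map_add]
      ring
    rw [this]
    exact Ideal.add_mem _ hp hq
  | mul_X p i hp =>
    have h1 : ∀ j, C (grad (p * X i) y j) * (X j - C (y j)) =
        C (y i) * (C (grad p y j) * (X j - C (y j))) +
          (if j = i then C (eval y p) * (X j - C (y j)) else 0) := by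
      intro j
      have h2 : grad (p * X i) y j = grad p y j * y i + eval y p * (if j = i then 1 else 0) := by
        simp only [grad, pderiv_mul, map_add, map_mul, eval_X]
        congr 2
        split_ifs with hji
        · subst hji
          rw [pderiv_X_self, map_one]
        · rw [pderiv_X_of_ne (Ne.symm hji), map_zero]
      rw [h2, map_add, map_mul, map_mul]
      split_ifs
      · simp only [map_one]
        ring
      · simp only [map_zero]
        ring
    have : (p * X i) - C (eval y (p * X i)) - ∑ j, C (grad (p * X i) y j) * (X j - C (y j)) =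
        (p - C (eval y p)) * (X i - C (y i)) +
        C (y i) * (p - C (eval y p) - ∑ j, C (grad p y j) * (X j - C (y j))) := by
      simp only [h1, Finset.sum_add_distrib, ← Finset.mul_sum, Finset.sum_ite_eq',
        Finset.mem_univ, if_true, map_mul, eval_X]
      ring
    rw [this]
    refine Ideal.add_mem _ ?_ (Ideal.mul_mem_left _ _ hp)
    rw [pow_two]
    refine Ideal.mul_mem_mul ?_ ?_
    · rw [mem_mI]
      simp
    · rw [mem_mI]
      simp

theorem coord_mem {F G : MvPolynomial (Fin 5) ℂ} {y : V5} (hF : eval y F = 0)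
    (hG : eval y G = 0) {T : V5 →ₗ[ℂ] (Fin 3 → ℂ)}
    (hT : ∀ v : V5, T v = 0 → ∑ i, grad F y i * v i = 0 → ∑ i, grad G y i * v i = 0 → v = 0)
    (i : Fin 5) :
    ∃ a : Fin 3 → ℂ, ∃ j ∈ Ideal.span {F, G}, ∃ r ∈ mI y ^ 2,
      (X i - C (y i) : MvPolynomial (Fin 5) ℂ) = ∑ k, C (a k) * lp T y k + j + r := by
  classical
  let dF : V5 →ₗ[ℂ] ℂ := ∑ i, (grad F y i) • LinearMap.proj i
  let dG : V5 →ₗ[ℂ] ℂ := ∑ i, (grad G y i) • LinearMap.proj i
  have hdF : ∀ v : V5, dF v = ∑ i, grad F y i * v i := by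
    intro v
    simp [dF, LinearMap.sum_apply]
  have hdG : ∀ v : V5, dG v = ∑ i, grad G y i * v i := by
    intro v
    simp [dG, LinearMap.sum_apply]
  let Φ : V5 →ₗ[ℂ] (Fin 3 → ℂ) × ℂ × ℂ := T.prod (dF.prod dG)
  have hker : LinearMap.ker Φ = ⊥ := by
    rw [LinearMap.ker_eq_bot']
    intro v hv
    have h1 : (T v, (dF v, dG v)) = (0 : (Fin 3 → ℂ) × ℂ × ℂ) := hv
    rw [Prod.ext_iff, Prod.ext_iff] at h1
    obtain ⟨h2, h3, h4⟩ := h1
    exact hT v h2 (by rw [← hdF]; exact h3) (by rw [← hdG]; exact h4)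
  obtain ⟨Λ, hΛ⟩ := Φ.exists_leftInverse_of_injective hker
  have hΛ' : ∀ v, Λ (T v, dF v, dG v) = v := fun v => LinearMap.congr_fun hΛ v
  obtain ⟨a, b, c, hexp⟩ : ∃ (a : Fin 3 → ℂ) (b c : ℂ), ∀ v : V5,
      v i = ∑ k, a k * T v k + b * dF v + c * dG v := by
    refine ⟨fun k => Λ (Pi.single k 1, 0, 0) i, Λ (0, 1, 0) i, Λ (0, 0, 1) i, fun v => ?_⟩
    have h1 : ((T v, dF v, dG v) : (Fin 3 → ℂ) × ℂ × ℂ) =
        ∑ k, (T v k) • ((Pi.single k (1 : ℂ), (0 : ℂ), (0 : ℂ)) : (Fin 3 → ℂ) × ℂ × ℂ) +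
        (dF v) • ((0, 1, 0) : (Fin 3 → ℂ) × ℂ × ℂ) + (dG v) • ((0, 0, 1) : (Fin 3 → ℂ) × ℂ × ℂ) := by
      refine Prod.ext ?_ (Prod.ext ?_ ?_)
      · ext k
        simp [Prod.fst_sum, Finset.sum_apply, Pi.single_apply]
      · simp [Prod.fst_sum, Prod.snd_sum]
      · simp [Prod.snd_sum]
    have h2 := congrFun (hΛ' v) i
    rw [h1, map_add, map_add, map_sum, map_smul, map_smul] at h2
    simp only [map_smul, Pi.add_apply, Finset.sum_apply, Pi.smul_apply, smul_eq_mul] at h2
    rw [← h2]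
    congr 1
    · congr 1
      · exact Finset.sum_congr rfl fun k _ => mul_comm _ _
      · exact mul_comm _ _
    · exact mul_comm _ _
  -- the coordinate
  have hx : ∀ j : Fin 5, (if j = i then (1 : ℂ) else 0) =
      ∑ k, a k * T (Pi.single j 1) k + b * grad F y j + c * grad G y j := by
    intro j
    have h1 := hexp (Pi.single j 1)
    rw [hdF, hdG] at h1
    simp only [Pi.single_apply, mul_ite, mul_one, mul_zero, Finset.sum_ite_eq', Finset.mem_univ,
      if_true] at h1
    rw [← h1]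
    simp only [eq_comm]
  obtain ⟨rF, hrF⟩ : ∃ rF, rF = F - C (eval y F) - ∑ j, C (grad F y j) * (X j - C (y j)) := ⟨_, rfl⟩
  obtain ⟨rG, hrG⟩ : ∃ rG, rG = G - C (eval y G) - ∑ j, C (grad G y j) * (X j - C (y j)) := ⟨_, rfl⟩
  have hrFm : rF ∈ mI y ^ 2 := hrF ▸ taylor1 y F
  have hrGm : rG ∈ mI y ^ 2 := hrG ▸ taylor1 y G
  refine ⟨a, C b * F + C c * G, ?_, -(C b * rF) - C c * rG, ?_, ?_⟩
  · refine Ideal.add_mem _ (Ideal.mul_mem_left _ _ ?_) (Ideal.mul_mem_left _ _ ?_)
    · exact Ideal.subset_span (by simp)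
    · exact Ideal.subset_span (by simp)
  · exact Ideal.sub_mem _ (neg_mem (Ideal.mul_mem_left _ _ hrFm)) (Ideal.mul_mem_left _ _ hrGm)
  · have e1 : (X i - C (y i) : MvPolynomial (Fin 5) ℂ) =
        ∑ j, C (if j = i then (1 : ℂ) else 0) * (X j - C (y j)) := by
      rw [Finset.sum_eq_single i]
      · simp
      · intro j _ hj
        simp [hj]
      · simp
    have e2 : ∑ j, C (if j = i then (1 : ℂ) else 0) * (X j - C (y j) : MvPolynomial (Fin 5) ℂ) =
        ∑ k, C (a k) * lp T y k + C b * (∑ j, C (grad F y j) * (X j - C (y j))) +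
          C c * (∑ j, C (grad G y j) * (X j - C (y j))) := by
      simp only [hx, lp, map_add, map_sum, map_mul, add_mul, Finset.sum_add_distrib,
        Finset.mul_sum, Finset.sum_mul, mul_assoc]
      congr 2
      exact Finset.sum_comm
    have e3 : ∑ j, C (grad F y j) * (X j - C (y j)) = F - rF := by
      rw [hrF, hF, map_zero]
      ring
    have e4 : ∑ j, C (grad G y j) * (X j - C (y j)) = G - rG := by
      rw [hrG, hG, map_zero]
      ring
    rw [e1, e2, e3, e4]
    ring

end Pool.Agent.XP
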