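import Pool.Agent.Work.MP_80e05d_ag.XP.F1
import Pool.Agent.Work.MP_80e05d_ag.XP.F3x
import Pool.Agent.Work.MP_80e05d_ag.XP.F3a
import Pool.Agent.Work.MP_80e05d_ag.XP.F3b
import Pool.Agent.Work.MP_80e05d_ag.XP.F3c

/-!
# Module F3 (size M): polynomials vanishing on `X` near `y` are in `(F, G) + m_y^n`

PROOF.  `φ, T, ε, C` from `local_param`; `hx` from `coord_mem`; `division` for `n` gives
`f = p(l) + j + r`.  For small `t` (as in module F2: `φ t ∈ X` because `h(φ t) ≠ 0`, and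
`‖φ t - y‖` smaller than the radius of `ZeroNear` and `≤ 1`) evaluate at `φ t`:
`0 = p(t) + 0 + r(φ t)`, since `eval (φ t) (aeval (lp T y) p) = eval (fun k => T (φ t - y) k) p
= eval t p` (`eval_lp`) and `j` vanishes at `φ t` (`j ∈ (F, G)`, `Ideal.mem_span_pair`).  So
`|p(t)| ≤ K ‖φ t - y‖^n ≤ K C^n ‖t‖^n`, and `p = 0` by `eq_zero_of_bound`.
-/

open MvPolynomial

namespace Pool.Agent.XP

private theorem eval_aeval_F3 (z : V5) (g : Fin 3 → MvPolynomial (Fin 5) ℂ)
    (q : MvPolynomial (Fin 3) ℂ) :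
    eval z (aeval g q) = eval (fun k => eval z (g k)) q := by
  induction q using MvPolynomial.induction_on with
  | C a => simp
  | add p q hp hq => rw [map_add, map_add, map_add, hp, hq]
  | mul_X p i hp => rw [map_mul, map_mul, map_mul, hp, aeval_X, eval_X]

theorem mem_sup_of_zeroNear {X : Set V5} {y : V5} (hy : y ∈ X) {F G h : MvPolynomial (Fin 5) ℂ}
    (hFG : ∀ z ∈ X, eval z F = 0 ∧ eval z G = 0)
    (hli : LinearIndependent ℂ ![grad F y, grad G y]) (hh : eval y h ≠ 0)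
    (hX : ∀ z, eval z h ≠ 0 → eval z F = 0 → eval z G = 0 → z ∈ X)
    {f : MvPolynomial (Fin 5) ℂ} (hf : ZeroNear X y f) (n : ℕ) :
    f ∈ Ideal.span {F, G} ⊔ mI y ^ n := by
  obtain ⟨hF, hG⟩ := hFG y hy
  obtain ⟨T, ε, C', φ, hε, hC, _, _, hφ, _, _, hinj⟩ := local_param hF hG hli
  have hx := coord_mem hF hG hinj
  obtain ⟨p, hp, j, hj, r, hr, he⟩ := division hx n f
  obtain ⟨K, hK0, hK⟩ := bound_of_mem hr
  obtain ⟨δ, hδ, hfz⟩ := hf
  have hcont : ContinuousAt (fun z : V5 => eval z h) y := (MvPolynomial.continuous_eval h).continuousAt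
  have hev : ∀ᶠ z in nhds y, eval z h ≠ 0 := hcont.eventually_ne hh
  obtain ⟨δ', hδ', hne⟩ := Metric.eventually_nhds_iff.mp hev
  set m : ℝ := min δ (min δ' 1) with hm
  have hmpos : 0 < m := lt_min hδ (lt_min hδ' one_pos)
  have hC1 : 0 < C' + 1 := by linarith
  set ε' : ℝ := min ε (m / (C' + 1)) with hε'def
  have hε' : 0 < ε' := lt_min hε (div_pos hmpos hC1)
  have key : ∀ t : Fin 3 → ℂ, ‖t‖ < ε' → ‖eval t p‖ ≤ (K * C' ^ n) * ‖t‖ ^ n := by
    intro t ht
    have htε : t ∈ Metric.ball (0 : Fin 3 → ℂ) ε := by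
      rw [mem_ball_zero_iff]
      exact lt_of_lt_of_le ht (min_le_left _ _)
    obtain ⟨h1, h2, h3, h4⟩ := hφ t htε
    have h5 : ‖φ t - y‖ < m := by
      have h6 : ‖t‖ < m / (C' + 1) := lt_of_lt_of_le ht (min_le_right _ _)
      rw [lt_div_iff₀ hC1] at h6
      calc ‖φ t - y‖ ≤ C' * ‖t‖ := h4
        _ ≤ ‖t‖ * (C' + 1) := by nlinarith [norm_nonneg t]
        _ < m := h6
    have h7 : ‖φ t - y‖ < δ := lt_of_lt_of_le h5 (min_le_left _ _)
    have h8 : ‖φ t - y‖ < δ' :=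
      lt_of_lt_of_le h5 ((min_le_right _ _).trans (min_le_left _ _))
    have h9 : ‖φ t - y‖ ≤ 1 :=
      (lt_of_lt_of_le h5 ((min_le_right _ _).trans (min_le_right _ _))).le
    have h10 : eval (φ t) h ≠ 0 := by
      apply hne
      rw [dist_eq_norm]
      exact h8
    have h11 : eval (φ t) f = 0 := hfz _ (hX _ h10 h1 h2) h7
    have h12 : eval (φ t) j = 0 := by
      obtain ⟨a, b, hab⟩ := Ideal.mem_span_pair.mp hj
      rw [← hab, map_add, map_mul, map_mul, h1, h2, mul_zero, mul_zero, add_zero]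
    have h13 : eval (φ t) (aeval (lp T y) p) = eval t p := by
      rw [eval_aeval_F3]
      have : (fun k => eval (φ t) (lp T y k)) = t := by
        funext k
        rw [eval_lp, h3]
      rw [this]
    have h14 : eval t p = - eval (φ t) r := by
      have h15 := congrArg (eval (φ t)) he
      rw [map_add, map_add, h11, h12, h13, add_zero] at h15
      exact eq_neg_of_add_eq_zero_left h15.symm
    rw [h14, norm_neg]
    calc ‖eval (φ t) r‖ ≤ K * ‖φ t - y‖ ^ n := hK _ h9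
      _ ≤ K * (C' * ‖t‖) ^ n :=
        mul_le_mul_of_nonneg_left (pow_le_pow_left₀ (norm_nonneg _) h4 n) hK0
      _ = (K * C' ^ n) * ‖t‖ ^ n := by rw [mul_pow]; ring
  have hp0 : p = 0 := eq_zero_of_bound hp hε' key
  rw [he, hp0, map_zero, zero_add]
  exact Submodule.add_mem_sup hj hr

end Pool.Agent.XP
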