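import Pool.Agent.Work.MP_80e05d_ag.XP.F3

/-!
# Module F4 (size M): from near `y` to a Zariski neighbourhood

PROOF.  Data `F, G, h` of `SmoothAt X y`, `J = span {F, G}`.  By `mem_sup_of_zeroNear`
`f ∈ J ⊔ m_y^n` for all `n`.  In the Noetherian ring `R = MvPolynomial (Fin 5) ℂ ⧸ J` with the ideal
`I = (mI y).map (Ideal.Quotient.mk J)` the class of `f` is in `⨅ n, I ^ n`; the Krull intersection
theorem (`Ideal.iInf_pow_smul_eq_bot_of_...`, `Ideal.mem_iInf_smul_pow_eq_bot_iff`: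
`x ∈ ⨅ i, I ^ i • ⊤ ↔ ∃ r : I, r • x = x`) gives `r ∈ m_y` with `(1 - r) f ∈ J`.  `s = 1 - r`:
`s(y) = 1 ≠ 0` and `s f ∈ J` vanishes on `X`.
-/

open MvPolynomial

namespace Pool.Agent.XP

theorem exists_unit_mul {X : Set V5} {y : V5} (hy : y ∈ X) (hs : SmoothAt X y)
    {f : MvPolynomial (Fin 5) ℂ} (hf : ZeroNear X y f) :
    ∃ s : MvPolynomial (Fin 5) ℂ, eval y s ≠ 0 ∧ s * f ∈ idl X := by
  obtain ⟨F, G, h, hFG, hli, hh, hX⟩ := hs
  obtain ⟨J, hJ⟩ : ∃ J : Ideal (MvPolynomial (Fin 5) ℂ), J = Ideal.span {F, G} := ⟨_, rfl⟩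
  have hJX : J ≤ idl X := by
    rw [hJ, Ideal.span_le]
    intro a ha
    rcases ha with ha | ha
    · rw [ha]
      exact fun z hz => (hFG z hz).1
    · rw [Set.mem_singleton_iff] at ha
      rw [ha]
      exact fun z hz => (hFG z hz).2
  have h1 : ∀ n, f ∈ J ⊔ mI y ^ n := by
    intro n
    rw [hJ]
    exact mem_sup_of_zeroNear hy hFG hli hh hX hf n
  have h2 : ∀ n, Ideal.Quotient.mk J f ∈ ((mI y).map (Ideal.Quotient.mk J)) ^ n := by
    intro n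
    have h3 := Ideal.mem_map_of_mem (Ideal.Quotient.mk J) (h1 n)
    rw [Ideal.map_sup, Ideal.map_quotient_self, bot_sup_eq, Ideal.map_pow] at h3
    exact h3
  have h4 : Ideal.Quotient.mk J f ∈ (⨅ i : ℕ, ((mI y).map (Ideal.Quotient.mk J)) ^ i •
      (⊤ : Submodule (MvPolynomial (Fin 5) ℂ ⧸ J) (MvPolynomial (Fin 5) ℂ ⧸ J))) := by
    rw [Submodule.mem_iInf]
    intro i
    rw [Ideal.smul_eq_mul, Ideal.mul_top]
    exact h2 i
  obtain ⟨⟨r, hr⟩, hrx⟩ := (Ideal.mem_iInf_smul_pow_eq_bot_iff _ _).1 h4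
  obtain ⟨r0, hr0, hr1⟩ :=
    (Ideal.mem_map_iff_of_surjective _ Ideal.Quotient.mk_surjective).1 hr
  have h5 : r0 * f - f ∈ J := by
    rw [← Ideal.Quotient.eq, map_mul, hr1]
    exact hrx
  refine ⟨1 - r0, ?_, ?_⟩
  · rw [map_sub, map_one, mem_mI.1 hr0, sub_zero]
    exact one_ne_zero
  · apply hJX
    have : (1 - r0) * f = -(r0 * f - f) := by ring
    rw [this]
    exact J.neg_mem h5

end Pool.Agent.XP
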