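import Pool.Agent.Work.MP_80e05d_ag.XP.FDefs2

/-!
# Module F5b (size M): the two parts are zero sets and closed under scalars

PROOF.  Zero sets: by definition (`IsZ`), `S = {h | h * f₀ ∈ idl X}` etc.
Scaling by `c ≠ 0`, part A: let `y ∈ colA`, `h * f₀ ∈ idl X`; `h_c(z) = h(c z)`
(e.g. `aeval (fun i => C c * X i) h`, `eval z h_c = eval (c • z) h`).  For `z ∈ X`, `c • z ∈ X` and
`0 = h(c z) f₀(c z) = c^a h(c z) f₀(z)`, so `h_c * f₀ ∈ idl X` and `0 = h_c(y) = h(c y)`.
Part B: `s` with `s h ∈ I` for all `h ∈ (I : f₀)`; then `s_c` has the same property: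
for `h ∈ (I : f₀)` also `h_(1/c) ∈ (I : f₀)`, so `s * h_(1/c) ∈ I`, and at the point `c • z`,
`z ∈ X`, this is `s(c z) h(z) = 0`.
`c = 0`: `h(c y) = 0` for all `c ≠ 0`, and `c ↦ h(c y)` is continuous (or a polynomial), so
`h(0) = 0`.
-/

open MvPolynomial

namespace Pool.Agent.XP

private noncomputable def scl (c : ℂ) (h : MvPolynomial (Fin 5) ℂ) : MvPolynomial (Fin 5) ℂ :=
  aeval (fun i => C c * MvPolynomial.X i) h

private theorem eval_scl (c : ℂ) (h : MvPolynomial (Fin 5) ℂ) (z : V5) :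
    eval z (scl c h) = eval (c • z) h := by
  induction h using MvPolynomial.induction_on with
  | C a => simp [scl]
  | add p q hp hq =>
    have h1 : scl c (p + q) = scl c p + scl c q := map_add _ _ _
    rw [h1, map_add, map_add, hp, hq]
  | mul_X p i hp =>
    have h1 : scl c (p * MvPolynomial.X i) = scl c p * (C c * MvPolynomial.X i) := by
      simp only [scl, map_mul, aeval_X]
    rw [h1, map_mul, map_mul, hp]
    simp

private theorem eval_smul_hom {f : MvPolynomial (Fin 5) ℂ} {a : ℕ} (hf : f.IsHomogeneous a)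
    (c : ℂ) (z : V5) : eval (c • z) f = c ^ a * eval z f := by
  rw [eval_eq, eval_eq, Finset.mul_sum]
  refine Finset.sum_congr rfl fun d hd => ?_
  have h1 : ∑ i, d i = a := by
    have := hf (mem_support_iff.1 hd)
    rw [Finsupp.weight_apply, Finsupp.sum_fintype] at this
    · simpa using this
    · intro i; simp
  have h2 : ∏ i ∈ d.support, (c • z) i ^ d i = c ^ a * ∏ i ∈ d.support, z i ^ d i := by
    simp only [Pi.smul_apply, smul_eq_mul, mul_pow, Finset.prod_mul_distrib]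
    congr 1
    rw [Finset.prod_pow_eq_pow_sum, ← h1]
    congr 1
    exact Finset.sum_subset (Finset.subset_univ _) fun i _ hi => by simpa using hi
  rw [h2]
  ring

private theorem conic_of_scl {P : MvPolynomial (Fin 5) ℂ → Prop}
    (hP : ∀ c : ℂ, c ≠ 0 → ∀ h, P h → P (scl c h)) :
    Conic {y : V5 | ∀ h : MvPolynomial (Fin 5) ℂ, P h → eval y h = 0} := by
  intro c y hy h hh
  have key : ∀ c : ℂ, c ≠ 0 → eval (c • y) h = 0 := by
    intro c hc
    rw [← eval_scl]
    exact hy _ (hP c hc h hh)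
  by_cases hc : c = 0
  · have h1 : Continuous fun c : ℂ => eval (c • y) h :=
      (MvPolynomial.continuous_eval h).comp (continuous_id.smul continuous_const)
    have h2 : (fun c : ℂ => eval (c • y) h) = fun _ => 0 :=
      Continuous.ext_on (dense_compl_singleton (0 : ℂ)) h1 continuous_const fun c hc => key c hc
    exact congrFun h2 c
  · exact key c hc

private theorem scl_col {X : Set V5} (hc : Conic X) {f₀ : MvPolynomial (Fin 5) ℂ} {a : ℕ}
    (hf : f₀.IsHomogeneous a) {c : ℂ} (h0 : c ≠ 0) {h : MvPolynomial (Fin 5) ℂ}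
    (hh : h * f₀ ∈ idl X) : scl c h * f₀ ∈ idl X := by
  intro z hz
  have h1 := hh (c • z) (hc c z hz)
  rw [map_mul, eval_smul_hom hf] at h1
  rw [map_mul, eval_scl]
  have h2 : c ^ a ≠ 0 := pow_ne_zero _ h0
  rcases mul_eq_zero.1 h1 with h3 | h3
  · rw [h3, zero_mul]
  · rcases mul_eq_zero.1 h3 with h4 | h4
    · exact absurd h4 h2
    · rw [h4, mul_zero]

theorem isZ_colA (X : Set V5) (f₀ : MvPolynomial (Fin 5) ℂ) : IsZ (colA X f₀) :=
  ⟨{h | h * f₀ ∈ idl X}, rfl⟩

theorem isZ_colB (X : Set V5) (f₀ : MvPolynomial (Fin 5) ℂ) : IsZ (colB X f₀) :=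
  ⟨{s | ∀ h : MvPolynomial (Fin 5) ℂ, h * f₀ ∈ idl X → s * h ∈ idl X}, rfl⟩

theorem conic_colA {X : Set V5} (hc : Conic X) {f₀ : MvPolynomial (Fin 5) ℂ} {a : ℕ}
    (hf : f₀.IsHomogeneous a) : Conic (colA X f₀) :=
  conic_of_scl fun _ h0 _ hh => scl_col hc hf h0 hh

theorem conic_colB {X : Set V5} (hc : Conic X) {f₀ : MvPolynomial (Fin 5) ℂ} {a : ℕ}
    (hf : f₀.IsHomogeneous a) : Conic (colB X f₀) := by
  refine conic_of_scl fun c h0 s hs h hh z hz => ?_
  have h1 := hs _ (scl_col hc hf (inv_ne_zero h0) hh) (c • z) (hc c z hz)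
  rw [map_mul, eval_scl, inv_smul_smul₀ h0] at h1
  rw [map_mul, eval_scl]
  exact h1

end Pool.Agent.XP
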