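import Pool.Agent.Work.MP_80e05d_ag.XP.FDefs2
import Pool.Agent.Work.MP_80e05d_ag.XP.F2
import Pool.Agent.Work.MP_80e05d_ag.XP.F4

/-!
# Module F5c (size M): the two parts meet only in 0

PROOF.  Let `y ∈ colA ∩ colB`, `y ≠ 0`.  `y ∈ X` : `X` is a zero set (`hZ`) and every `h ∈ idl X` has
`h * f₀ ∈ idl X`, so `h(y) = 0`.  `X` is smooth at `y`.
If `ZeroNear X y f₀`, then by `exists_unit_mul` there is `s`, `s(y) ≠ 0`, `s * f₀ ∈ idl X`, so
`s(y) = 0` because `y ∈ colA`, contradiction.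
So every `h` with `h * f₀ ∈ idl X` is `ZeroNear X y` by `zeroNear_mul` (`ZeroNear X y (h * f₀)` holds
with any radius), and by `exists_unit_mul` there is `s_h`, `s_h(y) ≠ 0`, `s_h * h ∈ idl X`.  The ideal
`K = {h | h * f₀ ∈ idl X}` is finitely generated (`IsNoetherian`), by a finite set `t`;
`s = ∏ h ∈ t, s_h` satisfies `s * h ∈ idl X` for `h ∈ t`, hence for all `h ∈ K`
(`Submodule.span_induction`), so `s(y) = 0` because `y ∈ colB`; but `s(y) = ∏ s_h(y) ≠ 0`.
-/

open MvPolynomial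

namespace Pool.Agent.XP

theorem col_inter {X : Set V5} (hZ : IsZ X) (hs : ∀ y ∈ X, y ≠ 0 → SmoothAt X y)
    (f₀ : MvPolynomial (Fin 5) ℂ) {y : V5} (hA : y ∈ colA X f₀) (hB : y ∈ colB X f₀) : y = 0 := by
  classical
  by_contra hy0
  have hyX : y ∈ X := by
    obtain ⟨S, hS⟩ := hZ
    rw [hS]
    intro f hf
    refine hA f ?_
    refine Ideal.mul_mem_right _ _ ?_
    intro z hz
    rw [hS] at hz
    exact hz f hf
  have hsm := hs y hyX hy0
  by_cases hz0 : ZeroNear X y f₀
  · obtain ⟨s, hs1, hs2⟩ := exists_unit_mul hyX hsm hz0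
    exact hs1 (hA s hs2)
  have hK : ∀ h : MvPolynomial (Fin 5) ℂ, h * f₀ ∈ idl X →
      ∃ s : MvPolynomial (Fin 5) ℂ, eval y s ≠ 0 ∧ s * h ∈ idl X := by
    intro h hh
    have h1 : ZeroNear X y (h * f₀) := ⟨1, one_pos, fun z hz _ => hh z hz⟩
    rcases zeroNear_mul hyX hsm h1 with h2 | h2
    · exact exists_unit_mul hyX hsm h2
    · exact absurd h2 hz0
  let K : Ideal (MvPolynomial (Fin 5) ℂ) :=
    { carrier := {h | h * f₀ ∈ idl X}
      add_mem' := by
        intro a b ha hb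
        change (a + b) * f₀ ∈ idl X
        rw [add_mul]
        exact Ideal.add_mem _ ha hb
      zero_mem' := by
        change 0 * f₀ ∈ idl X
        rw [zero_mul]
        exact Ideal.zero_mem _
      smul_mem' := by
        intro c a ha
        change (c * a) * f₀ ∈ idl X
        rw [mul_assoc]
        exact Ideal.mul_mem_left _ _ ha }
  obtain ⟨t, ht⟩ : K.FG := IsNoetherian.noetherian K
  have htK : ∀ h ∈ t, h * f₀ ∈ idl X := by
    intro h hh
    have : h ∈ K := by
      rw [← ht]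
      exact Submodule.subset_span hh
    exact this
  have hch : ∀ h : MvPolynomial (Fin 5) ℂ, ∃ s : MvPolynomial (Fin 5) ℂ,
      eval y s ≠ 0 ∧ (h * f₀ ∈ idl X → s * h ∈ idl X) := by
    intro h
    by_cases hh : h * f₀ ∈ idl X
    · obtain ⟨s, h1, h2⟩ := hK h hh
      exact ⟨s, h1, fun _ => h2⟩
    · exact ⟨1, by rw [map_one]; exact one_ne_zero, fun h3 => absurd h3 hh⟩
  choose s hs1 hs2 using hch
  have hprod : ∀ h ∈ K, (∏ g ∈ t, s g) * h ∈ idl X := by
    intro h hh
    rw [← ht] at hh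
    refine Submodule.span_induction (p := fun h _ => (∏ g ∈ t, s g) * h ∈ idl X)
      ?_ ?_ ?_ ?_ hh
    · intro g hg
      have hg' : g ∈ t := hg
      rw [← Finset.prod_erase_mul t s hg', mul_assoc]
      exact Ideal.mul_mem_left _ _ (hs2 g (htK g hg'))
    · rw [mul_zero]
      exact Ideal.zero_mem _
    · intro a b _ _ ha hb
      rw [mul_add]
      exact Ideal.add_mem _ ha hb
    · intro c a _ ha
      rw [smul_eq_mul, mul_left_comm]
      exact Ideal.mul_mem_left _ _ ha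
  have h0 : eval y (∏ g ∈ t, s g) = 0 := hB _ fun h hh => hprod h hh
  rw [map_prod, Finset.prod_eq_zero_iff] at h0
  obtain ⟨g, _, hg⟩ := h0
  exact hs1 g hg

end Pool.Agent.XP
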