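import Pool.Agent.Work.MP_80e05d_ag.XP.F5a
import Pool.Agent.Work.MP_80e05d_ag.XP.F5b
import Pool.Agent.Work.MP_80e05d_ag.XP.F5c

/-!
# Module F5 (size M): the splitting

PROOF.  `f₀, g₀` from `exists_homog`, `A = colA X f₀`, `B = colB X f₀`.
Point of `A`: `f₀ ∉ idl X` gives `y ∈ X` with `f₀(y) ≠ 0`.  If `y = 0`, then `f₀(0) ≠ 0` and `f₀`
homogeneous imply that `f₀` is a constant `c ≠ 0`, so `g₀ ∈ idl X`, contradiction.  For `z ∈ X` near
`y`, `f₀(z) ≠ 0` (continuity), so `h * f₀ ∈ idl X` gives `h(z) = 0`: `z ∈ A`.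
Point of `B`: `y ∈ X` with `g₀(y) ≠ 0`, `y ≠ 0` as before; for `z ∈ X` near `y`, `g₀(z) ≠ 0`; if `s`
is as in `colB`, then `s * g₀ ∈ idl X` because `g₀ * f₀ ∈ idl X`, so `s(z) = 0`: `z ∈ B`.
-/

open MvPolynomial

namespace Pool.Agent.XP

private theorem eval_smul_hom {f : MvPolynomial (Fin 5) ℂ} {n : ℕ} (hf : f.IsHomogeneous n)
    (c : ℂ) (y : V5) : eval (c • y) f = c ^ n * eval y f := by
  rw [eval_eq', eval_eq', Finset.mul_sum]
  refine Finset.sum_congr rfl fun d hd => ?_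
  have h1 : n = ∑ i ∈ d.support, d i := hf.degree_eq_sum_deg_support hd
  have h2 : ∑ i : Fin 5, d i = n := by
    rw [h1]
    symm
    exact Finset.sum_subset (Finset.subset_univ _) fun i _ hi => by
      simpa using hi
  simp only [Pi.smul_apply, smul_eq_mul, mul_pow, Finset.prod_mul_distrib,
    Finset.prod_pow_eq_pow_sum, h2]
  ring

private theorem near_ne {f : MvPolynomial (Fin 5) ℂ} {y : V5} (h : eval y f ≠ 0) :
    ∃ δ : ℝ, 0 < δ ∧ ∀ z : V5, ‖z - y‖ < δ → eval z f ≠ 0 := by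
  have hc : Continuous fun z : V5 => eval z f := MvPolynomial.continuous_eval f
  have ho : IsOpen {z : V5 | eval z f ≠ 0} := isOpen_ne_fun hc continuous_const
  obtain ⟨δ, hδ, hb⟩ := Metric.isOpen_iff.1 ho y h
  refine ⟨δ, hδ, fun z hz => hb ?_⟩
  rw [Metric.mem_ball, dist_eq_norm]
  exact hz

private theorem exists_pt {X : Set V5} {f : MvPolynomial (Fin 5) ℂ} (hf : f ∉ idl X) :
    ∃ y ∈ X, eval y f ≠ 0 := by
  rw [mem_idl] at hf
  push Not at hf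
  exact hf

/-- a point where `f` does not vanish is not the origin, if `g` is not in the ideal -/
private theorem pt_ne_zero {X : Set V5} {f g : MvPolynomial (Fin 5) ℂ} {a : ℕ}
    (ha : f.IsHomogeneous a) (hg : g ∉ idl X) (hfg : f * g ∈ idl X) {y : V5} (hy : eval y f ≠ 0) :
    y ≠ 0 := by
  rintro rfl
  obtain ⟨x, hx, hgx⟩ := exists_pt hg
  have h1 : eval x f * eval x g = 0 := by
    rw [← map_mul]
    exact hfg x hx
  have h2 : eval x f = 0 := (mul_eq_zero.1 h1).resolve_right hgx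
  have h3 := eval_smul_hom ha 0 x
  rw [zero_smul, h2, mul_zero] at h3
  exact hy h3

theorem splitting {X : Set V5} (hc : IsCone X) (hs : ∀ y ∈ X, y ≠ 0 → SmoothAt X y)
    (hn : ¬ Irred X) :
    ∃ A B : Set V5, IsZ A ∧ IsZ B ∧ Conic A ∧ Conic B ∧ (∀ y, y ∈ A → y ∈ B → y = 0) ∧
      (∃ y ∈ X, y ≠ 0 ∧ ∃ δ : ℝ, 0 < δ ∧ ∀ z ∈ X, ‖z - y‖ < δ → z ∈ A) ∧
      ∃ y ∈ X, y ≠ 0 ∧ ∃ δ : ℝ, 0 < δ ∧ ∀ z ∈ X, ‖z - y‖ < δ → z ∈ B := by
  have hX : Conic X := conic_of_isCone hc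
  have hZ : IsZ X := by
    obtain ⟨S, _, hS⟩ := hc
    exact ⟨S, hS⟩
  obtain ⟨f₀, g₀, a, b, hfa, hgb, hf, hg, hfg⟩ := exists_homog hX hn
  have hgf : g₀ * f₀ ∈ idl X := by
    rw [mul_comm]
    exact hfg
  refine ⟨colA X f₀, colB X f₀, isZ_colA X f₀, isZ_colB X f₀, conic_colA hX hfa,
    conic_colB hX hfa, fun y hA hB => col_inter hZ hs f₀ hA hB, ?_, ?_⟩
  · obtain ⟨y, hy, hy0⟩ := exists_pt hf
    obtain ⟨δ, hδ, hz⟩ := near_ne hy0
    refine ⟨y, hy, pt_ne_zero hfa hg hfg hy0, δ, hδ, fun z hzX hzd h hh => ?_⟩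
    have h1 : eval z h * eval z f₀ = 0 := by
      rw [← map_mul]
      exact hh z hzX
    exact (mul_eq_zero.1 h1).resolve_right (hz z hzd)
  · obtain ⟨y, hy, hy0⟩ := exists_pt hg
    obtain ⟨δ, hδ, hz⟩ := near_ne hy0
    refine ⟨y, hy, pt_ne_zero hgb hf hgf hy0, δ, hδ, fun z hzX hzd s hh => ?_⟩
    have h1 : eval z s * eval z g₀ = 0 := by
      rw [← map_mul]
      exact hh g₀ hgf z hzX
    exact (mul_eq_zero.1 h1).resolve_right (hz z hzd)

end Pool.Agent.XP
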