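import Pool.Agent.Work.MP_80e05d_ag.XP.FDefs2

/-!
# Module F5a (size M): a reducible cone is reducible by homogeneous polynomials

PROOF of `conic_of_isCone`: a homogeneous `F` of degree `n` has `F(c y) = c^n F(y)`
(`MvPolynomial.IsHomogeneous.eval_smul` or by monomials), also for `c = 0`.
PROOF of `homog_comp_mem`: if `f ∈ I` and `y ∈ X`, then `f(c y) = ∑_n c^n f_n(y)` vanishes for all
`c` (`c • y ∈ X`), so the one variable polynomial `∑ f_n(y) T^n` is 0 and `f_n(y) = 0` for every
homogeneous component (`MvPolynomial.sum_homogeneousComponent`).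
PROOF of `exists_homog`: `¬ Irred X` gives `f, g ∉ I` with `f g ∈ I`, `I = idl X ≠ ⊤`
(`X` is not empty).  The ideal `I` is homogeneous for the grading
`MvPolynomial.homogeneousSubmodule (Fin 5) ℂ`, so if `f₀ g₀ ∈ I → f₀ ∈ I ∨ g₀ ∈ I` for homogeneous
`f₀, g₀`, then `I` is prime (`Ideal.IsHomogeneous.isPrime_of_homogeneous_mem_or_mem`).  (Or directly:
take the components of the smallest degrees `a, b` of `f, g` which are not in `I`; subtract the
components in `I`; the component of degree `a + b` of the product is `f_a g_b` modulo `I`.)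
-/

open MvPolynomial

namespace Pool.Agent.XP

private theorem f5a_eval {F : MvPolynomial (Fin 5) ℂ} {n : ℕ} (hF : F.IsHomogeneous n) (c : ℂ)
    (y : V5) : eval (c • y) F = c ^ n * eval y F := by
  rw [eval_eq', eval_eq', Finset.mul_sum]
  refine Finset.sum_congr rfl fun d hd => ?_
  have h4 : ∑ i, d i = n := by
    have := hF (mem_support_iff.mp hd)
    rw [← this, ← Finsupp.degree_eq_sum, Finsupp.degree_eq_weight_one]
    rfl
  have h5 : ∏ i, (c • y) i ^ d i = c ^ n * ∏ i, y i ^ d i := by
    rw [← h4, ← Finset.prod_pow_eq_pow_sum, ← Finset.prod_mul_distrib]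
    exact Finset.prod_congr rfl fun i _ => mul_pow _ _ _
  rw [h5]
  ring

theorem conic_of_isCone {X : Set V5} (hc : IsCone X) : Conic X := by
  obtain ⟨S, hS, rfl⟩ := hc
  intro c y hy F hF
  obtain ⟨n, hn⟩ := hS F hF
  rw [f5a_eval hn, hy F hF, mul_zero]

theorem homog_comp_mem {X : Set V5} (hc : Conic X) {f : MvPolynomial (Fin 5) ℂ}
    (hf : f ∈ idl X) (n : ℕ) : homogeneousComponent n f ∈ idl X := by
  intro y hy
  rcases lt_or_ge f.totalDegree n with hn | hn
  · rw [homogeneousComponent_eq_zero n f hn, map_zero]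
  set q : Polynomial ℂ := ∑ i ∈ Finset.range (f.totalDegree + 1),
    Polynomial.C (eval y (homogeneousComponent i f)) * Polynomial.X ^ i with hq
  have h0 : q = 0 := by
    apply Polynomial.funext
    intro c
    rw [Polynomial.eval_zero, hq, Polynomial.eval_finset_sum]
    have h1 : eval (c • y) f = 0 := hf _ (hc c y hy)
    rw [← sum_homogeneousComponent f, map_sum] at h1
    rw [← h1]
    refine Finset.sum_congr rfl fun i _ => ?_
    rw [Polynomial.eval_mul, Polynomial.eval_C, Polynomial.eval_pow, Polynomial.eval_X,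
      f5a_eval (homogeneousComponent_isHomogeneous i f), mul_comm]
  have h2 : q.coeff n = eval y (homogeneousComponent n f) := by
    rw [hq, Polynomial.finset_sum_coeff]
    rw [Finset.sum_eq_single n]
    · rw [Polynomial.coeff_C_mul, Polynomial.coeff_X_pow, if_pos rfl, mul_one]
    · intro i _ hi
      rw [Polynomial.coeff_C_mul, Polynomial.coeff_X_pow, if_neg (Ne.symm hi), mul_zero]
    · intro h
      exact absurd (Finset.mem_range.2 (by omega)) h
  rw [← h2, h0, Polynomial.coeff_zero]

theorem exists_homog {X : Set V5} (hc : Conic X) (hn : ¬ Irred X) :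
    ∃ (f₀ g₀ : MvPolynomial (Fin 5) ℂ) (a b : ℕ), f₀.IsHomogeneous a ∧ g₀.IsHomogeneous b ∧
      f₀ ∉ idl X ∧ g₀ ∉ idl X ∧ f₀ * g₀ ∈ idl X := by
  by_contra hcon
  apply hn
  intro f g hfg
  by_contra hne
  rw [not_or] at hne
  obtain ⟨hf, hg⟩ := hne
  letI : GradedAlgebra (homogeneousSubmodule (Fin 5) ℂ) := MvPolynomial.gradedAlgebra
  have hI : (idl X).IsHomogeneous (homogeneousSubmodule (Fin 5) ℂ) := by
    intro i r hr
    have h1 : ((DirectSum.decompose (homogeneousSubmodule (Fin 5) ℂ) r i :
        homogeneousSubmodule (Fin 5) ℂ i) : MvPolynomial (Fin 5) ℂ) = homogeneousComponent i r :=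
      decomposition.decompose'_apply r i
    rw [h1]
    exact homog_comp_mem hc hr i
  have htop : idl X ≠ ⊤ := by
    intro h
    apply hf
    have h2 : f ∈ idl X := by
      rw [h]
      exact Submodule.mem_top
    exact h2
  have hp : (idl X).IsPrime := hI.isPrime_of_homogeneous_mem_or_mem htop (by
    rintro x y ⟨a, hx⟩ ⟨b, hy⟩ hxy
    by_contra h
    rw [not_or] at h
    exact hcon ⟨x, y, a, b, hx, hy, h.1, h.2, hxy⟩)
  rcases hp.mem_or_mem (show f * g ∈ idl X from hfg) with h | h
  · exact hf h
  · exact hg h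

end Pool.Agent.XP
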