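import Pool.Agent.Work.MP_80e05d_ag.XP.F1

/-!
# Module F6 (size M): three independent linear forms on a part

PROOF.  Data `F, G, h` of `SmoothAt X y`; `φ, T, ε, C` from `local_param`.  For small `t` the point
`φ t` is in `X` (`h(φ t) ≠ 0`) with `‖φ t - y‖ < δ`, so in `A`, and `T (φ t) = t + T y`.  So `p`
vanishes on the ball around `T y` with some radius, hence `p = 0` (restrict to complex lines through
`T y`: a one variable polynomial with infinitely many zeros; then `MvPolynomial.funext`; or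
`MvPolynomial.funext_set`-type lemmas for products of infinite sets).
-/

open MvPolynomial

namespace Pool.Agent.XP

private theorem zero_of_ball {p : MvPolynomial (Fin 3) ℂ} {c : Fin 3 → ℂ} {ε : ℝ} (hε : 0 < ε)
    (h : ∀ x : Fin 3 → ℂ, ‖x - c‖ < ε → eval x p = 0) : p = 0 := by
  refine MvPolynomial.funext_set (fun i => Metric.ball (c i) ε)
    (fun i => infinite_of_mem_nhds (c i) (Metric.ball_mem_nhds (c i) hε)) ?_
  intro x hx
  rw [map_zero]
  apply h
  rw [pi_norm_lt_iff hε]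
  intro i
  have := hx i (Set.mem_univ i)
  rw [Metric.mem_ball, dist_eq_norm] at this
  exact this

theorem three_forms {X A : Set V5} {y : V5} {δ : ℝ} (hy : y ∈ X) (hs : SmoothAt X y)
    (hδ : 0 < δ) (hA : ∀ z ∈ X, ‖z - y‖ < δ → z ∈ A) :
    ∃ T : V5 →ₗ[ℂ] (Fin 3 → ℂ), ∀ p : MvPolynomial (Fin 3) ℂ,
      (∀ z ∈ A, eval (T z) p = 0) → p = 0 := by
  obtain ⟨F, G, h, hFG, hli, hh, hX⟩ := hs
  obtain ⟨hF, hG⟩ := hFG y hy
  obtain ⟨T, ε, C', φ, hε, hC, _, _, hφ, _, _, _⟩ := local_param hF hG hli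
  refine ⟨T, fun p hp => ?_⟩
  have hcont : ContinuousAt (fun z : V5 => eval z h) y :=
    (MvPolynomial.continuous_eval h).continuousAt
  have hev : ∀ᶠ z in nhds y, eval z h ≠ 0 := hcont.eventually_ne hh
  obtain ⟨δ', hδ', hne⟩ := Metric.eventually_nhds_iff.mp hev
  set m : ℝ := min δ δ' with hm
  have hmpos : 0 < m := lt_min hδ hδ'
  have hC1 : 0 < C' + 1 := by linarith
  set ε' : ℝ := min ε (m / (C' + 1)) with hε'def
  have hε' : 0 < ε' := lt_min hε (div_pos hmpos hC1)
  refine zero_of_ball (c := T y) hε' ?_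
  intro x hx
  set t : Fin 3 → ℂ := x - T y with ht
  have htε : t ∈ Metric.ball (0 : Fin 3 → ℂ) ε := by
    rw [mem_ball_zero_iff]
    exact lt_of_lt_of_le hx (min_le_left _ _)
  obtain ⟨h1, h2, h3, h4⟩ := hφ t htε
  have h5 : ‖φ t - y‖ < m := by
    have h6 : ‖t‖ < m / (C' + 1) := lt_of_lt_of_le hx (min_le_right _ _)
    rw [lt_div_iff₀ hC1] at h6
    calc ‖φ t - y‖ ≤ C' * ‖t‖ := h4
      _ ≤ ‖t‖ * (C' + 1) := by nlinarith [norm_nonneg t]
      _ < m := h6
  have h7 : ‖φ t - y‖ < δ := lt_of_lt_of_le h5 (min_le_left _ _)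
  have h8 : ‖φ t - y‖ < δ' := lt_of_lt_of_le h5 (min_le_right _ _)
  have h10 : eval (φ t) h ≠ 0 := by
    apply hne
    rw [dist_eq_norm]
    exact h8
  have h11 := hp _ (hA _ (hX _ h10 h1 h2) h7)
  have h12 : T (φ t) = x := by
    have h13 : T (φ t) - T y = t := by rw [← map_sub, h3]
    rw [ht] at h13
    exact sub_left_injective h13
  rw [h12] at h11
  exact h11

end Pool.Agent.XP
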