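import Pool.Agent.Work.MP_80e05d_ag.XP.FDefs

/-!
# Module F7 (size M-L): the diagonal forms generate everything in high degree

PROOF.  `R = MvPolynomial (Fin 5 ⊕ Fin 5) ℂ`.  `A`, `B` are the zero sets of `S`, `S'`.  Let `K₀` be
the ideal generated by `rename Sum.inl f` (`f ∈ S`) and `rename Sum.inr g` (`g ∈ S'`), and
`K = K₀ ⊔ span {X (inl i) - X (inr i)}`.  A common zero of `K` is `(y, z)` with `y ∈ A`, `z ∈ B`,
`y = z`, so it is 0 by `hAB`.  Nullstellensatz (`MvPolynomial.vanishingIdeal_zeroLocus_eq_radical`):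
every variable vanishes on the zero locus, so it is in the radical of `K`; so there is `n₀ ≥ 1` with
`X j ^ n₀ ∈ K` for all `j`.  Put `n + 1 = 10 n₀`: every monomial of degree `n + 1` is in `K`
(some exponent is `≥ n₀`), so every homogeneous `m` of degree `n + 1` is
`m = a + ∑ (X (inl i) - X (inr i)) q_i`, `a ∈ K₀`.  `a` vanishes on `A × B`; `A × B` is closed under
scalars, so the homogeneous components of `a` vanish on `A × B`
(`a(c y, c z) = ∑ c^k a_k(y, z)` is 0 for all `c`).  Compare the components of degree `n + 1`: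
`m = a_(n+1) + ∑ (X (inl i) - X (inr i)) (q_i)_n`; evaluate on `A × B`.
-/

open MvPolynomial

namespace Pool.Agent.XP

private theorem f7_scale {φ : MvPolynomial (Fin 5 ⊕ Fin 5) ℂ} {k : ℕ} (h : φ.IsHomogeneous k)
    (c : ℂ) (x : Fin 5 ⊕ Fin 5 → ℂ) : eval (fun j => c * x j) φ = c ^ k * eval x φ := by
  rw [eval_eq', eval_eq', Finset.mul_sum]
  refine Finset.sum_congr rfl (fun d hd => ?_)
  have hdeg : d.degree = k := by
    by_contra hne
    exact (mem_support_iff.1 hd) (h.coeff_eq_zero hne)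
  rw [Finsupp.degree_eq_sum] at hdeg
  have : ∏ i, (c * x i) ^ d i = c ^ k * ∏ i, x i ^ d i := by
    rw [← hdeg, ← Finset.prod_pow_eq_pow_sum, ← Finset.prod_mul_distrib]
    exact Finset.prod_congr rfl (fun i _ => mul_pow _ _ _)
  rw [this]
  ring

private theorem f7_comp {a : MvPolynomial (Fin 5 ⊕ Fin 5) ℂ} {x : Fin 5 ⊕ Fin 5 → ℂ}
    (h : ∀ c : ℂ, eval (fun j => c * x j) a = 0) (k : ℕ) :
    eval x (homogeneousComponent k a) = 0 := by
  by_cases hk : a.totalDegree < k
  · rw [homogeneousComponent_eq_zero k a hk, map_zero]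
  set P : Polynomial ℂ := ∑ i ∈ Finset.range (a.totalDegree + 1),
    Polynomial.C (eval x (homogeneousComponent i a)) * Polynomial.X ^ i with hP
  have hP0 : P = 0 := by
    apply Polynomial.funext
    intro c
    rw [Polynomial.eval_zero, ← h c, hP, Polynomial.eval_finset_sum]
    conv_rhs => rw [← sum_homogeneousComponent a, map_sum]
    refine Finset.sum_congr rfl (fun i _ => ?_)
    rw [f7_scale (homogeneousComponent_isHomogeneous i a), Polynomial.eval_mul, Polynomial.eval_C,
      Polynomial.eval_pow, Polynomial.eval_X]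
    ring
  have h1 : P.coeff k = eval x (homogeneousComponent k a) := by
    rw [hP, Polynomial.finset_sum_coeff]
    simp only [Polynomial.coeff_C_mul, Polynomial.coeff_X_pow]
    rw [Finset.sum_eq_single k]
    · rw [if_pos rfl, mul_one]
    · intro b _ hb
      rw [if_neg (Ne.symm hb), mul_zero]
    · intro hk2
      exact absurd (Finset.mem_range.2 (by omega)) hk2
  rw [← h1, hP0, Polynomial.coeff_zero]

private theorem f7_hc {ℓ : MvPolynomial (Fin 5 ⊕ Fin 5) ℂ} (hℓ : ℓ.IsHomogeneous 1)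
    (q : MvPolynomial (Fin 5 ⊕ Fin 5) ℂ) (n : ℕ) :
    homogeneousComponent (n + 1) (ℓ * q) = ℓ * homogeneousComponent n q := by
  conv_lhs => rw [← sum_homogeneousComponent q, Finset.mul_sum, map_sum]
  have h1 : ∀ i, homogeneousComponent (n + 1) (ℓ * homogeneousComponent i q) =
      if i = n then ℓ * homogeneousComponent i q else 0 := by
    intro i
    have hm : (ℓ * homogeneousComponent i q) ∈ homogeneousSubmodule (Fin 5 ⊕ Fin 5) ℂ (1 + i) :=
      hℓ.mul (homogeneousComponent_isHomogeneous i q)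
    rw [homogeneousComponent_of_mem hm]
    by_cases hi : i = n
    · rw [if_pos hi, if_pos (by omega)]
    · rw [if_neg hi, if_neg (by omega)]
  simp only [h1]
  rw [Finset.sum_ite_eq']
  split_ifs with h
  · rfl
  · rw [Finset.mem_range] at h
    rw [homogeneousComponent_eq_zero n q (by omega), mul_zero]

theorem diag_division {A B : Set V5} (hA : IsZ A) (hB : IsZ B) (cA : Conic A) (cB : Conic B)
    (hAB : ∀ y, y ∈ A → y ∈ B → y = 0) :
    ∃ n : ℕ, ∀ m : MvPolynomial (Fin 5 ⊕ Fin 5) ℂ, m.IsHomogeneous (n + 1) →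
      ∃ q : Fin 5 → MvPolynomial (Fin 5 ⊕ Fin 5) ℂ, (∀ i, (q i).IsHomogeneous n) ∧
        ∀ p : A × B, fn A B m p = ∑ i, ((p.1 : V5) i - (p.2 : V5) i) * fn A B (q i) p := by
  classical
  set W : Set (Fin 5 ⊕ Fin 5 → ℂ) := {x | ∃ y ∈ A, ∃ z ∈ B, x = Sum.elim y z} with hW
  set K0 : Ideal (MvPolynomial (Fin 5 ⊕ Fin 5) ℂ) := vanishingIdeal ℂ W with hK0
  set L : Ideal (MvPolynomial (Fin 5 ⊕ Fin 5) ℂ) := Ideal.span (Set.range fun i : Fin 5 =>
    (X (Sum.inl i) - X (Sum.inr i) : MvPolynomial (Fin 5 ⊕ Fin 5) ℂ)) with hL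
  have hrad : ∀ j, (X j : MvPolynomial (Fin 5 ⊕ Fin 5) ℂ) ∈ (K0 ⊔ L).radical := by
    intro j
    rw [← vanishingIdeal_zeroLocus_eq_radical (K := ℂ), mem_vanishingIdeal_iff]
    intro x hx
    rw [mem_zeroLocus_iff] at hx
    rw [aeval_X]
    have hy : (fun i => x (Sum.inl i)) ∈ A := by
      obtain ⟨S, hS⟩ := hA
      rw [hS]
      intro f hf
      have h1 : rename Sum.inl f ∈ K0 := by
        rw [hK0, mem_vanishingIdeal_iff]
        rintro _ ⟨y, hy, z, hz, rfl⟩
        rw [aeval_rename]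
        rw [hS] at hy
        exact hy f hf
      have h2 := hx _ (Ideal.mem_sup_left h1)
      rw [aeval_rename] at h2
      exact h2
    have hz : (fun i => x (Sum.inr i)) ∈ B := by
      obtain ⟨S, hS⟩ := hB
      rw [hS]
      intro f hf
      have h1 : rename Sum.inr f ∈ K0 := by
        rw [hK0, mem_vanishingIdeal_iff]
        rintro _ ⟨y, hy, z, hz, rfl⟩
        rw [aeval_rename]
        rw [hS] at hz
        exact hz f hf
      have h2 := hx _ (Ideal.mem_sup_left h1)
      rw [aeval_rename] at h2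
      exact h2
    have hyz : (fun i => x (Sum.inl i)) = (fun i => x (Sum.inr i)) := by
      funext i
      have h1 := hx _ (Ideal.mem_sup_right (Ideal.subset_span ⟨i, rfl⟩))
      simp only [map_sub, aeval_X] at h1
      exact sub_eq_zero.1 h1
    have h0 : (fun i => x (Sum.inl i)) = 0 := hAB _ hy (hyz ▸ hz)
    rcases j with i | i
    · exact congrFun h0 i
    · have h7 : x (Sum.inl i) = x (Sum.inr i) := congrFun hyz i
      rw [← h7]
      exact congrFun h0 i
  have hpow : ∃ n0 : ℕ, 0 < n0 ∧ ∀ j, (X j : MvPolynomial (Fin 5 ⊕ Fin 5) ℂ) ^ n0 ∈ K0 ⊔ L := by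
    choose f hf using hrad
    refine ⟨∑ j, f j + 1, Nat.succ_pos _, fun j => ?_⟩
    refine Ideal.pow_mem_of_pow_mem _ (hf j) ?_
    have := Finset.single_le_sum (f := f) (fun i _ => Nat.zero_le _) (Finset.mem_univ j)
    omega
  obtain ⟨n0, hn0, hpw⟩ := hpow
  refine ⟨10 * n0 - 1, fun m hm => ?_⟩
  have hN : 10 * n0 - 1 + 1 = 10 * n0 := by omega
  have hmK : m ∈ K0 ⊔ L := by
    rw [← support_sum_monomial_coeff m]
    refine Ideal.sum_mem _ (fun d hd => ?_)
    have hdeg : d.degree = 10 * n0 := by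
      by_contra hne
      exact (mem_support_iff.1 hd) (hm.coeff_eq_zero (by rw [hN]; exact hne))
    rw [Finsupp.degree_eq_sum] at hdeg
    have hex : ∃ j, n0 ≤ d j := by
      by_contra hcon
      push Not at hcon
      have h1 : ∑ j, d j < ∑ _j : Fin 5 ⊕ Fin 5, n0 :=
        Finset.sum_lt_sum_of_nonempty Finset.univ_nonempty (fun j _ => hcon j)
      rw [Finset.sum_const, Finset.card_univ, Fintype.card_sum, Fintype.card_fin, smul_eq_mul] at h1
      omega
    obtain ⟨j, hj⟩ := hex
    have h2 : monomial d (coeff d m) = monomial (d - Finsupp.single j n0) (coeff d m) * X j ^ n0 := by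
      rw [X_pow_eq_monomial, monomial_mul, mul_one]
      congr 1
      rw [tsub_add_cancel_of_le]
      rw [Finsupp.single_le_iff]
      exact hj
    rw [h2]
    exact Ideal.mul_mem_left _ _ (hpw j)
  obtain ⟨a, ha, b, hb, hab⟩ := Submodule.mem_sup.1 hmK
  rw [hL, Ideal.mem_span_range_iff_exists_fun] at hb
  obtain ⟨c, hc⟩ := hb
  refine ⟨fun i => homogeneousComponent (10 * n0 - 1) (c i),
    fun i => homogeneousComponent_isHomogeneous _ _, fun p => ?_⟩
  have h1 : m = homogeneousComponent (10 * n0 - 1 + 1) a + ∑ i,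
      (X (Sum.inl i) - X (Sum.inr i)) * homogeneousComponent (10 * n0 - 1) (c i) := by
    have h2 : m = homogeneousComponent (10 * n0 - 1 + 1) m := (homogeneousComponent_eq_self hm).symm
    rw [h2, ← hab, map_add, ← hc, map_sum]
    congr 1
    refine Finset.sum_congr rfl (fun i _ => ?_)
    rw [mul_comm (c i), f7_hc]
    exact (isHomogeneous_X _ _).sub (isHomogeneous_X _ _)
  have h3 : eval (Sum.elim (p.1 : V5) (p.2 : V5)) (homogeneousComponent (10 * n0 - 1 + 1) a) = 0 := by
    apply f7_comp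
    intro t
    have h4 : (fun j => t * Sum.elim (p.1 : V5) (p.2 : V5) j) =
        Sum.elim (t • (p.1 : V5)) (t • (p.2 : V5)) := by
      funext j
      rcases j with i | i <;> rfl
    rw [h4]
    rw [hK0, mem_vanishingIdeal_iff] at ha
    have h5 := ha _ ⟨t • (p.1 : V5), cA t _ p.1.2, t • (p.2 : V5), cB t _ p.2.2, rfl⟩
    rw [aeval_eq_eval] at h5
    exact h5
  unfold fn
  conv_lhs => rw [h1]
  rw [map_add, h3, zero_add, map_sum]
  refine Finset.sum_congr rfl (fun i _ => ?_)
  rw [map_mul, map_sub, eval_X, eval_X]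
  rfl

end Pool.Agent.XP
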