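import Pool.Agent.Work.MP_80e05d_ag.XP.FDefs

/-!
# Module F8 (size M-L): upper bound for the Hilbert function of `A × B`

PROOF.  `d_i(p) = p.1 i - p.2 i`.  (1) For `N ≥ n + 1` and `m` homogeneous of degree `N`:
`fn m = ∑_i d_i * fn (q_i)` with `q_i` homogeneous of degree `N - 1`: it is enough for monomials `m`
(linearity), and a monomial of degree `N` is a product of a monomial of degree `n + 1` and one of
degree `N - n - 1`; use the hypothesis for the first factor.
(2) By induction on `N`: `fn m` (`m` homogeneous of degree `N`) is in the span of the functions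
`(∏ i, d_i ^ a_i) * fn μ`, `a : Fin 5 → ℕ`, `μ` a monomial (coefficient 1) of degree `≤ n`,
`∑ a_i + deg μ = N`.
(3) Count: the number of these functions is at most `K (N + 1)^4`, `K` = number of monomials of
degree `≤ n` in 10 variables: for given `μ`, the number of `a` with `∑ a_i = N - deg μ` is at most
`(N + 1)^4` (`a_0, a_1, a_2, a_3 ≤ N` determine `a_4`; e.g. an injection into `Fin 4 → Fin (N + 1)`).
-/

open MvPolynomial

namespace Pool.Agent.XP

private def dd (A B : Set V5) (i : Fin 5) : A × B → ℂ := fun p => (p.1 : V5) i - (p.2 : V5) i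

private theorem fn_mul' (A B : Set V5) (m m' : MvPolynomial (Fin 5 ⊕ Fin 5) ℂ) :
    fn A B (m * m') = fn A B m * fn A B m' := by
  funext p
  simp [fn]

private def GG (A B : Set V5) (n N : ℕ) : Set (A × B → ℂ) :=
  {g | ∃ (a : Fin 5 → ℕ) (μ : Fin 5 ⊕ Fin 5 →₀ ℕ), μ.degree ≤ n ∧ ∑ i, a i + μ.degree = N ∧
    g = (∏ i, dd A B i ^ a i) * fn A B (monomial μ 1)}

private theorem span_mul {A B : Set V5} {n N : ℕ} (i : Fin 5) {g : A × B → ℂ}
    (hg : g ∈ Submodule.span ℂ (GG A B n N)) :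
    dd A B i * g ∈ Submodule.span ℂ (GG A B n (N + 1)) := by
  induction hg using Submodule.span_induction with
  | mem x hx =>
    obtain ⟨a, μ, h1, h2, rfl⟩ := hx
    apply Submodule.subset_span
    refine ⟨fun j => a j + (if i = j then 1 else 0), μ, h1, ?_, ?_⟩
    · rw [Finset.sum_add_distrib, Finset.sum_ite_eq, if_pos (Finset.mem_univ _)]
      omega
    · simp only [pow_add, Finset.prod_mul_distrib]
      rw [Finset.prod_pow_boole, if_pos (Finset.mem_univ _)]
      ring
  | zero => simp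
  | add x y _ _ hx hy =>
    rw [mul_add]
    exact Submodule.add_mem _ hx hy
  | smul c x _ hx =>
    rw [mul_smul_comm]
    exact Submodule.smul_mem _ c hx

private theorem red {A B : Set V5} {S : Submodule ℂ (A × B → ℂ)} {N : ℕ}
    (h : ∀ μ : Fin 5 ⊕ Fin 5 →₀ ℕ, μ.degree = N → fn A B (monomial μ 1) ∈ S)
    {m : MvPolynomial (Fin 5 ⊕ Fin 5) ℂ} (hm : m.IsHomogeneous N) : fn A B m ∈ S := by
  have e : fn A B m = ∑ μ ∈ m.support, coeff μ m • fn A B (monomial μ 1) := by
    funext p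
    simp only [fn, Finset.sum_apply, Pi.smul_apply, smul_eq_mul]
    conv_lhs => rw [← support_sum_monomial_coeff m]
    rw [map_sum]
    refine Finset.sum_congr rfl fun μ _ => ?_
    rw [eval_monomial, eval_monomial, one_mul]
  rw [e]
  exact Submodule.sum_mem _ fun μ hμ =>
    Submodule.smul_mem _ _ (h μ (hm.degree_eq_sum_deg_support hμ).symm)

private theorem in_span {A B : Set V5} {n : ℕ}
    (h : ∀ m : MvPolynomial (Fin 5 ⊕ Fin 5) ℂ, m.IsHomogeneous (n + 1) →
      ∃ q : Fin 5 → MvPolynomial (Fin 5 ⊕ Fin 5) ℂ, (∀ i, (q i).IsHomogeneous n) ∧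
        ∀ p : A × B, fn A B m p = ∑ i, ((p.1 : V5) i - (p.2 : V5) i) * fn A B (q i) p) (N : ℕ) :
    ∀ m : MvPolynomial (Fin 5 ⊕ Fin 5) ℂ, m.IsHomogeneous N →
      fn A B m ∈ Submodule.span ℂ (GG A B n N) := by
  induction N with
  | zero =>
    intro m hm
    refine red (fun μ hμ => ?_) hm
    apply Submodule.subset_span
    exact ⟨fun _ => 0, μ, by omega, by simp [hμ], by simp⟩
  | succ N ih =>
    intro m hm
    refine red (fun μ hμ => ?_) hm
    by_cases hN : N + 1 ≤ n
    · apply Submodule.subset_span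
      exact ⟨fun _ => 0, μ, by omega, by simp [hμ], by simp⟩
    · obtain ⟨μ1, hle, hμ1⟩ := Finsupp.exists_le_degree_eq μ (n + 1) (by omega)
      obtain ⟨μ2, rfl⟩ := exists_add_of_le hle
      rw [map_add, hμ1] at hμ
      obtain ⟨q, hq, hqe⟩ := h (monomial μ1 1) (isHomogeneous_monomial 1 hμ1)
      have e1 : monomial (μ1 + μ2) (1 : ℂ) = monomial μ1 1 * monomial μ2 1 := by
        rw [monomial_mul, one_mul]
      have e2 : fn A B (monomial (μ1 + μ2) (1 : ℂ)) =
          ∑ i, dd A B i * fn A B (q i * monomial μ2 1) := by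
        rw [e1, fn_mul']
        funext p
        rw [Pi.mul_apply, hqe p, Finset.sum_mul, Finset.sum_apply]
        refine Finset.sum_congr rfl fun i _ => ?_
        rw [fn_mul', Pi.mul_apply, Pi.mul_apply, dd]
        ring
      rw [e2]
      refine Submodule.sum_mem _ fun i _ => span_mul i (ih _ ?_)
      have h2 := (hq i).mul (isHomogeneous_monomial (1 : ℂ) (rfl : μ2.degree = μ2.degree))
      have e3 : n + μ2.degree = N := by omega
      rwa [e3] at h2

theorem dim_upper {A B : Set V5} {n : ℕ}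
    (h : ∀ m : MvPolynomial (Fin 5 ⊕ Fin 5) ℂ, m.IsHomogeneous (n + 1) →
      ∃ q : Fin 5 → MvPolynomial (Fin 5 ⊕ Fin 5) ℂ, (∀ i, (q i).IsHomogeneous n) ∧
        ∀ p : A × B, fn A B m p = ∑ i, ((p.1 : V5) i - (p.2 : V5) i) * fn A B (q i) p) :
    ∃ K : ℕ, ∀ N : ℕ, ∃ s : Finset (A × B → ℂ), s.card ≤ K * (N + 1) ^ 4 ∧
      ∀ m : MvPolynomial (Fin 5 ⊕ Fin 5) ℂ, m.IsHomogeneous N →
        fn A B m ∈ Submodule.span ℂ (s : Set (A × B → ℂ)) := by
  classical
  obtain ⟨Mo, hMo⟩ : ∃ Mo : Finset (Fin 5 ⊕ Fin 5 →₀ ℕ), ∀ μ, μ ∈ Mo ↔ μ.degree ≤ n :=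
    ⟨(Finsupp.finite_of_degree_le n).toFinset, fun μ => by
      rw [Set.Finite.mem_toFinset]
      rfl⟩
  refine ⟨Mo.card, fun N => ?_⟩
  refine ⟨(Mo ×ˢ (Finset.univ : Finset (Fin 4 → Fin (N + 1)))).image
    (fun x => (∏ i : Fin 4, dd A B i.castSucc ^ (x.2 i : ℕ)) *
      dd A B (Fin.last 4) ^ (N - x.1.degree - ∑ i, (x.2 i : ℕ)) * fn A B (monomial x.1 1)),
    ?_, ?_⟩
  · refine le_trans Finset.card_image_le ?_
    rw [Finset.card_product, Finset.card_univ, Fintype.card_fun, Fintype.card_fin,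
      Fintype.card_fin]
  · intro m hm
    refine Submodule.span_mono ?_ (in_span h N m hm)
    rintro g ⟨a, μ, h1, h2, rfl⟩
    have h3 : ∑ i : Fin 5, a i = ∑ i : Fin 4, a i.castSucc + a (Fin.last 4) :=
      Fin.sum_univ_castSucc a
    have h4 : ∀ i : Fin 4, a i.castSucc < N + 1 := by
      intro i
      have := Finset.single_le_sum (f := a) (fun _ _ => Nat.zero_le _)
        (Finset.mem_univ i.castSucc)
      omega
    rw [Finset.coe_image]
    refine ⟨(μ, fun i => ⟨a i.castSucc, h4 i⟩), ?_, ?_⟩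
    · rw [Finset.mem_coe, Finset.mem_product]
      exact ⟨(hMo μ).mpr h1, Finset.mem_univ _⟩
    · have e5 : N - μ.degree - ∑ i : Fin 4, a i.castSucc = a (Fin.last 4) := by
        rw [h3] at h2
        omega
      have e6 : ∏ i : Fin 5, dd A B i ^ a i = (∏ i : Fin 4, dd A B i.castSucc ^ (a i.castSucc)) *
          dd A B (Fin.last 4) ^ a (Fin.last 4) := Fin.prod_univ_castSucc _
      show (∏ i : Fin 4, dd A B i.castSucc ^ (a i.castSucc)) *
        dd A B (Fin.last 4) ^ (N - μ.degree - ∑ i : Fin 4, a i.castSucc) *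
          fn A B (monomial μ 1) = (∏ i, dd A B i ^ a i) * fn A B (monomial μ 1)
      rw [e5, e6]

end Pool.Agent.XP
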