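import Pool.Agent.Work.MP_80e05d_ag.XP.FDefs

/-!
# Module F9 (size M-L): lower bound for the Hilbert function of `A × B`

PROOF.  (1) If `p : MvPolynomial (Fin 3 ⊕ Fin 3) ℂ` and `eval (Sum.elim (T y) (T' z)) p = 0` for all
`y ∈ A`, `z ∈ B`, then `p = 0`: write `p` as a polynomial in the first three variables with
coefficients polynomials in the last three (`MvPolynomial.sumAlgEquiv`); for fixed `z ∈ B` the
polynomial in the first three variables vanishes at all `T y`, so it is 0 by `hT`, i.e. all its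
coefficients vanish at `T' z`, for all `z ∈ B`; so they are 0 by `hT'`.
(2) The monomials `μ` of degree `N` in 6 variables give homogeneous polynomials
`m_μ = aeval (Sum.elim (fun k => ∑ i, C (T e_i k) * X (inl i)) (fun k => ∑ i, C (T' e_i k) * X (inr i))) μ`
of degree `N` in 10 variables with `fn m_μ (y, z) = eval (Sum.elim (T y) (T' z)) μ`.  By (1) the
functions `fn m_μ` are linearly independent; they lie in the span of `s`, so their number
`choose (N + 5) 5` is at most `s.card` (`linearIndependent_le_span_finset`-type lemma or `finrank`).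
The number of `μ : Fin 3 ⊕ Fin 3 →₀ ℕ` (or `Fin 6 → ℕ`) with sum `N` is `choose (N + 5) 5`
(`Finset.finsuppAntidiag`, `Finset.card_finsuppAntidiag`, `Sym.card_sym_eq_choose`, stars and bars).
-/

open MvPolynomial

namespace Pool.Agent.XP

private theorem ev (u v : Fin 3 → ℂ) (p : MvPolynomial (Fin 3 ⊕ Fin 3) ℂ) :
    eval (Sum.elim u v) p = eval u (map (eval v) (sumAlgEquiv ℂ (Fin 3) (Fin 3) p)) := by
  induction p using MvPolynomial.induction_on with
  | C a => simp
  | add p q hp hq => simp only [map_add, hp, hq]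
  | mul_X p i h => rcases i with i | i <;> simp [h]

private theorem inj {A B : Set V5} {T T' : V5 →ₗ[ℂ] (Fin 3 → ℂ)}
    (hT : ∀ p : MvPolynomial (Fin 3) ℂ, (∀ z ∈ A, eval (T z) p = 0) → p = 0)
    (hT' : ∀ p : MvPolynomial (Fin 3) ℂ, (∀ z ∈ B, eval (T' z) p = 0) → p = 0)
    {p : MvPolynomial (Fin 3 ⊕ Fin 3) ℂ}
    (h : ∀ y ∈ A, ∀ z ∈ B, eval (Sum.elim (T y) (T' z)) p = 0) : p = 0 := by
  have h1 : ∀ z ∈ B, map (eval (T' z)) (sumAlgEquiv ℂ (Fin 3) (Fin 3) p) = 0 := by
    intro z hz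
    apply hT
    intro y hy
    rw [← ev]
    exact h y hy z hz
  have h2 : sumAlgEquiv ℂ (Fin 3) (Fin 3) p = 0 := by
    ext1 d
    rw [coeff_zero]
    apply hT'
    intro z hz
    have h3 := congrArg (coeff d) (h1 z hz)
    rw [coeff_map, coeff_zero] at h3
    exact h3
  exact (map_eq_zero_iff _ (sumAlgEquiv ℂ (Fin 3) (Fin 3)).injective).mp h2

private noncomputable def subs (T T' : V5 →ₗ[ℂ] (Fin 3 → ℂ)) :
    Fin 3 ⊕ Fin 3 → MvPolynomial (Fin 5 ⊕ Fin 5) ℂ :=
  Sum.elim (fun k => ∑ i, C (T (Pi.single i 1) k) * X (Sum.inl i))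
    (fun k => ∑ i, C (T' (Pi.single i 1) k) * X (Sum.inr i))

private theorem lin_eval (T : V5 →ₗ[ℂ] (Fin 3 → ℂ)) (y : V5) (k : Fin 3) :
    ∑ i, T (Pi.single i 1) k * y i = T y k := by
  have h : y = ∑ i, (y i) • (Pi.single i 1 : V5) := by
    ext j
    simp [Finset.sum_apply, Pi.single_apply]
  conv_rhs => rw [h]
  rw [map_sum, Finset.sum_apply]
  simp only [map_smul, Pi.smul_apply, smul_eq_mul]
  exact Finset.sum_congr rfl fun i _ => mul_comm _ _

private theorem subs_eval (T T' : V5 →ₗ[ℂ] (Fin 3 → ℂ)) (y z : V5)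
    (p : MvPolynomial (Fin 3 ⊕ Fin 3) ℂ) :
    eval (Sum.elim y z) (aeval (subs T T') p) = eval (Sum.elim (T y) (T' z)) p := by
  induction p using MvPolynomial.induction_on with
  | C a => simp
  | add p q hp hq => simp only [map_add, hp, hq]
  | mul_X p i h =>
    rw [map_mul, map_mul, h, map_mul, aeval_X, eval_X]
    congr 1
    rcases i with i | i
    · simp only [subs, Sum.elim_inl, map_sum, map_mul, eval_C, eval_X]
      exact lin_eval T y i
    · simp only [subs, Sum.elim_inr, map_sum, map_mul, eval_C, eval_X]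
      exact lin_eval T' z i

private theorem subs_hom (T T' : V5 →ₗ[ℂ] (Fin 3 → ℂ)) (i : Fin 3 ⊕ Fin 3) :
    (subs T T' i).IsHomogeneous 1 := by
  rcases i with i | i
  · show (∑ j, C (T (Pi.single j 1) i) * X (Sum.inl j) :
      MvPolynomial (Fin 5 ⊕ Fin 5) ℂ).IsHomogeneous 1
    exact IsHomogeneous.sum _ _ _ fun j _ => isHomogeneous_C_mul_X _ _
  · show (∑ j, C (T' (Pi.single j 1) i) * X (Sum.inr j) :
      MvPolynomial (Fin 5 ⊕ Fin 5) ℂ).IsHomogeneous 1
    exact IsHomogeneous.sum _ _ _ fun j _ => isHomogeneous_C_mul_X _ _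

private noncomputable def LL (A B : Set V5) (T T' : V5 →ₗ[ℂ] (Fin 3 → ℂ)) :
    MvPolynomial (Fin 3 ⊕ Fin 3) ℂ →ₗ[ℂ] (A × B → ℂ) where
  toFun p := fun w => eval (Sum.elim (T (w.1 : V5)) (T' (w.2 : V5))) p
  map_add' p q := by
    funext w
    simp
  map_smul' c p := by
    funext w
    simp [smul_eval]

theorem dim_lower {A B : Set V5} {T T' : V5 →ₗ[ℂ] (Fin 3 → ℂ)}
    (hT : ∀ p : MvPolynomial (Fin 3) ℂ, (∀ z ∈ A, eval (T z) p = 0) → p = 0)
    (hT' : ∀ p : MvPolynomial (Fin 3) ℂ, (∀ z ∈ B, eval (T' z) p = 0) → p = 0)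
    {N : ℕ} {s : Finset (A × B → ℂ)}
    (hs : ∀ m : MvPolynomial (Fin 5 ⊕ Fin 5) ℂ, m.IsHomogeneous N →
      fn A B m ∈ Submodule.span ℂ (s : Set (A × B → ℂ))) :
    Nat.choose (N + 5) 5 ≤ s.card := by
  classical
  have hker : LinearMap.ker (LL A B T T') = ⊥ := by
    rw [LinearMap.ker_eq_bot']
    intro p hp
    refine inj hT hT' fun y hy z hz => ?_
    exact congrFun hp (⟨y, hy⟩, ⟨z, hz⟩)
  have hli : LinearIndependent ℂ
      (fun μ : ↥(Finset.finsuppAntidiag (Finset.univ : Finset (Fin 3 ⊕ Fin 3)) N) =>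
        LL A B T T' (monomial μ.1 1)) := by
    have h1 := (basisMonomials (Fin 3 ⊕ Fin 3) ℂ).linearIndependent
    rw [coe_basisMonomials] at h1
    have h2 := h1.comp (fun μ : ↥(Finset.finsuppAntidiag (Finset.univ : Finset (Fin 3 ⊕ Fin 3)) N)
      => μ.1) Subtype.val_injective
    exact h2.map' (LL A B T T') hker
  have hcard := linearIndependent_le_span_aux' _ hli (s : Set (A × B → ℂ)) (by
    rintro _ ⟨μ, rfl⟩
    have hμ : μ.1.degree = N := by
      rw [Finsupp.degree_eq_sum]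
      exact (Finset.mem_finsuppAntidiag.mp μ.2).1
    have h5 := (isHomogeneous_monomial (1 : ℂ) hμ).aeval (subs T T') (subs_hom T T')
    rw [one_mul] at h5
    have h3 := hs _ h5
    have h4 : fn A B (aeval (subs T T') (monomial μ.1 (1 : ℂ))) =
        LL A B T T' (monomial μ.1 1) := by
      funext w
      exact subs_eval T T' _ _ _
    rw [h4] at h3
    exact h3)
  rw [Fintype.card_coe, Finset.card_finsuppAntidiag_nat_eq_choose] at hcard
  have e1 : (Finset.univ : Finset (Fin 3 ⊕ Fin 3)).card + N - 1 = N + 5 := by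
    rw [Finset.card_univ, Fintype.card_sum, Fintype.card_fin]
    omega
  rw [e1, Nat.choose_symm_add] at hcard
  simpa using hcard

end Pool.Agent.XP
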