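import Pool.Agent.Work.MP_80e05d_ag.XP.Defs

/-!
Block F (board modxp): definitions.
-/

open MvPolynomial

noncomputable section

namespace Pool.Agent.XP

/-- `f` vanishes on `X` near `y` -/
def ZeroNear (X : Set V5) (y : V5) (f : MvPolynomial (Fin 5) ℂ) : Prop :=
  ∃ δ : ℝ, 0 < δ ∧ ∀ z ∈ X, ‖z - y‖ < δ → eval z f = 0

/-- the ideal of `X` -/
def idl (X : Set V5) : Ideal (MvPolynomial (Fin 5) ℂ) where
  carrier := {f | ∀ y ∈ X, eval y f = 0}
  add_mem' := by
    intro f g hf hg y hy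
    rw [map_add, hf y hy, hg y hy, add_zero]
  zero_mem' := by
    intro y _
    exact map_zero _
  smul_mem' := by
    intro c f hf y hy
    rw [smul_eq_mul, map_mul, hf y hy, mul_zero]

theorem mem_idl {X : Set V5} {f : MvPolynomial (Fin 5) ℂ} :
    f ∈ idl X ↔ ∀ y ∈ X, eval y f = 0 := Iff.rfl

/-- the ideal of the point `y` -/
def mI (y : V5) : Ideal (MvPolynomial (Fin 5) ℂ) := RingHom.ker (eval y)

theorem mem_mI {y : V5} {f : MvPolynomial (Fin 5) ℂ} : f ∈ mI y ↔ eval y f = 0 := Iff.rfl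

/-- the affine polynomial `z ↦ (T (z - y))_k` -/
def lp (T : V5 →ₗ[ℂ] (Fin 3 → ℂ)) (y : V5) (k : Fin 3) : MvPolynomial (Fin 5) ℂ :=
  ∑ i, C (T (Pi.single i 1) k) * (X i - C (y i))

theorem eval_lp (T : V5 →ₗ[ℂ] (Fin 3 → ℂ)) (y z : V5) (k : Fin 3) :
    eval z (lp T y k) = T (z - y) k := by
  have h : z - y = ∑ i, (z i - y i) • (Pi.single i 1 : V5) := by
    ext j
    simp [Finset.sum_apply, Pi.single_apply]
  rw [h, map_sum, Finset.sum_apply]
  simp only [lp, map_sum, map_mul, map_sub, eval_C, eval_X, map_smul, Pi.smul_apply, smul_eq_mul]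
  exact Finset.sum_congr rfl fun i _ => mul_comm _ _

/-- zero sets of polynomials -/
def IsZ (A : Set V5) : Prop :=
  ∃ S : Set (MvPolynomial (Fin 5) ℂ), A = {y | ∀ f ∈ S, eval y f = 0}

/-- closed under all scalars -/
def Conic (A : Set V5) : Prop := ∀ c : ℂ, ∀ y ∈ A, c • y ∈ A

/-- the function on `A × B` given by a polynomial in two groups of five variables -/
def fn (A B : Set V5) (m : MvPolynomial (Fin 5 ⊕ Fin 5) ℂ) : A × B → ℂ :=
  fun p => eval (Sum.elim (p.1 : V5) (p.2 : V5)) m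

end Pool.Agent.XP
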