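import Pool.Agent.Work.MP_80e05d_ag.XP.FDefs

/-!
Block F (board modxp): definitions of the two parts of a splitting.
-/

open MvPolynomial

namespace Pool.Agent.XP

/-- the zero set of `(I : f₀)`, `I` the ideal of `X` -/
def colA (X : Set V5) (f₀ : MvPolynomial (Fin 5) ℂ) : Set V5 :=
  {y | ∀ h : MvPolynomial (Fin 5) ℂ, h * f₀ ∈ idl X → eval y h = 0}

/-- the zero set of `(I : (I : f₀))` -/
def colB (X : Set V5) (f₀ : MvPolynomial (Fin 5) ℂ) : Set V5 :=
  {y | ∀ s : MvPolynomial (Fin 5) ℂ,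
    (∀ h : MvPolynomial (Fin 5) ℂ, h * f₀ ∈ idl X → s * h ∈ idl X) → eval y s = 0}

end Pool.Agent.XP
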