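import Pool.Agent.Work.MP_80e05d_ag.XP.F5
import Pool.Agent.Work.MP_80e05d_ag.XP.F6
import Pool.Agent.Work.MP_80e05d_ag.XP.F7
import Pool.Agent.Work.MP_80e05d_ag.XP.F8
import Pool.Agent.Work.MP_80e05d_ag.XP.F9
import Pool.Agent.Work.MP_80e05d_ag.XP.F10

namespace Pool.Agent.XP
open MvPolynomial

theorem irred_of_smooth {X : Set V5} (hc : IsCone X) (hs : ∀ y ∈ X, y ≠ 0 → SmoothAt X y) :
    Irred X := by
  by_contra hn
  obtain ⟨A, B, zA, zB, cA, cB, hAB, ⟨y, hyX, hy0, δ, hδ, hA⟩, y', hyX', hy0', δ', hδ', hB⟩ :=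
    splitting hc hs hn
  obtain ⟨T, hT⟩ := three_forms hyX (hs y hyX hy0) hδ hA
  obtain ⟨T', hT'⟩ := three_forms hyX' (hs y' hyX' hy0') hδ' hB
  obtain ⟨n, hn⟩ := diag_division zA zB cA cB hAB
  obtain ⟨K, hK⟩ := dim_upper hn
  obtain ⟨N, hN⟩ := choose_gt K
  obtain ⟨s, hs1, hs2⟩ := hK N
  exact absurd (dim_lower hT hT' hs2) (not_le.2 (hs1.trans_lt hN))

end Pool.Agent.XP
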