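import Pool.Agent.Work.MP_80e05d_ag.XP.Defs

/-!
G1 (M-L).  Abstract persistence of an isolated zero of two homogeneous functions on a plane under perturbation of the parameter.

Pi = span of three independent vectors j in V5 (a 3-dimensional subspace), y0 in Pi nonzero, fA, fB : V5 x Par -> C homogeneous of degree 9 in the first variable, strictly differentiable at (y0, L0) and CONTINUOUS/differentiable near there
(we assume ContDiff over C), fA = fB = 0 at (y0,L0), and the only vectors v of Pi killed by DA(.,0) and DB(.,0) are the multiples of y0.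
Conclusion: for every eps > 0 there is a neighbourhood of L0 such that for every L in it there is y in Pi with |y - y0| < eps, fA(y,L) = fB(y,L) = 0, and eps2 > 0 such that
every z in Pi with |z - y| < eps2 and fA(z,L) = fB(z,L) = 0 is a multiple of y.

Proof.  Choose a 2-dimensional complement Pi' of C y0 in Pi and a linear isomorphism C^2 = Pi'.  Psi(p, L) = (fA(y0 + p, L), fB(y0 + p, L)), C^2 x Par -> C^2, is C^1, Psi(0,L0) = 0, and its partial derivative in p at (0,L0) is injective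
(a vector p of Pi' killed by both is a multiple of y0, so 0), hence invertible.  Implicit function theorem: apply the inverse function theorem to Th(p,L) = (Psi(p,L), L) on C^2 x Par (invertible derivative): there are open neighbourhoods
U of (0,L0) and V of (0,L0) such that Th : U -> V is a homeomorphism.  For L near L0 the point (0,L) lies in V, (p(L), L) = Th^(-1)(0,L) depends continuously on L; p(L) is small.  y = y0 + p(L).
Isolated: z in Pi near y: z = lam y0 + p'' with lam near 1 (coordinates in Pi = C y0 + Pi'), so z = lam (y0 + p'), p' = p''/lam near p(L); by homogeneity fA(z,L) = lam^9 fA(y0+p',L), so Psi(p',L) = 0, (p',L) in U and Th injective on U: p' = p(L), z = lam y.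
-/

namespace Pool.Agent.XP
open MvPolynomial Module

theorem persist {j : Fin 3 → V5} (hj : LinearIndependent ℂ j) {y0 : V5} {L0 : Par}
    (hy0 : y0 ∈ Submodule.span ℂ (Set.range j)) (hne : y0 ≠ 0)
    {fA fB : V5 × Par → ℂ} (hA : ContDiff ℂ 1 fA) (hB : ContDiff ℂ 1 fB)
    (homA : ∀ (c : ℂ) y L, fA (c • y, L) = c ^ 9 * fA (y, L))
    (homB : ∀ (c : ℂ) y L, fB (c • y, L) = c ^ 9 * fB (y, L))
    (zA : fA (y0, L0) = 0) (zB : fB (y0, L0) = 0)
    (hd : ∀ v ∈ Submodule.span ℂ (Set.range j), fderiv ℂ fA (y0, L0) (v, 0) = 0 →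
      fderiv ℂ fB (y0, L0) (v, 0) = 0 → ∃ c : ℂ, v = c • y0)
    {ε : ℝ} (hε : 0 < ε) :
    ∀ᶠ L in nhds L0, ∃ y ∈ Submodule.span ℂ (Set.range j), ‖y - y0‖ < ε ∧
      fA (y, L) = 0 ∧ fB (y, L) = 0 ∧
      ∃ ε2 > 0, ∀ z ∈ Submodule.span ℂ (Set.range j), ‖z - y‖ < ε2 → fA (z, L) = 0 →
        fB (z, L) = 0 → ∃ c : ℂ, z = c • y := by
  obtain ⟨Q, hQ⟩ : ∃ Q : Submodule ℂ V5, Q = Submodule.span ℂ (Set.range j) := ⟨_, rfl⟩
  have hfr : finrank ℂ Q = 3 := by
    rw [hQ, finrank_span_eq_card hj]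
    simp
  rw [← hQ] at hy0 hd ⊢
  obtain ⟨i0, hi0⟩ : ∃ i, y0 i ≠ 0 := by
    by_contra h
    push Not at h
    exact hne (funext h)
  obtain ⟨l, hl⟩ : ∃ l : V5 →L[ℂ] ℂ, l y0 = 1 := by
    refine ⟨(y0 i0)⁻¹ • ContinuousLinearMap.proj i0, ?_⟩
    simp [hi0]
  obtain ⟨io, hio⟩ : ∃ io : (Q × Par) →L[ℂ] V5 × Par, ∀ x : Q × Par, io x = ((x.1 : V5), x.2) :=
    ⟨Q.subtypeL.prodMap (ContinuousLinearMap.id ℂ Par), fun x => rfl⟩
  obtain ⟨Th, hTh⟩ : ∃ Th : Q × Par → (ℂ × ℂ × ℂ) × Par, ∀ x : Q × Par,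
      Th x = ((fA ((x.1 : V5), x.2), fB ((x.1 : V5), x.2), l (x.1 : V5)), x.2) :=
    ⟨fun x => ((fA ((x.1 : V5), x.2), fB ((x.1 : V5), x.2), l (x.1 : V5)), x.2), fun x => rfl⟩
  obtain ⟨x0, hx0⟩ : ∃ x0 : Q × Par, x0 = (⟨y0, hy0⟩, L0) := ⟨_, rfl⟩
  have hA' : HasStrictFDerivAt fA (fderiv ℂ fA (y0, L0)) (y0, L0) :=
    hA.contDiffAt.hasStrictFDerivAt (by norm_num)
  have hB' : HasStrictFDerivAt fB (fderiv ℂ fB (y0, L0)) (y0, L0) :=
    hB.contDiffAt.hasStrictFDerivAt (by norm_num)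
  obtain ⟨DA, hDA⟩ : ∃ DA, DA = fderiv ℂ fA (y0, L0) := ⟨_, rfl⟩
  obtain ⟨DB, hDB⟩ : ∃ DB, DB = fderiv ℂ fB (y0, L0) := ⟨_, rfl⟩
  rw [← hDA] at hA' hd
  rw [← hDB] at hB' hd
  have hiox : io x0 = (y0, L0) := by rw [hio, hx0]
  have hAc : HasStrictFDerivAt (fun x : Q × Par => fA ((x.1 : V5), x.2)) (DA.comp io) x0 := by
    rw [← hiox] at hA'
    have h := hA'.comp x0 (io.hasStrictFDerivAt (x := x0))
    refine h.congr_of_eventuallyEq (Filter.Eventually.of_forall fun x => ?_)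
    simp [hio]
  have hBc : HasStrictFDerivAt (fun x : Q × Par => fB ((x.1 : V5), x.2)) (DB.comp io) x0 := by
    rw [← hiox] at hB'
    have h := hB'.comp x0 (io.hasStrictFDerivAt (x := x0))
    refine h.congr_of_eventuallyEq (Filter.Eventually.of_forall fun x => ?_)
    simp [hio]
  obtain ⟨l', hl'⟩ : ∃ l' : (Q × Par) →L[ℂ] ℂ, ∀ x : Q × Par, l' x = l (x.1 : V5) :=
    ⟨l.comp (Q.subtypeL.comp (ContinuousLinearMap.fst ℂ Q Par)), fun x => rfl⟩
  obtain ⟨D, hD⟩ : ∃ D : (Q × Par) →L[ℂ] (ℂ × ℂ × ℂ) × Par,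
      D = (((DA.comp io).prod ((DB.comp io).prod l')).prod (ContinuousLinearMap.snd ℂ Q Par)) :=
    ⟨_, rfl⟩
  have hThD : HasStrictFDerivAt Th D x0 := by
    have h := (hAc.prodMk (hBc.prodMk (l'.hasStrictFDerivAt (x := x0)))).prodMk
      ((ContinuousLinearMap.snd ℂ Q Par).hasStrictFDerivAt (x := x0))
    rw [hD]
    refine h.congr_of_eventuallyEq (Filter.Eventually.of_forall fun x => ?_)
    simp [hTh, hl']
  have hDv : ∀ v : Q × Par, D v = ((DA ((v.1 : V5), v.2), DB ((v.1 : V5), v.2), l (v.1 : V5)), v.2) := by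
    intro v
    rw [hD]
    simp [hio, hl']
  have hinj : Function.Injective (D : (Q × Par) →ₗ[ℂ] (ℂ × ℂ × ℂ) × Par) := by
    rw [← LinearMap.ker_eq_bot, LinearMap.ker_eq_bot']
    intro v hv
    have h := hDv v
    have hv' : D v = 0 := hv
    rw [hv'] at h
    have h2 : v.2 = 0 := (congrArg Prod.snd h).symm
    have h1 := congrArg Prod.fst h
    rw [h2] at h1
    have hA1 : DA ((v.1 : V5), 0) = 0 := (congrArg Prod.fst h1).symm
    have hB1 : DB ((v.1 : V5), 0) = 0 := (congrArg (fun p => p.2.1) h1).symm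
    have hl1 : l (v.1 : V5) = 0 := (congrArg (fun p => p.2.2) h1).symm
    obtain ⟨c, hc⟩ := hd (v.1 : V5) v.1.2 hA1 hB1
    rw [hc, map_smul, hl, smul_eq_mul, mul_one] at hl1
    rw [hl1, zero_smul] at hc
    exact Prod.ext (Subtype.ext hc) h2
  have hdim : finrank ℂ (Q × Par) = finrank ℂ ((ℂ × ℂ × ℂ) × Par) := by
    rw [Module.finrank_prod, Module.finrank_prod, Module.finrank_prod, Module.finrank_prod, hfr]
    simp
  obtain ⟨Dq, hDq⟩ : ∃ Dq : (Q × Par) ≃L[ℂ] (ℂ × ℂ × ℂ) × Par,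
      (Dq : (Q × Par) →L[ℂ] (ℂ × ℂ × ℂ) × Par) = D := by
    refine ⟨(LinearMap.linearEquivOfInjective
      (D : (Q × Par) →ₗ[ℂ] (ℂ × ℂ × ℂ) × Par) hinj hdim).toContinuousLinearEquiv, ?_⟩
    ext v <;> rfl
  rw [← hDq] at hThD
  obtain ⟨T, hT1, hT2, hT3⟩ : ∃ T : OpenPartialHomeomorph (Q × Par) ((ℂ × ℂ × ℂ) × Par),
      (∀ x, T x = Th x) ∧ x0 ∈ T.source ∧ Th x0 ∈ T.target :=
    ⟨hThD.toOpenPartialHomeomorph Th, fun x => rfl, hThD.mem_toOpenPartialHomeomorph_source,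
      hThD.image_mem_toOpenPartialHomeomorph_target⟩
  have hTx0 : Th x0 = ((0, 0, 1), L0) := by
    rw [hTh, hx0]
    simp [zA, zB, hl]
  rw [hTx0] at hT3
  have hc1 : ContinuousAt (fun L : Par => (((0 : ℂ), (0 : ℂ), (1 : ℂ)), L)) L0 := by fun_prop
  have hc2 : ContinuousAt (fun L : Par => T.symm (((0 : ℂ), (0 : ℂ), (1 : ℂ)), L)) L0 :=
    ContinuousAt.comp (f := fun L : Par => (((0 : ℂ), (0 : ℂ), (1 : ℂ)), L)) (g := T.symm)
      (T.continuousAt_symm hT3) hc1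
  have hg0 : T.symm (((0 : ℂ), (0 : ℂ), (1 : ℂ)), L0) = x0 := by
    rw [← hTx0, ← hT1]
    exact T.left_inv hT2
  have he1 : ∀ᶠ L in nhds L0, (((0 : ℂ), (0 : ℂ), (1 : ℂ)), L) ∈ T.target :=
    hc1.eventually (T.open_target.mem_nhds hT3)
  have he2 : ∀ᶠ L in nhds L0,
      ‖((T.symm (((0 : ℂ), (0 : ℂ), (1 : ℂ)), L)).1 : V5) - y0‖ < ε := by
    have hc3 : ContinuousAt
        (fun L : Par => ‖((T.symm (((0 : ℂ), (0 : ℂ), (1 : ℂ)), L)).1 : V5) - y0‖) L0 := by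
      have hcc : Continuous (fun x : Q × Par => ‖((x.1 : V5)) - y0‖) := by fun_prop
      exact ContinuousAt.comp (g := fun x : Q × Par => ‖((x.1 : V5)) - y0‖)
        (f := fun L : Par => T.symm (((0 : ℂ), (0 : ℂ), (1 : ℂ)), L)) hcc.continuousAt hc2
    refine hc3.eventually_lt continuousAt_const ?_
    rw [hg0, hx0]
    simpa using hε
  filter_upwards [he1, he2] with L h1 h2
  obtain ⟨x, hx⟩ : ∃ x, x = T.symm (((0 : ℂ), (0 : ℂ), (1 : ℂ)), L) := ⟨_, rfl⟩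
  rw [← hx] at h2
  have hxs : x ∈ T.source := by
    rw [hx]
    exact T.map_target h1
  have hxT : Th x = ((0, 0, 1), L) := by
    rw [← hT1, hx]
    exact T.right_inv h1
  have hxT' := hxT
  rw [hTh] at hxT'
  have hx2 : x.2 = L := congrArg Prod.snd hxT'
  have hxf := congrArg Prod.fst hxT'
  rw [hx2] at hxf
  have hxA : fA ((x.1 : V5), L) = 0 := congrArg Prod.fst hxf
  have hxB : fB ((x.1 : V5), L) = 0 := congrArg (fun p => p.2.1) hxf
  have hxl : l (x.1 : V5) = 1 := congrArg (fun p => p.2.2) hxf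
  refine ⟨(x.1 : V5), x.1.2, h2, hxA, hxB, ?_⟩
  have hcz : ContinuousAt (fun z : Q => ((l (z : V5))⁻¹ • z, L)) x.1 := by
    have hcl : ContinuousAt (fun z : Q => l (z : V5)) x.1 := by fun_prop
    have hcl2 : ContinuousAt (fun z : Q => (l (z : V5))⁻¹) x.1 :=
      hcl.inv₀ (by rw [hxl]; exact one_ne_zero)
    exact (hcl2.smul continuousAt_id).prodMk continuousAt_const
  have hv0 : ((l (x.1 : V5))⁻¹ • x.1, L) = x := by
    rw [hxl, inv_one, one_smul, ← hx2]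
  have hev1 : ∀ᶠ z : Q in nhds x.1, ((l (z : V5))⁻¹ • z, L) ∈ T.source := by
    refine hcz.eventually (T.open_source.mem_nhds ?_)
    change ((l (x.1 : V5))⁻¹ • x.1, L) ∈ T.source
    rw [hv0]
    exact hxs
  have hev2 : ∀ᶠ z : Q in nhds x.1, l (z : V5) ≠ 0 := by
    have hcl : ContinuousAt (fun z : Q => l (z : V5)) x.1 := by fun_prop
    exact hcl.eventually_ne (by rw [hxl]; exact one_ne_zero)
  obtain ⟨e2, he2, hball⟩ := Metric.eventually_nhds_iff.1 (hev1.and hev2)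
  refine ⟨e2, he2, fun z hz hzd hzA hzB => ?_⟩
  obtain ⟨hz1, hz2⟩ := hball (y := ⟨z, hz⟩) (by
    rw [dist_eq_norm]
    exact hzd)
  have hz2' : l z ≠ 0 := hz2
  have hTz : Th ((l z)⁻¹ • (⟨z, hz⟩ : Q), L) = ((0, 0, 1), L) := by
    rw [hTh]
    have e1 : (((l z)⁻¹ • (⟨z, hz⟩ : Q) : Q) : V5) = (l z)⁻¹ • z := rfl
    simp only [e1, homA, homB, hzA, hzB, mul_zero, map_smul, smul_eq_mul, inv_mul_cancel₀ hz2']
  have heq : ((l z)⁻¹ • (⟨z, hz⟩ : Q), L) = x := by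
    apply T.injOn hz1 hxs
    rw [hT1, hT1, hxT]
    exact hTz
  refine ⟨l z, ?_⟩
  have h5 : (l z)⁻¹ • z = (x.1 : V5) := congrArg (fun p : Q × Par => (p.1 : V5)) heq
  rw [← h5, smul_smul, mul_inv_cancel₀ hz2', one_smul]

end Pool.Agent.XP
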