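import Pool.Agent.Work.MP_80e05d_ag.XP.G1
import Pool.Agent.Work.MP_80e05d_ag.XP.D4
import Pool.Agent.Work.MP_80e05d_ag.XP.D7

/-!
G2 (M).  Persistence for the degeneracy loci XX L.
Points: y0 nonzero in Pi = span j, dim ker NN L0 y0 = 2 and nondegenerate along Pi: for kernel vectors u nonzero and valid xi there is v in Pi with xi (sg v (bb L0 u)) nonzero.

Proof.  exists_adm (D1) at (L0, y0), minors_deriv (D4).  fA(z,L) = det ((NM L z).submatrix r (cA c)), fB with cBB: polynomial functions of (z, L) (entries bilinear in z and (1, L)), so ContDiff; homogeneous of degree 9 in z (NM L (c z) = c NM L z, Matrix.det_smul).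
Zero at (y0,L0): mem_XX_iff, minors_zero_of_mem.  Hypothesis hd of persist: the derivative at (y0,L0) is DA, DB.  The two functionals v -> DA(v,0), v -> DB(v,0) restricted to Pi are independent: a DA + b DB = 0 on Pi gives
<xi, sg v (bb L0 (a kA uA + b kB uB))> = 0 for v in Pi, so a kA uA + b kB uB = 0 by nondegeneracy, a = b = 0.  So their common kernel in the 3-dimensional space Pi has dimension 1, and it contains y0 (sg y0 (bb L0 uA) = NN L0 y0 uA = 0),
so it is C y0.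
Then persist with eps small: the admissible set is open (isOpen_adm), so for L near L0 and |y - y0| < eps' (eps' <= eps) Adm R r c L y holds, hence y in XX L (mem_XX_of_minors).  Isolatedness: z in XX L, z in Pi, |z - y| < eps2: the minors vanish at z
(minors_zero_of_mem), so z is a multiple of y.
-/

namespace Pool.Agent.XP
open MvPolynomial Module



private theorem sg_sum (y : V5) (b : Bsp) :
    sg y b = ∑ i, y i • sg (Pi.single i 1 : V5) b := by
  have h : y = ∑ i, y i • (Pi.single i 1 : V5) := by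
    funext k
    simp [Finset.sum_apply, Pi.single_apply]
  conv_lhs => rw [h]
  rw [map_sum, LinearMap.sum_apply]
  simp only [map_smul, LinearMap.smul_apply]

private noncomputable def linE (i : Fin 5) (q : Fin 3 × Fin 4) (c : Fin 2 × Fin 5) :
    Par →ₗ[ℂ] ℂ where
  toFun L := sg (Pi.single i 1 : V5) (emb (0, ap L (eU c))) q.1 q.2
  map_add' := by
    intro x x'
    have : emb ((0 : Usp), ap (x + x') (eU c)) = emb (0, ap x (eU c)) + emb (0, ap x' (eU c)) := by
      rw [← map_add]; simp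
    rw [this, map_add]
    rfl
  map_smul' := by
    intro a x
    have : emb ((0 : Usp), ap (a • x) (eU c)) = a • emb ((0 : Usp), ap x (eU c)) := by
      rw [← map_smul]; simp
    rw [this, map_smul]
    rfl

private theorem entry_eq (p : V5 × Par) (q : Fin 3 × Fin 4) (c : Fin 2 × Fin 5) :
    NM p.2 p.1 q c = ∑ i, p.1 i * (sg (Pi.single i 1 : V5) (emb (eU c, 0)) q.1 q.2 +
      linE i q c p.2) := by
  change sg p.1 (bb p.2 (eU c)) q.1 q.2 = _
  rw [sg_sum, Finset.sum_apply, Finset.sum_apply]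
  refine Finset.sum_congr rfl fun i _ => ?_
  have h : bb p.2 (eU c) = emb (eU c, 0) + emb (0, ap p.2 (eU c)) := by
    rw [← map_add]
    simp [bb]
  rw [h, map_add]
  rfl

private theorem contDiff_entry (q : Fin 3 × Fin 4) (c : Fin 2 × Fin 5) :
    ContDiff ℂ 1 (fun p : V5 × Par => NM p.2 p.1 q c) := by
  simp only [entry_eq]
  refine ContDiff.sum fun i _ => ?_
  refine ContDiff.mul ((contDiff_apply ℂ ℂ i).comp contDiff_fst) ?_
  refine contDiff_const.add ?_
  exact (LinearMap.toContinuousLinearMap (linE i q c)).contDiff.comp contDiff_snd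

private theorem contDiff_minor (r : Fin 9 → Fin 3 × Fin 4) (c : Fin 9 → Fin 2 × Fin 5) :
    ContDiff ℂ 1 (fun p : V5 × Par => ((NM p.2 p.1).submatrix r c).det) := by
  simp only [Matrix.det_apply]
  refine ContDiff.sum fun g _ => ?_
  refine ContDiff.const_smul _ ?_
  refine contDiff_prod fun i _ => ?_
  exact contDiff_entry _ _

private theorem NM_smul (c : ℂ) (L : Par) (y : V5) : NM L (c • y) = c • NM L y := by
  funext q u
  change sg (c • y) (bb L (eU u)) q.1 q.2 = c * sg y (bb L (eU u)) q.1 q.2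
  rw [map_smul]
  rfl

private theorem hom_minor (r : Fin 9 → Fin 3 × Fin 4) (c : Fin 9 → Fin 2 × Fin 5) (a : ℂ)
    (y : V5) (L : Par) :
    ((NM L (a • y)).submatrix r c).det = a ^ 9 * ((NM L y).submatrix r c).det := by
  rw [NM_smul, Matrix.submatrix_smul, Pi.smul_apply, Pi.smul_apply, Matrix.det_smul]
  simp

private theorem common_kernel {j : Fin 3 → V5} (hj : LinearIndependent ℂ j) {y0 : V5} {L0 : Par}
    (hy0 : y0 ∈ Submodule.span ℂ (Set.range j)) (hne : y0 ≠ 0)
    (hn : ∀ u, NN L0 y0 u = 0 → u ≠ 0 → ∀ xi, Valid L0 y0 xi →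
      ∃ v ∈ Submodule.span ℂ (Set.range j), xi (sg v (bb L0 u)) ≠ 0)
    {xi : Hsp} {uA uB : Usp} (hval : Valid L0 y0 (dp xi)) (hli : LinearIndependent ℂ ![uA, uB])
    (hA0 : NN L0 y0 uA = 0) (hB0 : NN L0 y0 uB = 0) {v : V5}
    (hv : v ∈ Submodule.span ℂ (Set.range j)) (h1' : dp xi (sg v (bb L0 uA)) = 0)
    (h2' : dp xi (sg v (bb L0 uB)) = 0) : ∃ c : ℂ, v = c • y0 := by
  let W := Submodule.span ℂ (Set.range j)
  let lA : V5 →ₗ[ℂ] ℂ := (dp xi).comp (sg.flip (bb L0 uA))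
  let lB : V5 →ₗ[ℂ] ℂ := (dp xi).comp (sg.flip (bb L0 uB))
  let φ : W →ₗ[ℂ] ℂ × ℂ := (lA.prod lB).comp W.subtype
  have hφ : ∀ w : W, φ w = (dp xi (sg (w : V5) (bb L0 uA)), dp xi (sg (w : V5) (bb L0 uB))) :=
    fun w => rfl
  clear_value φ
  have hsurj : LinearMap.range φ = ⊤ := by
    by_contra hlt
    obtain ⟨f, hf0, hf⟩ := Submodule.exists_le_ker_of_lt_top _ (lt_top_iff_ne_top.2 hlt)
    have hfe : ∀ x y : ℂ, f (x, y) = x * f (1, 0) + y * f (0, 1) := by
      intro x y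
      have : ((x, y) : ℂ × ℂ) = x • ((1, 0) : ℂ × ℂ) + y • ((0, 1) : ℂ × ℂ) := by
        simp
      rw [this, map_add, map_smul, map_smul, smul_eq_mul, smul_eq_mul]
    generalize hfa : f (1, 0) = a at hfe
    generalize hfb : f (0, 1) = b at hfe
    have hu0 : a • uA + b • uB ≠ 0 := by
      intro h
      have h3 := LinearIndependent.pair_iff.1 hli _ _ h
      apply hf0
      refine LinearMap.ext fun q => ?_
      obtain ⟨x, y⟩ := q
      rw [hfe, h3.1, h3.2, mul_zero, mul_zero, add_zero]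
      rfl
    have hu1 : NN L0 y0 (a • uA + b • uB) = 0 := by
      rw [map_add, map_smul, map_smul, hA0, hB0, smul_zero, smul_zero, add_zero]
    obtain ⟨w, hw, hw1⟩ := hn _ hu1 hu0 _ hval
    apply hw1
    have h3 : f (φ ⟨w, hw⟩) = 0 := hf ⟨⟨w, hw⟩, rfl⟩
    rw [hφ, hfe] at h3
    rw [map_add, map_smul, map_smul, map_add, map_smul, map_smul, map_add, map_smul, map_smul,
      smul_eq_mul, smul_eq_mul]
    linear_combination h3
  have hW : finrank ℂ W = 3 := by
    have := finrank_span_eq_card hj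
    rwa [Fintype.card_fin] at this
  have hker : finrank ℂ (LinearMap.ker φ) = 1 := by
    have h3 := LinearMap.finrank_range_add_finrank_ker φ
    rw [hsurj, finrank_top, hW, Module.finrank_prod, Module.finrank_self] at h3
    omega
  have hyk : (⟨y0, hy0⟩ : W) ∈ LinearMap.ker φ := by
    rw [LinearMap.mem_ker, hφ]
    change (dp xi (NN L0 y0 uA), dp xi (NN L0 y0 uB)) = 0
    rw [hA0, hB0, map_zero]
    rfl
  have hvk : (⟨v, hv⟩ : W) ∈ LinearMap.ker φ := by
    rw [LinearMap.mem_ker, hφ]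
    exact Prod.ext h1' h2'
  have hyne : (⟨⟨y0, hy0⟩, hyk⟩ : LinearMap.ker φ) ≠ 0 := by
    intro h
    exact hne (congrArg (fun t : LinearMap.ker φ => ((t : W) : V5)) h)
  have h5 := (finrank_eq_one_iff_of_nonzero' (K := ℂ) (V := LinearMap.ker φ)
    (⟨⟨y0, hy0⟩, hyk⟩ : LinearMap.ker φ) hyne).1 hker
  obtain ⟨a, ha⟩ := h5 (⟨⟨v, hv⟩, hvk⟩ : LinearMap.ker φ)
  exact ⟨a, (congrArg (fun t : LinearMap.ker φ => ((t : W) : V5)) ha).symm⟩

private theorem adm_near {R : Fin 3 → Fin 3 × Fin 4} (hR : Function.Injective R)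
    (r : Fin 9 → Fin 3 × Fin 4) (c : Fin 10 → Fin 2 × Fin 5) {y0 : V5} {L0 : Par}
    (ha : Adm R r c L0 y0) : ∃ δ : ℝ, 0 < δ ∧ ∀ (y : V5) (L : Par), ‖y - y0‖ < δ → dist L L0 < δ →
      Adm R r c L y := by
  obtain ⟨δ, hδ, hball⟩ := Metric.isOpen_iff.1 (isOpen_adm hR r c) (y0, L0) ha
  refine ⟨δ, hδ, fun y L h1 h2 => ?_⟩
  have hdist : (y, L) ∈ Metric.ball (y0, L0) δ := by
    rw [Metric.mem_ball, Prod.dist_eq, max_lt_iff]
    refine ⟨?_, h2⟩
    rw [dist_eq_norm]
    exact h1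
  have h3 := hball hdist
  rw [Set.mem_ofPred_eq] at h3
  exact h3

theorem persist_XX {j : Fin 3 → V5} (hj : LinearIndependent ℂ j) {y0 : V5} {L0 : Par}
    (hy0 : y0 ∈ Submodule.span ℂ (Set.range j)) (hne : y0 ≠ 0)
    (hk : finrank ℂ (LinearMap.ker (NN L0 y0)) = 2)
    (hn : ∀ u, NN L0 y0 u = 0 → u ≠ 0 → ∀ xi, Valid L0 y0 xi →
      ∃ v ∈ Submodule.span ℂ (Set.range j), xi (sg v (bb L0 u)) ≠ 0)
    {ε : ℝ} (hε : 0 < ε) :
    ∀ᶠ L in nhds L0, ∃ y ∈ XX L, y ∈ Submodule.span ℂ (Set.range j) ∧ ‖y - y0‖ < ε ∧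
      ∃ ε2 > 0, ∀ z ∈ XX L, z ∈ Submodule.span ℂ (Set.range j) → ‖z - y‖ < ε2 →
        ∃ c : ℂ, z = c • y := by
  obtain ⟨R, r, c, hR, hr, hRr, hc, ha⟩ := exists_adm hne hk
  obtain ⟨xi, uA, uB, kA, kB, DA, DB, hval, hli, hA0, hB0, hkA, hkB, hdA, hdB, hDA, hDB⟩ :=
    minors_deriv hr hRr hc hne hk ha
  have hmem : y0 ∈ XX L0 := (mem_XX_iff L0 y0).2 hk.ge
  obtain ⟨zA, zB⟩ := minors_zero_of_mem r c hmem
  have hd : ∀ v ∈ Submodule.span ℂ (Set.range j), DA (v, 0) = 0 → DB (v, 0) = 0 →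
      ∃ c : ℂ, v = c • y0 := by
    intro v hv h1 h2
    rw [hDA] at h1
    rw [hDB] at h2
    exact common_kernel hj hy0 hne hn hval hli hA0 hB0 hv ((mul_eq_zero.1 h1).resolve_left hkA)
      ((mul_eq_zero.1 h2).resolve_left hkB)
  obtain ⟨δ, hδ, hball⟩ := adm_near hR r c ha
  generalize hfA : (fun p : V5 × Par => ((NM p.2 p.1).submatrix r (cA c)).det) = fA at hdA
  generalize hfB : (fun p : V5 × Par => ((NM p.2 p.1).submatrix r (cBB c)).det) = fB at hdB
  have eA : ∀ y L, fA (y, L) = ((NM L y).submatrix r (cA c)).det := by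
    intro y L; rw [← hfA]
  have eB : ∀ y L, fB (y, L) = ((NM L y).submatrix r (cBB c)).det := by
    intro y L; rw [← hfB]
  have cA' : ContDiff ℂ 1 fA := by rw [← hfA]; exact contDiff_minor r (cA c)
  have cB' : ContDiff ℂ 1 fB := by rw [← hfB]; exact contDiff_minor r (cBB c)
  have hp := persist hj hy0 hne cA' cB'
    (fun a y L => by rw [eA, eA]; exact hom_minor r (cA c) a y L)
    (fun a y L => by rw [eB, eB]; exact hom_minor r (cBB c) a y L)
    (by rw [eA]; exact zA) (by rw [eB]; exact zB)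
    (by
      intro v hv h1 h2
      rw [hdA.hasFDerivAt.fderiv] at h1
      rw [hdB.hasFDerivAt.fderiv] at h2
      exact hd v hv h1 h2) (lt_min hε hδ)
  have hL : ∀ᶠ L in nhds L0, dist L L0 < δ := Metric.ball_mem_nhds L0 hδ
  filter_upwards [hp, hL] with L h1 h2
  obtain ⟨y, hy, hy1, hyA, hyB, ε2, hε2, hz⟩ := h1
  rw [eA] at hyA
  rw [eB] at hyB
  have hadm : Adm R r c L y := hball y L (hy1.trans_le (min_le_right _ _)) h2
  refine ⟨y, mem_XX_of_minors hr hRr hc hadm hyA hyB, hy, hy1.trans_le (min_le_left _ _), ε2, hε2,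
    fun z hzX hzW hzd => ?_⟩
  obtain ⟨h3, h4⟩ := minors_zero_of_mem r c hzX
  exact hz z hzW hzd (by rw [eA]; exact h3) (by rw [eB]; exact h4)

end Pool.Agent.XP
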