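import Pool.Agent.Work.MP_80e05d_ag.XP.A0

/-!
G3 (definitions, complete).  The special parameter L0: ap L0 u = ((i+1)(u_0i + u_1i))_i, c = 0), the plane Pi = {y1 = 0, y3 = y4}, spanned by jj, and the 15 points
yy p r = (p+1, 0, r+1, (p+1)(r+1), (p+1)(r+1)), p <= r in Fin 5, and e1 = (1,0,0,0,0), e2 = (0,0,1,0,0), e3 = (0,0,0,1,1).
-/

namespace Pool.Agent.XP
open MvPolynomial Module

/-- the special parameter -/
noncomputable def L0 : Par := fun _ i => (fun k => if k = i then ((i : ℕ) : ℂ) + 1 else 0, 0)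

theorem ap_L0 (u : Usp) : ap L0 u = (fun i : Fin 5 => (((i : ℕ) : ℂ) + 1) * (u 0 i + u 1 i), 0) := by
  rw [ap_apply]
  refine Prod.ext ?_ ?_
  · funext k
    simp only [L0, Fin.sum_univ_two, Prod.fst_add, Prod.fst_sum, Prod.smul_fst, Pi.add_apply,
      Finset.sum_apply, Pi.smul_apply, smul_eq_mul, mul_ite, mul_zero, Finset.sum_ite_eq,
      Finset.mem_univ, if_true]
    ring
  · simp [L0, Prod.snd_sum]

/-- the plane -/
def jj : Fin 3 → V5 := ![![1, 0, 0, 0, 0], ![0, 0, 1, 0, 0], ![0, 0, 0, 1, 1]]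

/-- the special points -/
def yy (p r : Fin 5) : V5 :=
  ![((p : ℕ) : ℂ) + 1, 0, ((r : ℕ) : ℂ) + 1, (((p : ℕ) : ℂ) + 1) * (((r : ℕ) : ℂ) + 1),
    (((p : ℕ) : ℂ) + 1) * (((r : ℕ) : ℂ) + 1)]

/-- coefficients of the bidiagonal system -/
def alp (p r i : Fin 5) : ℂ := (((p : ℕ) : ℂ) + 1) * (((r : ℕ) : ℂ) - ((i : ℕ) : ℂ))
/-- coefficients of the bidiagonal system -/
def bet (p r i : Fin 5) : ℂ := (((r : ℕ) : ℂ) + 1) * (((p : ℕ) : ℂ) - ((i : ℕ) : ℂ))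

end Pool.Agent.XP
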