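import Pool.Agent.Work.MP_80e05d_ag.XP.G3

/-!
G4 (M).  The bidiagonal system alp i Phi_(i+1) + bet i Phi_i = 0 (i = 0..4), p <= r; alp i = (p+1)(r-i) vanishes only for i = r, bet i = (r+1)(p-i) only for i = p.

bid_zero: solutions vanish at the indices p < i <= r.   bid_det: a solution with Phi_p = 0 and Phi_(r+1) = 0 is 0.   bid_exists: for given values x, y there is a solution with Phi_p = x, Phi_(r+1) = y.
dual_supp: eta with sum_i eta_i (alp i Phi_(i+1) + bet i Phi_i) = 0 for ALL Phi (no equations on Phi) vanishes outside [p, r].   dual_ne: if moreover eta is nonzero then eta_p and eta_r are nonzero.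

Proof.  Downwards from p: Phi_i = - alp i Phi_(i+1) / bet i for i < p; between: Phi_(p+1) = 0, ..., upwards from r+1: Phi_(i+1) = - bet i Phi_i / alp i for i > r.  Dual: testing with Phi = unit vectors:
eta_0 bet 0 = 0, eta_(k-1) alp (k-1) + eta_k bet k = 0 (k = 1..4), eta_4 alp 4 = 0.
Practical proof: interval_cases / fin_cases on p and r (15 cases with p <= r), all coefficients are explicit numbers; simp [alp, bet, Fin.forall_fin_succ] and linear arithmetic over C (norm_num, linear_combination), or the generic recursion above.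
-/

namespace Pool.Agent.XP
open MvPolynomial Module

private theorem g4_lift {k : ℕ} (P : Fin k → ℂ) : ∃ Q : ℕ → ℂ, ∀ i : Fin k, P i = Q (i : ℕ) :=
  ⟨fun n ↦ if h : n < k then P ⟨n, h⟩ else 0, fun i ↦ by simp⟩

private noncomputable def g4A (p r n : ℕ) : ℂ := ((p : ℂ) + 1) * ((r : ℂ) - (n : ℂ))
private noncomputable def g4B (p r n : ℕ) : ℂ := ((r : ℂ) + 1) * ((p : ℂ) - (n : ℂ))

private theorem g4A_ne {p r n : ℕ} (h : n ≠ r) : g4A p r n ≠ 0 := by
  unfold g4A
  refine mul_ne_zero (by exact_mod_cast Nat.succ_ne_zero p) ?_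
  intro h0
  apply h
  have h1 : (r : ℂ) = (n : ℂ) := sub_eq_zero.mp h0
  exact (by exact_mod_cast h1 : r = n).symm

private theorem g4B_ne {p r n : ℕ} (h : n ≠ p) : g4B p r n ≠ 0 := by
  unfold g4B
  refine mul_ne_zero (by exact_mod_cast Nat.succ_ne_zero r) ?_
  intro h0
  apply h
  have h1 : (p : ℂ) = (n : ℂ) := sub_eq_zero.mp h0
  exact (by exact_mod_cast h1 : p = n).symm

private theorem g4A_zero (p r : ℕ) : g4A p r r = 0 := by
  unfold g4A
  rw [sub_self, mul_zero]

private theorem g4B_zero (p r : ℕ) : g4B p r p = 0 := by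
  unfold g4B
  rw [sub_self, mul_zero]

private theorem g4_rel {p r : Fin 5} {P : Fin 6 → ℂ} {Q : ℕ → ℂ} (hQ : ∀ i : Fin 6, P i = Q (i : ℕ))
    (h : ∀ i : Fin 5, alp p r i * P i.succ + bet p r i * P i.castSucc = 0) :
    ∀ n, n < 5 → g4A p r n * Q (n + 1) + g4B p r n * Q n = 0 := by
  intro n hn
  have h1 := h ⟨n, hn⟩
  rw [hQ, hQ] at h1
  exact h1

private theorem g4_mid {p r : ℕ} (hr : r < 5) {Q : ℕ → ℂ}
    (h : ∀ n, n < 5 → g4A p r n * Q (n + 1) + g4B p r n * Q n = 0) :
    ∀ n, p < n → n ≤ r → Q n = 0 := by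
  intro n
  induction n with
  | zero => intro h1; omega
  | succ m ih =>
    intro h1 h2
    have h3 := h m (by omega)
    have h4 : g4B p r m * Q m = 0 := by
      rcases Nat.lt_or_ge p m with h5 | h5
      · rw [ih h5 (by omega), mul_zero]
      · have : m = p := by omega
        rw [this, g4B_zero, zero_mul]
    rw [h4, add_zero] at h3
    exact (mul_eq_zero.mp h3).resolve_left (g4A_ne (by omega))

private theorem g4_down {p r : ℕ} (hp : p < 5) {Q : ℕ → ℂ}
    (h : ∀ n, n < 5 → g4A p r n * Q (n + 1) + g4B p r n * Q n = 0) (h0 : Q p = 0) :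
    ∀ k, k ≤ p → Q (p - k) = 0 := by
  intro k
  induction k with
  | zero => intro _; exact h0
  | succ m ih =>
    intro h1
    have h2 := ih (by omega)
    have h3 := h (p - (m + 1)) (by omega)
    have h4 : p - (m + 1) + 1 = p - m := by omega
    rw [h4, h2, mul_zero, zero_add] at h3
    exact (mul_eq_zero.mp h3).resolve_left (g4B_ne (by omega))

private theorem g4_up {p r : ℕ} {Q : ℕ → ℂ}
    (h : ∀ n, n < 5 → g4A p r n * Q (n + 1) + g4B p r n * Q n = 0) (h0 : Q (r + 1) = 0) :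
    ∀ k, r + 1 + k < 6 → Q (r + 1 + k) = 0 := by
  intro k
  induction k with
  | zero => intro _; exact h0
  | succ m ih =>
    intro h1
    have h2 := ih (by omega)
    have h3 := h (r + 1 + m) (by omega)
    rw [h2, mul_zero, add_zero] at h3
    exact (mul_eq_zero.mp h3).resolve_left (g4A_ne (by omega))

private noncomputable def g4P (p r : ℕ) (x y : ℂ) (n : ℕ) : ℂ :=
  if n ≤ p then x * ∏ j ∈ Finset.Ico n p, (-(g4A p r j / g4B p r j))
  else if n ≤ r then 0 else y * ∏ j ∈ Finset.Ico (r + 1) n, (-(g4B p r j / g4A p r j))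

private theorem g4P_rel {p r : ℕ} (hpr : p ≤ r) (x y : ℂ) (n : ℕ) :
    g4A p r n * g4P p r x y (n + 1) + g4B p r n * g4P p r x y n = 0 := by
  rcases Nat.lt_trichotomy n p with h | h | h
  · have hB := g4B_ne (p := p) (r := r) (n := n) (by omega)
    unfold g4P
    rw [if_pos (by omega), if_pos h.le, Finset.prod_eq_prod_Ico_succ_bot h]
    field_simp
    ring
  · subst h
    rw [g4B_zero, zero_mul, add_zero]
    rcases Nat.eq_or_lt_of_le hpr with h1 | h1
    · rw [← h1, g4A_zero, zero_mul]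
    · unfold g4P
      rw [if_neg (by omega), if_pos (by omega), mul_zero]
  · rcases Nat.lt_trichotomy n r with h1 | h1 | h1
    · unfold g4P
      rw [if_neg (by omega), if_pos (by omega), if_neg (by omega), if_pos (by omega), mul_zero,
        mul_zero, add_zero]
    · subst h1
      rw [g4A_zero, zero_mul, zero_add]
      unfold g4P
      rw [if_neg (by omega), if_pos le_rfl, mul_zero]
    · have hA := g4A_ne (p := p) (r := r) (n := n) (by omega)
      unfold g4P
      rw [if_neg (by omega), if_neg (by omega), if_neg (by omega), if_neg (by omega),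
        Finset.prod_Ico_succ_top (by omega)]
      field_simp
      ring

private theorem g4_dual {p r : Fin 5} {e : Fin 5 → ℂ} {E : ℕ → ℂ}
    (hE : ∀ i : Fin 5, e i = E (i : ℕ))
    (h : ∀ P : Fin 6 → ℂ, ∑ i, e i * (alp p r i * P i.succ + bet p r i * P i.castSucc) = 0) :
    E 0 * g4B p r 0 = 0 ∧ (∀ n, n + 1 < 5 → E n * g4A p r n + E (n + 1) * g4B p r (n + 1) = 0) ∧
      E 4 * g4A p r 4 = 0 := by
  have h1 : ∀ i : Fin 5, alp p r i = g4A p r i := fun i ↦ rfl
  have h2 : ∀ i : Fin 5, bet p r i = g4B p r i := fun i ↦ rfl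
  have key : ∀ k : ℕ, ∑ i : Fin 5, E (i : ℕ) * (g4A p r i * (if (i : ℕ) + 1 = k then 1 else 0) +
      g4B p r i * (if (i : ℕ) = k then 1 else 0)) = 0 := by
    intro k
    have h3 := h (fun j ↦ if (j : ℕ) = k then 1 else 0)
    simp only [hE, h1, h2, Fin.val_succ, Fin.val_castSucc] at h3
    exact h3
  have v0 : ((0 : Fin 5) : ℕ) = 0 := rfl
  have v1 : ((1 : Fin 5) : ℕ) = 1 := rfl
  have v2 : ((2 : Fin 5) : ℕ) = 2 := rfl
  have v3 : ((3 : Fin 5) : ℕ) = 3 := rfl
  have v4 : ((4 : Fin 5) : ℕ) = 4 := rfl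
  simp only [Fin.sum_univ_five, v0, v1, v2, v3, v4] at key
  refine ⟨?_, ?_, ?_⟩
  · have := key 0
    norm_num at this
    rw [mul_eq_zero]
    exact this
  · intro n hn
    have hn4 : n < 4 := by omega
    interval_cases n
    · have := key 1
      norm_num at this
      exact this
    · have := key 2
      norm_num at this
      exact this
    · have := key 3
      norm_num at this
      exact this
    · have := key 4
      norm_num at this
      exact this
  · have := key 5
    norm_num at this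
    rw [mul_eq_zero]
    exact this

private theorem g4_dlow {p r : ℕ} {E : ℕ → ℂ} (h0 : E 0 * g4B p r 0 = 0)
    (h : ∀ n, n + 1 < 5 → E n * g4A p r n + E (n + 1) * g4B p r (n + 1) = 0) (hp : p < 5) :
    ∀ n, n < p → E n = 0 := by
  intro n
  induction n with
  | zero =>
    intro h1
    exact (mul_eq_zero.mp h0).resolve_right (g4B_ne (by omega))
  | succ m ih =>
    intro h1
    have h2 := h m (by omega)
    rw [ih (by omega), zero_mul, zero_add] at h2
    exact (mul_eq_zero.mp h2).resolve_right (g4B_ne (by omega))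

private theorem g4_dhigh {p r : ℕ} {E : ℕ → ℂ}
    (h : ∀ n, n + 1 < 5 → E n * g4A p r n + E (n + 1) * g4B p r (n + 1) = 0)
    (h5 : E 4 * g4A p r 4 = 0) : ∀ k, k ≤ 4 → r < 4 - k → E (4 - k) = 0 := by
  intro k
  induction k with
  | zero =>
    intro _ h1
    exact (mul_eq_zero.mp h5).resolve_right (g4A_ne (by omega))
  | succ m ih =>
    intro h1 h2
    have h3 := h (4 - (m + 1)) (by omega)
    have h4 : 4 - (m + 1) + 1 = 4 - m := by omega
    rw [h4, ih (by omega) (by omega), zero_mul, add_zero] at h3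
    exact (mul_eq_zero.mp h3).resolve_right (g4A_ne (by omega))

private theorem g4_dup {p r : ℕ} {E : ℕ → ℂ}
    (h : ∀ n, n + 1 < 5 → E n * g4A p r n + E (n + 1) * g4B p r (n + 1) = 0)
    (h0 : E p = 0) : ∀ k, p + k < 5 → E (p + k) = 0 := by
  intro k
  induction k with
  | zero => intro _; exact h0
  | succ m ih =>
    intro h1
    have h3 := h (p + m) (by omega)
    rw [ih (by omega), zero_mul, zero_add] at h3
    exact (mul_eq_zero.mp h3).resolve_right (g4B_ne (by omega))

private theorem g4_ddown {p r : ℕ} {E : ℕ → ℂ} (hr : r < 5)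
    (h : ∀ n, n + 1 < 5 → E n * g4A p r n + E (n + 1) * g4B p r (n + 1) = 0)
    (h0 : E r = 0) : ∀ k, k ≤ r → E (r - k) = 0 := by
  intro k
  induction k with
  | zero => intro _; exact h0
  | succ m ih =>
    intro h1
    have h3 := h (r - (m + 1)) (by omega)
    have h4 : r - (m + 1) + 1 = r - m := by omega
    rw [h4, ih (by omega), zero_mul, add_zero] at h3
    exact (mul_eq_zero.mp h3).resolve_right (g4A_ne (by omega))

theorem bid_zero {p r : Fin 5} (hpr : p ≤ r) {P : Fin 6 → ℂ}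
    (h : ∀ i : Fin 5, alp p r i * P i.succ + bet p r i * P i.castSucc = 0) :
    ∀ i : Fin 6, (p : ℕ) < i → (i : ℕ) ≤ r → P i = 0 := by
  obtain ⟨Q, hQ⟩ := g4_lift P
  intro i h1 h2
  rw [hQ]
  exact g4_mid r.isLt (g4_rel hQ h) i h1 h2

theorem bid_det {p r : Fin 5} (hpr : p ≤ r) {P : Fin 6 → ℂ}
    (h : ∀ i : Fin 5, alp p r i * P i.succ + bet p r i * P i.castSucc = 0)
    (h1 : P p.castSucc = 0) (h2 : P r.succ = 0) : P = 0 := by
  obtain ⟨Q, hQ⟩ := g4_lift P
  have hrel := g4_rel hQ h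
  rw [hQ] at h1 h2
  have h1' : Q (p : ℕ) = 0 := h1
  have h2' : Q ((r : ℕ) + 1) = 0 := h2
  funext i
  rw [hQ, Pi.zero_apply]
  rcases Nat.lt_or_ge (p : ℕ) i with h3 | h3
  · rcases Nat.lt_or_ge (r : ℕ) i with h4 | h4
    · have h5 := g4_up hrel h2' ((i : ℕ) - ((r : ℕ) + 1)) (by omega)
      have h6 : (r : ℕ) + 1 + ((i : ℕ) - ((r : ℕ) + 1)) = i := by omega
      rwa [h6] at h5
    · exact g4_mid r.isLt hrel i h3 h4
  · have h5 := g4_down p.isLt hrel h1' ((p : ℕ) - i) (by omega)
    have h6 : (p : ℕ) - ((p : ℕ) - i) = i := by omega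
    rwa [h6] at h5

theorem bid_exists {p r : Fin 5} (hpr : p ≤ r) (x y : ℂ) : ∃ P : Fin 6 → ℂ,
    (∀ i : Fin 5, alp p r i * P i.succ + bet p r i * P i.castSucc = 0) ∧
      P p.castSucc = x ∧ P r.succ = y := by
  have hpr' : (p : ℕ) ≤ (r : ℕ) := hpr
  refine ⟨fun i ↦ g4P p r x y i, fun i ↦ g4P_rel hpr' x y i, ?_, ?_⟩
  · change g4P p r x y (p : ℕ) = x
    unfold g4P
    rw [if_pos le_rfl, Finset.Ico_self, Finset.prod_empty, mul_one]
  · change g4P p r x y ((r : ℕ) + 1) = y
    unfold g4P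
    rw [if_neg (by omega), if_neg (by omega), Finset.Ico_self, Finset.prod_empty, mul_one]

theorem dual_supp {p r : Fin 5} (hpr : p ≤ r) {e : Fin 5 → ℂ}
    (h : ∀ P : Fin 6 → ℂ, ∑ i, e i * (alp p r i * P i.succ + bet p r i * P i.castSucc) = 0) :
    ∀ i : Fin 5, (i < p ∨ r < i) → e i = 0 := by
  obtain ⟨E, hE⟩ := g4_lift e
  obtain ⟨h0, h1, h5⟩ := g4_dual hE h
  intro i hi
  rw [hE]
  rcases hi with hi | hi
  · exact g4_dlow h0 h1 p.isLt i hi
  · have hi' : (r : ℕ) < (i : ℕ) := hi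
    have h6 := g4_dhigh h1 h5 (4 - (i : ℕ)) (by omega) (by omega)
    have h7 : 4 - (4 - (i : ℕ)) = i := by omega
    rwa [h7] at h6

theorem dual_ne {p r : Fin 5} (hpr : p ≤ r) {e : Fin 5 → ℂ}
    (h : ∀ P : Fin 6 → ℂ, ∑ i, e i * (alp p r i * P i.succ + bet p r i * P i.castSucc) = 0)
    (he : e ≠ 0) : e p ≠ 0 ∧ e r ≠ 0 := by
  obtain ⟨E, hE⟩ := g4_lift e
  obtain ⟨h0, h1, h5⟩ := g4_dual hE h
  have hpr' : (p : ℕ) ≤ (r : ℕ) := hpr
  have hsupp := dual_supp hpr h
  constructor
  · intro h6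
    apply he
    rw [hE] at h6
    funext i
    rcases Nat.lt_or_ge (i : ℕ) (p : ℕ) with h7 | h7
    · exact hsupp i (Or.inl h7)
    · have h8 := g4_dup h1 h6 ((i : ℕ) - p) (by omega)
      have h9 : (p : ℕ) + ((i : ℕ) - p) = i := by omega
      rw [h9] at h8
      rw [hE, h8]
      rfl
  · intro h6
    apply he
    rw [hE] at h6
    funext i
    rcases Nat.lt_or_ge (r : ℕ) (i : ℕ) with h7 | h7
    · exact hsupp i (Or.inr h7)
    · have h8 := g4_ddown r.isLt h1 h6 ((r : ℕ) - i) (by omega)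
      have h9 : (r : ℕ) - ((r : ℕ) - i) = i := by omega
      rw [h9] at h8
      rw [hE, h8]
      rfl

end Pool.Agent.XP
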