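import Pool.Agent.Work.MP_80e05d_ag.XP.G4

/-!
G5 (M).  The kernel of N(y) at y = yy p r for L0 has dimension 2.

Write P1 = p+1, R1 = r+1 (nonzero numbers), x = P1 R1.  mv y = ((P1,0),(0,R1),(x,x)); DD 4 (P1,0) f i = P1 f_(i+1), DD 4 (0,R1) f i = R1 f_i, DD 4 (x,x) f i = x (f_(i+1) + f_i); NN L0 y u = sg y (u, T u; 0), T u i = (i+1)(u_0i + u_1i).
Components (phi_0 = u 0, phi_1 = u 1, phi_2 = T u): component 2: P1 phi_1(i+1) - R1 phi_0(i) = 0; component 0: R1 phi_2(i) - x (phi_1(i+1) + phi_1(i)) = 0; component 1: x (phi_0(i+1) + phi_0(i)) - P1 phi_2(i+1) = 0 (i < 4).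
Given a solution put Phi_i = phi_1(i)/R1 (i <= 4), Phi_5 = phi_0(4)/P1.  Then phi_1(i) = R1 Phi_i and phi_0(i) = P1 Phi_(i+1) for all i <= 4 (component 2 for i < 4), phi_2(i) = x (Phi_(i+1) + Phi_i) for i < 4 (component 0) and for i = 4 (component 1, i = 3);
T u i = (i+1)(P1 Phi_(i+1) + R1 Phi_i), so (x - (i+1) P1) Phi_(i+1) + (x - (i+1) R1) Phi_i = 0, i.e. alp i Phi_(i+1) + bet i Phi_i = 0.  Conversely such Phi give kernel vectors.
nn_yy_iff records this; the kernel is linearly isomorphic to the solution space, which is C^2 by (Phi_p, Phi_(r+1)) (bid_det, bid_exists).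
-/

namespace Pool.Agent.XP
open MvPolynomial Module

private theorem nn_comp (p r : Fin 5) (u : Usp) : NN L0 (yy p r) u = 0 ↔
    (∀ i : Fin 4, (((r : ℕ) : ℂ) + 1) * ((((i : ℕ) : ℂ) + 1) * (u 0 i.castSucc + u 1 i.castSucc)) -
      ((((p : ℕ) : ℂ) + 1) * (((r : ℕ) : ℂ) + 1)) * (u 1 i.succ + u 1 i.castSucc) = 0) ∧
    (∀ i : Fin 4, ((((p : ℕ) : ℂ) + 1) * (((r : ℕ) : ℂ) + 1)) * (u 0 i.succ + u 0 i.castSucc) -
      (((p : ℕ) : ℂ) + 1) * ((((i : ℕ) : ℂ) + 1 + 1) * (u 0 i.succ + u 1 i.succ)) = 0) ∧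
    (∀ i : Fin 4, (((p : ℕ) : ℂ) + 1) * u 1 i.succ - (((r : ℕ) : ℂ) + 1) * u 0 i.castSucc = 0) := by
  have e0 : ∀ i : Fin 4, NN L0 (yy p r) u 0 i =
      (((r : ℕ) : ℂ) + 1) * ((((i : ℕ) : ℂ) + 1) * (u 0 i.castSucc + u 1 i.castSucc)) -
      ((((p : ℕ) : ℂ) + 1) * (((r : ℕ) : ℂ) + 1)) * (u 1 i.succ + u 1 i.castSucc) := by
    intro i
    rw [NN_apply, sg_apply, sgf_zero, bb_apply, ap_L0, mv_one, mv_two]
    simp only [Pi.add_apply, Pi.sub_apply, DD_apply, zero_smul, Pi.zero_apply]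
    simp [yy]
    ring
  have e1 : ∀ i : Fin 4, NN L0 (yy p r) u 1 i =
      ((((p : ℕ) : ℂ) + 1) * (((r : ℕ) : ℂ) + 1)) * (u 0 i.succ + u 0 i.castSucc) -
      (((p : ℕ) : ℂ) + 1) * ((((i : ℕ) : ℂ) + 1 + 1) * (u 0 i.succ + u 1 i.succ)) := by
    intro i
    rw [NN_apply, sg_apply, sgf_one, bb_apply, ap_L0, mv_zero, mv_two]
    simp only [Pi.add_apply, Pi.sub_apply, DD_apply, zero_smul, Pi.zero_apply]
    simp [yy]
    ring
  have e2 : ∀ i : Fin 4, NN L0 (yy p r) u 2 i =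
      (((p : ℕ) : ℂ) + 1) * u 1 i.succ - (((r : ℕ) : ℂ) + 1) * u 0 i.castSucc := by
    intro i
    rw [NN_apply, sg_apply, sgf_two, bb_apply, mv_zero, mv_one]
    simp only [Pi.sub_apply, DD_apply]
    simp [yy]
  constructor
  · intro h
    refine ⟨fun i => ?_, fun i => ?_, fun i => ?_⟩
    · rw [← e0, h]; rfl
    · rw [← e1, h]; rfl
    · rw [← e2, h]; rfl
  · rintro ⟨h0, h1, h2⟩
    funext k i
    fin_cases k
    · exact (e0 i).trans (h0 i)
    · exact (e1 i).trans (h1 i)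
    · exact (e2 i).trans (h2 i)

private theorem ne1 (p : Fin 5) : (((p : ℕ) : ℂ) + 1) ≠ 0 := by
  exact_mod_cast Nat.succ_ne_zero (p : ℕ)

theorem nn_yy_iff (p r : Fin 5) (u : Usp) : NN L0 (yy p r) u = 0 ↔
    ∃ P : Fin 6 → ℂ, (∀ i : Fin 5, alp p r i * P i.succ + bet p r i * P i.castSucc = 0) ∧
      (∀ i : Fin 5, u 0 i = (((p : ℕ) : ℂ) + 1) * P i.succ) ∧
      (∀ i : Fin 5, u 1 i = (((r : ℕ) : ℂ) + 1) * P i.castSucc) := by
  rw [nn_comp]
  have hP := ne1 p
  have hR := ne1 r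
  constructor
  · rintro ⟨h0, h1, h2⟩
    let P : Fin 6 → ℂ := Fin.snoc (α := fun _ => ℂ) (fun i : Fin 5 => u 1 i / (((r : ℕ) : ℂ) + 1))
      (u 0 (Fin.last 4) / (((p : ℕ) : ℂ) + 1))
    have P1 : ∀ i : Fin 5, P i.castSucc = u 1 i / (((r : ℕ) : ℂ) + 1) := fun i => Fin.snoc_castSucc _ _ _
    have P2 : P (Fin.last 5) = u 0 (Fin.last 4) / (((p : ℕ) : ℂ) + 1) := Fin.snoc_last _ _
    have a1 : ∀ i : Fin 5, u 1 i = (((r : ℕ) : ℂ) + 1) * P i.castSucc := by
      intro i
      rw [P1]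
      field_simp
    have a0 : ∀ i : Fin 5, u 0 i = (((p : ℕ) : ℂ) + 1) * P i.succ := by
      intro i
      refine Fin.lastCases ?_ (fun i => ?_) i
      · rw [Fin.succ_last, P2]
        field_simp
      · rw [Fin.succ_castSucc, P1]
        have := h2 i
        field_simp
        linear_combination -this
    refine ⟨P, fun i => ?_, a0, a1⟩
    unfold alp bet
    refine Fin.lastCases ?_ (fun i => ?_) i
    · have := h1 (Fin.last 3)
      rw [a0, a0, a1] at this
      rw [Fin.succ_last] at this ⊢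
      have e3 : ((Fin.last 3).castSucc : Fin 5).succ = (Fin.last 4).castSucc := rfl
      rw [e3] at this
      simp only [Fin.val_last] at this ⊢
      apply mul_left_cancel₀ hP
      push_cast at this ⊢
      linear_combination this
    · have := h0 i
      rw [a0, a1, a1] at this
      have e3 : (i.succ : Fin 5).castSucc = (i.castSucc : Fin 5).succ := (Fin.succ_castSucc i).symm
      rw [e3] at this
      simp only [Fin.val_castSucc]
      apply mul_left_cancel₀ hR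
      linear_combination -this
  · rintro ⟨P, h, a0, a1⟩
    unfold alp bet at h
    refine ⟨fun i => ?_, fun i => ?_, fun i => ?_⟩
    · have := h i.castSucc
      rw [a0, a1, a1]
      have e3 : (i.succ : Fin 5).castSucc = (i.castSucc : Fin 5).succ := (Fin.succ_castSucc i).symm
      rw [e3]
      simp only [Fin.val_castSucc] at this
      linear_combination -(((r : ℕ) : ℂ) + 1) * this
    · have := h i.succ
      rw [a0, a0, a1]
      have e3 : (i.succ : Fin 5).castSucc = (i.castSucc : Fin 5).succ := (Fin.succ_castSucc i).symm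
      rw [e3] at this ⊢
      simp only [Fin.val_succ] at this
      push_cast at this
      linear_combination (((p : ℕ) : ℂ) + 1) * this
    · rw [a0, a1]
      have e3 : (i.succ : Fin 5).castSucc = (i.castSucc : Fin 5).succ := (Fin.succ_castSucc i).symm
      rw [e3]
      ring

theorem finrank_yy {p r : Fin 5} (hpr : p ≤ r) :
    finrank ℂ (LinearMap.ker (NN L0 (yy p r))) = 2 := by
  have hP := ne1 p
  have hR := ne1 r
  let g : Usp →ₗ[ℂ] ℂ × ℂ :=
    { toFun := fun u => (u 1 p, u 0 r)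
      map_add' := fun _ _ => rfl
      map_smul' := fun _ _ => rfl }
  let φ : LinearMap.ker (NN L0 (yy p r)) →ₗ[ℂ] ℂ × ℂ := g ∘ₗ (LinearMap.ker (NN L0 (yy p r))).subtype
  have hinj : Function.Injective φ := by
    rw [← LinearMap.ker_eq_bot, LinearMap.ker_eq_bot']
    rintro ⟨u, hu⟩ h
    have h1 : u 1 p = 0 := congrArg Prod.fst h
    have h2 : u 0 r = 0 := congrArg Prod.snd h
    obtain ⟨P, hb, a0, a1⟩ := (nn_yy_iff p r u).mp (LinearMap.mem_ker.mp hu)
    have hz : P = 0 := by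
      apply bid_det hpr hb
      · rw [a1] at h1
        exact (mul_eq_zero.mp h1).resolve_left hR
      · rw [a0] at h2
        exact (mul_eq_zero.mp h2).resolve_left hP
    have : u = 0 := by
      funext k i
      fin_cases k
      · refine (a0 i).trans ?_
        rw [hz]; simp
      · refine (a1 i).trans ?_
        rw [hz]; simp
    exact Subtype.ext this
  have hsurj : Function.Surjective φ := by
    rintro ⟨a, b⟩
    obtain ⟨P, hb, h1, h2⟩ := bid_exists hpr (a / (((r : ℕ) : ℂ) + 1)) (b / (((p : ℕ) : ℂ) + 1))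
    let u : Usp := ![fun i => (((p : ℕ) : ℂ) + 1) * P i.succ, fun i => (((r : ℕ) : ℂ) + 1) * P i.castSucc]
    have hu : NN L0 (yy p r) u = 0 := (nn_yy_iff p r u).mpr ⟨P, hb, fun i => rfl, fun i => rfl⟩
    refine ⟨⟨u, LinearMap.mem_ker.mpr hu⟩, Prod.ext ?_ ?_⟩
    · change (((r : ℕ) : ℂ) + 1) * P p.castSucc = a
      rw [h1]
      field_simp
    · change (((p : ℕ) : ℂ) + 1) * P r.succ = b
      rw [h2]
      field_simp
  have := (LinearEquiv.ofBijective φ ⟨hinj, hsurj⟩).finrank_eq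
  rw [this, Module.finrank_prod, Module.finrank_self]

end Pool.Agent.XP
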