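import Pool.Agent.Work.MP_80e05d_ag.XP.A1

/-!
L1 (M).  Along the line: y = (0,0,0,s,t), (s,t) nonzero, x = (s,t), arbitrary parameter L.

k4 = ((-t)^i s^(4-i))_i in S^4, k3 = ((-t)^i s^(3-i))_i in S^3; DD 4 m k4 = (s m_1 - t m_0) k3 (DD_apply: m_0 (-t)^(i+1) s^(3-i) + m_1 (-t)^i s^(4-i)), in particular DD 4 x k4 = 0; ker (DD 4 x) = C k4 (dd_ker_le, k4 nonzero).
nn_line: mv y = (0,0,x), hsA y = hsB y = 0, so NN L y u = (- D_x (u 1), D_x (u 0), 0).
ker_line: so NN L y u = 0 iff u 0 = al k4 and u 1 = be k4.  finrank_line: the kernel has dimension 2.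
-/

namespace Pool.Agent.XP
open MvPolynomial Module

/-- (-t)^i s^(4-i) -/
def k4 (s t : ℂ) : Fin 5 → ℂ := fun i => (-t) ^ (i : ℕ) * s ^ (4 - (i : ℕ))
/-- (-t)^i s^(3-i) -/
def k3 (s t : ℂ) : Fin 4 → ℂ := fun i => (-t) ^ (i : ℕ) * s ^ (3 - (i : ℕ))

theorem dd_k4 (s t : ℂ) (m : Fin 2 → ℂ) : DD 4 m (k4 s t) = (s * m 1 - t * m 0) • k3 s t := by
  funext i
  rw [DD_apply]
  simp only [Pi.smul_apply, smul_eq_mul]
  fin_cases i <;> simp [k4, k3] <;> ring

theorem k3_ne {s t : ℂ} (h : s ≠ 0 ∨ t ≠ 0) : k3 s t ≠ 0 := by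
  intro h0
  rcases h with h | h
  · have := congrFun h0 0
    simp [k3] at this
    exact h this
  · have := congrFun h0 3
    simp [k3] at this
    exact h this

private theorem k4_ne {s t : ℂ} (h : s ≠ 0 ∨ t ≠ 0) : k4 s t ≠ 0 := by
  intro h0
  rcases h with h | h
  · have := congrFun h0 0
    simp [k4] at this
    exact h this
  · have := congrFun h0 4
    simp [k4] at this
    exact h this

private theorem dd_x_k4 (s t : ℂ) : DD 4 ![s, t] (k4 s t) = 0 := by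
  rw [dd_k4]
  have : s * (![s, t] : Fin 2 → ℂ) 1 - t * (![s, t] : Fin 2 → ℂ) 0 = 0 := by
    simp
    ring
  rw [this, zero_smul]

private theorem st_ne {s t : ℂ} (h : s ≠ 0 ∨ t ≠ 0) : (![s, t] : Fin 2 → ℂ) ≠ 0 := by
  intro h0
  rcases h with h | h
  · exact h (congrFun h0 0)
  · exact h (congrFun h0 1)

private theorem ker_k4 {s t : ℂ} (h : s ≠ 0 ∨ t ≠ 0) {f : Fin 5 → ℂ} (hf : DD 4 ![s, t] f = 0) :
    ∃ a : ℂ, f = a • k4 s t := by
  have h1 := dd_ker_le 4 (st_ne h)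
  have hk : k4 s t ∈ LinearMap.ker (DD 4 ![s, t]) := LinearMap.mem_ker.mpr (dd_x_k4 s t)
  have hf' : f ∈ LinearMap.ker (DD 4 ![s, t]) := LinearMap.mem_ker.mpr hf
  obtain ⟨v, hv⟩ := finrank_le_one_iff.mp h1
  obtain ⟨c, hc⟩ := hv ⟨k4 s t, hk⟩
  obtain ⟨d, hd⟩ := hv ⟨f, hf'⟩
  have hc' : c • (v : Fin 5 → ℂ) = k4 s t := congrArg Subtype.val hc
  have hd' : d • (v : Fin 5 → ℂ) = f := congrArg Subtype.val hd
  have hc0 : c ≠ 0 := by
    intro h0
    rw [h0, zero_smul] at hc'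
    exact k4_ne h hc'.symm
  refine ⟨d / c, ?_⟩
  rw [← hd', ← hc', smul_smul, div_mul_cancel₀ _ hc0]

/-- the parametrization of the kernel -/
private noncomputable def par (s t : ℂ) : (Fin 2 → ℂ) →ₗ[ℂ] Usp where
  toFun c := fun i => c i • k4 s t
  map_add' := by
    intro c c'; funext i
    change (c i + c' i) • k4 s t = c i • k4 s t + c' i • k4 s t
    rw [add_smul]
  map_smul' := by
    intro a c; funext i
    change (a * c i) • k4 s t = a • (c i • k4 s t)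
    rw [mul_smul]

theorem nn_line (L : Par) (s t : ℂ) (u : Usp) :
    NN L ![0, 0, 0, s, t] u = ![- DD 4 ![s, t] (u 1), DD 4 ![s, t] (u 0), 0] := by
  rw [NN_apply, bb_apply, sg_apply]
  have e0 : mv ![0, 0, 0, s, t] 0 = 0 := by
    rw [mv_zero]; ext i; fin_cases i <;> simp
  have e1 : mv ![0, 0, 0, s, t] 1 = 0 := by
    rw [mv_one]; ext i; fin_cases i <;> simp
  have e2 : mv ![0, 0, 0, s, t] 2 = ![s, t] := by
    rw [mv_two]; ext i; fin_cases i <;> simp
  have hA : hsA ![0, 0, 0, s, t] = 0 := by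
    ext i; fin_cases i <;> simp [hsA]
  have hB : hsB ![0, 0, 0, s, t] = 0 := by
    ext i; fin_cases i <;> simp [hsB]
  funext i
  fin_cases i
  · change sgf _ _ 0 = _
    rw [sgf_zero, e1, e2, hA]
    simp
  · change sgf _ _ 1 = _
    rw [sgf_one, e0, e2, hB]
    simp
  · change sgf _ _ 2 = _
    rw [sgf_two, e0, e1]
    simp

theorem ker_line (L : Par) {s t : ℂ} (h : s ≠ 0 ∨ t ≠ 0) (u : Usp) :
    NN L ![0, 0, 0, s, t] u = 0 ↔ ∃ al be : ℂ, u 0 = al • k4 s t ∧ u 1 = be • k4 s t := by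
  rw [nn_line]
  constructor
  · intro hu
    have h0 := congrFun hu 0
    have h1 := congrFun hu 1
    have h0' : DD 4 ![s, t] (u 1) = 0 := by
      have : - DD 4 ![s, t] (u 1) = 0 := h0
      exact neg_eq_zero.mp this
    have h1' : DD 4 ![s, t] (u 0) = 0 := h1
    obtain ⟨al, hal⟩ := ker_k4 h h1'
    obtain ⟨be, hbe⟩ := ker_k4 h h0'
    exact ⟨al, be, hal, hbe⟩
  · rintro ⟨al, be, h0, h1⟩
    rw [h0, h1, map_smul, map_smul, dd_x_k4]
    funext i
    fin_cases i <;> simp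

theorem finrank_line (L : Par) {s t : ℂ} (h : s ≠ 0 ∨ t ≠ 0) :
    finrank ℂ (LinearMap.ker (NN L ![0, 0, 0, s, t])) = 2 := by
  have e : LinearMap.ker (NN L ![0, 0, 0, s, t]) = LinearMap.range (par s t) := by
    ext u
    rw [LinearMap.mem_ker, ker_line L h, LinearMap.mem_range]
    constructor
    · rintro ⟨al, be, h0, h1⟩
      refine ⟨![al, be], ?_⟩
      funext i
      fin_cases i
      · exact h0.symm
      · exact h1.symm
    · rintro ⟨c, rfl⟩
      exact ⟨c 0, c 1, rfl, rfl⟩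
  rw [e, LinearMap.finrank_range_of_inj, finrank_fin_fun]
  rw [← LinearMap.ker_eq_bot, LinearMap.ker_eq_bot']
  intro c hc
  funext i
  have := congrFun hc i
  have h2 : c i • k4 s t = 0 := this
  exact (smul_eq_zero.mp h2).resolve_right (k4_ne h)

end Pool.Agent.XP
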