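import Pool.Agent.Work.MP_80e05d_ag.XP.TDefs

/-!
TA (S-M).  Elementary rules for thin sets (`Thin k A`: A is covered by countably many differentiable
images of open subsets of C^k; TDefs).

mono: same f, s.  iUnion: iota empty: take s = empty sets (any f); otherwise choose the data of
every A i and reindex by a surjection N -> iota x N (countable): `Countable`, `exists_surjective_nat`.
le: k <= l: precompose with the projection pi : C^l -> C^k, t -> (fun i => t (Fin.castLE hkl i));
the sets pi^{-1}(s i) are open, f i o pi is differentiable on them, and pi is onto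
(extend a vector by zeros), so the images are the same.
univ: one chart, the inverse of a linear isomorphism E ->L C^n (finite dimensional spaces:
`ContinuousLinearEquiv` from `Module.finBasis`, e.g. (Module.finBasis C E).equivFun.toContinuousLinearEquiv).
image: compose with g.
-/

namespace Pool.Agent.XP

variable {E F E' : Type*} [NormedAddCommGroup E] [NormedSpace ℂ E]
  [NormedAddCommGroup F] [NormedSpace ℂ F] [NormedAddCommGroup E'] [NormedSpace ℂ E']

theorem Thin.mono {k : ℕ} {A B : Set E} (h : A ⊆ B) (hB : Thin k B) : Thin k A := by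
  obtain ⟨f, s, h1, h2⟩ := hB
  exact ⟨f, s, h1, h.trans h2⟩

theorem Thin.iUnion {k : ℕ} {ι : Type*} [Countable ι] {A : ι → Set E} (h : ∀ i, Thin k (A i)) :
    Thin k (⋃ i, A i) := by
  rcases isEmpty_or_nonempty ι with hι | hι
  · refine ⟨fun _ _ => 0, fun _ => ∅, fun i => ⟨isOpen_empty, differentiableOn_const _⟩, ?_⟩
    rw [Set.iUnion_of_empty]
    exact Set.empty_subset _
  · choose f s h1 h2 using h
    obtain ⟨g, hg⟩ := exists_surjective_nat (ι × ℕ)
    refine ⟨fun n => f (g n).1 (g n).2, fun n => s (g n).1 (g n).2,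
      fun n => h1 (g n).1 (g n).2, ?_⟩
    intro x hx
    obtain ⟨i, hi⟩ := Set.mem_iUnion.mp hx
    obtain ⟨j, hj⟩ := Set.mem_iUnion.mp (h2 i hi)
    obtain ⟨n, hn⟩ := hg (i, j)
    refine Set.mem_iUnion.mpr ⟨n, ?_⟩
    show x ∈ f (g n).1 (g n).2 '' s (g n).1 (g n).2
    rw [hn]
    exact hj

theorem Thin.le {k l : ℕ} (hkl : k ≤ l) {A : Set E} (h : Thin k A) : Thin l A := by
  obtain ⟨f, s, h1, h2⟩ := h
  have hpd : Differentiable ℂ (fun (t : Fin l → ℂ) => fun i : Fin k => t (Fin.castLE hkl i)) := by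
    rw [differentiable_pi]
    intro i
    exact differentiable_apply _
  refine ⟨fun n t => f n (fun i => t (Fin.castLE hkl i)),
    fun n => (fun (t : Fin l → ℂ) => fun i : Fin k => t (Fin.castLE hkl i)) ⁻¹' s n,
    fun n => ⟨(h1 n).1.preimage hpd.continuous, ?_⟩, ?_⟩
  · exact (h1 n).2.comp hpd.differentiableOn (fun t ht => ht)
  · intro x hx
    obtain ⟨n, hn⟩ := Set.mem_iUnion.mp (h2 hx)
    obtain ⟨t, ht, rfl⟩ := hn
    have key : (fun i : Fin k => (fun j : Fin l => if hj : (j : ℕ) < k then t ⟨j, hj⟩ else 0)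
        (Fin.castLE hkl i)) = t := by
      funext i
      have : ((Fin.castLE hkl i : Fin l) : ℕ) < k := i.2
      simp
    refine Set.mem_iUnion.mpr ⟨n, fun j => if hj : (j : ℕ) < k then t ⟨j, hj⟩ else 0, ?_, ?_⟩
    · show (fun i : Fin k => (fun j : Fin l => if hj : (j : ℕ) < k then t ⟨j, hj⟩ else 0)
        (Fin.castLE hkl i)) ∈ s n
      rw [key]
      exact ht
    · exact congrArg (f n) key

theorem Thin.univ [FiniteDimensional ℂ E] : Thin (Module.finrank ℂ E) (Set.univ : Set E) := by
  refine ⟨fun _ t => (Module.finBasis ℂ E).equivFun.symm t, fun _ => Set.univ,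
    fun _ => ⟨isOpen_univ, ?_⟩, ?_⟩
  · exact ((Module.finBasis ℂ E).equivFun.symm.toLinearMap.toContinuousLinearMap.differentiable
      ).differentiableOn
  · intro x _
    refine Set.mem_iUnion.mpr ⟨0, (Module.finBasis ℂ E).equivFun x, Set.mem_univ _, ?_⟩
    exact (Module.finBasis ℂ E).equivFun.symm_apply_apply x

theorem Thin.image {k : ℕ} {A : Set E} (h : Thin k A) {g : E → F} (hg : Differentiable ℂ g) :
    Thin k (g '' A) := by
  obtain ⟨f, s, h1, h2⟩ := h
  refine ⟨fun n t => g (f n t), s, fun n => ⟨(h1 n).1, ?_⟩, ?_⟩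
  · exact hg.comp_differentiableOn (h1 n).2
  · rintro _ ⟨x, hx, rfl⟩
    obtain ⟨n, t, ht, rfl⟩ := Set.mem_iUnion.mp (h2 hx)
    exact Set.mem_iUnion.mpr ⟨n, t, ht, rfl⟩

end Pool.Agent.XP
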