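import Mathlib

namespace Pool.Agent.XP

/-- `Thin k A`: A is covered by countably many differentiable images of open subsets of C^k -/
def Thin (k : ℕ) {E : Type*} [NormedAddCommGroup E] [NormedSpace ℂ E] (A : Set E) : Prop :=
  ∃ (f : ℕ → (Fin k → ℂ) → E) (s : ℕ → Set (Fin k → ℂ)),
    (∀ i, IsOpen (s i) ∧ DifferentiableOn ℂ (f i) (s i)) ∧ A ⊆ ⋃ i, f i '' s i

end Pool.Agent.XP
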